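import Mathlib
import Pool.Agent.ECB.Lattice
import Pool.Agent.ECU.Lie

/-!
# Free associative algebras with coefficients

`FA R α` is the algebra of noncommutative polynomials over `R` in the letters `α`; `wd l` is a
word, `cf p l` a coefficient, `lf g` the algebra map with values `g` on the letters, `LA R α` the
Lie subalgebra generated by the letters, `pj v k` the projection to the words of weight `k` for
the weights `v` of the letters.
-/

set_option autoImplicit false

namespace Pool.Agent.ECK

attribute [local instance] LieRing.ofAssociativeRing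

noncomputable section

/-- Noncommutative polynomials over `R` in the letters `α`. -/
abbrev FA (R : Type) [CommRing R] (α : Type) : Type := MonoidAlgebra R (FreeMonoid α)

section basic
variable {R : Type} [CommRing R] {α : Type}

/-- The word `l`. -/
def wd (l : List α) : FA R α := MonoidAlgebra.single (FreeMonoid.ofList l) 1

/-- The coefficient of the word `l`. -/
def cf (p : FA R α) (l : List α) : R := p.coeff (FreeMonoid.ofList l)

theorem wd_nil : (wd ([] : List α) : FA R α) = 1 := rfl

theorem wd_append (l m : List α) : (wd (l ++ m) : FA R α) = wd l * wd m := by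
  simp [wd, MonoidAlgebra.single_mul_single]

theorem wd_cons (a : α) (l : List α) : (wd (a :: l) : FA R α) = wd [a] * wd l := by
  rw [← wd_append]; rfl

theorem cf_wd [DecidableEq α] (l m : List α) : cf (wd l : FA R α) m = if l = m then 1 else 0 := by
  unfold cf wd
  rw [MonoidAlgebra.coeff_single]
  by_cases h : l = m
  · subst h; simp
  · rw [if_neg h, Finsupp.single_eq_of_ne]
    intro h'
    exact h (FreeMonoid.ofList.injective h').symm

@[simp] theorem cf_add (p q : FA R α) (l : List α) : cf (p + q) l = cf p l + cf q l := rfl
@[simp] theorem cf_sub (p q : FA R α) (l : List α) : cf (p - q) l = cf p l - cf q l := rfl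
@[simp] theorem cf_neg (p : FA R α) (l : List α) : cf (-p) l = -cf p l := rfl
@[simp] theorem cf_smul (c : R) (p : FA R α) (l : List α) : cf (c • p) l = c * cf p l := rfl
@[simp] theorem cf_zero (l : List α) : cf (0 : FA R α) l = 0 := rfl

/-- `cf` as a linear functional. -/
def cfL (l : List α) : FA R α →ₗ[R] R where
  toFun p := cf p l
  map_add' _ _ := rfl
  map_smul' _ _ := rfl

@[simp] theorem cfL_apply (l : List α) (p : FA R α) : cfL l p = cf p l := rfl

theorem cf_ext {p q : FA R α} (h : ∀ l, cf p l = cf q l) : p = q := by
  apply MonoidAlgebra.coeff_injective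
  ext w
  exact h w

theorem cf_sum {ι : Type*} (s : Finset ι) (f : ι → FA R α) (l : List α) :
    cf (∑ i ∈ s, f i) l = ∑ i ∈ s, cf (f i) l :=
  map_sum (cfL l) f s

/-- Only finitely many coefficients are non-zero. -/
theorem exists_bound (p : FA R α) : ∃ M, ∀ l, M < l.length → cf p l = 0 := by
  classical
  refine ⟨p.coeff.support.sup (fun w => (FreeMonoid.toList w).length), ?_⟩
  intro l hl
  by_contra h
  have h1 : FreeMonoid.ofList l ∈ p.coeff.support := Finsupp.mem_support_iff.mpr h
  have h2 := Finset.le_sup (f := fun w : FreeMonoid α => (FreeMonoid.toList w).length) h1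
  simp only [FreeMonoid.toList_ofList] at h2
  omega

variable {M : Type*} [AddCommGroup M] [Module R M]

/-- The linear map with prescribed values on words. -/
def linw (F : List α → M) : FA R α →ₗ[R] M :=
  (MonoidAlgebra.basis (FreeMonoid α) R).constr R (fun w => F (FreeMonoid.toList w))

@[simp] theorem linw_wd (F : List α → M) (l : List α) : linw F (wd l : FA R α) = F l := by
  have : (wd l : FA R α) = MonoidAlgebra.basis (FreeMonoid α) R (FreeMonoid.ofList l) := by
    rw [MonoidAlgebra.basis_apply]; rfl
  rw [this, linw, Module.Basis.constr_basis]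
  rfl

theorem lin_ext {f g : FA R α →ₗ[R] M} (h : ∀ l, f (wd l) = g (wd l)) : f = g := by
  apply (MonoidAlgebra.basis (FreeMonoid α) R).ext
  intro w
  rw [MonoidAlgebra.basis_apply]
  exact h w

/-- Induction on noncommutative polynomials. -/
theorem fa_induction {p : FA R α → Prop} (hw : ∀ l, p (wd l))
    (zero : p 0) (add : ∀ a b, p a → p b → p (a + b))
    (smul : ∀ (c : R) a, p a → p (c • a)) (a : FA R α) : p a := by
  have h : a ∈ Submodule.span R (Set.range (MonoidAlgebra.basis (FreeMonoid α) R)) := by
    rw [Module.Basis.span_eq]; trivial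
  induction h using Submodule.span_induction with
  | mem x hx =>
    obtain ⟨w, rfl⟩ := hx
    rw [MonoidAlgebra.basis_apply]
    exact hw w
  | zero => exact zero
  | add x y _ _ hx hy => exact add x y hx hy
  | smul c x _ hx => exact smul c x hx

theorem cf_letter_mul_cons [DecidableEq α] (a b : α) (l : List α) (p : FA R α) :
    cf (wd [a] * p) (b :: l) = if a = b then cf p l else 0 := by
  have : (cfL (b :: l)) ∘ₗ (LinearMap.mulLeft R (wd [a] : FA R α)) =
      (if a = b then (1 : R) else 0) • cfL l := by
    apply lin_ext
    intro m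
    simp only [LinearMap.comp_apply, LinearMap.mulLeft_apply, cfL_apply, LinearMap.smul_apply,
      smul_eq_mul]
    rw [← wd_cons, cf_wd, cf_wd]
    by_cases h : a = b
    · subst h; simp
    · simp [h]
  have h := LinearMap.congr_fun this p
  simp only [LinearMap.comp_apply, LinearMap.mulLeft_apply, cfL_apply, LinearMap.smul_apply,
      smul_eq_mul] at h
  rw [h]
  split_ifs <;> simp

theorem cf_letter_mul_nil (a : α) (p : FA R α) : cf (wd [a] * p) [] = 0 := by
  classical
  have : (cfL []) ∘ₗ (LinearMap.mulLeft R (wd [a] : FA R α)) = 0 := by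
    apply lin_ext
    intro m
    simp only [LinearMap.comp_apply, LinearMap.mulLeft_apply, cfL_apply, LinearMap.zero_apply]
    rw [← wd_cons, cf_wd, if_neg (by simp)]
  exact LinearMap.congr_fun this p

theorem cf_mul_letter_append [DecidableEq α] (a b : α) (l : List α) (p : FA R α) :
    cf (p * wd [a]) (l ++ [b]) = if a = b then cf p l else 0 := by
  have : (cfL (l ++ [b])) ∘ₗ (LinearMap.mulRight R (wd [a] : FA R α)) =
      (if a = b then (1 : R) else 0) • cfL l := by
    apply lin_ext
    intro m
    simp only [LinearMap.comp_apply, LinearMap.mulRight_apply, cfL_apply, LinearMap.smul_apply,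
      smul_eq_mul]
    rw [← wd_append, cf_wd, cf_wd]
    by_cases h : a = b
    · subst h; simp
    · simp [h]
  have h := LinearMap.congr_fun this p
  simp only [LinearMap.comp_apply, LinearMap.mulRight_apply, cfL_apply, LinearMap.smul_apply,
      smul_eq_mul] at h
  rw [h]
  split_ifs <;> simp

theorem cf_mul_letter_nil (a : α) (p : FA R α) : cf (p * wd [a]) [] = 0 := by
  classical
  have : (cfL []) ∘ₗ (LinearMap.mulRight R (wd [a] : FA R α)) = 0 := by
    apply lin_ext
    intro m
    simp only [LinearMap.comp_apply, LinearMap.mulRight_apply, cfL_apply, LinearMap.zero_apply]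
    rw [← wd_append, cf_wd, if_neg (by simp)]
  exact LinearMap.congr_fun this p

theorem cf_one (l : List α) : cf (1 : FA R α) l = if l = [] then 1 else 0 := by
  classical
  rw [← wd_nil, cf_wd]
  by_cases h : l = []
  · subst h; simp
  · rw [if_neg h, if_neg (fun h' => h h'.symm)]

/-- The product of two noncommutative polynomials in coordinates: splittings of the word. -/
theorem cf_mul (p q : FA R α) (l : List α) :
    cf (p * q) l = ∑ i ∈ Finset.range (l.length + 1), cf p (l.take i) * cf q (l.drop i) := by
  classical
  induction p using fa_induction with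
  | hw m =>
    induction m generalizing l with
    | nil =>
      rw [wd_nil, one_mul, Finset.sum_eq_single 0]
      · rw [List.take_zero, List.drop_zero, cf_one]; simp
      · intro i hi h0
        rw [cf_one, if_neg, zero_mul]
        intro h
        rw [List.take_eq_nil_iff] at h
        rcases h with h | h
        · exact h0 h
        · subst h; simp at hi; exact h0 hi
      · intro h; simp at h
    | cons a m ih =>
      rw [wd_cons, mul_assoc]
      rcases l with _ | ⟨b, l⟩
      · rw [cf_letter_mul_nil]
        simp [cf_letter_mul_nil]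
      · rw [cf_letter_mul_cons, List.length_cons, Finset.sum_range_succ']
        rw [List.take_zero, cf_letter_mul_nil, zero_mul, add_zero]
        simp only [List.take_succ_cons, List.drop_succ_cons, cf_letter_mul_cons]
        split_ifs with h
        · exact ih l
        · simp
  | zero => simp
  | add a b ha hb =>
    rw [add_mul, cf_add, ha, hb, ← Finset.sum_add_distrib]
    apply Finset.sum_congr rfl
    intro i _
    rw [cf_add]; ring
  | smul c a ha =>
    rw [smul_mul_assoc, cf_smul, ha, Finset.mul_sum]
    apply Finset.sum_congr rfl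
    intro i _
    rw [cf_smul]; ring

/-- The algebra map with prescribed values on the letters. -/
def lf {A : Type*} [Ring A] [Algebra R A] (g : α → A) : FA R α →ₐ[R] A :=
  MonoidAlgebra.lift R A (FreeMonoid α) (FreeMonoid.lift g)

@[simp] theorem lf_letter {A : Type*} [Ring A] [Algebra R A] (g : α → A) (a : α) :
    lf g (wd [a] : FA R α) = g a := by
  simp [lf, wd]

theorem lf_wd {A : Type*} [Ring A] [Algebra R A] (g : α → A) (l : List α) :
    lf g (wd l : FA R α) = (l.map g).prod := by
  induction l with
  | nil => rw [wd_nil, map_one]; rfl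
  | cons a l ih => rw [wd_cons, map_mul, ih, lf_letter, List.map_cons, List.prod_cons]

theorem alg_ext {A : Type*} [Ring A] [Algebra R A] {f g : FA R α →ₐ[R] A}
    (h : ∀ a, f (wd [a]) = g (wd [a])) : f = g := by
  apply AlgHom.ext
  intro p
  induction p using fa_induction with
  | hw l =>
    induction l with
    | nil => rw [wd_nil, map_one, map_one]
    | cons a l ih => rw [wd_cons, map_mul, map_mul, h, ih]
  | zero => rw [map_zero, map_zero]
  | add a b ha hb => rw [map_add, map_add, ha, hb]
  | smul c a ha => rw [map_smul, map_smul, ha]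

end basic

section lie
variable (R : Type) [CommRing R] (α : Type)

/-- The Lie subalgebra generated by the letters. -/
def LA : LieSubalgebra R (FA R α) :=
  LieSubalgebra.lieSpan R (FA R α) (Set.range fun a : α => (wd [a] : FA R α))

variable {R α}

theorem letter_mem (a : α) : (wd [a] : FA R α) ∈ LA R α :=
  LieSubalgebra.subset_lieSpan ⟨a, rfl⟩

theorem comm_mem {f g : FA R α} (hf : f ∈ LA R α) (hg : g ∈ LA R α) : f * g - g * f ∈ LA R α := by
  have := (LA R α).lie_mem hf hg
  rwa [LieRing.of_associative_ring_bracket] at this

/-- Induction on Lie elements. -/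
theorem LA_induction {p : FA R α → Prop} (letter : ∀ a, p (wd [a])) (zero : p 0)
    (add : ∀ a b, a ∈ LA R α → b ∈ LA R α → p a → p b → p (a + b))
    (smul : ∀ (c : R) a, a ∈ LA R α → p a → p (c • a))
    (lie : ∀ a b, a ∈ LA R α → b ∈ LA R α → p a → p b → p (a * b - b * a))
    {a : FA R α} (ha : a ∈ LA R α) : p a := by
  induction ha using LieSubalgebra.lieSpan_induction with
  | mem x hx =>
    obtain ⟨a, rfl⟩ := hx
    exact letter a
  | zero => exact zero
  | add x y hx hy h1 h2 => exact add x y hx hy h1 h2
  | smul c x hx h => exact smul c x hx h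
  | lie x y hx hy h1 h2 =>
    rw [LieRing.of_associative_ring_bracket]
    exact lie x y hx hy h1 h2

/-- An algebra map sending the letters to Lie elements preserves Lie elements. -/
theorem lf_mem {β : Type} (g : α → FA R β) (hg : ∀ a, g a ∈ LA R β) {f : FA R α}
    (hf : f ∈ LA R α) : lf g f ∈ LA R β := by
  refine LA_induction (p := fun f => lf g f ∈ LA R β) ?_ ?_ ?_ ?_ ?_ hf
  · intro a; rw [lf_letter]; exact hg a
  · rw [map_zero]; exact (LA R β).zero_mem
  · intro a b _ _ ha hb; rw [map_add]; exact (LA R β).add_mem ha hb
  · intro c a _ ha; rw [map_smul]; exact (LA R β).smul_mem c ha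
  · intro a b _ _ ha hb
    rw [map_sub, map_mul, map_mul]
    exact comm_mem ha hb

theorem cf_LA_nil {f : FA R α} (hf : f ∈ LA R α) : cf f [] = 0 := by
  classical
  refine LA_induction (p := fun f => cf f [] = 0) ?_ ?_ ?_ ?_ ?_ hf
  · intro a; rw [cf_wd, if_neg (by simp)]
  · exact cf_zero []
  · intro a b _ _ ha hb; rw [cf_add, ha, hb, add_zero]
  · intro c a _ ha; rw [cf_smul, ha, mul_zero]
  · intro a b _ _ ha hb
    rw [cf_sub, cf_mul, cf_mul]
    simp [ha, hb]

end lie

section proj
variable {R : Type} [CommRing R] {α : Type}

/-- The weight of a word. -/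
def wgt (v : α → ℕ) (l : List α) : ℕ := (l.map v).sum

@[simp] theorem wgt_nil (v : α → ℕ) : wgt v [] = 0 := rfl
@[simp] theorem wgt_cons (v : α → ℕ) (a : α) (l : List α) : wgt v (a :: l) = v a + wgt v l := by
  simp [wgt]
@[simp] theorem wgt_append (v : α → ℕ) (l m : List α) :
    wgt v (l ++ m) = wgt v l + wgt v m := by
  simp [wgt]

/-- The projection to the words of weight `k`. -/
def pj (v : α → ℕ) (k : ℕ) : FA R α →ₗ[R] FA R α :=
  linw (fun l => if wgt v l = k then wd l else 0)

theorem pj_wd (v : α → ℕ) (k : ℕ) (l : List α) :
    pj v k (wd l : FA R α) = if wgt v l = k then wd l else 0 := by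
  rw [pj, linw_wd]

theorem cf_pj (v : α → ℕ) (k : ℕ) (p : FA R α) (l : List α) :
    cf (pj v k p) l = if wgt v l = k then cf p l else 0 := by
  classical
  have : (cfL l : FA R α →ₗ[R] R) ∘ₗ (pj v k) =
      (if wgt v l = k then (1 : R) else 0) • (cfL l : FA R α →ₗ[R] R) := by
    apply lin_ext
    intro m
    simp only [LinearMap.comp_apply, cfL_apply, LinearMap.smul_apply, smul_eq_mul, pj_wd]
    by_cases h : m = l
    · subst h
      split_ifs <;> simp
    · rw [cf_wd, if_neg h, mul_zero]
      split_ifs
      · rw [cf_wd, if_neg h]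
      · rfl
  have h := LinearMap.congr_fun this p
  simp only [LinearMap.comp_apply, cfL_apply, LinearMap.smul_apply, smul_eq_mul] at h
  rw [h]
  split_ifs <;> simp

theorem pj_mul (v : α → ℕ) (k : ℕ) (p q : FA R α) :
    pj v k (p * q) = ∑ i ∈ Finset.range (k + 1), pj v i p * pj v (k - i) q := by
  classical
  induction p using fa_induction with
  | hw l =>
    induction q using fa_induction with
    | hw m =>
      rw [← wd_append, pj_wd, wgt_append]
      by_cases h : wgt v l + wgt v m = k
      · rw [if_pos h, Finset.sum_eq_single (wgt v l)]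
        · rw [pj_wd, pj_wd, if_pos rfl, if_pos (by omega), wd_append]
        · intro i _ hi
          rw [pj_wd, if_neg (fun h' => hi h'.symm), zero_mul]
        · intro h'
          simp only [Finset.mem_range] at h'
          omega
      · rw [if_neg h]
        symm
        apply Finset.sum_eq_zero
        intro i hi
        simp only [Finset.mem_range] at hi
        rw [pj_wd, pj_wd]
        by_cases h1 : wgt v l = i
        · rw [if_neg (show ¬ wgt v m = k - i by omega), mul_zero]
        · rw [if_neg h1, zero_mul]
    | zero => simp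
    | add a b ha hb =>
      rw [mul_add, map_add, ha, hb, ← Finset.sum_add_distrib]
      apply Finset.sum_congr rfl
      intro i _
      rw [map_add, mul_add]
    | smul c a ha =>
      rw [mul_smul_comm, map_smul, ha, Finset.smul_sum]
      apply Finset.sum_congr rfl
      intro i _
      rw [map_smul, mul_smul_comm]
  | zero => simp
  | add a b ha hb =>
    rw [add_mul, map_add, ha, hb, ← Finset.sum_add_distrib]
    apply Finset.sum_congr rfl
    intro i _
    rw [map_add, add_mul]
  | smul c a ha =>
    rw [smul_mul_assoc, map_smul, ha, Finset.smul_sum]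
    apply Finset.sum_congr rfl
    intro i _
    rw [map_smul, smul_mul_assoc]

theorem pj_pj (v : α → ℕ) (j k : ℕ) (p : FA R α) :
    pj v j (pj v k p) = if j = k then pj v k p else 0 := by
  apply cf_ext
  intro l
  rw [cf_pj, cf_pj]
  by_cases h : j = k
  · subst h
    rw [if_pos rfl, cf_pj]
    split_ifs <;> rfl
  · rw [if_neg h, cf_zero]
    by_cases h1 : wgt v l = j
    · rw [if_pos h1, if_neg (by omega)]
    · rw [if_neg h1]

/-- The components of Lie elements are Lie elements. -/
theorem pj_mem (v : α → ℕ) (k : ℕ) {f : FA R α} (hf : f ∈ LA R α) : pj v k f ∈ LA R α := by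
  revert k
  refine LA_induction (p := fun f => ∀ k, pj v k f ∈ LA R α) ?_ ?_ ?_ ?_ ?_ hf
  · intro a k
    rw [pj_wd]
    split_ifs
    · exact letter_mem a
    · exact (LA R α).zero_mem
  · intro k; rw [map_zero]; exact (LA R α).zero_mem
  · intro a b _ _ ha hb k; rw [map_add]; exact (LA R α).add_mem (ha k) (hb k)
  · intro c a _ ha k; rw [map_smul]; exact (LA R α).smul_mem c (ha k)
  · intro a b _ _ ha hb k
    have h1 : pj v k (b * a) = ∑ i ∈ Finset.range (k + 1), pj v (k - i) b * pj v i a := by
      rw [pj_mul, ← Finset.sum_range_reflect]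
      apply Finset.sum_congr rfl
      intro i hi
      simp only [Finset.mem_range] at hi
      have e1 : k + 1 - 1 - i = k - i := by omega
      have e2 : k - (k - i) = i := by omega
      rw [e1, e2]
    rw [map_sub, pj_mul, h1, ← Finset.sum_sub_distrib]
    exact (LA R α).toSubmodule.sum_mem (fun i _ => comm_mem (ha i) (hb (k - i)))

end proj

/-! ### Characteristic two -/

/-- The field with two elements. -/
abbrev F : Type := ZMod 2

theorem F_add_self (x : F) : x + x = 0 := CharTwo.add_self_eq_zero x

theorem add_self {A : Type*} [Ring A] [Algebra F A] (x : A) : x + x = 0 := by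
  have h : (2 : F) • x = 0 := by
    have : (2 : F) = 0 := rfl
    rw [this, zero_smul]
  rwa [two_smul] at h

theorem add_self_M {A : Type*} [AddCommGroup A] [Module F A] (x : A) : x + x = 0 := by
  have h : (2 : F) • x = 0 := by
    have : (2 : F) = 0 := rfl
    rw [this, zero_smul]
  rwa [two_smul] at h

theorem sub_eq {A : Type*} [AddCommGroup A] [Module F A] (x y : A) : x - y = x + y := by
  rw [sub_eq_iff_eq_add, add_assoc, add_self_M, add_zero]

theorem F_cases (x : F) : x = 0 ∨ x = 1 := by
  fin_cases x
  · left; rfl
  · right; rfl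

/-- The algebra `𝔽₂⟨a, b⟩`, and also `𝔽₂⟨x, s⟩` (`0` is `x`, `1` is `s`). -/
abbrev A2 : Type := FA F (Fin 2)

theorem comm_mem' {α : Type} {f g : FA F α} (hf : f ∈ LA F α) (hg : g ∈ LA F α) :
    f * g + g * f ∈ LA F α := by
  have := comm_mem hf hg
  rwa [sub_eq] at this

end

end Pool.Agent.ECK
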