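import Pool.Agent.ECK.Defs
import Pool.Agent.ECC.LynFree

/-!
# The reduction of an integral Lie element is a Lie element

`mk_mem`: the element of `𝔽₂⟨a, b⟩` given by `c ∈ redM w 2` lies in the Lie subalgebra generated by
the letters.

Proof: the free Lie ring is a pure subgroup of the free ring.  (1) A rational function on words
which kills all proper shuffles is determined by its values on the Lyndon words: every word `w` which is
not a Lyndon word is the largest word in the shuffle product `u ш v` of suitable non-empty words with
`w = uv` (`exists_split`; `u` is the first Lyndon factor of `w`).  (2) For each Lyndon word `l` there is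
an integral Lie polynomial with smallest word `l`, with coefficient `1` (`exists_P`).
-/

set_option autoImplicit false

namespace Pool.Agent.ECK

open Pool.Agent.ECC (Lyn lex_cases lex_append lex_append_cancel)
open Pool.Agent.ECB (shf shf_cons_cons shf_nil_left shf_nil_right length_of_mem_shf)

/-! ### Words -/

namespace BW

variable {α : Type*} [LinearOrder α]

/-- Lyndon words for the order of the letters. -/
abbrev LW (l : List α) : Prop := Lyn (· < ·) l

theorem app_lt {l l' : List α} (u : List α) (h : l < l') : u ++ l < u ++ l' := lex_append u h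

theorem app_le {l l' : List α} (u : List α) (h : l ≤ l') : u ++ l ≤ u ++ l' := by
  rcases h.lt_or_eq with h | h
  · exact (app_lt u h).le
  · rw [h]

theorem nil_lt {y : List α} (h : y ≠ []) : [] < y := by
  cases y with
  | nil => exact absurd rfl h
  | cons a y => exact List.Lex.nil

theorem lt_app {y : List α} (x : List α) (h : y ≠ []) : x < x ++ y := by
  have := app_lt x (nil_lt h)
  rwa [List.append_nil] at this

theorem le_app (x y : List α) : x ≤ x ++ y := by
  by_cases h : y = []
  · rw [h, List.append_nil]
  · exact (lt_app x h).le

theorem lt_cases {b u : List α} (h : b < u) :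
    (∃ z, z ≠ [] ∧ u = b ++ z) ∨ ∀ x y, b ++ x < u ++ y := lex_cases h

theorem app_le_app {v u p q : List α} (h1 : v ≤ p) (h2 : u ≤ q) (h : p.length = v.length) :
    v ++ u ≤ p ++ q := by
  rcases h1.lt_or_eq with h1 | h1
  · rcases lt_cases h1 with ⟨z, hz, h3⟩ | h3
    · exfalso
      have h4 := congrArg List.length h3
      have h5 := List.length_pos_of_ne_nil hz
      simp only [List.length_append] at h4
      omega
    · exact (h3 _ _).le
  · rw [h1]
    exact app_le p h2

theorem LW.append_lt {x m : List α} (hx : LW x) (hm : LW m) (h : x < m) : x ++ m < m := by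
  rcases lt_cases h with ⟨z, hz, h1⟩ | h1
  · have h2 : m < z := hm.2 x z h1 hx.1 hz
    have h3 := app_lt x h2
    rwa [← h1] at h3
  · have := h1 m []
    rwa [List.append_nil] at this

theorem LW.append {x m : List α} (hx : LW x) (hm : LW m) (h : x < m) : LW (x ++ m) := by
  refine ⟨by simp [hx.1], ?_⟩
  intro u v huv hu hv
  have h0 := LW.append_lt hx hm h
  rcases List.append_eq_append_iff.mp huv with ⟨a, h1, h2⟩ | ⟨c, h1, h2⟩
  · by_cases ha : a = []
    · have h3 : m = v := by rw [h2, ha]; rfl
      rw [← h3]
      exact h0
    · exact lt_trans h0 (hm.2 a v h2 ha hv)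
  · by_cases hc : c = []
    · have h3 : v = m := by rw [h2, hc]; rfl
      rw [h3]
      exact h0
    · have h3 : x < c := hx.2 u c h1 hu hc
      rcases lt_cases h3 with ⟨z, hz, h4⟩ | h4
      · exfalso
        have h5 := congrArg List.length h1
        have h6 := congrArg List.length h4
        have h7 := List.length_pos_of_ne_nil hu
        simp only [List.length_append] at h5 h6
        omega
      · rw [h2]
        exact h4 m m

theorem LW.swap {x n : List α} (hx : LW x) (hn : LW n) (h : x ≤ n) : x ++ n ≤ n ++ x := by
  rcases h.lt_or_eq with h | h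
  · exact ((LW.append_lt hx hn h).trans (lt_app n hx.1)).le
  · rw [h]

/-- Lists of Lyndon words which do not increase. -/
def NI (M : List (List α)) : Prop := (∀ m ∈ M, LW m) ∧ M.Pairwise (fun p q => q ≤ p)

theorem NI.nil : NI ([] : List (List α)) := ⟨by simp, List.Pairwise.nil⟩

theorem NI.tail {m : List α} {M : List (List α)} (h : NI (m :: M)) : NI M :=
  ⟨fun x hx => h.1 x (List.mem_cons_of_mem _ hx), (List.pairwise_cons.mp h.2).2⟩

theorem NI.head {m : List α} {M : List (List α)} (h : NI (m :: M)) : LW m :=
  h.1 m List.mem_cons_self

theorem NI.head_ge {m : List α} {M : List (List α)} (h : NI (m :: M)) {x : List α} (hx : x ∈ M) :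
    x ≤ m := (List.pairwise_cons.mp h.2).1 x hx

theorem NI.cons {m : List α} {M : List (List α)} (hm : LW m) (hM : NI M)
    (h : ∀ x ∈ M, x ≤ m) : NI (m :: M) := by
  refine ⟨?_, List.pairwise_cons.mpr ⟨h, hM.2⟩⟩
  intro x hx
  rcases List.mem_cons.mp hx with rfl | hx
  · exact hm
  · exact hM.1 x hx

/-- Put a Lyndon word in front of a list. -/
def push (x : List α) : List (List α) → List (List α)
  | [] => [x]
  | m :: M => if x < m then push (x ++ m) M else x :: m :: M

theorem push_flatten (x : List α) (M : List (List α)) : (push x M).flatten = x ++ M.flatten := by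
  induction M generalizing x with
  | nil => simp [push]
  | cons m M ih =>
    rw [push]
    split_ifs with h
    · rw [ih]; simp
    · simp

theorem push_NI {x : List α} {M : List (List α)} (hx : LW x) (hM : NI M) : NI (push x M) := by
  induction M generalizing x with
  | nil => exact NI.cons hx NI.nil (by simp)
  | cons m M ih =>
    rw [push]
    split_ifs with h
    · exact ih (LW.append hx hM.head h) hM.tail
    · refine NI.cons hx hM ?_
      intro y hy
      rcases List.mem_cons.mp hy with rfl | hy
      · exact not_lt.mp h
      · exact (hM.head_ge hy).trans (not_lt.mp h)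

theorem push_head {x : List α} {M : List (List α)} (hx : LW x) (hM : NI M) {b : List α}
    (hb : x ≤ b) (hb' : ∀ m ∈ M, m ≤ b) : ∃ h T, push x M = h :: T ∧ h ≤ b := by
  induction M generalizing x with
  | nil => exact ⟨x, [], rfl, hb⟩
  | cons m M ih =>
    rw [push]
    split_ifs with h
    · refine ih (LW.append hx hM.head h) hM.tail ?_ (fun m' h' => hb' m' (by simp [h']))
      exact ((LW.append_lt hx hM.head h).le).trans (hb' m (by simp))
    · exact ⟨x, m :: M, rfl, hb⟩

/-- The Lyndon factorisation. -/
def cfl : List α → List (List α)
  | [] => []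
  | a :: u => push [a] (cfl u)

theorem LW.single (a : α) : LW [a] := by
  refine ⟨by simp, ?_⟩
  intro u v huv hu hv
  exfalso
  have h1 := congrArg List.length huv
  have h2 := List.length_pos_of_ne_nil hu
  have h3 := List.length_pos_of_ne_nil hv
  simp only [List.length_cons, List.length_nil, List.length_append] at h1
  omega

theorem cfl_NI (u : List α) : NI (cfl u) := by
  induction u with
  | nil => exact NI.nil
  | cons a u ih => exact push_NI (LW.single a) ih

theorem cfl_flatten (u : List α) : (cfl u).flatten = u := by
  induction u with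
  | nil => rfl
  | cons a u ih => rw [cfl, push_flatten, ih]; rfl

/-- Merge two non-increasing lists. -/
def mg : List (List α) → List (List α) → List (List α)
  | [], N => N
  | m :: M, [] => m :: M
  | m :: M, n :: N => if n < m then m :: mg M (n :: N) else n :: mg (m :: M) N
termination_by M N => M.length + N.length

@[simp] theorem mg_nil_left (N : List (List α)) : mg [] N = N := by rw [mg]

@[simp] theorem mg_nil_right (M : List (List α)) : mg M [] = M := by
  cases M with
  | nil => rw [mg]
  | cons m M => rw [mg]

theorem mg_cons_cons (m n : List α) (M N : List (List α)) : mg (m :: M) (n :: N) =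
    if n < m then m :: mg M (n :: N) else n :: mg (m :: M) N := by
  rw [mg]

theorem mg_perm (M N : List (List α)) : (mg M N).Perm (M ++ N) := by
  induction M generalizing N with
  | nil => simp
  | cons m M ihM =>
    induction N with
    | nil => simp
    | cons n N ihN =>
      rw [mg_cons_cons]
      split_ifs with h
      · exact (ihM (n :: N)).cons m
      · exact (ihN.cons n).trans (List.perm_middle (l₁ := m :: M)).symm

theorem mg_NI {M N : List (List α)} (hM : NI M) (hN : NI N) : NI (mg M N) := by
  induction M generalizing N with
  | nil => simpa using hN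
  | cons m M ihM =>
    induction N with
    | nil => simpa using hM
    | cons n N ihN =>
      rw [mg_cons_cons]
      split_ifs with h
      · refine NI.cons hM.head (ihM hM.tail hN) ?_
        intro x hx
        rcases List.mem_append.mp ((mg_perm _ _).mem_iff.mp hx) with hx | hx
        · exact hM.head_ge hx
        · rcases List.mem_cons.mp hx with rfl | hx
          · exact h.le
          · exact (hN.head_ge hx).trans h.le
      · refine NI.cons hN.head (ihN hN.tail) ?_
        intro x hx
        rcases List.mem_append.mp ((mg_perm _ _).mem_iff.mp hx) with hx | hx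
        · rcases List.mem_cons.mp hx with rfl | hx
          · exact not_lt.mp h
          · exact (hM.head_ge hx).trans (not_lt.mp h)
        · exact hN.head_ge hx

theorem mg_comm {M N : List (List α)} (hM : NI M) (hN : NI N) : mg M N = mg N M := by
  have h : (mg M N).Perm (mg N M) :=
    (mg_perm M N).trans (List.perm_append_comm.trans (mg_perm N M).symm)
  refine List.Perm.eq_of_pairwise ?_ (mg_NI hM hN).2 (mg_NI hN hM).2 h
  intro a b _ _ h1 h2
  exact le_antisymm h2 h1

/-- The key inequality. -/
theorem key {x : List α} {M N : List (List α)} (hx : LW x) (hM : NI M) (hN : NI N) :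
    x ++ (mg M N).flatten ≤ (mg (push x M) N).flatten := by
  induction M generalizing x N with
  | nil =>
    induction N with
    | nil => simp [push]
    | cons n N ihN =>
      rw [push, mg_nil_left, mg_cons_cons]
      split_ifs with h
      · simp
      · have h1 := ihN hN.tail
        rw [push, mg_nil_left] at h1
        have h2 := LW.swap hx hN.head (not_lt.mp h)
        rw [List.flatten_cons, List.flatten_cons, ← List.append_assoc]
        have h3 : x ++ n ++ N.flatten ≤ n ++ x ++ N.flatten := by
          rcases h2.lt_or_eq with h2 | h2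
          · rcases lt_cases h2 with ⟨z, hz, h4⟩ | h4
            · exfalso
              have h5 := congrArg List.length h4
              have h6 := List.length_pos_of_ne_nil hz
              simp only [List.length_append] at h5
              omega
            · exact (h4 _ _).le
          · rw [h2]
        refine h3.trans ?_
        rw [List.append_assoc]
        exact app_le n h1
  | cons m M ihM =>
    by_cases hxm : x < m
    · have hpx : push x (m :: M) = push (x ++ m) M := by rw [push, if_pos hxm]
      induction N with
      | nil =>
        rw [mg_nil_right, mg_nil_right, push_flatten]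
      | cons n N ihN =>
        rw [mg_cons_cons]
        split_ifs with h
        · rw [List.flatten_cons, ← List.append_assoc, hpx]
          exact ihM (LW.append hx hM.head hxm) hM.tail hN
        · have h1 := ihN hN.tail
          have hmn : m ≤ n := not_lt.mp h
          have h2 := LW.swap hx hN.head (hxm.le.trans hmn)
          have h3 : x ++ n ++ (mg (m :: M) N).flatten ≤ n ++ x ++ (mg (m :: M) N).flatten := by
            rcases h2.lt_or_eq with h2 | h2
            · rcases lt_cases h2 with ⟨z, hz, h4⟩ | h4
              · exfalso
                have h5 := congrArg List.length h4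
                have h6 := List.length_pos_of_ne_nil hz
                simp only [List.length_append] at h5
                omega
              · exact (h4 _ _).le
            · rw [h2]
          rw [List.flatten_cons, ← List.append_assoc]
          refine h3.trans ?_
          rw [List.append_assoc]
          refine (app_le n h1).trans ?_
          obtain ⟨y, T, hyT, hy⟩ := push_head (LW.append hx hM.head hxm) hM.tail
            (LW.append_lt hx hM.head hxm).le (fun q hq => hM.head_ge hq)
          rw [hpx, hyT, mg_cons_cons, if_neg (not_lt.mpr (hy.trans hmn)), List.flatten_cons]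
    · have hpx : push x (m :: M) = x :: m :: M := by rw [push, if_neg hxm]
      induction N with
      | nil =>
        rw [mg_nil_right, mg_nil_right, push_flatten]
      | cons n N ihN =>
        rw [hpx, mg_cons_cons x n]
        split_ifs with h
        · rw [List.flatten_cons]
        · have h1 := ihN hN.tail
          have hxn : x ≤ n := not_lt.mp h
          have hmn : ¬ n < m := not_lt.mpr ((not_lt.mp hxm).trans hxn)
          have h2 := LW.swap hx hN.head hxn
          have h3 : x ++ n ++ (mg (m :: M) N).flatten ≤ n ++ x ++ (mg (m :: M) N).flatten := by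
            rcases h2.lt_or_eq with h2 | h2
            · rcases lt_cases h2 with ⟨z, hz, h4⟩ | h4
              · exfalso
                have h5 := congrArg List.length h4
                have h6 := List.length_pos_of_ne_nil hz
                simp only [List.length_append] at h5
                omega
              · exact (h4 _ _).le
            · rw [h2]
          rw [mg_cons_cons m n, if_neg hmn, List.flatten_cons, List.flatten_cons,
            ← List.append_assoc]
          refine h3.trans ?_
          rw [List.append_assoc]
          have h4 := app_le n h1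
          rwa [hpx] at h4

/-- All shuffles of two words are at most the sorted product of their Lyndon factors. -/
theorem shf_le (u v t : List α) (h : t ∈ shf u v) : t ≤ (mg (cfl u) (cfl v)).flatten := by
  induction u generalizing v t with
  | nil =>
    rw [shf_nil_left, List.mem_singleton] at h
    rw [h, cfl, mg_nil_left, cfl_flatten]
  | cons a u ihu =>
    induction v generalizing t with
    | nil =>
      rw [shf_nil_right, List.mem_singleton] at h
      rw [h]
      rw [show cfl ([] : List α) = [] from rfl, mg_nil_right, cfl_flatten]
    | cons b v ihv =>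
      rw [shf_cons_cons, List.mem_append, List.mem_map, List.mem_map] at h
      rcases h with ⟨s, hs, rfl⟩ | ⟨s, hs, rfl⟩
      · have h1 := ihu _ _ hs
        have h2 := app_le [a] h1
        refine le_trans h2 ?_
        exact key (LW.single a) (cfl_NI _) (cfl_NI _)
      · have h1 := ihv _ hs
        have h2 := app_le [b] h1
        refine le_trans h2 ?_
        rw [mg_comm (cfl_NI _) (cfl_NI _), mg_comm (cfl_NI (a :: u)) (cfl_NI (b :: v))]
        exact key (LW.single b) (cfl_NI _) (cfl_NI _)

omit [LinearOrder α] in
theorem prefix_flatten {M : List (List α)} {s r : List α} (hs : s ≠ [])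
    (h : M.flatten = s ++ r) : ∃ m ∈ M, ∃ p s' q, p ≠ [] ∧ m = p ++ q ∧ s = s' ++ p := by
  induction M generalizing s with
  | nil =>
    exfalso
    apply hs
    have := congrArg List.length h
    simp only [List.flatten_nil, List.length_nil, List.length_append] at this
    exact List.eq_nil_of_length_eq_zero (by omega)
  | cons m M ih =>
    rw [List.flatten_cons] at h
    rcases List.append_eq_append_iff.mp h with ⟨a, h1, h2⟩ | ⟨c, h1, h2⟩
    · by_cases ha : a = []
      · refine ⟨m, by simp, m, [], [], ?_, by simp, ?_⟩
        · rintro rfl
          rw [ha] at h1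
          exact hs h1
        · rw [h1, ha]; simp
      · obtain ⟨m', hm', p, s', q, hp, h3, h4⟩ := ih ha h2
        exact ⟨m', by simp [hm'], p, m ++ s', q, hp, h3, by rw [h1, h4, List.append_assoc]⟩
    · exact ⟨m, by simp, s, [], c, hs, h1, rfl⟩

theorem uniq_aux {m n : List α} {M N : List (List α)} (hM : NI (m :: M)) (hN : NI (n :: N))
    (h : m ++ M.flatten = n ++ N.flatten) : ¬ m.length < n.length := by
  intro hlt
  rcases List.append_eq_append_iff.mp h with ⟨a, h1, h2⟩ | ⟨c, h1, h2⟩
  · have ha : a ≠ [] := by
      rintro rfl
      have := congrArg List.length h1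
      simp only [List.append_nil] at this
      omega
    obtain ⟨m', hm', p, s', q, hp, h3, h4⟩ := prefix_flatten ha h2
    have h5 : n < p := by
      refine hN.head.2 (m ++ s') p (by rw [h1, h4, List.append_assoc]) ?_ hp
      simp [hM.head.1]
    have h6 : p ≤ m' := by rw [h3]; exact le_app _ _
    have h7 : m' ≤ m := hM.head_ge hm'
    have h8 : m ≤ n := by rw [h1]; exact le_app _ _
    exact absurd (h5.trans_le (h6.trans (h7.trans h8))) (lt_irrefl _)
  · have := congrArg List.length h1
    simp only [List.length_append] at this
    omega

theorem uniq {M N : List (List α)} (hM : NI M) (hN : NI N) (h : M.flatten = N.flatten) :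
    M = N := by
  induction M generalizing N with
  | nil =>
    cases N with
    | nil => rfl
    | cons n N =>
      exfalso
      rw [List.flatten_nil, List.flatten_cons] at h
      exact hN.head.1 (List.append_eq_nil_iff.mp h.symm).1
  | cons m M ih =>
    cases N with
    | nil =>
      exfalso
      rw [List.flatten_nil, List.flatten_cons] at h
      exact hM.head.1 (List.append_eq_nil_iff.mp h).1
    | cons n N =>
      rw [List.flatten_cons, List.flatten_cons] at h
      have h1 := uniq_aux hM hN h
      have h2 := uniq_aux hN hM h.symm
      obtain ⟨h3, h4⟩ := List.append_inj h (by omega)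
      rw [h3, ih hM.tail hN.tail h4]

theorem cfl_of_NI {M : List (List α)} (hM : NI M) : cfl M.flatten = M :=
  uniq (cfl_NI _) hM (cfl_flatten _)

theorem mg_single {l : List α} {M : List (List α)} (h : NI (l :: M)) : mg [l] M = l :: M := by
  induction M with
  | nil => simp
  | cons n N ih =>
    rw [mg_cons_cons]
    split_ifs with h1
    · simp
    · have h2 : n = l := le_antisymm (h.head_ge (by simp)) (not_lt.mp h1)
      have h3 : NI (l :: N) := by rw [← h2]; exact h.tail
      rw [ih h3, h2]

/-- Words which are not Lyndon words are the largest words in a shuffle product. -/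
theorem exists_split {w : List α} (hw : w ≠ []) (h : ¬ LW w) :
    ∃ u v, u ≠ [] ∧ v ≠ [] ∧ w = u ++ v ∧ ∀ t ∈ shf u v, t ≤ w := by
  have h1 := cfl_flatten w
  have h2 := cfl_NI w
  rcases hc : cfl w with _ | ⟨l, _ | ⟨m, M⟩⟩
  · rw [hc] at h1
    exact absurd h1.symm hw
  · rw [hc] at h1 h2
    exfalso
    apply h
    have : l = w := by simpa using h1
    rw [← this]
    exact h2.head
  · rw [hc] at h1 h2
    refine ⟨l, (m :: M).flatten, h2.head.1, ?_, ?_, ?_⟩
    · rw [List.flatten_cons]
      simp [h2.tail.head.1]
    · rw [← h1, List.flatten_cons]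
    · intro t ht
      have h3 := shf_le _ _ _ ht
      have h4 : cfl l = [l] := by
        have := cfl_of_NI (NI.cons h2.head NI.nil (by simp))
        simpa using this
      rw [h4, cfl_of_NI h2.tail, mg_single h2] at h3
      rwa [← h1]

omit [LinearOrder α] in
theorem append_mem_shf (u v : List α) : u ++ v ∈ shf u v := by
  induction u with
  | nil => simp
  | cons a u ih =>
    cases v with
    | nil => simp
    | cons b v =>
      rw [shf_cons_cons, List.mem_append, List.mem_map]
      left
      exact ⟨u ++ b :: v, ih, rfl⟩

end BW

/-! ### Integral Lie polynomials -/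

attribute [local instance] LieRing.ofAssociativeRing

noncomputable section

namespace BW

section basechange
variable {α : Type}

/-- Base change from the integers. -/
def bc (R : Type) [CommRing R] (α : Type) : FA ℤ α →ₐ[ℤ] FA R α := lf (fun a => wd [a])

theorem bc_wd (R : Type) [CommRing R] (m : List α) : bc R α (wd m) = wd m := by
  rw [bc, lf_wd]
  induction m with
  | nil => rfl
  | cons a m ih => rw [List.map_cons, List.prod_cons, ih, ← wd_cons]

theorem cf_bc (R : Type) [CommRing R] (P : FA ℤ α) (l : List α) :
    cf (bc R α P) l = ((cf P l : ℤ) : R) := by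
  classical
  induction P using fa_induction with
  | hw m =>
    rw [bc_wd, cf_wd, cf_wd]
    split_ifs <;> simp
  | zero => rw [map_zero, cf_zero, cf_zero, Int.cast_zero]
  | add a b ha hb => rw [map_add, cf_add, cf_add, ha, hb, Int.cast_add]
  | smul c a ha =>
    rw [map_smul]
    have h1 : (c • bc R α a : FA R α) = (c : R) • bc R α a := by
      rw [Int.cast_smul_eq_zsmul]
    rw [h1, cf_smul, ha, cf_smul, Int.cast_mul]

theorem bc_mem (R : Type) [CommRing R] {P : FA ℤ α} (hP : P ∈ LA ℤ α) : bc R α P ∈ LA R α := by
  refine LA_induction (p := fun P => bc R α P ∈ LA R α) ?_ ?_ ?_ ?_ ?_ hP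
  · intro a
    rw [bc_wd]
    exact letter_mem a
  · rw [map_zero]; exact (LA R α).zero_mem
  · intro a b _ _ ha hb
    rw [map_add]; exact (LA R α).add_mem ha hb
  · intro c a _ ha
    rw [map_smul]
    have h1 : (c • bc R α a : FA R α) = (c : R) • bc R α a := by
      rw [Int.cast_smul_eq_zsmul]
    rw [h1]
    exact (LA R α).smul_mem _ ha
  · intro a b _ _ ha hb
    rw [map_sub, map_mul, map_mul]
    exact comm_mem ha hb

end basechange

theorem cf_mul_hom {R : Type} [CommRing R] {α : Type} {P Q : FA R α} {a b : ℕ}
    (hP : ∀ t : List α, t.length ≠ a → cf P t = 0) (hQ : ∀ t : List α, t.length ≠ b → cf Q t = 0)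
    (t : List α) : cf (P * Q) t =
      if t.length = a + b then cf P (t.take a) * cf Q (t.drop a) else 0 := by
  rw [cf_mul]
  split_ifs with h
  · rw [Finset.sum_eq_single a]
    · intro i hi hia
      rw [Finset.mem_range] at hi
      rw [hP, zero_mul]
      rw [List.length_take]
      omega
    · intro h'
      exfalso
      apply h'
      rw [Finset.mem_range]
      omega
  · apply Finset.sum_eq_zero
    intro i hi
    rw [Finset.mem_range] at hi
    by_cases hia : i = a
    · rw [hQ, mul_zero]
      rw [List.length_drop]
      omega
    · rw [hP, zero_mul]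
      rw [List.length_take]
      omega

theorem exists_P {α : Type} [LinearOrder α] : ∀ (n : ℕ) (l : List α), l.length = n → LW l →
    ∃ P ∈ LA ℤ α, cf P l = 1 ∧ (∀ t, t < l → cf P t = 0) ∧
      ∀ t : List α, t.length ≠ l.length → cf P t = 0 := by
  intro n
  induction n using Nat.strong_induction_on with
  | _ n ih =>
    intro l hn hl
    rcases Nat.lt_or_ge l.length 2 with h | h
    · have h1 := List.length_pos_of_ne_nil hl.1
      obtain ⟨a, rfl⟩ := List.length_eq_one_iff.mp (show l.length = 1 by omega)
      refine ⟨wd [a], letter_mem a, ?_, ?_, ?_⟩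
      · rw [cf_wd, if_pos rfl]
      · intro t ht
        rw [cf_wd, if_neg ht.ne']
      · intro t ht
        rw [cf_wd, if_neg]
        rintro rfl
        exact ht rfl
    · obtain ⟨u, v, rfl, hu, hv⟩ := hl.exists_factor h
      have h1 := List.length_pos_of_ne_nil hu.1
      have h2 := List.length_pos_of_ne_nil hv.1
      have h3 : u ++ v < v ++ u := Pool.Agent.ECC.Lyn.append_lt hl hu.1 hv.1
      rw [List.length_append] at hn
      obtain ⟨P, hP, hP1, hP2, hP3⟩ := ih u.length (by omega) u rfl hu
      obtain ⟨Q, hQ, hQ1, hQ2, hQ3⟩ := ih v.length (by omega) v rfl hv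
      have e1 := cf_mul_hom hP3 hQ3
      have e2 := cf_mul_hom hQ3 hP3
      -- products are at least `u ++ v` and `v ++ u`
      have f1 : ∀ t : List α, t.length = u.length + v.length →
          cf P (t.take u.length) * cf Q (t.drop u.length) ≠ 0 → u ++ v ≤ t := by
        intro t ht hne
        have g1 : u ≤ t.take u.length := by
          by_contra hcon
          exact hne (by rw [hP2 _ (not_le.mp hcon), zero_mul])
        have g2 : v ≤ t.drop u.length := by
          by_contra hcon
          exact hne (by rw [hQ2 _ (not_le.mp hcon), mul_zero])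
        have g3 := app_le_app g1 g2 (by rw [List.length_take]; omega)
        rwa [List.take_append_drop] at g3
      have f2 : ∀ t : List α, t.length = v.length + u.length →
          cf Q (t.take v.length) * cf P (t.drop v.length) ≠ 0 → v ++ u ≤ t := by
        intro t ht hne
        have g1 : v ≤ t.take v.length := by
          by_contra hcon
          exact hne (by rw [hQ2 _ (not_le.mp hcon), zero_mul])
        have g2 : u ≤ t.drop v.length := by
          by_contra hcon
          exact hne (by rw [hP2 _ (not_le.mp hcon), mul_zero])
        have g3 := app_le_app g1 g2 (by rw [List.length_take]; omega)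
        rwa [List.take_append_drop] at g3
      refine ⟨P * Q - Q * P, comm_mem hP hQ, ?_, ?_, ?_⟩
      · rw [cf_sub, e1, e2, List.length_append, if_pos rfl, if_pos (by omega)]
        have g1 : cf Q ((u ++ v).take v.length) * cf P ((u ++ v).drop v.length) = 0 := by
          by_contra hne
          exact absurd (f2 _ (by rw [List.length_append]; omega) hne) (not_le.mpr h3)
        rw [g1, List.take_left, List.drop_left, hP1, hQ1]
        norm_num
      · intro t ht
        rw [cf_sub, e1, e2]
        have g1 : (if t.length = u.length + v.length then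
            cf P (t.take u.length) * cf Q (t.drop u.length) else 0) = 0 := by
          split_ifs with hc
          · by_contra hne
            exact absurd (f1 t hc hne) (not_le.mpr ht)
          · rfl
        have g2 : (if t.length = v.length + u.length then
            cf Q (t.take v.length) * cf P (t.drop v.length) else 0) = 0 := by
          split_ifs with hc
          · by_contra hne
            exact absurd (f2 t hc hne) (not_le.mpr (ht.trans h3))
          · rfl
        rw [g1, g2, sub_zero]
      · intro t ht
        rw [List.length_append] at ht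
        rw [cf_sub, e1, e2, if_neg ht, if_neg (by omega), sub_zero]

theorem sum_map_single {β : Type*} (c : β → ℚ) (t : β) (L : List β)
    (h : ∀ s ∈ L, s ≠ t → c s = 0) : ∃ n : ℕ, (t ∈ L → 0 < n) ∧ (L.map c).sum = n * c t := by
  classical
  induction L with
  | nil => exact ⟨0, by simp, by simp⟩
  | cons a L ih =>
    obtain ⟨n, h1, h2⟩ := ih (fun s hs => h s (List.mem_cons_of_mem _ hs))
    by_cases ha : a = t
    · refine ⟨n + 1, fun _ => Nat.succ_pos n, ?_⟩
      rw [List.map_cons, List.sum_cons, h2, ha]
      push_cast
      ring
    · refine ⟨n, ?_, ?_⟩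
      · intro ht
        rcases List.mem_cons.mp ht with rfl | ht
        · exact absurd rfl ha
        · exact h1 ht
      · rw [List.map_cons, List.sum_cons, h2, h a List.mem_cons_self ha, zero_add]

/-- A rational function on the words of length `w` which kills all proper shuffles and vanishes on
the Lyndon words is zero. -/
theorem eq_zero_of_lyndon {w : ℕ} (hw : 1 ≤ w) (c : List (Fin 2) → ℚ)
    (hsh : ∀ u v : List (Fin 2), u ≠ [] → v ≠ [] → Pool.Agent.ECB.sh c u v = 0)
    (hL : ∀ t : List (Fin 2), t.length = w → LW t → c t = 0) (t : Pool.Agent.ECB.Wd w) :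
    c t.1 = 0 := by
  induction t using WellFoundedLT.induction with
  | ind t ih =>
    by_cases ht : LW t.1
    · exact hL t.1 t.2 ht
    · have hne : t.1 ≠ [] := by
        intro h0
        have := congrArg List.length h0
        rw [t.2] at this
        simp at this
        omega
      obtain ⟨u, v, hu, hv, huv, hle⟩ := exists_split hne ht
      have h1 := hsh u v hu hv
      have h2 : ∀ s ∈ shf u v, s.length = w := by
        intro s hs
        rw [length_of_mem_shf hs, ← t.2, huv, List.length_append]
      obtain ⟨n, hn, hs⟩ := sum_map_single c t.1 (shf u v) (by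
        intro s hmem hs
        have h3 : s < t.1 := lt_of_le_of_ne (hle s hmem) hs
        exact ih ⟨s, h2 s hmem⟩ h3)
      rw [Pool.Agent.ECB.sh, hs] at h1
      rcases mul_eq_zero.mp h1 with h3 | h3
      · exfalso
        have h4 : t.1 ∈ shf u v := by
          rw [huv]
          exact append_mem_shf u v
        have h5 := hn h4
        rw [Nat.cast_eq_zero] at h3
        omega
      · exact h3

theorem LA_le_Lie01 {f : FA ℚ (Fin 2)} (hf : f ∈ LA ℚ (Fin 2)) : f ∈ Pool.Agent.H4DM.Lie01 := by
  refine LA_induction (p := fun f => f ∈ Pool.Agent.H4DM.Lie01) ?_ ?_ ?_ ?_ ?_ hf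
  · intro a
    fin_cases a
    · exact Pool.Agent.H4DM.x0_mem
    · exact Pool.Agent.H4DM.x1_mem
  · exact Pool.Agent.H4DM.Lie01.zero_mem
  · intro a b _ _ ha hb
    exact Pool.Agent.H4DM.Lie01.add_mem ha hb
  · intro c a _ ha
    exact Pool.Agent.H4DM.Lie01.smul_mem c ha
  · intro a b _ _ ha hb
    exact Pool.Agent.H4DM.comm_mem ha hb

theorem exists_approx {w : ℕ} (z : List (Fin 2) → ℤ) (S : Finset (Pool.Agent.ECB.Wd w)) :
    ∃ P ∈ LA ℤ (Fin 2), (∀ t : List (Fin 2), t.length ≠ w → cf P t = 0) ∧
      ∀ t ∈ S, LW t.1 → cf P t.1 = z t.1 := by
  induction S using Finset.induction_on_max with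
  | empty => exact ⟨0, (LA ℤ (Fin 2)).zero_mem, fun t _ => cf_zero t, by simp⟩
  | insert a S hS ih =>
    obtain ⟨P, hP, hP1, hP2⟩ := ih
    by_cases ha : LW a.1
    · obtain ⟨Q, hQ, hQ1, hQ2, hQ3⟩ := exists_P _ a.1 rfl ha
      refine ⟨P + (z a.1 - cf P a.1) • Q, (LA ℤ (Fin 2)).add_mem hP
        ((LA ℤ (Fin 2)).smul_mem _ hQ), ?_, ?_⟩
      · intro t ht
        rw [cf_add, cf_smul, hP1 t ht, hQ3 t (by rw [a.2]; exact ht), mul_zero, add_zero]
      · intro t ht hLt
        rw [cf_add, cf_smul]
        rcases Finset.mem_insert.mp ht with rfl | ht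
        · rw [hQ1]; ring
        · rw [hQ2 t.1 (hS t ht), mul_zero, add_zero]
          exact hP2 t ht hLt
    · refine ⟨P, hP, hP1, ?_⟩
      intro t ht hLt
      rcases Finset.mem_insert.mp ht with rfl | ht
      · exact absurd hLt ha
      · exact hP2 t ht hLt

/-- A rational Lie polynomial with integral coefficients is an integral Lie polynomial. -/
theorem exists_integral {w : ℕ} (hw : 1 ≤ w) {ψ : Pool.Agent.H4DM.NC (Fin 2)}
    (hψ : ψ ∈ Pool.Agent.H4DM.Lie01)
    (hom : ∀ l : List (Fin 2), l.length ≠ w → Pool.Agent.H4DM.cf ψ l = 0)
    (z : List (Fin 2) → ℤ) (hz : ∀ l, Pool.Agent.H4DM.cf ψ l = z l) :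
    ∃ P ∈ LA ℤ (Fin 2), ∀ l, cf P l = z l := by
  obtain ⟨P, hP, hP1, hP2⟩ := exists_approx (w := w) z Finset.univ
  refine ⟨P, hP, ?_⟩
  have hd : ψ - bc ℚ (Fin 2) P ∈ Pool.Agent.H4DM.Lie01 :=
    Pool.Agent.H4DM.Lie01.sub_mem hψ (LA_le_Lie01 (bc_mem ℚ hP))
  have hcd : ∀ l, Pool.Agent.H4DM.cf (ψ - bc ℚ (Fin 2) P) l = (z l : ℚ) - (cf P l : ℤ) := by
    intro l
    rw [← hz l, ← cf_bc ℚ P l]
    rfl
  have hzero := eq_zero_of_lyndon hw (Pool.Agent.H4DM.cf (ψ - bc ℚ (Fin 2) P))
    (fun u v hu hv => Pool.Agent.ECB.sh_lie hd hu hv)
    (fun t ht hLt => by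
      rw [hcd, hP2 ⟨t, ht⟩ (Finset.mem_univ _) hLt, sub_self])
  intro l
  by_cases hl : l.length = w
  · have h1 := hzero ⟨l, hl⟩
    rw [hcd] at h1
    have h2 : (z l : ℚ) = (cf P l : ℤ) := sub_eq_zero.mp h1
    exact_mod_cast h2.symm
  · have h1 := hom l hl
    rw [hz l] at h1
    have h2 : z l = 0 := by exact_mod_cast h1
    rw [hP1 l hl, h2]

end BW

/-- the function `c ∈ redM w 2` is given by a Lie element -/
theorem mk_mem {w : ℕ} {c : Fn} (hc : c ∈ Pool.Agent.ECB.redM w 2) : mk w c ∈ LA F (Fin 2) := by
  rcases Nat.eq_zero_or_pos w with rfl | hw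
  · have h0 : mk 0 c = 0 := by
      apply cf_ext
      intro l
      rw [cf_mk, cf_zero]
      split_ifs with h
      · have : l = [] := List.eq_nil_of_length_eq_zero h
        rw [this]
        exact Pool.Agent.ECB.redM_nil hc
      · rfl
    rw [h0]
    exact (LA F (Fin 2)).zero_mem
  · obtain ⟨ψ, hψ, z, hz, h⟩ := hc
    obtain ⟨P, hP, hPz⟩ := BW.exists_integral hw hψ.1.1
      (fun l hl => Pool.Agent.ECB.cf_of_length_ne hψ.2 hl) z hz
    have h1 : mk w c = BW.bc F (Fin 2) P := by
      apply cf_ext
      intro l
      rw [cf_mk, BW.cf_bc, hPz l]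
      split_ifs with hl
      · exact h l
      · have h2 := Pool.Agent.ECB.cf_of_length_ne hψ.2 hl
        rw [hz l] at h2
        have h3 : z l = 0 := by exact_mod_cast h2
        rw [h3, Int.cast_zero]
    rw [h1]
    exact BW.bc_mem F hP

end

end Pool.Agent.ECK
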