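import Pool.Agent.ECK.KerD

/-!
# Coordinates of closed elements

The coefficients of `ι(evT cB P)` at the words `∏ b a^{k_i+1}` are the coefficients of `P`; hence
`evT cB` is injective, and the kernel of `d₀` is its image.
-/

set_option autoImplicit false

namespace Pool.Agent.ECK

open Pool.Agent.ECU (T)

noncomputable section

/-- `c_{k+1} = d₀(x^{k+1})`. -/
theorem cB_eq (k : ℕ) : cB k = d0 (xa ^ (k + 1)) := (d0_pow_xa k).symm

theorem cB_succ (k : ℕ) : cB (k + 1) = xb * xa ^ (k + 1) + xa * cB k := by
  rw [cB_eq, pow_succ', d0_mul, d0_xa, d0_pow_xa]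

theorem cB_zero : cB 0 = xb := by simp [cB]

theorem xa_cB (k : ℕ) : xa * cB k = cB (k + 1) + xb * xa ^ (k + 1) := by
  rw [cB_succ, add_right_comm, add_self, zero_add]

theorem cB_uni {R' : Type} [Ring R'] [Algebra F R'] (x e : R') (k : ℕ) :
    lf ![x, e * x + x * e] (cB k) = e * x ^ (k + 1) + x ^ (k + 1) * e := by
  have hx : lf ![x, e * x + x * e] xa = x := by rw [xa, lf_letter]; rfl
  have hs : lf ![x, e * x + x * e] xb = e * x + x * e := by rw [xb, lf_letter]; rfl
  induction k with
  | zero => rw [cB_zero, hs, zero_add, pow_one]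
  | succ k ih =>
    rw [cB_succ, map_add, map_mul, map_mul, map_pow, hx, hs, ih]
    have h : (e * x + x * e) * x ^ (k + 1) + x * (e * x ^ (k + 1) + x ^ (k + 1) * e) =
        (x * e * x ^ (k + 1) + x * e * x ^ (k + 1)) +
          (e * (x * x ^ (k + 1)) + x * x ^ (k + 1) * e) := by noncomm_ring
    rw [h, add_self, zero_add, ← pow_succ']

theorem io_cB (k : ℕ) : io (cB k) = xb * xa ^ (k + 1) + xa ^ (k + 1) * xb := cB_uni xa xb k

/-! ### Coefficients -/

theorem cf_xa_cons (p : A2) (l : List (Fin 2)) : cf (xa * p) (0 :: l) = cf p l := by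
  rw [xa, cf_letter_mul_cons, if_pos rfl]

theorem cf_xa_one (p : A2) (l : List (Fin 2)) : cf (xa * p) (1 :: l) = 0 := by
  rw [xa, cf_letter_mul_cons, if_neg (by decide)]

theorem cf_xa_nil (p : A2) : cf (xa * p) [] = 0 := cf_letter_mul_nil 0 p

theorem cf_xb_cons (p : A2) (l : List (Fin 2)) : cf (xb * p) (1 :: l) = cf p l := by
  rw [xb, cf_letter_mul_cons, if_pos rfl]

theorem cf_xb_zero (p : A2) (l : List (Fin 2)) : cf (xb * p) (0 :: l) = 0 := by
  rw [xb, cf_letter_mul_cons, if_neg (by decide)]

theorem cf_xb_nil (p : A2) : cf (xb * p) [] = 0 := cf_letter_mul_nil 1 p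

/-- `ec v` does not start with `a`. -/
theorem ec_cases (v : List ℕ) : ec v = [] ∨ ∃ l, ec v = 1 :: l := by
  rcases v with _ | ⟨k, v⟩
  · left; rfl
  · right; exact ⟨_, rfl⟩

theorem cf_xa_ec (p : A2) (v : List ℕ) : cf (xa * p) (ec v) = 0 := by
  rcases ec_cases v with h | ⟨l, h⟩
  · rw [h, cf_xa_nil]
  · rw [h, cf_xa_one]

theorem cf_pow_ec (p : A2) (v : List ℕ) (m : ℕ) : ∀ n,
    cf (xa ^ m * p) (List.replicate n 0 ++ ec v) =
      if n < m then 0 else cf p (List.replicate (n - m) 0 ++ ec v) := by
  induction m with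
  | zero => intro n; rw [pow_zero, one_mul, if_neg (by omega), Nat.sub_zero]
  | succ m ih =>
    intro n
    rw [pow_succ', mul_assoc]
    rcases n with _ | n
    · rw [if_pos (by omega), List.replicate_zero, List.nil_append, cf_xa_ec]
    · rw [List.replicate_succ, List.cons_append, cf_xa_cons, ih n]
      by_cases h : n < m
      · rw [if_pos h, if_pos (by omega)]
      · rw [if_neg h, if_neg (by omega)]
        congr 3
        omega

theorem io_prod_cons (k : ℕ) (w : List ℕ) : io (((k :: w).map cB).prod) =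
    xb * (xa ^ (k + 1) * io ((w.map cB).prod)) +
      xa ^ (k + 1) * (xb * io ((w.map cB).prod)) := by
  rw [List.map_cons, List.prod_cons, map_mul, io_cB, add_mul, mul_assoc, mul_assoc]

theorem cf_io_zero (w : List ℕ) : ∀ (j : ℕ) (v : List ℕ),
    cf (io ((w.map cB).prod)) (List.replicate (j + 1) 0 ++ ec v) = 0 := by
  induction w with
  | nil =>
    intro j v
    rw [List.map_nil, List.prod_nil, map_one, cf_one, if_neg]
    simp [List.replicate_succ]
  | cons k w ih =>
    intro j v
    rw [io_prod_cons, cf_add]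
    have h1 : cf (xb * (xa ^ (k + 1) * io ((w.map cB).prod)))
        (List.replicate (j + 1) 0 ++ ec v) = 0 := by
      rw [List.replicate_succ, List.cons_append, cf_xb_zero]
    rw [h1, zero_add, cf_pow_ec]
    by_cases h : j + 1 < k + 1
    · rw [if_pos h]
    · rw [if_neg h]
      rcases hn : (j + 1 - (k + 1)) with _ | n
      · rw [List.replicate_zero, List.nil_append]
        rcases v with _ | ⟨k', v⟩
        · show cf (xb * _) [] = 0
          rw [cf_xb_nil]
        · show cf (xb * _) (1 :: (List.replicate (k' + 1) 0 ++ ec v)) = 0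
          rw [cf_xb_cons, ih]
      · rw [List.replicate_succ, List.cons_append, cf_xb_zero]

theorem cf_io_ec (w : List ℕ) : ∀ v : List ℕ,
    cf (io ((w.map cB).prod)) (ec v) = if w = v then 1 else 0 := by
  induction w with
  | nil =>
    intro v
    rw [List.map_nil, List.prod_nil, map_one, cf_one]
    rcases v with _ | ⟨k, v⟩
    · simp [ec]
    · simp [ec]
  | cons k w ih =>
    intro v
    have h2 : cf (xa ^ (k + 1) * (xb * io ((w.map cB).prod))) (ec v) = 0 := by
      rw [pow_succ', mul_assoc, cf_xa_ec]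
    rw [io_prod_cons, cf_add, h2, add_zero]
    rcases v with _ | ⟨k', v⟩
    · show cf (xb * _) [] = _
      rw [cf_xb_nil, if_neg (by simp)]
    · show cf (xb * _) (1 :: (List.replicate (k' + 1) 0 ++ ec v)) = _
      rw [cf_xb_cons, cf_pow_ec]
      by_cases h : k' + 1 < k + 1
      · rw [if_pos h, if_neg]
        intro h'
        have := (List.cons.inj h').1
        omega
      · rw [if_neg h]
        by_cases h3 : k = k'
        · subst h3
          rw [Nat.sub_self, List.replicate_zero, List.nil_append, ih v]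
          by_cases h4 : w = v
          · rw [if_pos h4, if_pos (by rw [h4])]
          · rw [if_neg h4, if_neg (fun h' => h4 (List.cons.inj h').2)]
        · obtain ⟨n, hn⟩ : ∃ n, k' + 1 - (k + 1) = n + 1 := ⟨k' - k - 1, by omega⟩
          rw [hn, cf_io_zero, if_neg]
          intro h'
          exact h3 (List.cons.inj h').1

/-- The coordinates of `ι(evT cB P)`. -/
theorem coord (P : T F) (v : List ℕ) : cf (io (evT cB P)) (ec v) = P v := by
  induction P using Finsupp.induction_linear with
  | zero => simp
  | add P Q hP hQ => rw [map_add, map_add, cf_add, hP, hQ, Finsupp.add_apply]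
  | single w r =>
    rw [evT_single, map_smul, cf_smul, cf_io_ec, Finsupp.single_apply]
    by_cases h : w = v
    · rw [if_pos h, if_pos h, mul_one]
    · rw [if_neg h, if_neg h, mul_zero]

theorem evT_cB_injective : Function.Injective (evT cB) := by
  intro P Q h
  apply Finsupp.ext
  intro v
  rw [← coord P v, ← coord Q v, h]

theorem ker_d0 {z : A2} (hz : d0 z = 0) : ∃ P : T F, z = evT cB P :=
  ker_d0_of evT_cB_injective hz

end

end Pool.Agent.ECK
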