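import Pool.Agent.ECK.LemL
import Pool.Agent.ECK.Closed
import Pool.Agent.ECU.C0

/-!
# The lemma C0 for the basis `g`
-/

set_option autoImplicit false

namespace Pool.Agent.ECK

open Pool.Agent.ECU (T)

noncomputable section

/-- If `evT gB P` is a Lie element and `P` is homogeneous of depth `m` and degree `D ≥ 1`, then `P`
is supported on the words in the letters `0` and `1`. -/
theorem C0g {m D : ℕ} (hD : 1 ≤ D) (P : T F) (hP : ∀ v, P v ≠ 0 → v.length = m ∧ v.sum = D)
    (h : evT gB P ∈ LA F (Fin 2)) (v : List ℕ) (hv : P v ≠ 0) : ∀ k ∈ v, k ≤ 1 :=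
  C0g_of Pool.Agent.ECU.tsp evT_cB_injective hD P hP h v hv

end

end Pool.Agent.ECK
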