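import Pool.Agent.ECK.Alg

/-!
# Definitions for the passage from the double shuffle system modulo 2 to the lemma C0

Letters: `0` is `a` (`x₀`), `1` is `b` (`x₁`); in `B = 𝔽₂⟨x, s⟩` the letter `0` is `x` and `1` is `s`.
A letter `k : ℕ` of `T` stands for `c_{k+1}` (or for `S_{k+2}`, i.e. for the part `k + 2` of a
composition).
-/

set_option autoImplicit false

namespace Pool.Agent.ECK

open Pool.Agent.ECU (T)

attribute [local instance] LieRing.ofAssociativeRing

noncomputable section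

/-- Functions on words. -/
abbrev Fn : Type := List (Fin 2) → F

/-- Left quotient by a letter. -/
def dq (a : Fin 2) (g : Fn) : Fn := fun t => g (a :: t)

/-- `kapW W g = g(W[b ↦ a + b])`. -/
def kapW : List (Fin 2) → Fn → F
  | [], g => g []
  | a :: W, g => kapW W (dq 0 g) + (if a = 1 then kapW W (dq 1 g) else 0)

/-- `kap g (W) = g(W[b ↦ a + b])`. -/
def kap (g : Fn) : Fn := fun W => kapW W g

/-- The cyclic function `N`: `N(aW) = c(W) + κc(W)`, `N(bW) = κc(W)`. -/
def Nf (c : Fn) : Fn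
  | [] => 0
  | a :: W => (if a = 0 then c W else 0) + kap c W

/-- `g(Y ·)` with `Y = ∑_{k<M} b^k`. -/
def Yq (M : ℕ) (g : Fn) : Fn := fun t => ∑ k ∈ Finset.range M, g (List.replicate k 1 ++ t)

/-- `bt M V g = g(V[b ↦ bY])`. -/
def bt (M : ℕ) : List (Fin 2) → Fn → F
  | [], g => g []
  | a :: V, g => if a = 0 then bt M V (dq 0 g) else bt M V (Yq M (dq 1 g))

/-- `th M V g = g(V[b ↦ (1 + a)bY])`. -/
def th (M : ℕ) : List (Fin 2) → Fn → F
  | [], g => g []
  | a :: V, g => if a = 0 then th M V (dq 0 g)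
      else th M V (Yq M (dq 1 (fun t => g t + g (0 :: t))))

/-- The word `∏ a^{k_i+1} b`. -/
def cy : List ℕ → List (Fin 2)
  | [] => []
  | k :: v => List.replicate (k + 1) 0 ++ 1 :: cy v

/-- `∑_S P(v + 1_S)`. -/
def sumS : List ℕ → (List ℕ → F) → F
  | [], P => P []
  | k :: v, P => sumS v (fun t => P (k :: t)) + sumS v (fun t => P ((k + 1) :: t))

/-- The coefficient of `a^{w-1} b`. -/
def cdep (w : ℕ) (c : Fn) : F := c (List.replicate (w - 1) 0 ++ [1])

/-- No two consecutive letters `b`. -/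
def nbb (V : List (Fin 2)) : Prop := List.IsChain (fun a b => a = 0 ∨ b = 0) V

/-- The element with coefficients `g` on the words of length `w`. -/
def mk (w : ℕ) (g : Fn) : A2 := ∑ l : Pool.Agent.ECB.Wd w, g l.1 • (wd l.1 : A2)

/-- The letter `0` (`a`, or `x`). -/
def xa : A2 := wd [0]
/-- The letter `1` (`b`, or `s`). -/
def xb : A2 := wd [1]

/-- `t(x', e') = p(x', e'x' + x'e')` whenever `e'² = e'`. -/
def Uni (t p : A2) : Prop := ∀ (R' : Type) [Ring R'] [Algebra F R'] (x e : R'), e * e = e →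
  lf ![x, e] t = lf ![x, e * x + x * e] p

/-- Weights `x ↦ 0`, `s ↦ 1`. -/
def vs : Fin 2 → ℕ := ![0, 1]
/-- Weights `x ↦ 1`, `s ↦ 0`. -/
def vx : Fin 2 → ℕ := ![1, 0]
/-- Weights `x ↦ 1`, `s ↦ 2`. -/
def vt : Fin 2 → ℕ := ![1, 2]

/-- Evaluation of words in the letters `k : ℕ`. -/
def evT {A : Type} [Ring A] [Algebra F A] (β : ℕ → A) : T F →ₗ[F] A :=
  Finsupp.linearCombination F (fun w => (w.map β).prod)

/-- `cB k = c_{k+1} = d₀(x^{k+1}) = ∑ x^i s x^{k-i}`. -/
def cB (k : ℕ) : A2 := ∑ i ∈ Finset.range (k + 1), xa ^ i * xb * xa ^ (k - i)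

/-- `gB k = c_1 + … + c_{k+1}`. -/
def gB (k : ℕ) : A2 := ∑ i ∈ Finset.range (k + 1), cB i

/-- `zB k = Z_{k+2} = ∑_{i=1}^{k+1} (c_i + x^i)`. -/
def zB (k : ℕ) : A2 := ∑ i ∈ Finset.range (k + 1), (cB i + xa ^ (i + 1))

/-- `S_2, S_3 ↦` letters, the other `S_n ↦ 0`. -/
def t23 (k : ℕ) : A2 := if k = 0 then xa else if k = 1 then xb else 0

/-- The derivation with prescribed values on the letters, on words. -/
def derW (φ : Fin 2 → A2) : List (Fin 2) → A2
  | [] => 0
  | a :: l => φ a * wd l + wd [a] * derW φ l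

/-- The derivation with prescribed values on the letters. -/
def der (φ : Fin 2 → A2) : A2 →ₗ[F] A2 := linw (derW φ)

/-- `x ↦ s`, `s ↦ 0`. -/
def d0 : A2 →ₗ[F] A2 := der ![xb, 0]
/-- `x ↦ s`, `s ↦ s`. -/
def d1 : A2 →ₗ[F] A2 := der ![xb, xb]

/-- `ι : x ↦ a`, `s ↦ ba + ab`. -/
def io : A2 →ₐ[F] A2 := lf ![xa, xb * xa + xa * xb]

/-- The word `∏ b a^{k_i+1}`. -/
def ec : List ℕ → List (Fin 2)
  | [] => []
  | k :: v => 1 :: List.replicate (k + 1) 0 ++ ec v

/-- Collapse the runs of `b`. -/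
def nfW : List (Fin 2) → List (Fin 2)
  | [] => []
  | a :: W => if a = 1 ∧ (nfW W).head? = some 1 then nfW W else a :: nfW W

/-- Collapse the runs of `b`, linearly. -/
def nf : A2 →ₗ[F] A2 := linw (fun W => wd (nfW W))

/-- The operator `e'` on `A2`: `bW ↦ bW`, `W ↦ bW` otherwise. -/
def Eop : A2 →ₗ[F] A2 := linw (fun W => if W.head? = some 1 then wd W else wd (1 :: W))

/-! ### Basic properties -/

theorem der_mul (φ : Fin 2 → A2) (p q : A2) : der φ (p * q) = der φ p * q + p * der φ q := by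
  induction p using fa_induction with
  | hw l =>
    induction q using fa_induction with
    | hw m =>
      rw [← wd_append, der, linw_wd, linw_wd, linw_wd]
      induction l with
      | nil => simp [derW, wd_nil]
      | cons a l ih =>
        rw [List.cons_append, derW, ih, derW, wd_append, wd_cons a l]
        noncomm_ring
    | zero => simp
    | add a b ha hb => rw [mul_add, map_add, ha, hb, map_add]; noncomm_ring
    | smul c a ha =>
      rw [mul_smul_comm, map_smul, ha, map_smul, mul_smul_comm, mul_smul_comm, smul_add]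
  | zero => simp
  | add a b ha hb => rw [add_mul, map_add, ha, hb, map_add]; noncomm_ring
  | smul c a ha =>
    rw [smul_mul_assoc, map_smul, ha, map_smul, smul_mul_assoc, smul_mul_assoc, smul_add]

@[simp] theorem der_letter (φ : Fin 2 → A2) (a : Fin 2) : der φ (wd [a]) = φ a := by
  simp [der, derW, wd_nil]

@[simp] theorem der_one (φ : Fin 2 → A2) : der φ 1 = 0 := by
  rw [← wd_nil]; simp [der, derW]

@[simp] theorem d0_xa : d0 xa = xb := by rw [d0, xa, der_letter]; rfl
@[simp] theorem d0_xb : d0 xb = 0 := by rw [d0, xb, der_letter]; rfl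
@[simp] theorem d1_xa : d1 xa = xb := by rw [d1, xa, der_letter]; rfl
@[simp] theorem d1_xb : d1 xb = xb := by
  show der ![xb, xb] (wd [1]) = xb
  rw [der_letter]; rfl
theorem d0_mul (p q : A2) : d0 (p * q) = d0 p * q + p * d0 q := der_mul _ p q
theorem d1_mul (p q : A2) : d1 (p * q) = d1 p * q + p * d1 q := der_mul _ p q

theorem evT_e {A : Type} [Ring A] [Algebra F A] (β : ℕ → A) (w : List ℕ) :
    evT β (Pool.Agent.ECU.e w) = (w.map β).prod := by
  simp [evT, Pool.Agent.ECU.e, Finsupp.linearCombination_single]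

theorem evT_C {A : Type} [Ring A] [Algebra F A] (β : ℕ → A) (k : ℕ) (P : T F) :
    evT β (Pool.Agent.ECU.C k P) = β k * evT β P := by
  have : (evT β) ∘ₗ (Pool.Agent.ECU.C k) = (LinearMap.mulLeft F (β k)) ∘ₗ (evT β) := by
    apply Pool.Agent.ECU.hom_ext
    intro w
    simp only [LinearMap.comp_apply, LinearMap.mulLeft_apply]
    rw [Pool.Agent.ECU.C_e, evT_e, evT_e, List.map_cons, List.prod_cons]
  exact LinearMap.congr_fun this P

theorem cf_mk (w : ℕ) (g : Fn) (l : List (Fin 2)) :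
    cf (mk w g) l = if l.length = w then g l else 0 := by
  rw [mk, cf_sum]
  simp only [cf_smul, cf_wd]
  split_ifs with h
  · rw [Finset.sum_eq_single (⟨l, h⟩ : Pool.Agent.ECB.Wd w)]
    · simp
    · intro b _ hb
      rw [if_neg (fun h' => hb (Subtype.ext h')), mul_zero]
    · intro h'; exact absurd (Finset.mem_univ _) h'
  · apply Finset.sum_eq_zero
    intro b _
    have h2 : ¬ b.1 = l := fun h' => h (by rw [← h']; exact b.2)
    rw [if_neg h2, mul_zero]

/-- `Ta = ∑ N(aW) W`. -/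
def Ta (w : ℕ) (c : Fn) : A2 := mk w (fun W => Nf c (0 :: W))
/-- `Tb = ∑ N(bW) W`. -/
def Tb (w : ℕ) (c : Fn) : A2 := mk w (fun W => Nf c (1 :: W))

end

end Pool.Agent.ECK
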