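import Pool.Agent.ECK.Defs

/-!
# Lie elements and shuffles, general coefficients

The coefficients of a Lie element are killed by the shuffles of nonempty words (any coefficient
ring) and, over the field with two elements, by the halved shuffles of a word with itself.
-/

set_option autoImplicit false

namespace Pool.Agent.ECK

open Pool.Agent.ECB

attribute [local instance] LieRing.ofAssociativeRing

noncomputable section

section general
variable {R : Type} [CommRing R] {α : Type} [DecidableEq α]

/-- functions of two words -/
abbrev V2 (R : Type) (α : Type) : Type := List α → List α → R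

/-- strip a letter in the first word -/
def stl (a : α) : Module.End R (V2 R α) where
  toFun G u v := match u with
    | [] => 0
    | b :: u => if a = b then G u v else 0
  map_add' G H := by
    funext u v
    rcases u with _ | ⟨b, u⟩
    · simp
    · by_cases h : a = b <;> simp [h]
  map_smul' c G := by
    funext u v
    rcases u with _ | ⟨b, u⟩
    · simp
    · by_cases h : a = b <;> simp [h]

/-- strip a letter in the second word -/
def str (a : α) : Module.End R (V2 R α) where
  toFun G u v := match v with
    | [] => 0
    | b :: v => if a = b then G u v else 0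
  map_add' G H := by
    funext u v
    rcases v with _ | ⟨b, v⟩
    · simp
    · by_cases h : a = b <;> simp [h]
  map_smul' c G := by
    funext u v
    rcases v with _ | ⟨b, v⟩
    · simp
    · by_cases h : a = b <;> simp [h]

theorem stl_str (a b : α) : (stl a : Module.End R (V2 R α)) * str b = str b * stl a := by
  apply LinearMap.ext
  intro G
  funext u v
  rcases u with _ | ⟨c, u⟩ <;> rcases v with _ | ⟨d, v⟩ <;>
    simp only [Module.End.mul_apply, stl, str, LinearMap.coe_mk, AddHom.coe_mk]
  · split_ifs <;> rfl
  · split_ifs <;> rfl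
  · split_ifs <;> rfl

theorem lf_stl_str (f g : FA R α) :
    lf (stl : α → Module.End R (V2 R α)) f * lf (str : α → Module.End R (V2 R α)) g =
      lf (str : α → Module.End R (V2 R α)) g * lf (stl : α → Module.End R (V2 R α)) f := by
  have h1 : ∀ (a : α) (g : FA R α), (stl a : Module.End R (V2 R α)) *
      lf (str : α → Module.End R (V2 R α)) g = lf (str : α → Module.End R (V2 R α)) g * stl a := by
    intro a g
    induction g using fa_induction with
    | hw l =>
      induction l with
      | nil => rw [wd_nil, map_one, mul_one, one_mul]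
      | cons b l ih => rw [wd_cons, map_mul, lf_letter, ← mul_assoc, stl_str, mul_assoc, ih, mul_assoc]
    | zero => rw [map_zero, mul_zero, zero_mul]
    | add x y hx hy => rw [map_add, mul_add, add_mul, hx, hy]
    | smul c x hx => rw [map_smul, mul_smul_comm, smul_mul_assoc, hx]
  induction f using fa_induction with
  | hw l =>
    induction l with
    | nil => rw [wd_nil, map_one, mul_one, one_mul]
    | cons b l ih => rw [wd_cons, map_mul, lf_letter, mul_assoc, ih, ← mul_assoc, h1, mul_assoc]
  | zero => rw [map_zero, mul_zero, zero_mul]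
  | add x y hx hy => rw [map_add, mul_add, add_mul, hx, hy]
  | smul c x hx => rw [map_smul, mul_smul_comm, smul_mul_assoc, hx]

/-- the shuffle pairing as a function of two words -/
def shV (q : FA R α) : V2 R α := fun u v => sh (cf q) u v

theorem shV_letter (a : α) (q : FA R α) : shV (wd [a] * q) = stl a (shV q) + str a (shV q) := by
  funext u v
  show sh (cf (wd [a] * q)) u v = (stl a (shV q)) u v + (str a (shV q)) u v
  rcases u with _ | ⟨b, u⟩ <;> rcases v with _ | ⟨c, v⟩ <;>
    simp only [stl, str, LinearMap.coe_mk, AddHom.coe_mk, shV, sh_nil_left, sh_nil_right]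
  · rw [cf_letter_mul_nil, add_zero]
  · rw [cf_letter_mul_cons, zero_add]
  · rw [cf_letter_mul_cons, add_zero]
  · rw [sh_cons_cons]
    congr 1
    · simp only [cf_letter_mul_cons]
      split_ifs with h
      · rfl
      · rw [sh]; simp
    · simp only [cf_letter_mul_cons]
      split_ifs with h
      · rfl
      · rw [sh]; simp

theorem shV_lie {f : FA R α} (hf : f ∈ LA R α) : ∀ q : FA R α, shV (f * q) =
    (lf (stl : α → Module.End R (V2 R α)) f + lf (str : α → Module.End R (V2 R α)) f) (shV q) := by
  have hadd : ∀ p q : FA R α, shV (p + q) = shV p + shV q := by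
    intro p q
    funext u v
    exact sh_add (cf p) (cf q) u v
  have hsmul : ∀ (c : R) (p : FA R α), shV (c • p) = c • shV p := by
    intro c p
    funext u v
    show sh (fun t => c * cf p t) u v = c * sh (cf p) u v
    rw [sh, sh, List.sum_map_mul_left]
  have hneg : ∀ p q : FA R α, shV (p - q) = shV p - shV q := by
    intro p q
    have h1 : p - q = p + (-1 : R) • q := by
      rw [neg_smul, one_smul, sub_eq_add_neg]
    rw [h1, hadd, hsmul, neg_smul, one_smul, sub_eq_add_neg]
  refine LA_induction (p := fun f => ∀ q : FA R α, shV (f * q) =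
    (lf (stl : α → Module.End R (V2 R α)) f + lf (str : α → Module.End R (V2 R α)) f) (shV q))
    ?_ ?_ ?_ ?_ ?_ hf
  · intro a q
    rw [lf_letter, lf_letter, shV_letter]; rfl
  · intro q
    have h0 : shV (0 : FA R α) = 0 := by
      have := hsmul 0 (0 : FA R α)
      rwa [zero_smul, zero_smul] at this
    rw [zero_mul, map_zero, map_zero, h0]; simp
  · intro a b _ _ ha hb q
    rw [add_mul, hadd, ha, hb, map_add, map_add]
    simp only [LinearMap.add_apply]
    abel
  · intro c a _ ha q
    rw [smul_mul_assoc, hsmul, ha, map_smul, map_smul]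
    simp only [LinearMap.add_apply, LinearMap.smul_apply, smul_add]
  · intro a b _ _ ha hb q
    have e1 : (a * b - b * a) * q = a * (b * q) - b * (a * q) := by noncomm_ring
    have h1 : ∀ G : V2 R α, lf (stl : α → Module.End R (V2 R α)) a
        (lf (str : α → Module.End R (V2 R α)) b G) = lf (str : α → Module.End R (V2 R α)) b
        (lf (stl : α → Module.End R (V2 R α)) a G) := fun G =>
      LinearMap.congr_fun (lf_stl_str a b) G
    have h2 : ∀ G : V2 R α, lf (stl : α → Module.End R (V2 R α)) b
        (lf (str : α → Module.End R (V2 R α)) a G) = lf (str : α → Module.End R (V2 R α)) a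
        (lf (stl : α → Module.End R (V2 R α)) b G) := fun G =>
      LinearMap.congr_fun (lf_stl_str b a) G
    rw [e1, hneg, ha, hb, hb, ha, map_sub, map_sub, map_mul, map_mul, map_mul, map_mul]
    simp only [LinearMap.add_apply, LinearMap.sub_apply, Module.End.mul_apply, map_add, h1, h2]
    abel

/-- the coefficients of a Lie element are killed by the shuffles -/
theorem LA_sh {q : FA R α} (hq : q ∈ LA R α) {u v : List α} (hu : u ≠ []) (hv : v ≠ []) :
    sh (cf q) u v = 0 := by
  have h1 := shV_lie hq 1
  rw [mul_one] at h1
  have h2 : sh (cf q) u v = shV q u v := rfl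
  rw [h2, h1]
  have h0 : ∀ u v : List α, (u ≠ [] ∨ v ≠ []) → shV (1 : FA R α) u v = 0 := by
    intro u v h
    show sh (cf (1 : FA R α)) u v = 0
    rw [sh_congr (c' := fun _ => 0)]
    · rw [sh]; simp
    · intro t ht
      rw [cf_one, if_neg]
      intro h3
      have h4 := length_of_mem_shf ht
      rw [h3] at h4
      rcases h with h | h
      · exact h (List.eq_nil_of_length_eq_zero (by simp at h4; omega))
      · exact h (List.eq_nil_of_length_eq_zero (by simp at h4; omega))
  have hl : ∀ (f : FA R α) (G : V2 R α), (∀ u v : List α, v ≠ [] → G u v = 0) →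
      ∀ u v : List α, v ≠ [] → (lf (stl : α → Module.End R (V2 R α)) f G) u v = 0 := by
    intro f
    induction f using fa_induction with
    | hw l =>
      induction l with
      | nil => intro G hG u v hv; rw [wd_nil, map_one]; exact hG u v hv
      | cons b l ih =>
        intro G hG u v hv
        rw [wd_cons, map_mul, lf_letter, Module.End.mul_apply]
        rcases u with _ | ⟨c, u⟩
        · rfl
        · show (if b = c then (lf (stl : α → Module.End R (V2 R α)) (wd l) G) u v else 0) = 0
          rw [ih G hG u v hv, ite_self]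
    | zero => intro G _ u v _; rw [map_zero]; rfl
    | add x y hx hy =>
      intro G hG u v hv
      rw [map_add]
      show (lf (stl : α → Module.End R (V2 R α)) x G) u v +
        (lf (stl : α → Module.End R (V2 R α)) y G) u v = 0
      rw [hx G hG u v hv, hy G hG u v hv, add_zero]
    | smul c x hx =>
      intro G hG u v hv
      rw [map_smul]
      show c * (lf (stl : α → Module.End R (V2 R α)) x G) u v = 0
      rw [hx G hG u v hv, mul_zero]
  have hr : ∀ (f : FA R α) (G : V2 R α), (∀ u v : List α, u ≠ [] → G u v = 0) →
      ∀ u v : List α, u ≠ [] → (lf (str : α → Module.End R (V2 R α)) f G) u v = 0 := by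
    intro f
    induction f using fa_induction with
    | hw l =>
      induction l with
      | nil => intro G hG u v hv; rw [wd_nil, map_one]; exact hG u v hv
      | cons b l ih =>
        intro G hG u v hv
        rw [wd_cons, map_mul, lf_letter, Module.End.mul_apply]
        rcases v with _ | ⟨c, v⟩
        · rfl
        · show (if b = c then (lf (str : α → Module.End R (V2 R α)) (wd l) G) u v else 0) = 0
          rw [ih G hG u v hv, ite_self]
    | zero => intro G _ u v _; rw [map_zero]; rfl
    | add x y hx hy =>
      intro G hG u v hv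
      rw [map_add]
      show (lf (str : α → Module.End R (V2 R α)) x G) u v +
        (lf (str : α → Module.End R (V2 R α)) y G) u v = 0
      rw [hx G hG u v hv, hy G hG u v hv, add_zero]
    | smul c x hx =>
      intro G hG u v hv
      rw [map_smul]
      show c * (lf (str : α → Module.End R (V2 R α)) x G) u v = 0
      rw [hx G hG u v hv, mul_zero]
  show (lf (stl : α → Module.End R (V2 R α)) q (shV 1)) u v +
    (lf (str : α → Module.End R (V2 R α)) q (shV 1)) u v = 0
  rw [hl q _ (fun u v h => h0 u v (Or.inr h)) u v hv,
    hr q _ (fun u v h => h0 u v (Or.inl h)) u v hu, add_zero]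

end general

/-- every Lie element over the field with two elements is the reduction of an integral one -/
theorem exists_int_lift {q : A2} (hq : q ∈ LA F (Fin 2)) :
    ∃ p ∈ LA ℤ (Fin 2), ∀ l, cf q l = ((cf p l : ℤ) : F) := by
  refine LA_induction (p := fun q => ∃ p ∈ LA ℤ (Fin 2), ∀ l, cf q l = ((cf p l : ℤ) : F))
    ?_ ?_ ?_ ?_ ?_ hq
  · intro a
    refine ⟨wd [a], letter_mem a, fun l => ?_⟩
    rw [cf_wd, cf_wd]
    split_ifs <;> simp
  · exact ⟨0, (LA ℤ (Fin 2)).zero_mem, fun l => by simp⟩
  · rintro a b _ _ ⟨p, hp, h1⟩ ⟨q, hq, h2⟩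
    exact ⟨p + q, (LA ℤ (Fin 2)).add_mem hp hq, fun l => by rw [cf_add, cf_add, h1, h2]; simp⟩
  · rintro c a _ ⟨p, hp, h1⟩
    refine ⟨((c.val : ℤ)) • p, (LA ℤ (Fin 2)).smul_mem _ hp, fun l => ?_⟩
    rw [cf_smul, cf_smul, h1]
    simp
  · rintro a b _ _ ⟨p, hp, h1⟩ ⟨q, hq, h2⟩
    refine ⟨p * q - q * p, comm_mem hp hq, fun l => ?_⟩
    rw [cf_sub, cf_sub, cf_mul, cf_mul, cf_mul, cf_mul]
    simp only [h1, h2]
    push_cast
    rfl

theorem cf_LA_sh {q : A2} (hq : q ∈ LA F (Fin 2)) (u v : List (Fin 2)) (hu : u ≠ []) (hv : v ≠ []) :
    sh (cf q) u v = 0 := LA_sh hq hu hv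

theorem cf_LA_hsh {q : A2} (hq : q ∈ LA F (Fin 2)) (a : Fin 2) (u : List (Fin 2)) :
    hsh (cf q) a u = 0 := by
  obtain ⟨p, hp, h⟩ := exists_int_lift hq
  have h1 := LA_sh hp (u := a :: u) (v := a :: u) (by simp) (by simp)
  rw [two_hsh] at h1
  have h2 : hsh (cf p) a u = 0 := by omega
  have h3 := map_hsh (Int.castAddHom F) (cf p) a u
  rw [h2, map_zero] at h3
  have h4 : (fun t => (Int.castAddHom F) (cf p t)) = cf q := by
    funext t; exact (h t).symm
  rw [h4] at h3
  exact h3.symm

end

end Pool.Agent.ECK
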