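import Pool.Agent.ECK.Defs

/-!
# Lie elements in the subalgebra generated by `c₁ = s` and `c₂ = [x, s]`

The representation `x ↦ d₀`, `s ↦ L_x` of `𝔽₂⟨x, s⟩` on itself maps a Lie element to
`l d₀ + L_q` with a Lie element `q`; it maps `P(c₁, c₂)` to an operator with value `P(x, s)` at `1`.
-/

set_option autoImplicit false

namespace Pool.Agent.ECK

open Pool.Agent.ECU (T)

attribute [local instance] LieRing.ofAssociativeRing

noncomputable section

theorem d0_LA {p : A2} (hp : p ∈ LA F (Fin 2)) : d0 p ∈ LA F (Fin 2) := by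
  refine LA_induction (p := fun (p : A2) => d0 p ∈ LA F (Fin 2)) ?_ ?_ ?_ ?_ ?_ hp
  · intro a
    fin_cases a
    · show d0 xa ∈ _
      rw [d0_xa]; exact letter_mem 1
    · show d0 xb ∈ _
      rw [d0_xb]; exact (LA F (Fin 2)).zero_mem
  · rw [map_zero]; exact (LA F (Fin 2)).zero_mem
  · intro a b _ _ ha hb
    rw [map_add]; exact (LA F (Fin 2)).add_mem ha hb
  · intro c a _ ha
    rw [map_smul]; exact (LA F (Fin 2)).smul_mem c ha
  · intro a b ha' hb' ha hb
    have h : d0 (a * b - b * a) = (d0 a * b - b * d0 a) + (a * d0 b - d0 b * a) := by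
      rw [map_sub, d0_mul, d0_mul]; noncomm_ring
    rw [h]
    exact (LA F (Fin 2)).add_mem (comm_mem ha hb') (comm_mem ha' hb)

/-- The representation `x ↦ d₀`, `s ↦ L_x`. -/
def yR : A2 →ₐ[F] Module.End F A2 := lf ![d0, LinearMap.mulLeft F xa]

theorem yR_xa : yR xa = d0 := by rw [yR, xa, lf_letter]; rfl
theorem yR_xb : yR xb = LinearMap.mulLeft F xa := by rw [yR, xb, lf_letter]; rfl

theorem yR_LA {p : A2} (hp : p ∈ LA F (Fin 2)) :
    ∃ l : F, ∃ q ∈ LA F (Fin 2), yR p = l • d0 + LinearMap.mulLeft F q := by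
  refine LA_induction (p := fun (p : A2) => ∃ l : F, ∃ q ∈ LA F (Fin 2),
    yR p = l • d0 + LinearMap.mulLeft F q) ?_ ?_ ?_ ?_ ?_ hp
  · intro a
    fin_cases a
    · refine ⟨1, 0, (LA F (Fin 2)).zero_mem, ?_⟩
      show yR xa = _
      rw [yR_xa, one_smul, LinearMap.mulLeft_zero_eq_zero, add_zero]
    · refine ⟨0, xa, letter_mem 0, ?_⟩
      show yR xb = _
      rw [yR_xb, zero_smul, zero_add]
  · refine ⟨0, 0, (LA F (Fin 2)).zero_mem, ?_⟩
    rw [map_zero, zero_smul, zero_add, LinearMap.mulLeft_zero_eq_zero]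
  · rintro a b - - ⟨l, q, hq, h⟩ ⟨l', q', hq', h'⟩
    refine ⟨l + l', q + q', (LA F (Fin 2)).add_mem hq hq', ?_⟩
    rw [map_add, h, h']
    refine LinearMap.ext fun z => ?_
    simp only [LinearMap.add_apply, LinearMap.smul_apply, LinearMap.mulLeft_apply, add_mul, add_smul]
    abel
  · rintro c a - ⟨l, q, hq, h⟩
    refine ⟨c * l, c • q, (LA F (Fin 2)).smul_mem c hq, ?_⟩
    rw [map_smul, h]
    refine LinearMap.ext fun z => ?_
    simp only [LinearMap.add_apply, LinearMap.smul_apply, LinearMap.mulLeft_apply, smul_mul_assoc,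
      smul_add, mul_smul]
  · rintro a b - - ⟨l, q, hq, h⟩ ⟨l', q', hq', h'⟩
    refine ⟨0, l • d0 q' - l' • d0 q + (q * q' - q' * q), ?_, ?_⟩
    · exact (LA F (Fin 2)).add_mem ((LA F (Fin 2)).sub_mem
        ((LA F (Fin 2)).smul_mem _ (d0_LA hq')) ((LA F (Fin 2)).smul_mem _ (d0_LA hq)))
        (comm_mem hq hq')
    · rw [map_sub, map_mul, map_mul, h, h']
      refine LinearMap.ext fun z => ?_
      simp only [LinearMap.sub_apply, Module.End.mul_apply, LinearMap.add_apply,
        LinearMap.smul_apply, LinearMap.mulLeft_apply, d0_mul, zero_smul,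
        zero_add, mul_add, add_mul, sub_mul, smul_add, smul_mul_assoc, mul_smul_comm]
      rw [smul_comm l' l, mul_assoc, mul_assoc]
      abel

theorem yR_cB0 : yR (cB 0) = LinearMap.mulLeft F xa := by
  have h : cB 0 = xb := by simp [cB]
  rw [h, yR_xb]

theorem yR_cB1 : yR (cB 1) = LinearMap.mulLeft F xb := by
  have h : cB 1 = xb * xa + xa * xb := by simp [cB, Finset.sum_range_succ]
  rw [h, map_add, map_mul, map_mul, yR_xa, yR_xb]
  refine LinearMap.ext fun z => ?_
  simp only [LinearMap.add_apply, Module.End.mul_apply, LinearMap.mulLeft_apply]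
  rw [d0_mul, d0_xa]
  have := add_self (xa * d0 z)
  calc xa * d0 z + (xb * z + xa * d0 z) = xb * z + (xa * d0 z + xa * d0 z) := by abel
    _ = _ := by rw [this, add_zero]

theorem yR_evT (v : List ℕ) (hv : ∀ k ∈ v, k ≤ 1) :
    yR ((v.map cB).prod) = LinearMap.mulLeft F ((v.map t23).prod) := by
  induction v with
  | nil =>
    rw [List.map_nil, List.map_nil, List.prod_nil, map_one,
      LinearMap.mulLeft_one]
    rfl
  | cons k v ih =>
    rw [List.map_cons, List.map_cons, List.prod_cons, List.prod_cons, map_mul,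
      ih (fun j hj => hv j (List.mem_cons_of_mem _ hj)), LinearMap.mulLeft_mul]
    have hk := hv k (by simp)
    have : yR (cB k) = LinearMap.mulLeft F (t23 k) := by
      rcases Nat.le_one_iff_eq_zero_or_eq_one.1 hk with rfl | rfl
      · rw [yR_cB0]; rfl
      · rw [yR_cB1]; rfl
    rw [this]
    rfl

theorem evT_sum {A : Type} [Ring A] [Algebra F A] (β : ℕ → A) (P : T F) :
    evT β P = ∑ v ∈ P.support, P v • (v.map β).prod := by
  rw [evT, Finsupp.linearCombination_apply, Finsupp.sum]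

theorem yrep (P : T F) (hP : ∀ v, P v ≠ 0 → ∀ k ∈ v, k ≤ 1) (h : evT cB P ∈ LA F (Fin 2)) :
    evT t23 P ∈ LA F (Fin 2) := by
  obtain ⟨l, q, hq, he⟩ := yR_LA h
  have h1 : yR (evT cB P) 1 = evT t23 P := by
    rw [evT_sum, evT_sum, map_sum, LinearMap.sum_apply]
    apply Finset.sum_congr rfl
    intro v hv
    rw [map_smul, LinearMap.smul_apply, yR_evT v (hP v (Finsupp.mem_support_iff.1 hv)),
      LinearMap.mulLeft_apply, mul_one]
  rw [← h1, he, LinearMap.add_apply, LinearMap.smul_apply, LinearMap.mulLeft_apply, mul_one]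
  have : d0 1 = 0 := der_one _
  rw [this, smul_zero, zero_add]
  exact hq

theorem evT_eq_lf (β : ℕ → A2) (P : T F) (hP : ∀ v, P v ≠ 0 → ∀ k ∈ v, k ≤ 1) :
    evT β P = lf ![β 0, β 1] (evT t23 P) := by
  rw [evT_sum, evT_sum, map_sum]
  apply Finset.sum_congr rfl
  intro v hv
  rw [map_smul]
  congr 1
  have hv' := hP v (Finsupp.mem_support_iff.1 hv)
  clear hv
  induction v with
  | nil => rw [List.map_nil, List.map_nil, List.prod_nil, map_one]
  | cons k v ih =>
    rw [List.map_cons, List.map_cons, List.prod_cons, List.prod_cons, map_mul,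
      ← ih (fun j hj => hv' j (List.mem_cons_of_mem _ hj))]
    congr 1
    have hk := hv' k (by simp)
    rcases Nat.le_one_iff_eq_zero_or_eq_one.1 hk with rfl | rfl
    · show β 0 = lf ![β 0, β 1] (wd [0] : A2)
      rw [lf_letter]; rfl
    · show β 1 = lf ![β 0, β 1] (wd [1] : A2)
      rw [lf_letter]; rfl

theorem zB0_eq : zB 0 = xb + xa := by simp [zB, cB]

theorem zB1_eq : zB 1 = xa ^ 2 + (xb + xa + (xb * xa - xa * xb)) := by
  have h : zB 1 = xb + xa + (xb * xa + xa * xb + xa ^ 2) := by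
    simp [zB, cB, Finset.sum_range_succ]
  rw [h, sub_eq]; abel

theorem zB_lie {q : A2} (hq : q ∈ LA F (Fin 2)) :
    lf ![zB 0, zB 1] q + cf q [1] • xa ^ 2 ∈ LA F (Fin 2) := by
  have hx : ∀ r : A2, r ∈ LA F (Fin 2) → xa ^ 2 * r - r * xa ^ 2 ∈ LA F (Fin 2) := by
    intro r hr
    have h1 := comm_mem (letter_mem (R := F) (0 : Fin 2)) (comm_mem (letter_mem (R := F) (0 : Fin 2)) hr)
    have h2 : wd [0] * (wd [0] * r - r * wd [0]) - (wd [0] * r - r * wd [0]) * wd [0] =
        xa ^ 2 * r - r * xa ^ 2 := by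
      show xa * (xa * r - r * xa) - (xa * r - r * xa) * xa = _
      have h3 := add_self (xa * r * xa)
      have h4 : xa * (xa * r - r * xa) - (xa * r - r * xa) * xa =
          xa ^ 2 * r + r * xa ^ 2 - (xa * r * xa + xa * r * xa) := by noncomm_ring
      rw [h4, h3, sub_zero, sub_eq]
    rw [← h2]; exact h1
  suffices H : ∃ r ∈ LA F (Fin 2), lf ![zB 0, zB 1] q = cf q [1] • xa ^ 2 + r by
    obtain ⟨r, hr, h⟩ := H
    rw [h, add_right_comm, ← add_smul, F_add_self, zero_smul, zero_add]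
    exact hr
  refine LA_induction (p := fun (q : A2) => ∃ r ∈ LA F (Fin 2),
    lf ![zB 0, zB 1] q = cf q [1] • xa ^ 2 + r) ?_ ?_ ?_ ?_ ?_ hq
  · intro a
    fin_cases a
    · refine ⟨xb + xa, (LA F (Fin 2)).add_mem (letter_mem 1) (letter_mem 0), ?_⟩
      show lf ![zB 0, zB 1] (wd [0] : A2) = cf (wd [0] : A2) [1] • xa ^ 2 + (xb + xa)
      rw [cf_wd, if_neg (by simp), zero_smul, zero_add, lf_letter]
      exact zB0_eq
    · refine ⟨xb + xa + (xb * xa - xa * xb), (LA F (Fin 2)).add_mem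
        ((LA F (Fin 2)).add_mem (letter_mem 1) (letter_mem 0))
        (comm_mem (letter_mem 1) (letter_mem 0)), ?_⟩
      show lf ![zB 0, zB 1] (wd [1] : A2) = cf (wd [1] : A2) [1] • xa ^ 2 + _
      rw [cf_wd, if_pos rfl, one_smul, lf_letter]
      exact zB1_eq
  · refine ⟨0, (LA F (Fin 2)).zero_mem, ?_⟩
    rw [map_zero, cf_zero, zero_smul, zero_add]
  · rintro a b - - ⟨r, hr, h⟩ ⟨r', hr', h'⟩
    refine ⟨r + r', (LA F (Fin 2)).add_mem hr hr', ?_⟩
    rw [map_add, h, h', cf_add, add_smul]; abel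
  · rintro c a - ⟨r, hr, h⟩
    refine ⟨c • r, (LA F (Fin 2)).smul_mem c hr, ?_⟩
    rw [map_smul, h, cf_smul, smul_add, smul_smul]
  · rintro a b ha hb ⟨r, hr, h⟩ ⟨r', hr', h'⟩
    refine ⟨cf a [1] • (xa ^ 2 * r' - r' * xa ^ 2) - cf b [1] • (xa ^ 2 * r - r * xa ^ 2) +
      (r * r' - r' * r), ?_, ?_⟩
    · exact (LA F (Fin 2)).add_mem ((LA F (Fin 2)).sub_mem ((LA F (Fin 2)).smul_mem _ (hx r' hr'))
        ((LA F (Fin 2)).smul_mem _ (hx r hr))) (comm_mem hr hr')
    · have hcf : cf (a * b - b * a) [1] = 0 := by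
        have h0 : ∀ u v : A2, cf u [] = 0 → cf v [] = 0 → cf (u * v) [1] = 0 := by
          intro u v hu hv
          rw [cf_mul]
          simp [Finset.sum_range_succ, hu, hv]
        rw [cf_sub, h0 a b (cf_LA_nil ha) (cf_LA_nil hb), h0 b a (cf_LA_nil hb) (cf_LA_nil ha),
          sub_zero]
      rw [map_sub, map_mul, map_mul, h, h', hcf, zero_smul, zero_add]
      simp only [add_mul, mul_add, smul_mul_assoc, mul_smul_comm, smul_sub, smul_add]
      rw [smul_comm (cf b [1]) (cf a [1]) (xa ^ 2 * xa ^ 2)]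
      abel

end

end Pool.Agent.ECK
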