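import Pool.Agent.ECK.Top
import Pool.Agent.ECK.C0g
import Pool.Agent.ECK.YRep

/-!
# Step D: from `P(Z) ∈ Lie(x, s)` to `P ∈ Lie(S₂, S₃)`

Downward induction on the length of the words of `P`.
-/

set_option autoImplicit false

namespace Pool.Agent.ECK

open Pool.Agent.ECU (T L)

attribute [local instance] LieRing.ofAssociativeRing

noncomputable section

namespace SD

/-! ### Lemmas on the projection to a given `s`-degree -/

theorem pj_letter_mul_zero (v : Fin 2 → ℕ) (a : Fin 2) (ha : v a = 0) (k : ℕ) (q : A2) :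
    pj v k (wd [a] * q) = wd [a] * pj v k q := by
  have : (pj v k) ∘ₗ (LinearMap.mulLeft F (wd [a] : A2)) =
      (LinearMap.mulLeft F (wd [a] : A2)) ∘ₗ (pj v k) := by
    apply lin_ext
    intro m
    simp only [LinearMap.comp_apply, LinearMap.mulLeft_apply]
    rw [← wd_cons, pj_wd, pj_wd, wgt_cons, ha, zero_add]
    split_ifs
    · rw [wd_cons]
    · rw [mul_zero]
  exact LinearMap.congr_fun this q

theorem pj_letter_mul_one (v : Fin 2 → ℕ) (a : Fin 2) (ha : v a = 1) (k : ℕ) (q : A2) :
    pj v (k + 1) (wd [a] * q) = wd [a] * pj v k q := by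
  have : (pj v (k + 1)) ∘ₗ (LinearMap.mulLeft F (wd [a] : A2)) =
      (LinearMap.mulLeft F (wd [a] : A2)) ∘ₗ (pj v k) := by
    apply lin_ext
    intro m
    simp only [LinearMap.comp_apply, LinearMap.mulLeft_apply]
    rw [← wd_cons, pj_wd, pj_wd, wgt_cons, ha]
    by_cases h : wgt v m = k
    · rw [if_pos (by omega), if_pos h, wd_cons]
    · rw [if_neg (by omega), if_neg h, mul_zero]
  exact LinearMap.congr_fun this q

theorem pj_mul_letter_one (v : Fin 2 → ℕ) (a : Fin 2) (ha : v a = 1) (k : ℕ) (q : A2) :
    pj v (k + 1) (q * wd [a]) = pj v k q * wd [a] := by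
  have : (pj v (k + 1)) ∘ₗ (LinearMap.mulRight F (wd [a] : A2)) =
      (LinearMap.mulRight F (wd [a] : A2)) ∘ₗ (pj v k) := by
    apply lin_ext
    intro m
    simp only [LinearMap.comp_apply, LinearMap.mulRight_apply]
    rw [← wd_append, pj_wd, pj_wd, wgt_append, wgt_cons, wgt_nil, ha]
    by_cases h : wgt v m = k
    · rw [if_pos (by omega), if_pos h, wd_append]
    · rw [if_neg (by omega), if_neg h, zero_mul]
  exact LinearMap.congr_fun this q

theorem pj_mul_letter_zero (v : Fin 2 → ℕ) (a : Fin 2) (ha : v a = 0) (k : ℕ) (q : A2) :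
    pj v k (q * wd [a]) = pj v k q * wd [a] := by
  have : (pj v k) ∘ₗ (LinearMap.mulRight F (wd [a] : A2)) =
      (LinearMap.mulRight F (wd [a] : A2)) ∘ₗ (pj v k) := by
    apply lin_ext
    intro m
    simp only [LinearMap.comp_apply, LinearMap.mulRight_apply]
    rw [← wd_append, pj_wd, pj_wd, wgt_append, wgt_cons, wgt_nil, ha, add_zero, add_zero]
    split_ifs
    · rw [wd_append]
    · rw [zero_mul]
  exact LinearMap.congr_fun this q

theorem xa_pow_wd (n : ℕ) : xa ^ n = wd (List.replicate n 0) := by
  induction n with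
  | zero => rw [pow_zero, List.replicate_zero, wd_nil]
  | succ n ih => rw [pow_succ', ih, List.replicate_succ, wd_cons]; rfl

theorem wgt_vs_replicate (n : ℕ) : wgt vs (List.replicate n 0) = 0 := by
  induction n with
  | zero => rfl
  | succ n ih => rw [List.replicate_succ, wgt_cons, ih]; rfl

theorem pj_vs_xa_pow (k n : ℕ) : pj vs k (xa ^ n) = if k = 0 then xa ^ n else 0 := by
  rw [xa_pow_wd, pj_wd, wgt_vs_replicate]
  by_cases h : k = 0
  · subst h; rfl
  · rw [if_neg h, if_neg (fun h' => h h'.symm)]

theorem cB_wd (k : ℕ) : cB k = ∑ i ∈ Finset.range (k + 1),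
    (wd (List.replicate i 0 ++ [1] ++ List.replicate (k - i) 0) : A2) := by
  rw [cB]
  apply Finset.sum_congr rfl
  intro i _
  rw [xa_pow_wd, xa_pow_wd, wd_append, wd_append]
  rfl

theorem pj_vs_cB (k n : ℕ) : pj vs k (cB n) = if k = 1 then cB n else 0 := by
  rw [cB_wd, map_sum]
  by_cases h : k = 1
  · subst h
    rw [if_pos rfl]
    apply Finset.sum_congr rfl
    intro i _
    rw [pj_wd, if_pos]
    rw [wgt_append, wgt_append, wgt_vs_replicate, wgt_vs_replicate]
    rfl
  · rw [if_neg h]
    apply Finset.sum_eq_zero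
    intro i _
    rw [pj_wd, if_neg]
    rw [wgt_append, wgt_append, wgt_vs_replicate, wgt_vs_replicate]
    intro h'
    apply h
    rw [← h']
    rfl

theorem pj_vs_zB (k n : ℕ) : pj vs k (zB n) = if k = 0 then
    ∑ i ∈ Finset.range (n + 1), xa ^ (i + 1) else if k = 1 then gB n else 0 := by
  rw [zB, map_sum]
  rcases k with _ | _ | k
  · rw [if_pos rfl]
    apply Finset.sum_congr rfl
    intro i _
    rw [map_add, pj_vs_cB, pj_vs_xa_pow, if_neg (by omega), if_pos rfl, zero_add]
  · rw [if_neg (by omega), if_pos rfl, gB]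
    apply Finset.sum_congr rfl
    intro i _
    rw [map_add, pj_vs_cB, pj_vs_xa_pow, if_pos rfl, if_neg (by omega), add_zero]
  · rw [if_neg (by omega), if_neg (by omega)]
    apply Finset.sum_eq_zero
    intro i _
    rw [map_add, pj_vs_cB, pj_vs_xa_pow, if_neg (by omega), if_neg (by omega), zero_add]

/-- The component of `s`-degree `n ≥` length of a product of `zB`s. -/
theorem pj_vs_zB_word (v : List ℕ) : ∀ n, v.length ≤ n →
    pj vs n ((v.map zB).prod) = if v.length = n then (v.map gB).prod else 0 := by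
  induction v with
  | nil =>
    intro n _
    rw [List.map_nil, List.map_nil, List.prod_nil, List.length_nil, ← wd_nil, pj_wd, wgt_nil]
  | cons k v ih =>
    intro n hn
    rw [List.length_cons] at hn
    obtain ⟨n, rfl⟩ : ∃ m, n = m + 1 := ⟨n - 1, by omega⟩
    rw [List.map_cons, List.prod_cons, pj_mul, Finset.sum_range_succ', Finset.sum_range_succ']
    have h0 : ∑ i ∈ Finset.range n, pj vs (i + 1 + 1) (zB k) *
        pj vs (n + 1 - (i + 1 + 1)) ((v.map zB).prod) = 0 := by
      apply Finset.sum_eq_zero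
      intro i _
      rw [pj_vs_zB, if_neg (by omega), if_neg (by omega), zero_mul]
    rw [h0, zero_add]
    have h1 : pj vs (n + 1 - 0) ((v.map zB).prod) = 0 := by
      rw [ih (n + 1 - 0) (by omega), if_neg (by omega)]
    rw [h1, mul_zero, add_zero, pj_vs_zB, if_neg (by omega), if_pos (by omega)]
    have h2 : n + 1 - (0 + 1) = n := by omega
    rw [h2, ih n (by omega), List.map_cons, List.prod_cons, List.length_cons]
    by_cases h : v.length = n
    · rw [if_pos h, if_pos (by omega)]
    · rw [if_neg h, if_neg (by omega), mul_zero]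

theorem pj_vs_evT_zB (n : ℕ) (P : T F) (hP : ∀ v, P v ≠ 0 → v.length ≤ n) :
    pj vs n (evT zB P) = evT gB (P.filter (fun v => v.length = n)) := by
  rw [evT, evT, Finsupp.linearCombination_apply, Finsupp.linearCombination_apply, Finsupp.sum,
    Finsupp.sum, map_sum, Finsupp.support_filter, Finset.sum_filter]
  apply Finset.sum_congr rfl
  intro v hv
  rw [Finsupp.mem_support_iff] at hv
  rw [map_smul, pj_vs_zB_word v n (hP v hv)]
  by_cases h : v.length = n
  · rw [if_pos h, if_pos h, Finsupp.filter_apply_pos (fun v : List ℕ => v.length = n) P h]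
  · rw [if_neg h, if_neg h, smul_zero]

theorem cf_evT_t23_word (v : List ℕ) (l : List (Fin 2)) (h : v.length ≠ l.length) :
    cf ((v.map t23).prod) l = 0 := by
  classical
  induction v generalizing l with
  | nil =>
    rw [List.map_nil, List.prod_nil, cf_one, if_neg]
    intro h'
    subst h'
    exact h rfl
  | cons k v ih =>
    rw [List.map_cons, List.prod_cons]
    rcases l with _ | ⟨a, l⟩
    · unfold t23
      split_ifs
      · exact cf_letter_mul_nil _ _
      · exact cf_letter_mul_nil _ _
      · rw [zero_mul]; rfl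
    · have h' : v.length ≠ l.length := by
        intro h2
        apply h
        rw [List.length_cons, List.length_cons, h2]
      unfold t23
      split_ifs
      · rw [xa, cf_letter_mul_cons]
        split_ifs
        · exact ih l h'
        · rfl
      · rw [xb, cf_letter_mul_cons]
        split_ifs
        · exact ih l h'
        · rfl
      · rw [zero_mul]; rfl

theorem cf_evT_t23 (P : T F) (l : List (Fin 2)) (hP : ∀ v, P v ≠ 0 → v.length ≠ l.length) :
    cf (evT t23 P) l = 0 := by
  rw [evT, Finsupp.linearCombination_apply, Finsupp.sum, cf_sum]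
  apply Finset.sum_eq_zero
  intro v hv
  rw [Finsupp.mem_support_iff] at hv
  rw [cf_smul, cf_evT_t23_word v l (hP v hv), mul_zero]

theorem T_eq_zero {P : T F} (h : ∀ v, P v ≠ 0 → False) : P = 0 := by
  ext v
  by_contra h'
  exact h v h'

/-- The induction for step D. -/
theorem stepD_aux {w : ℕ} (hw4 : 4 ≤ w) : ∀ (R : ℕ) (P : T F), (∀ v, P v ≠ 0 → v.length ≤ R) →
    (∀ v, P v ≠ 0 → v.sum + 2 * v.length = w) → evT zB P ∈ LA F (Fin 2) →
    (∀ v, P v ≠ 0 → ∀ k ∈ v, k ≤ 1) ∧ evT t23 P ∈ LA F (Fin 2) := by
  classical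
  intro R
  induction R with
  | zero =>
    intro P hR hP _
    have h0 : P = 0 := by
      apply T_eq_zero
      intro v hv
      have h1 := hR v hv
      have h2 := hP v hv
      have h3 : v = [] := List.length_eq_zero_iff.mp (by omega)
      subst h3
      simp at h2
      omega
    subst h0
    refine ⟨fun v hv => absurd rfl hv, ?_⟩
    rw [map_zero]
    exact (LA F (Fin 2)).zero_mem
  | succ R ih =>
    intro P hR hP h
    set PR : T F := P.filter (fun v => v.length = R + 1) with hPR
    have hPR1 : ∀ v, PR v ≠ 0 → P v ≠ 0 ∧ v.length = R + 1 := by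
      intro v hv
      rw [hPR, Finsupp.filter_apply] at hv
      by_cases h1 : v.length = R + 1
      · rw [if_pos h1] at hv; exact ⟨hv, h1⟩
      · rw [if_neg h1] at hv; exact absurd rfl hv
    have hg : evT gB PR ∈ LA F (Fin 2) := by
      rw [hPR, ← pj_vs_evT_zB (R + 1) P hR]
      exact pj_mem _ _ h
    set D : ℕ := w - 2 * (R + 1) with hD
    have hPRD : ∀ v, PR v ≠ 0 → v.length = R + 1 ∧ v.sum = D := by
      intro v hv
      obtain ⟨h1, h2⟩ := hPR1 v hv
      have h3 := hP v h1
      refine ⟨h2, ?_⟩
      omega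
    have hle : ∀ v, PR v ≠ 0 → ∀ k ∈ v, k ≤ 1 := by
      intro v hv
      by_cases hD1 : 1 ≤ D
      · exact C0g hD1 PR hPRD hg v hv
      · intro k hk
        have h1 := (hPRD v hv).2
        have h2 := List.single_le_sum (fun x _ => Nat.zero_le x) k hk
        omega
    have hcB : evT cB PR ∈ LA F (Fin 2) := by
      rw [← pjx_evT_gB (D := D) PR (fun v hv => (hPRD v hv).2)]
      exact pj_mem _ _ hg
    have h23 : evT t23 PR ∈ LA F (Fin 2) := yrep PR hle hcB
    have hz : evT zB PR ∈ LA F (Fin 2) := by
      rcases Nat.eq_zero_or_pos R with hR0 | hR0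
      · -- length one: `PR = 0`
        have h0 : PR = 0 := by
          apply T_eq_zero
          intro v hv
          obtain ⟨h1, h2⟩ := hPRD v hv
          subst hR0
          obtain ⟨k, rfl⟩ : ∃ k, v = [k] := List.length_eq_one_iff.mp (by omega)
          have h3 := hle [k] hv k (by simp)
          have h4 : k = D := by simpa using h2
          omega
        rw [h0, map_zero]
        exact (LA F (Fin 2)).zero_mem
      · have h1 := zB_lie h23
        rw [cf_evT_t23 PR [1] (fun v hv => by
          rw [(hPRD v hv).1, List.length_singleton]; omega), zero_smul, add_zero] at h1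
        rw [evT_eq_lf zB PR hle]
        exact h1
    have hP' : evT zB (P - PR) ∈ LA F (Fin 2) := by
      rw [map_sub]
      exact (LA F (Fin 2)).sub_mem h hz
    have hsub : ∀ v, (P - PR) v ≠ 0 → P v ≠ 0 ∧ v.length ≤ R := by
      intro v hv
      rw [Finsupp.sub_apply, hPR, Finsupp.filter_apply] at hv
      by_cases h1 : v.length = R + 1
      · rw [if_pos h1, sub_self] at hv; exact absurd rfl hv
      · rw [if_neg h1, sub_zero] at hv
        have := hR v hv
        exact ⟨hv, by omega⟩
    obtain ⟨i1, i2⟩ := ih (P - PR) (fun v hv => (hsub v hv).2)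
      (fun v hv => hP v (hsub v hv).1) hP'
    refine ⟨?_, ?_⟩
    · intro v hv
      by_cases h1 : v.length = R + 1
      · apply hle v
        rw [hPR, Finsupp.filter_apply, if_pos h1]
        exact hv
      · apply i1 v
        rw [Finsupp.sub_apply, hPR, Finsupp.filter_apply, if_neg h1, sub_zero]
        exact hv
    · have h2 : P = (P - PR) + PR := by rw [sub_add_cancel]
      rw [h2, map_add]
      exact (LA F (Fin 2)).add_mem i2 h23

end SD

open SD in
/-- Step D. -/
theorem stepD {w : ℕ} (hw4 : 4 ≤ w) (P : T F) (hP : ∀ v, P v ≠ 0 → v.sum + 2 * v.length = w)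
    (h : evT zB P ∈ LA F (Fin 2)) : (∀ v, P v ≠ 0 → ∀ k ∈ v, k ≤ 1) ∧
      evT t23 P ∈ LA F (Fin 2) :=
  stepD_aux hw4 w P (fun v hv => by have := hP v hv; omega) hP h

end

end Pool.Agent.ECK
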