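import Pool.Agent.ECK.StepC
import Pool.Agent.ECK.StepD
import Pool.Agent.ECK.LieSh

/-!
# The unit-free part of the double shuffle Lie algebra modulo 2

For `c ∈ redM w 2`, the function `k ↦ c(∏ x₀^{k_i - 1} x₁)` on the compositions of `w` without `1`
vanishes unless all parts are `2` or `3`, and it is a Lie element in two letters.
-/

set_option autoImplicit false

namespace Pool.Agent.ECK

open Pool.Agent.ECB Pool.Agent.H4DM
open Pool.Agent.ECU (T L)

attribute [local instance] LieRing.ofAssociativeRing

noncomputable section

variable {w : ℕ} {c : Fn}

theorem length_cy (v : List ℕ) : (cy v).length = v.sum + 2 * v.length := by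
  induction v with
  | nil => rfl
  | cons k v ih =>
    rw [cy, List.length_append, List.length_replicate, List.length_cons, ih, List.sum_cons,
      List.length_cons]
    ring

theorem cf_t23 (P : T F) (u : List (Fin 2)) :
    cf (evT t23 P) u = P (u.map (fun i => i.val)) := by
  have : (cfL u : A2 →ₗ[F] F) ∘ₗ (evT t23) = Finsupp.lapply (u.map (fun i : Fin 2 => i.val)) := by
    apply Pool.Agent.ECU.hom_ext
    intro v
    rw [LinearMap.comp_apply, evT_e, cfL_apply, Finsupp.lapply_apply, Pool.Agent.ECU.e,
      Finsupp.single_apply]
    induction v generalizing u with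
    | nil =>
      rw [List.map_nil, List.prod_nil, cf_one]
      rcases u with _ | ⟨a, u⟩
      · rfl
      · rw [if_neg (by simp), if_neg (by simp)]
    | cons k v ih =>
      rw [List.map_cons, List.prod_cons]
      rcases u with _ | ⟨a, u⟩
      · rw [List.map_nil, if_neg (by simp), t23]
        split_ifs
        · rw [xa, cf_letter_mul_nil]
        · rw [xb, cf_letter_mul_nil]
        · rw [zero_mul, cf_zero]
      · rw [List.map_cons, t23]
        by_cases h0 : k = 0
        · subst h0
          rw [if_pos rfl, xa, cf_letter_mul_cons, ih u]
          fin_cases a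
          · simp
          · simp
        · rw [if_neg h0]
          by_cases h1 : k = 1
          · subst h1
            rw [if_pos rfl, xb, cf_letter_mul_cons, ih u]
            fin_cases a
            · simp
            · simp
          · rw [if_neg h1, zero_mul, cf_zero, if_neg]
            intro h
            have h2 := (List.cons.inj h).1
            have h3 := a.isLt
            omega
  exact LinearMap.congr_fun this P

/-- The unit-free part of an element of `redM w 2` vanishes on the compositions with a part `≥ 4`
and is an (ordinary) Lie element on the words in the letters `2, 3`. -/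
theorem unitfree (hc : c ∈ redM w 2) (hw3 : 3 ≤ w) :
    (∀ v : List ℕ, (∃ k ∈ v, 2 ≤ k) → c (cy v) = 0) ∧
      ∃ q ∈ LA F (Fin 2), ∀ u : List (Fin 2), cf q u = c (cy (u.map (fun i => i.val))) := by
  rcases Nat.lt_or_ge w 4 with hw | hw4
  · have hw' : w = 3 := by omega
    subst hw'
    constructor
    · rintro v ⟨k, hk, h2⟩
      apply redM_length hc
      rw [length_cy]
      have h1 := List.single_le_sum (l := v) (by intros; omega) k hk
      have h3 : 1 ≤ v.length := List.length_pos_of_mem hk
      omega
    · refine ⟨c (cy [1]) • xb, (LA F (Fin 2)).smul_mem _ (letter_mem 1), ?_⟩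
      intro u
      rw [cf_smul, xb, cf_wd]
      by_cases hu : u = [1]
      · subst hu; simp
      · rw [if_neg (fun h => hu h.symm), mul_zero]
        symm
        apply redM_length hc
        rw [length_cy, List.length_map]
        rcases u with _ | ⟨a, _ | ⟨b, u⟩⟩
        · simp
        · fin_cases a
          · simp
          · exact absurd rfl hu
        · simp only [List.length_cons]
          omega
  · have hb1 : cf (Tb w c) [1] = 0 := by
      rw [Tb, cf_mk, if_neg]
      simp only [List.length_singleton]
      omega
    obtain ⟨pb, hpb, -, hU⟩ := lie1 (Tb_mem hc) hb1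
    obtain ⟨P, hP, hz⟩ := stepC hc hw4 hU
    rw [hz] at hpb
    have hlen : ∀ v, P v ≠ 0 → v.sum + 2 * v.length = w := by
      intro v hv
      rw [hP] at hv
      by_contra hne
      apply hv
      apply redM_length hc
      rw [length_cy]
      exact hne
    obtain ⟨h1, h2⟩ := stepD hw4 P hlen hpb
    refine ⟨?_, evT t23 P, h2, ?_⟩
    · rintro v ⟨k, hk, hk2⟩
      rw [← hP]
      by_contra hne
      have := h1 v hne k hk
      omega
    · intro u
      rw [cf_t23, hP]

end

end Pool.Agent.ECK
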