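import Pool.Agent.ECK.Defs
import Pool.Agent.ECU.Inter

/-!
# The kernel of `d₀` on `𝔽₂⟨x, s⟩`, and the degrees of `evT cB P`
-/

set_option autoImplicit false

namespace Pool.Agent.ECK

open Pool.Agent.ECU (T)

noncomputable section

/-! ### Homogeneous elements -/

/-- All words of `p` have weight `k`. -/
def Hom (v : Fin 2 → ℕ) (k : ℕ) (p : A2) : Prop := ∀ l, cf p l ≠ 0 → wgt v l = k

theorem Hom_wd (v : Fin 2 → ℕ) (l : List (Fin 2)) : Hom v (wgt v l) (wd l) := by
  intro m hm
  rw [cf_wd] at hm
  by_cases h : l = m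
  · rw [h]
  · rw [if_neg h] at hm; exact absurd rfl hm

theorem Hom_one (v : Fin 2 → ℕ) : Hom v 0 (1 : A2) := by
  rw [← wd_nil]; exact Hom_wd v []

theorem Hom_mul {v : Fin 2 → ℕ} {j k : ℕ} {p q : A2} (hp : Hom v j p) (hq : Hom v k q) :
    Hom v (j + k) (p * q) := by
  intro l hl
  rw [cf_mul] at hl
  obtain ⟨i, _, hi⟩ := Finset.exists_ne_zero_of_sum_ne_zero hl
  have h1 : cf p (l.take i) ≠ 0 := left_ne_zero_of_mul hi
  have h2 : cf q (l.drop i) ≠ 0 := right_ne_zero_of_mul hi
  have h3 := hp _ h1
  have h4 := hq _ h2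
  have h5 : wgt v l = wgt v (l.take i) + wgt v (l.drop i) := by
    rw [← wgt_append, List.take_append_drop]
  omega

theorem Hom_sum {v : Fin 2 → ℕ} {k : ℕ} {ι : Type*} (s : Finset ι) (f : ι → A2)
    (h : ∀ i ∈ s, Hom v k (f i)) : Hom v k (∑ i ∈ s, f i) := by
  intro l hl
  rw [cf_sum] at hl
  obtain ⟨i, hi, hi'⟩ := Finset.exists_ne_zero_of_sum_ne_zero hl
  exact h i hi l hi'

theorem Hom_pj {v : Fin 2 → ℕ} {k : ℕ} {p : A2} (hp : Hom v k p) (j : ℕ) :
    pj v j p = if k = j then p else 0 := by
  apply cf_ext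
  intro l
  rw [cf_pj]
  by_cases h : cf p l = 0
  · rw [h]
    split_ifs <;> simp [h]
  · have h1 := hp l h
    by_cases hj : k = j
    · rw [if_pos (h1.trans hj), if_pos hj]
    · rw [if_neg (by omega), if_neg hj]; rfl

theorem Hom_xa_pow (v : Fin 2 → ℕ) (k : ℕ) : Hom v (k * v 0) (xa ^ k) := by
  induction k with
  | zero => rw [pow_zero, Nat.zero_mul]; exact Hom_one v
  | succ k ih =>
    have h := Hom_mul ih (Hom_wd v [0])
    have e1 : (k + 1) * v 0 = k * v 0 + wgt v [0] := by simp [Nat.succ_mul]
    rw [pow_succ, e1]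
    exact h

theorem Hom_cB (v : Fin 2 → ℕ) (k : ℕ) : Hom v (k * v 0 + v 1) (cB k) := by
  apply Hom_sum
  intro i hi
  have hi' : i ≤ k := by simpa [Nat.lt_succ_iff] using hi
  have h := Hom_mul (Hom_mul (Hom_xa_pow v i) (Hom_wd v [1])) (Hom_xa_pow v (k - i))
  have e1 : k * v 0 + v 1 = i * v 0 + wgt v [1] + (k - i) * v 0 := by
    have : k * v 0 = i * v 0 + (k - i) * v 0 := by
      rw [← Nat.add_mul, Nat.add_sub_cancel' hi']
    simp only [wgt_cons, wgt_nil]
    omega
  rw [e1]
  exact h

theorem Hom_prod_cB (v : Fin 2 → ℕ) (w : List ℕ) :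
    Hom v (w.sum * v 0 + w.length * v 1) ((w.map cB).prod) := by
  induction w with
  | nil => simpa using Hom_one v
  | cons k w ih =>
    rw [List.map_cons, List.prod_cons]
    have h := Hom_mul (Hom_cB v k) ih
    have e1 : (k :: w).sum * v 0 + (k :: w).length * v 1 =
        k * v 0 + v 1 + (w.sum * v 0 + w.length * v 1) := by
      rw [List.sum_cons, List.length_cons]; ring
    rw [e1]
    exact h

theorem evT_single {A : Type} [Ring A] [Algebra F A] (β : ℕ → A) (w : List ℕ) (r : F) :
    evT β (Finsupp.single w r) = r • (w.map β).prod := by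
  simp [evT, Finsupp.linearCombination_single]

/-- `s`-degree of `evT cB P`. -/
theorem pj_evT_cB (K : ℕ) (P : T F) : pj vs K (evT cB P) =
    evT cB (P.filter (fun v => v.length = K)) := by
  induction P using Finsupp.induction_linear with
  | zero => rw [Finsupp.filter_zero, map_zero, map_zero]
  | add P Q hP hQ => rw [map_add, map_add, hP, hQ, Finsupp.filter_add, map_add]
  | single w r =>
    have h := Hom_prod_cB vs w
    rw [evT_single, map_smul, Hom_pj h]
    have h0 : w.sum * vs 0 + w.length * vs 1 = w.length := by simp [vs]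
    rw [h0]
    by_cases hw : w.length = K
    · rw [if_pos hw, Finsupp.filter_single_of_pos (fun v : List ℕ => v.length = K) hw, evT_single]
    · rw [if_neg hw, Finsupp.filter_single_of_neg (fun v : List ℕ => v.length = K) hw, smul_zero,
        map_zero]

/-- `x`-degree of `evT cB P`. -/
theorem pjx_evT_cB (k : ℕ) (P : T F) : pj vx k (evT cB P) =
    evT cB (P.filter (fun v => v.sum = k)) := by
  induction P using Finsupp.induction_linear with
  | zero => rw [Finsupp.filter_zero, map_zero, map_zero]
  | add P Q hP hQ => rw [map_add, map_add, hP, hQ, Finsupp.filter_add, map_add]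
  | single w r =>
    have h := Hom_prod_cB vx w
    rw [evT_single, map_smul, Hom_pj h]
    have h0 : w.sum * vx 0 + w.length * vx 1 = w.sum := by simp [vx]
    rw [h0]
    by_cases hw : w.sum = k
    · rw [if_pos hw, Finsupp.filter_single_of_pos (fun v : List ℕ => v.sum = k) hw, evT_single]
    · rw [if_neg hw, Finsupp.filter_single_of_neg (fun v : List ℕ => v.sum = k) hw, smul_zero,
        map_zero]

/-! ### `d₀` vanishes on the image of `evT cB` -/

theorem d0_pow_xa (k : ℕ) : d0 (xa ^ (k + 1)) = cB k := by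
  induction k with
  | zero => simp [cB]
  | succ k ih =>
    rw [pow_succ', d0_mul, ih, d0_xa, cB, cB, Finset.sum_range_succ' _ (k + 1), Finset.mul_sum,
      add_comm]
    congr 1
    · apply Finset.sum_congr rfl
      intro i _
      rw [pow_succ', Nat.add_sub_add_right]
      noncomm_ring
    · rw [pow_zero, one_mul, Nat.sub_zero]

theorem d0_one : d0 (1 : A2) = 0 := der_one _

theorem d0_d0 (p : A2) : d0 (d0 p) = 0 := by
  have : d0 ∘ₗ d0 = 0 := by
    apply lin_ext
    intro l
    rw [LinearMap.comp_apply, LinearMap.zero_apply]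
    induction l with
    | nil => rw [wd_nil, d0_one, map_zero]
    | cons a l ih =>
      have ha : d0 (d0 (wd [a])) = 0 := by
        fin_cases a
        · show d0 (d0 xa) = 0
          rw [d0_xa, d0_xb]
        · show d0 (d0 xb) = 0
          rw [d0_xb, map_zero]
      rw [wd_cons, d0_mul, map_add, d0_mul, d0_mul, ha, ih, zero_mul, mul_zero, zero_add, add_zero]
      exact add_self _
  exact LinearMap.congr_fun this p

theorem d0_cB (k : ℕ) : d0 (cB k) = 0 := by
  rw [← d0_pow_xa, d0_d0]

theorem d0_prod_cB (w : List ℕ) : d0 ((w.map cB).prod) = 0 := by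
  induction w with
  | nil => simpa using d0_one
  | cons k w ih =>
    rw [List.map_cons, List.prod_cons, d0_mul, d0_cB, ih, zero_mul, mul_zero, add_zero]

theorem d0_evT_cB (P : T F) : d0 (evT cB P) = 0 := by
  have : d0 ∘ₗ (evT cB) = 0 := by
    apply Pool.Agent.ECU.hom_ext
    intro w
    rw [LinearMap.comp_apply, evT_e, d0_prod_cB]; rfl
  exact LinearMap.congr_fun this P

/-! ### Normal form: `A2 = ∑ evT cB (T) x^j` -/

/-- `Φ f = ∑_j evT cB (f j) x^j`. -/
def Phi : (ℕ →₀ T F) →ₗ[F] A2 :=
  Finsupp.lsum F (fun j => (LinearMap.mulRight F (xa ^ j)) ∘ₗ (evT cB))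

theorem Phi_single (j : ℕ) (P : T F) : Phi (Finsupp.single j P) = evT cB P * xa ^ j := by
  simp [Phi]

theorem evT_Ap (k : ℕ) (P : T F) : evT cB (Pool.Agent.ECU.Ap k P) = evT cB P * cB k := by
  have : (evT cB) ∘ₗ (Pool.Agent.ECU.Ap k) = (LinearMap.mulRight F (cB k)) ∘ₗ (evT cB) := by
    apply Pool.Agent.ECU.hom_ext
    intro w
    simp only [LinearMap.comp_apply, LinearMap.mulRight_apply]
    rw [Pool.Agent.ECU.Ap_e, evT_e, evT_e, List.map_append, List.prod_append]
    simp
  exact LinearMap.congr_fun this P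

theorem mem_step (j : ℕ) : ∀ (P : T F) (m : ℕ),
    evT cB P * (xa ^ j * xb * xa ^ m) ∈ LinearMap.range Phi := by
  induction j using Nat.strong_induction_on with
  | _ j ih =>
    intro P m
    have h1 : xa ^ j * xb * xa ^ m = cB j * xa ^ m -
        ∑ i ∈ Finset.range j, xa ^ i * xb * xa ^ (j - i + m) := by
      rw [cB, Finset.sum_range_succ, Nat.sub_self, pow_zero, mul_one, add_mul, Finset.sum_mul,
        eq_sub_iff_add_eq, add_comm]
      congr 1
      apply Finset.sum_congr rfl
      intro i _
      rw [pow_add]; noncomm_ring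
    rw [h1, mul_sub, Finset.mul_sum]
    apply Submodule.sub_mem
    · refine ⟨Finsupp.single m (Pool.Agent.ECU.Ap j P), ?_⟩
      rw [Phi_single, evT_Ap, mul_assoc]
    · apply Submodule.sum_mem
      intro i hi
      exact ih i (Finset.mem_range.mp hi) P _

theorem mem_letter (a : Fin 2) (z : A2) (hz : z ∈ LinearMap.range Phi) :
    z * wd [a] ∈ LinearMap.range Phi := by
  obtain ⟨f, rfl⟩ := hz
  induction f using Finsupp.induction_linear with
  | zero => rw [map_zero, zero_mul]; exact Submodule.zero_mem _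
  | add f g hf hg => rw [map_add, add_mul]; exact Submodule.add_mem _ hf hg
  | single j P =>
    rw [Phi_single]
    fin_cases a
    · refine ⟨Finsupp.single (j + 1) P, ?_⟩
      rw [Phi_single, pow_succ, ← mul_assoc]; rfl
    · have h := mem_step j P 0
      rw [pow_zero, mul_one, ← mul_assoc] at h
      exact h

theorem Phi_surjective (z : A2) : ∃ f, Phi f = z := by
  suffices h : z ∈ LinearMap.range Phi from h
  induction z using fa_induction with
  | hw l =>
    induction l using List.reverseRecOn with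
    | nil =>
      refine ⟨Finsupp.single 0 (Pool.Agent.ECU.e []), ?_⟩
      rw [Phi_single, evT_e, pow_zero, wd_nil]
      simp
    | append_singleton l a ih =>
      rw [wd_append]
      exact mem_letter a _ ih
  | zero => exact Submodule.zero_mem _
  | add a b ha hb => exact Submodule.add_mem _ ha hb
  | smul c a ha => exact Submodule.smul_mem _ _ ha

/-- `∑_{j ≥ 1} f_j c_j`. -/
def Psi : (ℕ →₀ T F) →ₗ[F] T F :=
  Finsupp.lsum F (fun j => if j = 0 then 0 else Pool.Agent.ECU.Ap (j - 1))

theorem Psi_single (j : ℕ) (P : T F) :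
    Psi (Finsupp.single j P) = if j = 0 then 0 else Pool.Agent.ECU.Ap (j - 1) P := by
  simp only [Psi, Finsupp.lsum_single]
  split_ifs <;> rfl

theorem d0_Phi (f : ℕ →₀ T F) : d0 (Phi f) = evT cB (Psi f) := by
  induction f using Finsupp.induction_linear with
  | zero => simp
  | add f g hf hg => rw [map_add, map_add, hf, hg, map_add, map_add]
  | single j P =>
    rw [Phi_single, Psi_single, d0_mul, d0_evT_cB, zero_mul, zero_add]
    rcases j with _ | j
    · rw [pow_zero, d0_one, mul_zero, if_pos rfl, map_zero]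
    · rw [d0_pow_xa, if_neg (by omega), Nat.add_sub_cancel, evT_Ap]

theorem Psi_apply (f : ℕ →₀ T F) (j : ℕ) (v : List ℕ) : Psi f (v ++ [j]) = f (j + 1) v := by
  induction f using Finsupp.induction_linear with
  | zero => simp
  | add f g hf hg =>
    rw [map_add, Finsupp.add_apply, hf, hg, Finsupp.add_apply, Finsupp.add_apply]
  | single i P =>
    rw [Psi_single]
    rcases i with _ | i
    · rw [if_pos rfl, Finsupp.single_apply, if_neg (by omega)]; rfl
    · rw [if_neg (by omega), Nat.add_sub_cancel, Finsupp.single_apply]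
      by_cases h : i = j
      · subst h
        rw [if_pos rfl, Pool.Agent.ECU.Ap_apply]
      · rw [if_neg (by omega), Pool.Agent.ECU.Ap_apply_ne (fun h' => h h'.symm)]; rfl

/-- The kernel of `d₀` is the image of `evT cB` (given the injectivity of `evT cB`). -/
theorem ker_d0_of (hinj : Function.Injective (evT cB)) {z : A2} (hz : d0 z = 0) :
    ∃ P : T F, z = evT cB P := by
  obtain ⟨f, rfl⟩ := Phi_surjective z
  rw [d0_Phi] at hz
  have h0 : Psi f = 0 := hinj (by rw [hz, map_zero])
  have hf : f = Finsupp.single 0 (f 0) := by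
    apply Finsupp.ext
    intro j
    rcases j with _ | j
    · rw [Finsupp.single_eq_same]
    · rw [Finsupp.single_apply, if_neg (by omega)]
      apply Finsupp.ext
      intro v
      rw [← Psi_apply, h0]; rfl
  refine ⟨f 0, ?_⟩
  rw [hf, Phi_single, pow_zero, mul_one, Finsupp.single_eq_same]

end

end Pool.Agent.ECK
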