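import Pool.Agent.ECK.Defs

/-!
# Universal Lie lemmas (the part independent of the other modules)
-/

set_option autoImplicit false

namespace Pool.Agent.ECK

open Pool.Agent.ECB Pool.Agent.H4DM
open Pool.Agent.ECU (T)

attribute [local instance] LieRing.ofAssociativeRing

noncomputable section

/-! ### The map `kap` -/

theorem kapW_add (W : List (Fin 2)) (g h : Fn) : kapW W (g + h) = kapW W g + kapW W h := by
  induction W generalizing g h with
  | nil => rfl
  | cons a W ih =>
    have e (b : Fin 2) : dq b (g + h) = dq b g + dq b h := rfl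
    rw [kapW, kapW, kapW, e, e, ih, ih]
    split_ifs <;> ring

theorem kapW_zero (W : List (Fin 2)) : kapW W 0 = 0 := by
  induction W with
  | nil => rfl
  | cons a W ih =>
    have e (b : Fin 2) : dq b (0 : Fn) = 0 := rfl
    rw [kapW, e, e, ih]
    split_ifs <;> ring

theorem kapW_smul (W : List (Fin 2)) (x : F) (g : Fn) : kapW W (x • g) = x * kapW W g := by
  induction W generalizing g with
  | nil => rfl
  | cons a W ih =>
    have e (b : Fin 2) : dq b (x • g) = x • dq b g := rfl
    rw [kapW, kapW, e, e, ih, ih]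
    split_ifs <;> ring

theorem kapW_congr (W : List (Fin 2)) {g h : Fn} (H : ∀ l, l.length = W.length → g l = h l) :
    kapW W g = kapW W h := by
  induction W generalizing g h with
  | nil => exact H [] rfl
  | cons a W ih =>
    have e (b : Fin 2) : kapW W (dq b g) = kapW W (dq b h) := by
      apply ih
      intro l hl
      exact H (b :: l) (by rw [List.length_cons, List.length_cons, hl])
    rw [kapW, kapW, e, e]

/-- `p ↦ kap (cf p) W` as a linear functional. -/
def kapL (W : List (Fin 2)) : A2 →ₗ[F] F where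
  toFun p := kapW W (cf p)
  map_add' p q := by
    have : cf (p + q) = cf p + cf q := rfl
    rw [this, kapW_add]
  map_smul' x p := by
    have : cf (x • p) = x • cf p := rfl
    rw [this, kapW_smul]; rfl

theorem kapL_apply (W : List (Fin 2)) (p : A2) : kapL W p = kapW W (cf p) := rfl

private theorem dq_wd (a b : Fin 2) (l : List (Fin 2)) :
    dq b (cf (wd (a :: l) : A2)) = if a = b then cf (wd l : A2) else 0 := by
  funext t
  show cf (wd (a :: l) : A2) (b :: t) = _
  rw [cf_wd]
  by_cases h : a = b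
  · subst h
    rw [if_pos rfl, cf_wd]
    by_cases h2 : l = t
    · subst h2; simp
    · rw [if_neg h2, if_neg]
      intro h3
      exact h2 (List.cons.inj h3).2
  · rw [if_neg h, if_neg]
    · rfl
    · intro h3
      exact h (List.cons.inj h3).1

theorem cf_kap (p : A2) (W : List (Fin 2)) : cf (lf ![xa + xb, xb] p) W = kapW W (cf p) := by
  have key : (cfL W : A2 →ₗ[F] F) ∘ₗ (lf ![xa + xb, xb] : A2 →ₐ[F] A2).toLinearMap = kapL W := by
    apply lin_ext
    intro l
    simp only [LinearMap.comp_apply, AlgHom.toLinearMap_apply, cfL_apply, kapL_apply]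
    induction l generalizing W with
    | nil =>
      rw [wd_nil, map_one, ← wd_nil]
      rcases W with _ | ⟨b, W⟩
      · rfl
      · rw [cf_wd, if_neg (by simp), kapW]
        have e (a : Fin 2) : dq a (cf (wd ([] : List (Fin 2)) : A2)) = 0 := by
          funext t
          show cf (wd ([] : List (Fin 2)) : A2) (a :: t) = 0
          rw [cf_wd, if_neg (by simp)]
        rw [e, e, kapW_zero]
        simp
    | cons a l ih =>
      rw [wd_cons a l, map_mul, lf_letter]
      rcases W with _ | ⟨b, W⟩
      · have e : cf ((![xa + xb, xb] : Fin 2 → A2) a * lf ![xa + xb, xb] (wd l : A2)) [] = 0 := by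
          fin_cases a
          · show cf ((xa + xb) * lf ![xa + xb, xb] (wd l : A2)) [] = 0
            rw [add_mul, cf_add]
            unfold xa xb
            rw [cf_letter_mul_nil, cf_letter_mul_nil, add_zero]
          · show cf (xb * lf ![xa + xb, xb] (wd l : A2)) [] = 0
            unfold xb
            rw [cf_letter_mul_nil]
        rw [e]
        show _ = cf (wd [a] * wd l : A2) []
        rw [cf_letter_mul_nil]
      · rw [← wd_cons, kapW, dq_wd, dq_wd]
        fin_cases a
        · show cf ((xa + xb) * lf ![xa + xb, xb] (wd l : A2)) (b :: W) = _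
          rw [add_mul, cf_add]
          have e0 : cf (xa * lf ![xa + xb, xb] (wd l : A2)) (b :: W) =
              if (0 : Fin 2) = b then cf (lf ![xa + xb, xb] (wd l : A2)) W else 0 :=
            cf_letter_mul_cons 0 b W _
          have e1 : cf (xb * lf ![xa + xb, xb] (wd l : A2)) (b :: W) =
              if (1 : Fin 2) = b then cf (lf ![xa + xb, xb] (wd l : A2)) W else 0 :=
            cf_letter_mul_cons 1 b W _
          rw [e0, e1, ih]
          fin_cases b <;> simp [kapW_zero]
        · show cf (xb * lf ![xa + xb, xb] (wd l : A2)) (b :: W) = _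
          have e1 : cf (xb * lf ![xa + xb, xb] (wd l : A2)) (b :: W) =
              if (1 : Fin 2) = b then cf (lf ![xa + xb, xb] (wd l : A2)) W else 0 :=
            cf_letter_mul_cons 1 b W _
          rw [e1, ih]
          fin_cases b <;> simp [kapW_zero]
  exact LinearMap.congr_fun key p

theorem kap_mk (w : ℕ) (g : Fn) : lf ![xa + xb, xb] (mk w g) = mk w (kap g) := by
  apply cf_ext
  intro W
  rw [cf_kap, cf_mk]
  have e : cf (mk w g) = fun l => if l.length = w then g l else 0 := by
    funext l; exact cf_mk w g l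
  rw [e]
  by_cases h : W.length = w
  · rw [if_pos h]
    apply kapW_congr
    intro l hl
    rw [if_pos (hl.trans h)]
  · rw [if_neg h]
    refine (kapW_congr W (h := 0) ?_).trans (kapW_zero W)
    intro l hl
    rw [if_neg (fun h' => h (hl ▸ h'))]
    rfl

theorem mk_add (w : ℕ) (g h : Fn) : mk w (g + h) = mk w g + mk w h := by
  apply cf_ext
  intro l
  rw [cf_add, cf_mk, cf_mk, cf_mk]
  split_ifs
  · rfl
  · ring

theorem Ta_eq (w : ℕ) (c : Fn) : Ta w c = mk w c + lf ![xa + xb, xb] (mk w c) := by
  rw [kap_mk, ← mk_add]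
  rfl

theorem Tb_eq (w : ℕ) (c : Fn) : Tb w c = lf ![xa + xb, xb] (mk w c) := by
  rw [kap_mk]
  unfold Tb
  congr 1
  funext W
  show (if (1 : Fin 2) = 0 then c W else 0) + kap c W = kap c W
  rw [if_neg (by decide), zero_add]

private theorem kap_letters (a : Fin 2) : (![xa + xb, xb] : Fin 2 → A2) a ∈ LA F (Fin 2) := by
  fin_cases a
  · exact (LA F (Fin 2)).add_mem (letter_mem 0) (letter_mem 1)
  · exact letter_mem 1

theorem Ta_mem' {w : ℕ} {c : Fn} (h : mk w c ∈ LA F (Fin 2)) : Ta w c ∈ LA F (Fin 2) := by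
  rw [Ta_eq]
  exact (LA F (Fin 2)).add_mem h (lf_mem _ kap_letters h)

theorem Tb_mem' {w : ℕ} {c : Fn} (h : mk w c ∈ LA F (Fin 2)) : Tb w c ∈ LA F (Fin 2) := by
  rw [Tb_eq]
  exact lf_mem _ kap_letters h

theorem SP' {w : ℕ} {c : Fn} (hcyc : ∀ u v : List (Fin 2), Nf c (u ++ v) = Nf c (v ++ u)) :
    xa * Ta w c + Ta w c * xa + (xb * Tb w c + Tb w c * xb) = 0 := by
  apply cf_ext
  intro l
  rw [cf_zero, cf_add, cf_add, cf_add]
  rcases l with _ | ⟨a, l⟩
  · unfold xa xb
    rw [cf_letter_mul_nil, cf_mul_letter_nil, cf_letter_mul_nil, cf_mul_letter_nil]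
    ring
  · have hleft : cf (xa * Ta w c) (a :: l) + cf (xb * Tb w c) (a :: l) =
        if l.length = w then Nf c (a :: l) else 0 := by
      unfold xa xb
      rw [cf_letter_mul_cons, cf_letter_mul_cons, Ta, Tb, cf_mk, cf_mk]
      fin_cases a <;> simp
    obtain ⟨m, b, hm⟩ : ∃ m b, a :: l = m ++ [b] :=
      ⟨(a :: l).dropLast, (a :: l).getLast (by simp), (List.dropLast_append_getLast _).symm⟩
    have hlen : l.length = m.length := by
      have := congrArg List.length hm
      simp at this
      exact this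
    have hright : cf (Ta w c * xa) (a :: l) + cf (Tb w c * xb) (a :: l) =
        if l.length = w then Nf c (b :: m) else 0 := by
      rw [hm, hlen]
      unfold xa xb
      rw [cf_mul_letter_append, cf_mul_letter_append, Ta, Tb, cf_mk, cf_mk]
      fin_cases b <;> simp
    have hN : Nf c (a :: l) = Nf c (b :: m) := by
      rw [hm, hcyc]; rfl
    rw [hN] at hleft
    have : cf (xa * Ta w c) (a :: l) + cf (Ta w c * xa) (a :: l) +
        (cf (xb * Tb w c) (a :: l) + cf (Tb w c * xb) (a :: l)) =
        (cf (xa * Ta w c) (a :: l) + cf (xb * Tb w c) (a :: l)) +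
        (cf (Ta w c * xa) (a :: l) + cf (Tb w c * xb) (a :: l)) := by ring
    rw [this, hleft, hright]
    exact F_add_self _

/-! ### The universal Lie lemmas -/

private theorem cf_mul_letter1 {f g : A2} (hf : cf f [] = 0) (hg : cf g [] = 0) (a : Fin 2) :
    cf (f * g) [a] = 0 := by
  rw [cf_mul, List.length_singleton, Finset.sum_range_succ, Finset.sum_range_one]
  show cf f [] * _ + _ * cf g [] = 0
  rw [hf, hg]
  ring

private theorem cf_comm_letter {f g : A2} (hf : f ∈ LA F (Fin 2)) (hg : g ∈ LA F (Fin 2))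
    (a : Fin 2) : cf (f * g - g * f) [a] = 0 := by
  rw [cf_sub, cf_mul_letter1 (cf_LA_nil hf) (cf_LA_nil hg),
    cf_mul_letter1 (cf_LA_nil hg) (cf_LA_nil hf), sub_zero]

private theorem lie2' {p : A2} (hp : p ∈ LA F (Fin 2)) : ∃ p' ∈ LA F (Fin 2), cf p' [0] = 0 ∧
    ∀ (R' : Type) [Ring R'] [Algebra F R'] (x e : R'), e * e = e →
      e * lf ![x, e * x + x * e] p + lf ![x, e * x + x * e] p * e =
        lf ![x, e * x + x * e] p' := by
  refine LA_induction (p := fun (p : A2) => ∃ p' ∈ LA F (Fin 2), cf p' [0] = 0 ∧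
    ∀ (R' : Type) [Ring R'] [Algebra F R'] (x e : R'), e * e = e →
      e * lf ![x, e * x + x * e] p + lf ![x, e * x + x * e] p * e =
        lf ![x, e * x + x * e] p') ?_ ?_ ?_ ?_ ?_ hp
  · intro a
    refine ⟨xb, letter_mem 1, ?_, ?_⟩
    · unfold xb; rw [cf_wd, if_neg (by simp)]
    · intro R' _ _ x e he
      rw [lf_letter, xb, lf_letter]
      fin_cases a
      · rfl
      · show e * (e * x + x * e) + (e * x + x * e) * e = e * x + x * e
        have h1 := add_self (e * x * e)
        have h2 : e * (e * x + x * e) + (e * x + x * e) * e =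
            (e * e) * x + x * (e * e) + (e * x * e + e * x * e) := by noncomm_ring
        rw [h2, h1, he, add_zero]
  · refine ⟨0, (LA F (Fin 2)).zero_mem, cf_zero _, ?_⟩
    intro R' _ _ x e he
    rw [map_zero, mul_zero, zero_mul, add_zero]
  · rintro a b - - ⟨a', ha', a0, ha⟩ ⟨b', hb', b0, hb⟩
    refine ⟨a' + b', (LA F (Fin 2)).add_mem ha' hb', by rw [cf_add, a0, b0, add_zero], ?_⟩
    intro R' _ _ x e he
    rw [map_add, map_add, ← ha R' x e he, ← hb R' x e he]
    noncomm_ring
  · rintro c a - ⟨a', ha', a0, ha⟩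
    refine ⟨c • a', (LA F (Fin 2)).smul_mem c ha', by rw [cf_smul, a0, mul_zero], ?_⟩
    intro R' _ _ x e he
    rw [map_smul, map_smul, ← ha R' x e he, mul_smul_comm, smul_mul_assoc, smul_add]
  · rintro a b hla hlb ⟨a', ha', a0, ha⟩ ⟨b', hb', b0, hb⟩
    refine ⟨(a' * b - b * a') + (a * b' - b' * a), (LA F (Fin 2)).add_mem (comm_mem ha' hlb)
      (comm_mem hla hb'), ?_, ?_⟩
    · rw [cf_add, cf_comm_letter ha' hlb, cf_comm_letter hla hb', add_zero]
    · intro R' _ _ x e he
      simp only [map_add, map_sub, map_mul]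
      rw [← ha R' x e he, ← hb R' x e he]
      generalize lf ![x, e * x + x * e] a = A
      generalize lf ![x, e * x + x * e] b = B
      have h1 := add_self (A * e * B)
      have h2 := add_self (B * e * A)
      have h3 : (e * A + A * e) * B - B * (e * A + A * e) + (A * (e * B + B * e) -
          (e * B + B * e) * A) = (e * (A * B - B * A) + (A * B - B * A) * e) +
          (A * e * B + A * e * B) - (B * e * A + B * e * A) := by noncomm_ring
      rw [h3, h1, h2, add_zero, sub_zero]

theorem lie2 {p : A2} (hp : p ∈ LA F (Fin 2)) : ∃ p' ∈ LA F (Fin 2), ∀ (R' : Type) [Ring R']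
    [Algebra F R'] (x e : R'), e * e = e → e * lf ![x, e * x + x * e] p +
      lf ![x, e * x + x * e] p * e = lf ![x, e * x + x * e] p' := by
  obtain ⟨p', h1, -, h2⟩ := lie2' hp
  exact ⟨p', h1, h2⟩

private theorem lie1' {t : A2} (ht : t ∈ LA F (Fin 2)) :
    ∃ p ∈ LA F (Fin 2), cf p [0] = cf t [0] ∧
      ∀ (R' : Type) [Ring R'] [Algebra F R'] (x e : R'), e * e = e →
        lf ![x, e] t = cf t [1] • e + lf ![x, e * x + x * e] p := by
  refine LA_induction (p := fun (t : A2) => ∃ p ∈ LA F (Fin 2), cf p [0] = cf t [0] ∧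
      ∀ (R' : Type) [Ring R'] [Algebra F R'] (x e : R'), e * e = e →
        lf ![x, e] t = cf t [1] • e + lf ![x, e * x + x * e] p) ?_ ?_ ?_ ?_ ?_ ht
  · intro a
    fin_cases a
    · refine ⟨xa, letter_mem 0, rfl, ?_⟩
      intro R' _ _ x e he
      show lf ![x, e] (wd [0] : A2) = cf (wd [0] : A2) [1] • e + lf ![x, e * x + x * e] xa
      rw [cf_wd, if_neg (by simp), zero_smul, zero_add, xa, lf_letter, lf_letter]
      rfl
    · refine ⟨0, (LA F (Fin 2)).zero_mem, ?_, ?_⟩
      · show cf (0 : A2) [0] = cf (wd [1] : A2) [0]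
        rw [cf_wd, if_neg (by simp), cf_zero]
      · intro R' _ _ x e he
        show lf ![x, e] (wd [1] : A2) = cf (wd [1] : A2) [1] • e + lf ![x, e * x + x * e] 0
        rw [cf_wd, if_pos rfl, one_smul, map_zero, add_zero, lf_letter]
        rfl
  · refine ⟨0, (LA F (Fin 2)).zero_mem, rfl, ?_⟩
    intro R' _ _ x e he
    rw [map_zero, map_zero, cf_zero, zero_smul, add_zero]
  · rintro a b - - ⟨a', ha', a0, ha⟩ ⟨b', hb', b0, hb⟩
    refine ⟨a' + b', (LA F (Fin 2)).add_mem ha' hb', by rw [cf_add, cf_add, a0, b0], ?_⟩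
    intro R' _ _ x e he
    rw [map_add, map_add, ha R' x e he, hb R' x e he, cf_add, add_smul]
    abel
  · rintro c a - ⟨a', ha', a0, ha⟩
    refine ⟨c • a', (LA F (Fin 2)).smul_mem c ha', by rw [cf_smul, cf_smul, a0], ?_⟩
    intro R' _ _ x e he
    rw [map_smul, map_smul, ha R' x e he, cf_smul, smul_add, smul_smul]
  · rintro a b hla hlb ⟨a', ha', a0, ha⟩ ⟨b', hb', b0, hb⟩
    obtain ⟨a'', ha'', a2, hA⟩ := lie2' ha'
    obtain ⟨b'', hb'', b2, hB⟩ := lie2' hb'
    refine ⟨cf a [1] • b'' + cf b [1] • a'' + (a' * b' - b' * a'), ?_, ?_, ?_⟩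
    · exact (LA F (Fin 2)).add_mem ((LA F (Fin 2)).add_mem ((LA F (Fin 2)).smul_mem _ hb'')
        ((LA F (Fin 2)).smul_mem _ ha'')) (comm_mem ha' hb')
    · rw [cf_comm_letter hla hlb, cf_add, cf_add, cf_smul, cf_smul, a2, b2,
        cf_comm_letter ha' hb']
      ring
    · intro R' _ _ x e he
      rw [cf_comm_letter hla hlb, zero_smul, zero_add, map_sub, map_mul, map_mul, ha R' x e he,
        hb R' x e he]
      simp only [map_add, map_sub, map_mul, map_smul]
      rw [← hA R' x e he, ← hB R' x e he]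
      generalize lf ![x, e * x + x * e] a' = A
      generalize lf ![x, e * x + x * e] b' = B
      generalize cf a [1] = α
      generalize cf b [1] = β
      have h1 : (α • e + A) * (β • e + B) - (β • e + B) * (α • e + A) =
          α • (e * B - B * e) + β • (A * e - e * A) + (A * B - B * A) := by
        simp only [add_mul, mul_add, smul_mul_assoc, mul_smul_comm, smul_sub, smul_add]
        rw [smul_comm β α (e * e)]
        abel
      rw [h1, sub_eq (e * B), sub_eq (A * e), add_comm (A * e)]

theorem lie1 {t : A2} (ht : t ∈ LA F (Fin 2)) (h1 : cf t [1] = 0) :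
    ∃ p ∈ LA F (Fin 2), cf p [0] = cf t [0] ∧ Uni t p := by
  obtain ⟨p, h2, h3, h4⟩ := lie1' ht
  refine ⟨p, h2, h3, ?_⟩
  intro R' _ _ x e he
  rw [h4 R' x e he, h1, zero_smul, zero_add]

/-! ### The operator representation -/

private theorem d1_wd_cons (a : Fin 2) (l : List (Fin 2)) :
    d1 (wd (a :: l)) = xb * wd l + wd [a] * d1 (wd l) := by
  rw [wd_cons, d1_mul]
  congr 2
  fin_cases a
  · exact d1_xa
  · exact d1_xb

/-- the operator representation `x' = L_x`, `e' = d1` -/
theorem d1_d1 (p : A2) : d1 (d1 p) = d1 p := by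
  have key : d1 ∘ₗ d1 = d1 := by
    apply lin_ext
    intro l
    rw [LinearMap.comp_apply]
    induction l with
    | nil => rw [wd_nil, d1, der_one, map_zero]
    | cons a l ih =>
      have ha : d1 (wd [a]) = xb := by
        fin_cases a
        · exact d1_xa
        · exact d1_xb
      rw [d1_wd_cons, map_add, d1_mul, d1_mul, ih, d1_xb, ha]
      have h1 := add_self (xb * d1 (wd l))
      have h2 : xb * wd l + xb * d1 (wd l) + (xb * d1 (wd l) + wd [a] * d1 (wd l)) =
          xb * wd l + (xb * d1 (wd l) + xb * d1 (wd l)) + wd [a] * d1 (wd l) := by abel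
      rw [h2, h1, add_zero]
  exact LinearMap.congr_fun key p

private theorem d1_comm : (d1 * LinearMap.mulLeft F xa + LinearMap.mulLeft F xa * d1 :
    Module.End F A2) = LinearMap.mulLeft F xb := by
  apply LinearMap.ext
  intro q
  simp only [LinearMap.add_apply, Module.End.mul_apply, LinearMap.mulLeft_apply]
  rw [d1_mul, d1_xa]
  have h1 := add_self (xa * d1 q)
  rw [add_assoc, h1, add_zero]

private theorem lf_mulLeft (p : A2) :
    (lf ![LinearMap.mulLeft F xa, LinearMap.mulLeft F xb] : A2 →ₐ[F] Module.End F A2) p =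
      LinearMap.mulLeft F p := by
  have : (lf ![LinearMap.mulLeft F xa, LinearMap.mulLeft F xb] : A2 →ₐ[F] Module.End F A2) =
      Algebra.lmul F A2 := by
    apply alg_ext
    intro a
    rw [lf_letter]
    fin_cases a <;> rfl
  rw [this]
  rfl

theorem uni_d1 {t p : A2} (h : Uni t p) :
    lf ![LinearMap.mulLeft F xa, d1] t = LinearMap.mulLeft F p := by
  have he : (d1 * d1 : Module.End F A2) = d1 := by
    apply LinearMap.ext
    intro q
    exact d1_d1 q
  have h1 := h (Module.End F A2) (LinearMap.mulLeft F xa) d1 he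
  rw [d1_comm, lf_mulLeft] at h1
  exact h1

/-- from (SP): `z = [x, pa] = d1 pb` and `d1 z = z` -/
theorem uni_SP {ta tb pa pb : A2} (ha : Uni ta pa) (hb : Uni tb pb)
    (h : xa * ta + ta * xa + (xb * tb + tb * xb) = 0) :
    xa * pa + pa * xa = d1 pb ∧ d1 (xa * pa + pa * xa) = xa * pa + pa * xa := by
  have h1 := congrArg (lf ![LinearMap.mulLeft F xa, d1] : A2 →ₐ[F] Module.End F A2) h
  have ea : (lf ![LinearMap.mulLeft F xa, d1] : A2 →ₐ[F] Module.End F A2) xa =
      LinearMap.mulLeft F xa := by rw [xa, lf_letter]; rfl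
  have eb : (lf ![LinearMap.mulLeft F xa, d1] : A2 →ₐ[F] Module.End F A2) xb = d1 := by
    rw [xb, lf_letter]; rfl
  simp only [map_add, map_mul, map_zero] at h1
  rw [ea, eb, uni_d1 ha, uni_d1 hb] at h1
  have h2 := LinearMap.congr_fun h1 1
  simp only [LinearMap.add_apply, Module.End.mul_apply, LinearMap.mulLeft_apply,
    LinearMap.zero_apply, mul_one] at h2
  have h3 : d1 (1 : A2) = 0 := der_one _
  rw [h3, mul_zero, add_zero] at h2
  have h4 : xa * pa + pa * xa = d1 pb := by
    have := sub_eq (xa * pa + pa * xa) (d1 pb)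
    rw [h2] at this
    exact sub_eq_zero.mp this
  refine ⟨h4, ?_⟩
  rw [h4, d1_d1]

/-! ### Weights -/

private theorem cf_d1_wd (m l : List (Fin 2)) (h : wgt vt m + 1 < wgt vt l) :
    cf (d1 (wd m)) l = 0 := by
  induction m generalizing l with
  | nil => rw [wd_nil, d1, der_one, cf_zero]
  | cons a m ih =>
    rw [d1_wd_cons, cf_add]
    rcases l with _ | ⟨b, l⟩
    · rw [wgt_nil] at h; omega
    · rw [xb, cf_letter_mul_cons, cf_letter_mul_cons]
      rw [wgt_cons, wgt_cons] at h
      have hb : 1 ≤ vt a ∧ vt b ≤ 2 := by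
        constructor
        · fin_cases a <;> simp [vt]
        · fin_cases b <;> simp [vt]
      have e1 : (if (1 : Fin 2) = b then cf (wd m : A2) l else 0) = 0 := by
        split_ifs with h1
        · rw [cf_wd, if_neg]
          intro h2
          subst h2
          omega
        · rfl
      have e2 : (if a = b then cf (d1 (wd m)) l else 0) = 0 := by
        split_ifs with h1
        · subst h1
          apply ih
          omega
        · rfl
      rw [e1, e2, add_zero]

/-- a polynomial is the sum of its components -/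
theorem sum_pj (v : Fin 2 → ℕ) (k : ℕ) (q : A2) (hq : ∀ l, k < wgt v l → cf q l = 0) :
    ∑ j ∈ Finset.range (k + 1), pj v j q = q := by
  apply cf_ext
  intro l
  rw [cf_sum]
  simp only [cf_pj]
  rw [Finset.sum_ite_eq]
  split_ifs with h
  · rfl
  · rw [Finset.mem_range] at h
    exact (hq l (by omega)).symm

private theorem d1_wt {k : ℕ} {q : A2} (hq : ∀ l, k < wgt vt l → cf q l = 0) (l : List (Fin 2))
    (hl : k + 1 < wgt vt l) : cf (d1 q) l = 0 := by
  rw [← sum_pj vt k q hq, map_sum, cf_sum]
  apply Finset.sum_eq_zero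
  intro j hj
  rw [Finset.mem_range] at hj
  have key : (cfL l : A2 →ₗ[F] F) ∘ₗ d1 ∘ₗ (pj vt j) = 0 := by
    apply lin_ext
    intro m
    simp only [LinearMap.comp_apply, cfL_apply, LinearMap.zero_apply, pj_wd]
    split_ifs with h
    · exact cf_d1_wd m l (by omega)
    · rw [map_zero, cf_zero]
  exact LinearMap.congr_fun key q

private theorem xa_wt {k : ℕ} {q : A2} (hq : ∀ l, k < wgt vt l → cf q l = 0) (l : List (Fin 2))
    (hl : k + 1 < wgt vt l) : cf (xa * q) l = 0 := by
  rcases l with _ | ⟨b, l⟩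
  · exact cf_letter_mul_nil _ _
  · rw [xa, cf_letter_mul_cons]
    split_ifs with h
    · subst h
      apply hq
      rw [wgt_cons] at hl
      have : vt 0 = 1 := rfl
      omega
    · rfl

private theorem op_wt (m l : List (Fin 2)) (hl : m.length < wgt vt l) :
    cf (((lf ![LinearMap.mulLeft F xa, d1] : A2 →ₐ[F] Module.End F A2) (wd m)) 1) l = 0 := by
  induction m generalizing l with
  | nil =>
    have h1 : (lf ![LinearMap.mulLeft F xa, d1] : A2 →ₐ[F] Module.End F A2) (wd []) = 1 := by
      rw [wd_nil]; exact map_one _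
    rw [h1]
    show cf (1 : A2) l = 0
    rw [cf_one, if_neg]
    rintro rfl
    simp at hl
  | cons a m ih =>
    rw [wd_cons, map_mul, lf_letter, Module.End.mul_apply]
    rw [List.length_cons] at hl
    fin_cases a
    · exact xa_wt (k := m.length) ih l hl
    · exact d1_wt (k := m.length) ih l hl

private theorem wgt_one (l : List (Fin 2)) : wgt (fun _ : Fin 2 => 1) l = l.length := by
  induction l with
  | nil => rfl
  | cons a l ih => rw [wgt_cons, ih, List.length_cons]; omega

theorem uni_weight {t p : A2} (h : Uni t p) {w : ℕ} (hw : ∀ l, w < l.length → cf t l = 0)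
    (l : List (Fin 2)) (hl : w < wgt vt l) : cf p l = 0 := by
  have h1 := LinearMap.congr_fun (uni_d1 h) 1
  rw [LinearMap.mulLeft_apply, mul_one] at h1
  rw [← h1]
  have h2 := sum_pj (fun _ => 1) w t (by intro m hm; rw [wgt_one] at hm; exact hw m hm)
  rw [← h2, map_sum, LinearMap.sum_apply, cf_sum]
  apply Finset.sum_eq_zero
  intro j hj
  rw [Finset.mem_range] at hj
  have key : (cfL l : A2 →ₗ[F] F) ∘ₗ (LinearMap.applyₗ (1 : A2)) ∘ₗ
      (lf ![LinearMap.mulLeft F xa, d1] : A2 →ₐ[F] Module.End F A2).toLinearMap ∘ₗ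
      (pj (fun _ => 1) j) = 0 := by
    apply lin_ext
    intro m
    simp only [LinearMap.comp_apply, cfL_apply, LinearMap.zero_apply, pj_wd,
      AlgHom.toLinearMap_apply, LinearMap.applyₗ_apply_apply]
    split_ifs with h
    · rw [wgt_one] at h
      exact op_wt m l (by omega)
    · rw [map_zero, LinearMap.zero_apply, cf_zero]
  exact LinearMap.congr_fun key t

/-! ### Facts on Lie elements -/

theorem LA_shift {p : A2} (hp : p ∈ LA F (Fin 2)) :
    lf ![xa + 1, xb] p = p + algebraMap F A2 (cf p [0]) := by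
  refine LA_induction (p := fun p => lf ![xa + 1, xb] p = p + algebraMap F A2 (cf p [0]))
    ?_ ?_ ?_ ?_ ?_ hp
  · intro a
    rw [lf_letter]
    fin_cases a
    · show xa + 1 = wd [0] + algebraMap F A2 (cf (wd [0] : A2) [0])
      rw [cf_wd, if_pos rfl, map_one]; rfl
    · show xb = wd [1] + algebraMap F A2 (cf (wd [1] : A2) [0])
      rw [cf_wd, if_neg (by simp), map_zero, add_zero]; rfl
  · rw [map_zero, cf_zero, map_zero, add_zero]
  · intro a b _ _ ha hb
    rw [map_add, ha, hb, cf_add, map_add]; abel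
  · intro c a _ ha
    rw [map_smul, ha, cf_smul, map_mul, smul_add, Algebra.smul_def c (algebraMap F A2 (cf a [0]))]
  · intro a b hla hlb ha hb
    rw [map_sub, map_mul, map_mul, ha, hb, cf_comm_letter hla hlb, map_zero, add_zero]
    have h1 := Algebra.commutes (cf a [0]) b
    have h2 := Algebra.commutes (cf b [0]) a
    have h3 := Algebra.commutes (cf a [0]) (algebraMap F A2 (cf b [0]))
    generalize algebraMap F A2 (cf a [0]) = α at h1 h3
    generalize algebraMap F A2 (cf b [0]) = β at h2 h3
    have h4 : (a + α) * (b + β) - (b + β) * (a + α) = (a * b - b * a) + (α * b - b * α) +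
        (a * β - β * a) + (α * β - β * α) := by noncomm_ring
    rw [h4, h1, h2, h3]
    simp

theorem LA_vs0 {p : A2} (hp : p ∈ LA F (Fin 2)) : pj vs 0 p = cf p [0] • xa := by
  refine LA_induction (p := fun p => pj vs 0 p = cf p [0] • xa) ?_ ?_ ?_ ?_ ?_ hp
  · intro a
    rw [pj_wd]
    fin_cases a
    · show (if wgt vs [0] = 0 then (wd [0] : A2) else 0) = cf (wd [0] : A2) [0] • xa
      rw [cf_wd, if_pos rfl, if_pos (by simp [wgt, vs]), one_smul]; rfl
    · show (if wgt vs [1] = 0 then (wd [1] : A2) else 0) = cf (wd [1] : A2) [0] • xa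
      rw [cf_wd, if_neg (show ¬ ([1] : List (Fin 2)) = [0] by simp),
        if_neg (by simp [wgt, vs]), zero_smul]
  · rw [map_zero, cf_zero, zero_smul]
  · intro a b _ _ ha hb
    rw [map_add, ha, hb, cf_add, add_smul]
  · intro c a _ ha
    rw [map_smul, ha, cf_smul, smul_smul]
  · intro a b hla hlb ha hb
    rw [map_sub, pj_mul, pj_mul, cf_comm_letter hla hlb, zero_smul]
    simp only [zero_add, Finset.range_one, Finset.sum_singleton, Nat.sub_zero]
    rw [ha, hb]
    simp only [smul_mul_assoc, mul_smul_comm, smul_smul]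
    rw [mul_comm, sub_self]

theorem LA_pow {m : ℕ} (hm : 2 ≤ m) {p : A2} (hp : p ∈ LA F (Fin 2)) (a : Fin 2) :
    cf p (List.replicate m a) = 0 := by
  refine LA_induction (p := fun p => cf p (List.replicate m a) = 0) ?_ ?_ ?_ ?_ ?_ hp
  · intro b
    rw [cf_wd, if_neg]
    intro h
    have := congrArg List.length h
    rw [List.length_replicate] at this
    simp at this
    omega
  · exact cf_zero _
  · intro a b _ _ ha hb; rw [cf_add, ha, hb, add_zero]
  · intro c a _ ha; rw [cf_smul, ha, mul_zero]
  · intro f g _ _ _ _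
    rw [cf_sub, cf_mul, cf_mul, List.length_replicate, ← Finset.sum_range_reflect]
    rw [sub_eq_zero]
    apply Finset.sum_congr rfl
    intro i hi
    rw [Finset.mem_range] at hi
    rw [List.take_replicate, List.drop_replicate, List.take_replicate, List.drop_replicate]
    have e1 : min (m + 1 - 1 - i) m = m - i := by omega
    have e2 : m - (m + 1 - 1 - i) = i := by omega
    have e3 : min i m = i := by omega
    rw [e1, e2, e3, mul_comm]

/-! ### `d1 = d0 +` number of `s` -/

private theorem d0_wd_cons (a : Fin 2) (l : List (Fin 2)) :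
    d0 (wd (a :: l)) = (if a = 0 then xb * wd l else 0) + wd [a] * d0 (wd l) := by
  rw [wd_cons, d0_mul]
  congr 1
  fin_cases a
  · show d0 xa * wd l = _
    rw [d0_xa]; rfl
  · show d0 xb * wd l = _
    rw [d0_xb, zero_mul]; rfl

theorem d1_eq_wd (m : List (Fin 2)) : d1 (wd m) = d0 (wd m) + ((wgt vs m : ℕ) : F) • wd m := by
  induction m with
  | nil => rw [wd_nil, d1, d0, der_one, der_one, wgt_nil]; simp
  | cons a m ih =>
    rw [d1_wd_cons, d0_wd_cons, ih, wgt_cons]
    fin_cases a
    · show xb * wd m + wd [0] * (d0 (wd m) + ((wgt vs m : ℕ) : F) • wd m) =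
        (if (0 : Fin 2) = 0 then xb * wd m else 0) + wd [0] * d0 (wd m) +
          ((0 + wgt vs m : ℕ) : F) • wd (0 :: m)
      rw [if_pos rfl, zero_add, wd_cons 0 m, mul_add, mul_smul_comm]
      abel
    · show xb * wd m + wd [1] * (d0 (wd m) + ((wgt vs m : ℕ) : F) • wd m) =
        (if (1 : Fin 2) = 0 then xb * wd m else 0) + wd [1] * d0 (wd m) +
          ((1 + wgt vs m : ℕ) : F) • wd (1 :: m)
      rw [if_neg (by decide), zero_add, wd_cons 1 m, mul_add, mul_smul_comm, Nat.cast_add,
        Nat.cast_one, add_smul, one_smul]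
      show wd [1] * wd m + _ = _
      abel

theorem pj_letter_mul (v : Fin 2 → ℕ) (a : Fin 2) (j : ℕ) (q : A2) :
    pj v j (wd [a] * q) = if v a ≤ j then wd [a] * pj v (j - v a) q else 0 := by
  have key : pj v j ∘ₗ LinearMap.mulLeft F (wd [a] : A2) =
      (if v a ≤ j then (1 : F) else 0) • (LinearMap.mulLeft F (wd [a] : A2) ∘ₗ pj v (j - v a)) := by
    apply lin_ext
    intro m
    simp only [LinearMap.comp_apply, LinearMap.mulLeft_apply, LinearMap.smul_apply]
    rw [← wd_cons, pj_wd, pj_wd, wgt_cons]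
    by_cases h : v a ≤ j
    · rw [if_pos h, one_smul]
      by_cases h2 : v a + wgt v m = j
      · rw [if_pos h2, if_pos (by omega), ← wd_cons]
      · rw [if_neg h2, if_neg (by omega), mul_zero]
    · rw [if_neg h, zero_smul, if_neg (by omega)]
  have h := LinearMap.congr_fun key q
  simp only [LinearMap.comp_apply, LinearMap.mulLeft_apply, LinearMap.smul_apply] at h
  rw [h]
  split_ifs
  · rw [one_smul]
  · rw [zero_smul]

theorem pj_d0_wd (m : List (Fin 2)) (j : ℕ) :
    pj vs j (d0 (wd m)) = if wgt vs m + 1 = j then d0 (wd m) else 0 := by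
  induction m generalizing j with
  | nil => rw [wd_nil, d0, der_one, map_zero]; split_ifs <;> rfl
  | cons a m ih =>
    rw [d0_wd_cons, map_add, pj_letter_mul, wgt_cons]
    fin_cases a
    · show pj vs j (if (0 : Fin 2) = 0 then xb * wd m else 0) +
        (if vs 0 ≤ j then wd [0] * pj vs (j - vs 0) (d0 (wd m)) else 0) =
        if 0 + wgt vs m + 1 = j then
          (if (0 : Fin 2) = 0 then xb * wd m else 0) + wd [0] * d0 (wd m) else 0
      have e0 : vs 0 = 0 := rfl
      have e1 : vs 1 = 1 := rfl
      rw [if_pos rfl, e0, if_pos (Nat.zero_le _), Nat.sub_zero, ih, xb,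
        pj_letter_mul, e1, zero_add, pj_wd]
      by_cases h : wgt vs m + 1 = j
      · rw [if_pos h, if_pos h, if_pos (by omega), if_pos (by omega)]
      · rw [if_neg h, if_neg h, mul_zero, add_zero]
        by_cases h2 : 1 ≤ j
        · rw [if_pos h2, if_neg (by omega), mul_zero]
        · rw [if_neg h2]
    · show pj vs j (if (1 : Fin 2) = 0 then xb * wd m else 0) +
        (if vs 1 ≤ j then wd [1] * pj vs (j - vs 1) (d0 (wd m)) else 0) =
        if 1 + wgt vs m + 1 = j then
          (if (1 : Fin 2) = 0 then xb * wd m else 0) + wd [1] * d0 (wd m) else 0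
      have e1 : vs 1 = 1 := rfl
      rw [if_neg (by decide), map_zero, zero_add, e1, zero_add]
      by_cases h2 : 1 ≤ j
      · rw [if_pos h2, ih]
        by_cases h : 1 + wgt vs m + 1 = j
        · rw [if_pos h, if_pos (by omega)]
        · rw [if_neg h, if_neg (by omega), mul_zero]
      · rw [if_neg h2, if_neg (by omega)]

/-- `d1 = d0 + (number of s)` -/
theorem pj_d1 (k : ℕ) (p : A2) :
    pj vs (k + 1) (d1 p) = d0 (pj vs k p) + ((k + 1 : ℕ) : F) • pj vs (k + 1) p := by
  have key : pj vs (k + 1) ∘ₗ d1 = d0 ∘ₗ pj vs k + ((k + 1 : ℕ) : F) • pj vs (k + 1) := by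
    apply lin_ext
    intro m
    simp only [LinearMap.comp_apply, LinearMap.add_apply, LinearMap.smul_apply]
    rw [d1_eq_wd, map_add, pj_d0_wd, map_smul, pj_wd, pj_wd]
    congr 1
    · by_cases h : wgt vs m = k
      · rw [if_pos (by omega), if_pos h]
      · rw [if_neg (by omega), if_neg h, map_zero]
    · by_cases h : wgt vs m = k + 1
      · rw [if_pos h, h]
      · rw [if_neg h, smul_zero, smul_zero]
  exact LinearMap.congr_fun key p

end

end Pool.Agent.ECK
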