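import Pool.Agent.ECK.Phi
import Pool.Agent.ECK.KerD
import Pool.Agent.ECK.Uni0
import Pool.Agent.ECK.LieSh
import Pool.Agent.ECU.C0

/-!
# Lemma L: the lemma C0 for the letters `g(c_{k+1}) = c_1 + … + c_{k+1}`
-/

set_option autoImplicit false

namespace Pool.Agent.ECK

open Pool.Agent.ECB
open Pool.Agent.ECU (T L)

attribute [local instance] LieRing.ofAssociativeRing

noncomputable section

/-- if `P0 = φ P1` in coordinates then `ev P1 = ev (g P0)` -/
theorem evT_gB {P0 P1 : T F} (h : ∀ v, sumS v (fun u => P1 u) = P0 v) : evT gB P0 = evT cB P1 :=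
  evT_gsum cB h

namespace LL

/-! ### Top components -/

/-- `p` has components of weight at most `n`, the last one is `t`. -/
def Top (n : ℕ) (p t : A2) : Prop := (∀ j, n < j → pj vx j p = 0) ∧ pj vx n p = t

theorem Top_mul {m n : ℕ} {p q s t : A2} (hp : Top m p s) (hq : Top n q t) :
    Top (m + n) (p * q) (s * t) := by
  constructor
  · intro j hj
    rw [pj_mul]
    apply Finset.sum_eq_zero
    intro i _
    rcases Nat.lt_or_ge m i with h | h
    · rw [hp.1 i h, zero_mul]
    · rw [hq.1 (j - i) (by omega), mul_zero]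
  · rw [pj_mul, Finset.sum_eq_single m]
    · rw [hp.2, Nat.add_sub_cancel_left, hq.2]
    · intro i hi hne
      simp only [Finset.mem_range] at hi
      rcases Nat.lt_or_ge m i with h | h
      · rw [hp.1 i h, zero_mul]
      · rw [hq.1 (m + n - i) (by omega), mul_zero]
    · intro h
      simp only [Finset.mem_range] at h
      omega

theorem pjx_cB (j k : ℕ) : pj vx j (cB k) = if j = k then cB k else 0 := by
  have h := Hom_cB vx k
  have hk : k * vx 0 + vx 1 = k := by simp [vx]
  rw [hk] at h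
  rw [Hom_pj h]
  by_cases h1 : j = k
  · rw [if_pos h1.symm, if_pos h1]
  · rw [if_neg (fun h' => h1 h'.symm), if_neg h1]

theorem Top_gB (k : ℕ) : Top k (gB k) (cB k) := by
  constructor
  · intro j hj
    rw [gB, map_sum]
    apply Finset.sum_eq_zero
    intro i hi
    simp only [Finset.mem_range] at hi
    rw [pjx_cB, if_neg (by omega)]
  · rw [gB, map_sum, Finset.sum_eq_single k]
    · rw [pjx_cB, if_pos rfl]
    · intro i _ hi
      rw [pjx_cB, if_neg (fun h => hi h.symm)]
    · intro h; simp at h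

theorem Top_prod (u : List ℕ) : Top u.sum ((u.map gB).prod) ((u.map cB).prod) := by
  induction u with
  | nil =>
    constructor
    · intro j hj
      show pj vx j (1 : A2) = 0
      rw [← wd_nil, pj_wd, if_neg]
      simp only [wgt_nil]
      simp only [List.sum_nil] at hj
      omega
    · show pj vx 0 (1 : A2) = 1
      rw [← wd_nil, pj_wd, if_pos (wgt_nil vx)]
  | cons k u ih =>
    rw [List.sum_cons, List.map_cons, List.prod_cons, List.map_cons, List.prod_cons]
    exact Top_mul (Top_gB k) ih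

end LL

theorem evT_single' {A : Type} [Ring A] [Algebra F A] (β : ℕ → A) (P : T F) :
    evT β P = P.sum (fun v r => r • (v.map β).prod) := rfl

/-- `evT gB P = evT cB P + lower x-degree` -/
theorem pjx_evT_gB {D : ℕ} (P : T F) (hP : ∀ v, P v ≠ 0 → v.sum = D) :
    pj vx D (evT gB P) = evT cB P := by
  rw [evT_single', evT_single', Finsupp.sum, Finsupp.sum, map_sum]
  apply Finset.sum_congr rfl
  intro v hv
  rw [map_smul]
  congr 1
  rw [← hP v (Finsupp.mem_support_iff.mp hv)]
  exact (LL.Top_prod v).2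

namespace LL

/-! ### The shift `x ↦ x + 1` -/

/-- The shift `x ↦ x + 1`. -/
def sft : A2 →ₐ[F] A2 := lf ![xa + 1, xb]

theorem sft_xa : sft xa = xa + 1 := by
  show lf _ (wd [0]) = _
  rw [lf_letter]; rfl

theorem sft_xb : sft xb = xb := by
  show lf _ (wd [1]) = _
  rw [lf_letter]; rfl

theorem sft_d0 (p : A2) : sft (d0 p) = d0 (sft p) := by
  have : sft.toLinearMap ∘ₗ d0 = d0 ∘ₗ sft.toLinearMap := by
    apply lin_ext
    intro l
    induction l with
    | nil => simp [wd_nil, d0_one, map_one]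
    | cons a l ih =>
      simp only [LinearMap.comp_apply, AlgHom.toLinearMap_apply] at ih ⊢
      rw [wd_cons, d0_mul, map_add, map_mul, map_mul, map_mul, ih, d0_mul]
      congr 1
      fin_cases a
      · show sft (d0 xa) * _ = d0 (sft xa) * _
        rw [d0_xa, sft_xb, sft_xa, map_add, d0_one, add_zero, d0_xa]
      · show sft (d0 xb) * _ = d0 (sft xb) * _
        rw [d0_xb, map_zero, sft_xb, d0_xb]
  exact LinearMap.congr_fun this p

theorem sft_cB (k : ℕ) : sft (cB k) =
    ∑ i ∈ Finset.range (k + 1), (((k + 1).choose (i + 1) : ℕ) : F) • cB i := by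
  rw [← d0_pow_xa, sft_d0, map_pow, sft_xa, (Commute.one_right xa).add_pow, map_sum,
    Finset.sum_range_succ', pow_zero, one_pow, one_mul, Nat.choose_zero_right]
  have h0 : d0 (1 * ((1 : ℕ) : A2)) = 0 := by rw [Nat.cast_one, one_mul, d0_one]
  rw [h0, add_zero]
  apply Finset.sum_congr rfl
  intro i _
  rw [one_pow, mul_one, ← d0_pow_xa i, ← map_smul]
  congr 1
  rw [Algebra.smul_def, map_natCast, (Nat.cast_commute _ _).eq]

/-- The shift on letters of `T`. -/
def tl (k : ℕ) : T F →ₗ[F] T F :=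
  ∑ i ∈ Finset.range (k + 1), (((k + 1).choose (i + 1) : ℕ) : F) • Pool.Agent.ECU.C i

/-- The shift on words. -/
def tW : List ℕ → T F
  | [] => Pool.Agent.ECU.e []
  | k :: u => tl k (tW u)

/-- The shift on `T`. -/
def tT : T F →ₗ[F] T F := Finsupp.linearCombination F tW

theorem tT_e (u : List ℕ) : tT (Pool.Agent.ECU.e u) = tW u := by
  simp [tT, Pool.Agent.ECU.e, Finsupp.linearCombination_single]

theorem evT_tl {A : Type} [Ring A] [Algebra F A] (β : ℕ → A) (k : ℕ) (P : T F) :
    evT β (tl k P) =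
      (∑ i ∈ Finset.range (k + 1), (((k + 1).choose (i + 1) : ℕ) : F) • β i) * evT β P := by
  rw [tl, LinearMap.sum_apply, map_sum, Finset.sum_mul]
  apply Finset.sum_congr rfl
  intro i _
  rw [LinearMap.smul_apply, map_smul, evT_C, smul_mul_assoc]

/-- If `γ k = ∑ C(k+1,i+1) β i` then evaluating `tT P` at `β` is evaluating `P` at `γ`. -/
theorem evT_tT {A : Type} [Ring A] [Algebra F A] (β γ : ℕ → A)
    (h : ∀ k, γ k = ∑ i ∈ Finset.range (k + 1), (((k + 1).choose (i + 1) : ℕ) : F) • β i)
    (P : T F) : evT β (tT P) = evT γ P := by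
  have : (evT β) ∘ₗ tT = evT γ := by
    apply Pool.Agent.ECU.hom_ext
    intro u
    rw [LinearMap.comp_apply, tT_e, evT_e]
    induction u with
    | nil => rw [tW, evT_e]; rfl
    | cons k u ih => rw [tW, evT_tl, ih, ← h, List.map_cons, List.prod_cons]
  exact LinearMap.congr_fun this P

/-- The letters `φ(c_{k+1}) = c_{k+1} + c_k`. -/
def pB (k : ℕ) : A2 := cB k + (if k = 0 then 0 else cB (k - 1))

theorem sft_gB (k : ℕ) : sft (gB k) =
    ∑ i ∈ Finset.range (k + 1), (((k + 1).choose (i + 1) : ℕ) : F) • pB i := by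
  -- both sides are `∑ C(k+2,i+2) cB i`
  have h1 : sft (gB k) =
      ∑ i ∈ Finset.range (k + 1), (((k + 2).choose (i + 2) : ℕ) : F) • cB i := by
    induction k with
    | zero =>
      rw [gB, map_sum, Finset.sum_range_one, Finset.sum_range_one, sft_cB, Finset.sum_range_one]
      simp
    | succ k ih =>
      have e1 : gB (k + 1) = gB k + cB (k + 1) := by
        rw [gB, Finset.sum_range_succ]; rfl
      rw [e1, map_add, ih, sft_cB, Finset.sum_range_succ _ (k + 1), Finset.sum_range_succ _ (k + 1),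
        ← add_assoc, ← Finset.sum_add_distrib]
      congr 1
      · apply Finset.sum_congr rfl
        intro i _
        rw [← add_smul]
        congr 1
        rw [← Nat.cast_add]
        congr 1
        have := Nat.choose_succ_succ (k + 2) (i + 1)
        rw [show k + 1 + 2 = (k + 2) + 1 from rfl, show i + 2 = (i + 1) + 1 from rfl, this]
        show (k + 2).choose (i + 2) + (k + 2).choose (i + 1) = _
        ring
      · congr 1
        rw [show k + 1 + 1 = k + 2 from rfl, show k + 1 + 2 = k + 3 from rfl, Nat.choose_self,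
          Nat.choose_self]
  have h2 : ∀ k : ℕ, ∑ i ∈ Finset.range (k + 1), (((k + 1).choose (i + 1) : ℕ) : F) • pB i =
      ∑ i ∈ Finset.range (k + 1), (((k + 1).choose (i + 1) + (k + 1).choose (i + 2) : ℕ) : F) •
        cB i := by
    intro k
    have e1 : ∀ i, (((k + 1).choose (i + 1) : ℕ) : F) • pB i =
        (((k + 1).choose (i + 1) : ℕ) : F) • cB i +
        (((k + 1).choose (i + 1) : ℕ) : F) • (if i = 0 then 0 else cB (i - 1)) := by
      intro i; rw [pB, smul_add]
    rw [Finset.sum_congr rfl (fun i _ => e1 i), Finset.sum_add_distrib]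
    have e2 : ∑ i ∈ Finset.range (k + 1),
        (((k + 1).choose (i + 1) : ℕ) : F) • (if i = 0 then (0 : A2) else cB (i - 1)) =
        ∑ i ∈ Finset.range (k + 1), (((k + 1).choose (i + 2) : ℕ) : F) • cB i := by
      rw [Finset.sum_range_succ', Finset.sum_range_succ]
      rw [if_pos rfl, smul_zero, add_zero]
      have : (((k + 1).choose (k + 2) : ℕ) : F) = 0 := by
        rw [Nat.choose_eq_zero_of_lt (by omega)]; simp
      rw [this, zero_smul, add_zero]
      apply Finset.sum_congr rfl
      intro i _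
      rw [if_neg (by omega)]
      rfl
    rw [e2, ← Finset.sum_add_distrib]
    apply Finset.sum_congr rfl
    intro i _
    rw [Nat.cast_add, add_smul]
  rw [h1, h2]
  apply Finset.sum_congr rfl
  intro i _
  rw [Nat.choose_succ_succ (k + 1) (i + 1)]

/-! ### Comparison with `iotaU` -/

/-- From `U` to `A2`. -/
def thU : Pool.Agent.ECU.PL.U →ₗ[F] A2 := Finsupp.linearCombination F wd

theorem thU_eu (l : List (Fin 2)) : thU (Pool.Agent.ECU.PL.eu l) = wd l := by
  simp [thU, Pool.Agent.ECU.PL.eu, Finsupp.linearCombination_single]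

theorem cf_thU (Z : Pool.Agent.ECU.PL.U) (l : List (Fin 2)) : cf (thU Z) l = Z l := by
  have : (cfL l : A2 →ₗ[F] F) ∘ₗ thU = Finsupp.lapply l := by
    apply Pool.Agent.ECU.PL.U_ext
    intro u
    rw [LinearMap.comp_apply, thU_eu, cfL_apply, cf_wd, Finsupp.lapply_apply,
      Pool.Agent.ECU.PL.eu, Finsupp.single_apply]
  exact LinearMap.congr_fun this Z

theorem thU_cu (a : Fin 2) (Z : Pool.Agent.ECU.PL.U) :
    thU (Pool.Agent.ECU.PL.cu a Z) = wd [a] * thU Z := by
  have : thU ∘ₗ (Pool.Agent.ECU.PL.cu a) = (LinearMap.mulLeft F (wd [a] : A2)) ∘ₗ thU := by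
    apply Pool.Agent.ECU.PL.U_ext
    intro u
    rw [LinearMap.comp_apply, Pool.Agent.ECU.PL.cu_eu, thU_eu, LinearMap.comp_apply, thU_eu,
      LinearMap.mulLeft_apply, ← wd_cons]
  exact LinearMap.congr_fun this Z

theorem thU_pow (j : ℕ) (Z : Pool.Agent.ECU.PL.U) :
    thU (((Pool.Agent.ECU.PL.cu 0 : Module.End (ZMod 2) Pool.Agent.ECU.PL.U) ^ j) Z) =
      xa ^ j * thU Z := by
  induction j with
  | zero => rw [pow_zero, pow_zero, one_mul]; rfl
  | succ j ih =>
    rw [pow_succ', Module.End.mul_apply, thU_cu, ih, pow_succ', mul_assoc]; rfl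

theorem cB_succ (k : ℕ) : cB (k + 1) = xb * xa ^ (k + 1) + xa * cB k := by
  rw [cB, Finset.sum_range_succ', cB, Finset.mul_sum, add_comm]
  congr 1
  · rw [pow_zero, one_mul]; rfl
  · apply Finset.sum_congr rfl
    intro i _
    rw [pow_succ', Nat.add_sub_add_right]
    simp only [mul_assoc]

theorem thU_du (j : ℕ) (Z : Pool.Agent.ECU.PL.U) :
    thU (Pool.Agent.ECU.PL.du (j + 1) Z) = cB j * thU Z := by
  induction j with
  | zero =>
    rw [Pool.Agent.ECU.PL.du_succ, Pool.Agent.ECU.PL.du_zero, map_zero, add_zero, thU_cu, thU_pow]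
    simp [cB, xb]
  | succ j ih =>
    rw [Pool.Agent.ECU.PL.du_succ, map_add, thU_cu, thU_pow, thU_cu, ih, cB_succ, add_mul,
      mul_assoc, mul_assoc]
    rfl

theorem thU_iotaU (P : T F) : thU (Pool.Agent.ECU.PL.iotaU P) = evT pB P := by
  have : thU ∘ₗ Pool.Agent.ECU.PL.iotaU = evT pB := by
    apply Pool.Agent.ECU.hom_ext
    intro u
    rw [LinearMap.comp_apply, Pool.Agent.ECU.PL.iotaU_e, evT_e]
    induction u with
    | nil => rw [Pool.Agent.ECU.PL.iw, thU_eu]; rfl
    | cons k u ih =>
      rw [List.map_cons, List.prod_cons]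
      rcases k with _ | k
      · rw [Pool.Agent.ECU.PL.iw, thU_cu, ih]
        simp [pB, cB, xb]
      · rw [Pool.Agent.ECU.PL.iw, map_add, thU_du, thU_du, ih, pB, if_neg (by omega),
          Nat.add_sub_cancel, add_mul]
  exact LinearMap.congr_fun this P

end LL

open LL in
/-- the lemma C0 for `g`, given TS' and the injectivity of `evT cB` -/
theorem C0g_of (hTS : Pool.Agent.ECU.TSp) (hinj : Function.Injective (evT cB))
    {m D : ℕ} (hD : 1 ≤ D) (P : T F) (hP : ∀ v, P v ≠ 0 → v.length = m ∧ v.sum = D)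
    (h : evT gB P ∈ LA F (Fin 2)) (v : List ℕ) (hv : P v ≠ 0) : ∀ k ∈ v, k ≤ 1 := by
  have hm : 1 ≤ m := by
    obtain ⟨h1, h2⟩ := hP v hv
    rcases v with _ | ⟨k, v⟩
    · simp only [List.sum_nil] at h2; omega
    · rw [← h1, List.length_cons]; omega
  have hc : evT cB P ∈ LA F (Fin 2) := by
    rw [← pjx_evT_gB P (fun v hv => (hP v hv).2)]
    exact pj_mem vx D h
  -- the coefficient of `x` vanishes for both
  have hx : ∀ β : ℕ → A2, (∀ k, cf (β k) [] = 0 ∧ cf (β k) [0] = 0) → cf (evT β P) [0] = 0 := by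
    intro β hβ
    rw [evT_single', Finsupp.sum, cf_sum]
    apply Finset.sum_eq_zero
    intro u hu
    have hu1 := (hP u (Finsupp.mem_support_iff.mp hu)).1
    rcases u with _ | ⟨k, u⟩
    · simp only [List.length_nil] at hu1; omega
    · rw [cf_smul, List.map_cons, List.prod_cons, cf_mul]
      simp [Finset.sum_range_succ, (hβ k).1, (hβ k).2]
  have hcB : ∀ k, cf (cB k) [] = 0 ∧ cf (cB k) [0] = 0 := by
    intro k
    have hk := Hom_cB vs k
    have e1 : k * vs 0 + vs 1 = 1 := by simp [vs]
    rw [e1] at hk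
    constructor
    · by_contra h0
      have := hk _ h0
      simp at this
    · by_contra h0
      have := hk _ h0
      simp [vs] at this
  have hgB : ∀ k, cf (gB k) [] = 0 ∧ cf (gB k) [0] = 0 := by
    intro k
    rw [gB, cf_sum, cf_sum]
    exact ⟨Finset.sum_eq_zero fun i _ => (hcB i).1, Finset.sum_eq_zero fun i _ => (hcB i).2⟩
  have s1 : sft (evT gB P) = evT gB P := by
    have := LA_shift h
    rw [hx gB hgB, map_zero, add_zero] at this
    exact this
  have s2 : sft (evT cB P) = evT cB P := by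
    have := LA_shift hc
    rw [hx cB hcB, map_zero, add_zero] at this
    exact this
  have hT : tT P = P := by
    apply hinj
    rw [evT_tT cB (fun k => sft (cB k)) sft_cB, ← evT_map, s2]
  have h3 : evT pB P = evT gB P := by
    conv_lhs => rw [← hT]
    rw [evT_tT pB (fun k => sft (gB k)) sft_gB, ← evT_map, s1]
  have h4 : ∀ u v : List (Fin 2), u ≠ [] → v ≠ [] → sh (Pool.Agent.ECU.PL.iotaU P) u v = 0 := by
    intro u v hu hv
    have h5 : (Pool.Agent.ECU.PL.iotaU P : List (Fin 2) → F) = cf (evT gB P) := by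
      funext l
      rw [← h3, ← thU_iotaU, cf_thU]
    rw [h5]
    exact cf_LA_sh h u v hu hv
  exact Pool.Agent.ECU.c0_main hTS (Pool.Agent.ECU.mem_L.mpr (fun v hv => (hP v hv).1))
    (Pool.Agent.ECU.mem_H.mpr (fun v hv => (hP v hv).2)) h4 v hv

end

end Pool.Agent.ECK
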