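import Pool.Agent.ECK.Defs

/-!
# The operator `e'` on words and the collapse of the runs of `b`

For an idempotent `e'` an element `t(x', e')` only depends on `nf t`, the element obtained by
collapsing the runs of `b`, and `nf t` is `t(x', e')` applied to the vector `1` for the
representation `x' = L_a`, `e' = Eop`.  The coefficients of `nf t` are evaluations of `t` at
`b ↦ b + b² + …`.
-/

set_option autoImplicit false

namespace Pool.Agent.ECK

attribute [local instance] LieRing.ofAssociativeRing

noncomputable section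

/-! ### Words -/

theorem nfW_nil : nfW [] = [] := rfl

theorem nfW_zero (W : List (Fin 2)) : nfW (0 :: W) = 0 :: nfW W := by
  rw [nfW, if_neg]
  rintro ⟨h, _⟩
  exact absurd h (by decide)

theorem nfW_one_of {W : List (Fin 2)} (h : (nfW W).head? = some 1) : nfW (1 :: W) = nfW W := by
  rw [nfW, if_pos ⟨rfl, h⟩]

theorem nfW_one_not {W : List (Fin 2)} (h : ¬ (nfW W).head? = some 1) :
    nfW (1 :: W) = 1 :: nfW W := by
  rw [nfW, if_neg]
  rintro ⟨_, h'⟩
  exact h h'

/-- A letter is `0` or `1`. -/
theorem fin2 (a : Fin 2) : a = 0 ∨ a = 1 := by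
  rcases a with ⟨a, ha⟩
  interval_cases a
  · left; rfl
  · right; rfl

theorem head_nfW (W : List (Fin 2)) : (nfW W).head? = W.head? := by
  rcases W with _ | ⟨a, W⟩
  · rfl
  · rcases fin2 a with rfl | rfl
    · rw [nfW_zero]; rfl
    · by_cases h : (nfW W).head? = some 1
      · rw [nfW_one_of h, h]; rfl
      · rw [nfW_one_not h]; rfl

theorem nbb_nfW (W : List (Fin 2)) : nbb (nfW W) := by
  induction W with
  | nil => exact List.isChain_nil
  | cons a W ih =>
    rcases fin2 a with rfl | rfl
    · rw [nfW_zero, nbb, List.isChain_cons]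
      exact ⟨fun y _ => Or.inl rfl, ih⟩
    · by_cases h : (nfW W).head? = some 1
      · rw [nfW_one_of h]; exact ih
      · rw [nfW_one_not h, nbb, List.isChain_cons]
        refine ⟨fun y hy => ?_, ih⟩
        rcases fin2 y with hy0 | hy1
        · exact Or.inr hy0
        · exfalso; apply h; rw [← hy1]; exact hy

theorem nbb_tail {a : Fin 2} {V : List (Fin 2)} (h : nbb (a :: V)) : nbb V := by
  rw [nbb, List.isChain_cons] at h
  exact h.2

theorem nbb_one {V : List (Fin 2)} (h : nbb (1 :: V)) : ¬ V.head? = some 1 := by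
  rw [nbb, List.isChain_cons] at h
  intro h1
  rcases h.1 1 h1 with h | h
  · exact absurd h (by decide)
  · exact absurd h (by decide)

theorem nfW_of_nbb {V : List (Fin 2)} (h : nbb V) : nfW V = V := by
  induction V with
  | nil => rfl
  | cons a V ih =>
    have ih' := ih (nbb_tail h)
    rcases fin2 a with rfl | rfl
    · rw [nfW_zero, ih']
    · rw [nfW_one_not, ih']
      rw [ih']
      exact nbb_one h

theorem wgt_nfW (W : List (Fin 2)) : wgt vs (nfW W) ≤ wgt vs W ∧
    (wgt vs (nfW W) = wgt vs W → nfW W = W) := by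
  induction W with
  | nil => exact ⟨le_refl _, fun _ => rfl⟩
  | cons a W ih =>
    rcases fin2 a with rfl | rfl
    · rw [nfW_zero, wgt_cons, wgt_cons]
      refine ⟨by omega, fun h => ?_⟩
      rw [ih.2 (by omega)]
    · have h1 : vs 1 = 1 := rfl
      by_cases h : (nfW W).head? = some 1
      · rw [nfW_one_of h, wgt_cons, h1]
        refine ⟨by omega, fun h' => ?_⟩
        omega
      · rw [nfW_one_not h, wgt_cons, wgt_cons, h1]
        refine ⟨by omega, fun h' => ?_⟩
        rw [ih.2 (by omega)]

theorem wgt_vs (W : List (Fin 2)) : wgt vs W = W.count 1 := by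
  induction W with
  | nil => rfl
  | cons a W ih =>
    rcases fin2 a with rfl | rfl
    · rw [wgt_cons, ih, List.count_cons_of_ne (by decide)]
      show 0 + _ = _
      omega
    · rw [wgt_cons, ih, List.count_cons_self]
      show 1 + _ = _
      omega

/-! ### The operator `Eop` -/

theorem Eop_Eop (p : A2) : Eop (Eop p) = Eop p := by
  have : Eop ∘ₗ Eop = Eop := by
    apply lin_ext
    intro W
    rw [LinearMap.comp_apply, Eop, linw_wd]
    by_cases h : W.head? = some 1
    · rw [if_pos h, linw_wd, if_pos h]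
    · rw [if_neg h, linw_wd, if_pos (show (1 :: W).head? = some 1 from rfl)]
  exact LinearMap.congr_fun this p

theorem nf_wd (W : List (Fin 2)) : nf (wd W) = wd (nfW W) := by
  rw [nf, linw_wd]

theorem Eop_wd_nfW (W : List (Fin 2)) : Eop (wd (nfW W)) = wd (nfW (1 :: W)) := by
  rw [Eop, linw_wd]
  by_cases h : (nfW W).head? = some 1
  · rw [if_pos h, nfW_one_of h]
  · rw [if_neg h, nfW_one_not h]

theorem nf_eq (t : A2) : (lf ![LinearMap.mulLeft F xa, Eop] t : Module.End F A2) 1 = nf t := by
  have : (LinearMap.applyₗ (1 : A2)) ∘ₗ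
      (lf ![LinearMap.mulLeft F xa, Eop] : A2 →ₐ[F] Module.End F A2).toLinearMap = nf := by
    apply lin_ext
    intro W
    rw [LinearMap.comp_apply, nf_wd]
    show (lf ![LinearMap.mulLeft F xa, Eop] (wd W) : Module.End F A2) 1 = wd (nfW W)
    induction W with
    | nil =>
      rw [nfW_nil, wd_nil, show (lf ![LinearMap.mulLeft F xa, Eop] (1 : A2) : Module.End F A2) = 1
        from map_one _]
      rfl
    | cons a W ih =>
      rw [wd_cons, map_mul, Module.End.mul_apply, ih, lf_letter]
      rcases fin2 a with rfl | rfl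
      · show LinearMap.mulLeft F xa (wd (nfW W)) = _
        rw [LinearMap.mulLeft_apply, nfW_zero, wd_cons 0 (nfW W)]
        rfl
      · show Eop (wd (nfW W)) = _
        exact Eop_wd_nfW W
  exact LinearMap.congr_fun this t

theorem lf_nf {R' : Type} [Ring R'] [Algebra F R'] (x e : R') (he : e * e = e) (t : A2) :
    lf ![x, e] (nf t) = lf ![x, e] t := by
  have : (lf ![x, e] : A2 →ₐ[F] R').toLinearMap ∘ₗ nf = (lf ![x, e] : A2 →ₐ[F] R').toLinearMap := by
    apply lin_ext
    intro W
    rw [LinearMap.comp_apply, nf_wd]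
    show lf ![x, e] (wd (nfW W)) = lf ![x, e] (wd W)
    induction W with
    | nil => rfl
    | cons a W ih =>
      rcases fin2 a with rfl | rfl
      · rw [nfW_zero, wd_cons, wd_cons 0 W, map_mul, map_mul, ih]
      · by_cases h : (nfW W).head? = some 1
        · rw [nfW_one_of h, wd_cons 1 W, map_mul, ← ih, lf_letter]
          obtain ⟨V, hV⟩ : ∃ V, nfW W = 1 :: V := by
            rcases hW : nfW W with _ | ⟨c, V⟩
            · rw [hW] at h; exact absurd h (by simp)
            · rw [hW] at h
              have : c = 1 := by simpa using h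
              exact ⟨V, by rw [this]⟩
          rw [hV, wd_cons, map_mul, lf_letter]
          show e * _ = e * (e * _)
          rw [← mul_assoc, he]
        · rw [nfW_one_not h, wd_cons, wd_cons 1 W, map_mul, map_mul, ih]
  exact LinearMap.congr_fun this t

theorem io_uni {R' : Type} [Ring R'] [Algebra F R'] (x e : R') (p : A2) :
    lf ![x, e] (io p) = lf ![x, e * x + x * e] p := by
  have : ((lf ![x, e] : A2 →ₐ[F] R').comp io) = lf ![x, e * x + x * e] := by
    apply alg_ext
    intro a
    rw [AlgHom.comp_apply, io, lf_letter, lf_letter]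
    rcases fin2 a with rfl | rfl
    · show lf ![x, e] (wd [0]) = x
      rw [lf_letter]; rfl
    · show lf ![x, e] (wd [1] * wd [0] + wd [0] * wd [1]) = e * x + x * e
      rw [map_add, map_mul, map_mul, lf_letter, lf_letter]
      rfl
  exact DFunLike.congr_fun this p

/-- `nf t = nf (ι p)` -/
theorem uni_nf {t p : A2} (h : Uni t p) : nf t = nf (io p) := by
  have hE : (Eop : Module.End F A2) * Eop = Eop := by
    apply LinearMap.ext
    intro p
    exact Eop_Eop p
  rw [← nf_eq, ← nf_eq, h (Module.End F A2) (LinearMap.mulLeft F xa) Eop hE, io_uni]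

/-! ### The coefficients of `nf t` -/

/-- Left quotient by a letter. -/
def lq (a : Fin 2) : A2 →ₗ[F] A2 :=
  linw (fun W => match W with
    | [] => 0
    | b :: W => if b = a then wd W else 0)

theorem lq_nil (a : Fin 2) : lq a (wd []) = 0 := by rw [lq, linw_wd]

theorem lq_cons (a b : Fin 2) (W : List (Fin 2)) :
    lq a (wd (b :: W)) = if b = a then wd W else 0 := by rw [lq, linw_wd]

theorem cf_lq (a : Fin 2) (t : A2) (l : List (Fin 2)) : cf (lq a t) l = cf t (a :: l) := by
  have : (cfL l : A2 →ₗ[F] F) ∘ₗ lq a = cfL (a :: l) := by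
    apply lin_ext
    intro W
    rw [LinearMap.comp_apply, cfL_apply, cfL_apply]
    rcases W with _ | ⟨b, W⟩
    · rw [lq_nil, cf_zero, cf_wd, if_neg (by simp)]
    · rw [lq_cons, cf_wd]
      by_cases h : b = a
      · rw [if_pos h, cf_wd, h]; simp
      · rw [if_neg h, cf_zero, if_neg]
        intro h'
        exact h (List.cons.inj h').1
  exact LinearMap.congr_fun this t

theorem cf_nf_zero (t : A2) (V : List (Fin 2)) : cf (nf t) (0 :: V) = cf (nf (lq 0 t)) V := by
  have : (cfL (0 :: V) : A2 →ₗ[F] F) ∘ₗ nf = (cfL V) ∘ₗ nf ∘ₗ lq 0 := by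
    apply lin_ext
    intro W
    rw [LinearMap.comp_apply, LinearMap.comp_apply, LinearMap.comp_apply, cfL_apply, cfL_apply,
      nf_wd]
    rcases W with _ | ⟨b, W⟩
    · rw [lq_nil, map_zero, cf_zero, nfW_nil, cf_wd, if_neg (by simp)]
    · rw [lq_cons]
      rcases fin2 b with rfl | rfl
      · rw [if_pos rfl, nf_wd, nfW_zero, cf_wd, cf_wd]; simp
      · rw [if_neg (by decide), map_zero, cf_zero, cf_wd, if_neg]
        intro h
        have h1 := head_nfW (1 :: W)
        rw [h] at h1
        exact absurd h1 (by simp)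
  exact LinearMap.congr_fun this t

theorem cf_nf_one (t : A2) {V : List (Fin 2)} (hV : ¬ V.head? = some 1) :
    cf (nf t) (1 :: V) = cf (nf (lq 1 t)) V + cf (nf (lq 1 t)) (1 :: V) := by
  have : (cfL (1 :: V) : A2 →ₗ[F] F) ∘ₗ nf = (cfL V + cfL (1 :: V)) ∘ₗ nf ∘ₗ lq 1 := by
    apply lin_ext
    intro W
    rw [LinearMap.comp_apply, LinearMap.comp_apply, LinearMap.comp_apply, LinearMap.add_apply,
      cfL_apply, cfL_apply, cfL_apply, nf_wd]
    rcases W with _ | ⟨b, W⟩
    · rw [lq_nil, map_zero, cf_zero, cf_zero, nfW_nil, cf_wd, if_neg (by simp), add_zero]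
    · rw [lq_cons]
      rcases fin2 b with rfl | rfl
      · rw [if_neg (by decide), map_zero, cf_zero, cf_zero, nfW_zero, cf_wd, if_neg (by simp),
          add_zero]
      · rw [if_pos rfl, nf_wd]
        by_cases h : (nfW W).head? = some 1
        · rw [nfW_one_of h, cf_wd, cf_wd, if_neg (fun h' : nfW W = V => hV (by rw [← h']; exact h)),
            zero_add]
        · rw [nfW_one_not h, cf_wd, cf_wd, cf_wd,
            if_neg (fun h' : nfW W = 1 :: V => h (by rw [h']; rfl)), add_zero]
          simp
  exact LinearMap.congr_fun this t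

theorem cf_nf_iter (t : A2) {V : List (Fin 2)} (hV : ¬ V.head? = some 1) (n : ℕ) :
    cf (nf t) (1 :: V) = ∑ k ∈ Finset.range n, cf (nf (lq 1 (((lq 1) ^ k) t))) V +
      cf (nf (((lq 1) ^ n) t)) (1 :: V) := by
  induction n with
  | zero => simp
  | succ n ih =>
    rw [ih, cf_nf_one _ hV, Finset.sum_range_succ, add_assoc, pow_succ' (lq 1) n,
      Module.End.mul_apply]

theorem cf_lq_pow (k : ℕ) (t : A2) (l : List (Fin 2)) :
    cf (((lq 1) ^ k) t) l = cf t (List.replicate k 1 ++ l) := by
  induction k generalizing l with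
  | zero => simp
  | succ k ih =>
    rw [pow_succ', Module.End.mul_apply, cf_lq, ih, List.replicate_succ',
      List.append_assoc]
    rfl

theorem bt_zero (M : ℕ) (V : List (Fin 2)) : bt M V (fun _ => 0) = 0 := by
  induction V with
  | nil => rfl
  | cons a V ih =>
    rw [bt]
    have h1 : dq 0 (fun _ => 0) = fun _ => 0 := rfl
    have h2 : Yq M (dq 1 (fun _ => 0)) = fun _ => 0 := by
      funext t
      simp [Yq, dq]
    rw [h1, h2, ih]
    simp

theorem bt_add (M : ℕ) (V : List (Fin 2)) (g h : Fn) :
    bt M V (fun t => g t + h t) = bt M V g + bt M V h := by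
  induction V generalizing g h with
  | nil => rfl
  | cons a V ih =>
    rw [bt, bt, bt]
    have h1 : dq 0 (fun t => g t + h t) = fun t => dq 0 g t + dq 0 h t := rfl
    have h2 : Yq M (dq 1 (fun t => g t + h t)) = fun t => Yq M (dq 1 g) t + Yq M (dq 1 h) t := by
      funext t
      simp only [Yq, dq, Finset.sum_add_distrib]
    rw [h1, h2, ih, ih]
    split_ifs <;> rfl

theorem bt_sum (M : ℕ) (V : List (Fin 2)) {ι : Type*} (s : Finset ι) (g : ι → Fn) :
    bt M V (fun t => ∑ i ∈ s, g i t) = ∑ i ∈ s, bt M V (g i) := by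
  classical
  induction s using Finset.induction_on with
  | empty => simp only [Finset.sum_empty]; exact bt_zero M V
  | insert i s hi ih =>
    simp only [Finset.sum_insert hi]
    rw [bt_add, ih]

theorem cf_nf {M : ℕ} {t : A2} (hM : ∀ l, M ≤ l.length → cf t l = 0) {V : List (Fin 2)}
    (hV : nbb V) : cf (nf t) V = bt M V (cf t) := by
  induction V generalizing t with
  | nil =>
    rw [bt]
    have : (cfL [] : A2 →ₗ[F] F) ∘ₗ nf = cfL [] := by
      apply lin_ext
      intro W
      rw [LinearMap.comp_apply, cfL_apply, cfL_apply, nf_wd, cf_wd, cf_wd]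
      rcases W with _ | ⟨b, W⟩
      · rw [nfW_nil]
      · have h : nfW (b :: W) ≠ [] := by
          intro h
          have h1 := head_nfW (b :: W)
          rw [h] at h1
          exact absurd h1 (by simp)
        rw [if_neg h, if_neg (by simp)]
    exact LinearMap.congr_fun this t
  | cons a V ih =>
    rw [bt]
    rcases fin2 a with rfl | rfl
    · rw [if_pos rfl, cf_nf_zero, ih _ (nbb_tail hV)]
      · congr 1
        funext l
        exact cf_lq 0 t l
      · intro l hl
        rw [cf_lq]
        apply hM
        rw [List.length_cons]; omega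
    · rw [if_neg (by decide), cf_nf_iter t (nbb_one hV) M]
      have h0 : ((lq 1) ^ M) t = 0 := by
        apply cf_ext
        intro l
        rw [cf_lq_pow, cf_zero]
        apply hM
        rw [List.length_append, List.length_replicate]; omega
      rw [h0, map_zero, cf_zero, add_zero]
      show _ = bt M V (fun l => ∑ k ∈ Finset.range M, dq 1 (cf t) (List.replicate k 1 ++ l))
      rw [bt_sum]
      apply Finset.sum_congr rfl
      intro k _
      have hc : cf (lq 1 (((lq 1) ^ k) t)) = fun l => dq 1 (cf t) (List.replicate k 1 ++ l) := by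
        funext l
        rw [cf_lq, cf_lq_pow, dq]
        congr 1
        rw [show List.replicate k (1 : Fin 2) ++ 1 :: l = (List.replicate k 1 ++ [1]) ++ l by simp,
          ← List.replicate_succ', List.replicate_succ]
        rfl
      rw [ih _ (nbb_tail hV), hc]
      intro l hl
      rw [hc]
      apply hM
      rw [List.length_cons, List.length_append]; omega

/-! ### The top part -/

/-- Homogeneous elements for the number of letters `1`. -/
def Hs (k : ℕ) (q : A2) : Prop := ∀ l, wgt vs l ≠ k → cf q l = 0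

theorem Hs_letter {k : ℕ} {q : A2} (h : Hs k q) (a : Fin 2) : Hs (vs a + k) (wd [a] * q) := by
  intro l hl
  rcases l with _ | ⟨b, l⟩
  · rw [cf_letter_mul_nil]
  · rw [cf_letter_mul_cons]
    by_cases hab : a = b
    · subst hab
      rw [if_pos rfl]
      apply h
      intro h'
      apply hl
      rw [wgt_cons, h']
    · rw [if_neg hab]

theorem Hs_add {k : ℕ} {p q : A2} (hp : Hs k p) (hq : Hs k q) : Hs k (p + q) := by
  intro l hl
  rw [cf_add, hp l hl, hq l hl, add_zero]

theorem Hs_io (W : List (Fin 2)) : Hs (wgt vs W) (io (wd W)) := by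
  induction W with
  | nil =>
    intro l hl
    rw [wd_nil, map_one, cf_one, if_neg]
    intro h
    apply hl
    rw [h]
  | cons a W ih =>
    rw [wd_cons, map_mul, wgt_cons]
    rcases fin2 a with rfl | rfl
    · rw [show io (wd [0]) = wd [0] by rw [io, lf_letter]; rfl]
      exact Hs_letter ih 0
    · rw [show io (wd [1]) = wd [1] * wd [0] + wd [0] * wd [1] by rw [io, lf_letter]; rfl, add_mul,
        mul_assoc, mul_assoc]
      apply Hs_add
      · have h1 := Hs_letter (Hs_letter ih 0) 1
        have h2 : vs 1 + (vs 0 + wgt vs W) = vs 1 + wgt vs W := by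
          show 1 + (0 + _) = 1 + _
          omega
        rwa [h2] at h1
      · have h1 := Hs_letter (Hs_letter ih 1) 0
        have h2 : vs 0 + (vs 1 + wgt vs W) = vs 1 + wgt vs W := by
          show 0 + (1 + _) = 1 + _
          omega
        rwa [h2] at h1

/-- `ι` is homogeneous. -/
theorem pj_io (k : ℕ) (p : A2) : pj vs k (io p) = io (pj vs k p) := by
  have : (pj vs k : A2 →ₗ[F] A2) ∘ₗ io.toLinearMap = io.toLinearMap ∘ₗ pj vs k := by
    apply lin_ext
    intro W
    rw [LinearMap.comp_apply, LinearMap.comp_apply, pj_wd]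
    show pj vs k (io (wd W)) = io (if wgt vs W = k then wd W else 0)
    by_cases h : wgt vs W = k
    · rw [if_pos h]
      apply cf_ext
      intro l
      rw [cf_pj]
      by_cases hl : wgt vs l = k
      · rw [if_pos hl]
      · rw [if_neg hl, Hs_io W l (by rw [h]; exact hl)]
    · rw [if_neg h, map_zero]
      apply cf_ext
      intro l
      rw [cf_pj, cf_zero]
      by_cases hl : wgt vs l = k
      · rw [if_pos hl, Hs_io W l (fun h' => h (by rw [← h', hl]))]
      · rw [if_neg hl]
  exact LinearMap.congr_fun this p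

/-- Truncation to at most `K` letters `1`. -/
def trs (K : ℕ) : A2 →ₗ[F] A2 := linw (fun W => if wgt vs W ≤ K then wd W else 0)

theorem cf_trs (K : ℕ) (p : A2) (l : List (Fin 2)) :
    cf (trs K p) l = if wgt vs l ≤ K then cf p l else 0 := by
  have : (cfL l : A2 →ₗ[F] F) ∘ₗ (trs K) = (if wgt vs l ≤ K then (1 : F) else 0) • cfL l := by
    apply lin_ext
    intro W
    rw [LinearMap.comp_apply, cfL_apply, trs, linw_wd, LinearMap.smul_apply, cfL_apply,
      smul_eq_mul]
    by_cases h : W = l
    · subst h
      by_cases hW : wgt vs W ≤ K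
      · rw [if_pos hW, if_pos hW, one_mul]
      · rw [if_neg hW, if_neg hW, cf_zero, zero_mul]
    · rw [cf_wd, if_neg h, mul_zero]
      by_cases hW : wgt vs W ≤ K
      · rw [if_pos hW, cf_wd, if_neg h]
      · rw [if_neg hW, cf_zero]
  have h := LinearMap.congr_fun this p
  rw [LinearMap.comp_apply, cfL_apply, LinearMap.smul_apply, cfL_apply, smul_eq_mul] at h
  rw [h]
  split_ifs <;> simp

theorem cf_nf_trs (K : ℕ) (q : A2) {V : List (Fin 2)} (hV : nbb V) (hK : wgt vs V = K) :
    cf (nf (trs K q)) V = cf (trs K q) V := by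
  have : (cfL V : A2 →ₗ[F] F) ∘ₗ nf ∘ₗ (trs K) = cfL V ∘ₗ trs K := by
    apply lin_ext
    intro W
    rw [LinearMap.comp_apply, LinearMap.comp_apply, LinearMap.comp_apply, cfL_apply, cfL_apply,
      trs, linw_wd]
    by_cases hW : wgt vs W ≤ K
    · rw [if_pos hW, nf_wd, cf_wd, cf_wd]
      by_cases h : W = V
      · rw [if_pos h, h, nfW_of_nbb hV, if_pos rfl]
      · rw [if_neg h, if_neg]
        intro h'
        apply h
        have h1 := wgt_nfW W
        rw [h'] at h1
        exact (h1.2 (by omega)).symm
    · rw [if_neg hW, map_zero]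
  exact LinearMap.congr_fun this q

/-- top part: if `p` has no component of `s`-degree `> K`, the coefficient of a word without `bb`
with `K` letters `b` in `nf (ι p)` is that of `ι (pj vs K p)`. -/
theorem nf_io_top {K : ℕ} {p : A2} (hp : ∀ k, K < k → pj vs k p = 0) {V : List (Fin 2)} (hV : nbb V)
    (hK : V.count 1 = K) : cf (nf (io p)) V = cf (io (pj vs K p)) V := by
  rw [← wgt_vs] at hK
  have h1 : trs K (io p) = io p := by
    apply cf_ext
    intro l
    rw [cf_trs]
    by_cases hl : wgt vs l ≤ K
    · rw [if_pos hl]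
    · rw [if_neg hl]
      have h2 := congrArg (fun q => cf q l) (pj_io (wgt vs l) p)
      rw [hp _ (by omega), map_zero] at h2
      simp only [cf_pj, cf_zero, if_true] at h2
      exact h2.symm
  rw [← pj_io, cf_pj, if_pos hK, ← h1]
  exact cf_nf_trs K _ hV hK

/-! ### The representation `x' = L_x`, `e' = d1` -/

theorem d1_idem (p : A2) : d1 (d1 p) = d1 p := by
  have : d1 ∘ₗ d1 = d1 := by
    apply lin_ext
    intro W
    rw [LinearMap.comp_apply]
    induction W with
    | nil => rw [wd_nil, d1, der_one, map_zero]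
    | cons a W ih =>
      rw [wd_cons, d1_mul]
      rcases fin2 a with rfl | rfl
      · change d1 (d1 xa * wd W + xa * d1 (wd W)) = d1 xa * wd W + xa * d1 (wd W)
        rw [d1_xa, map_add, d1_mul, d1_mul, d1_xa, d1_xb, ih]
        rw [show xb * wd W + xb * d1 (wd W) + (xb * d1 (wd W) + xa * d1 (wd W)) =
          xb * wd W + xa * d1 (wd W) + (xb * d1 (wd W) + xb * d1 (wd W)) by abel, add_self,
          add_zero]
      · change d1 (d1 xb * wd W + xb * d1 (wd W)) = d1 xb * wd W + xb * d1 (wd W)
        rw [d1_xb, map_add, d1_mul, d1_mul, d1_xb, ih]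
        rw [add_self (xb * d1 (wd W)), add_zero]
  exact LinearMap.congr_fun this p

/-- `q(x', s') = L_q` for `x' = L_x`, `e' = d1`. -/
theorem lf_d1 (q : A2) : lf ![LinearMap.mulLeft F xa, d1 * LinearMap.mulLeft F xa +
    LinearMap.mulLeft F xa * d1] q = LinearMap.mulLeft F q := by
  have : lf ![LinearMap.mulLeft F xa, d1 * LinearMap.mulLeft F xa +
      LinearMap.mulLeft F xa * d1] = Algebra.lmul F A2 := by
    apply alg_ext
    intro a
    rw [lf_letter]
    rcases fin2 a with rfl | rfl
    · rfl
    · apply LinearMap.ext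
      intro p
      change d1 (xa * p) + xa * d1 p = xb * p
      rw [d1_mul, d1_xa, add_assoc, add_self, add_zero]
  rw [this]
  rfl

/-- if `q(x', s') e' = 0` on the vector `1` of the representation `Eop`, then `q = 0` -/
theorem uni_zero {q : A2} (h : nf (io q * xb) = 0) : q = 0 := by
  have hd : (d1 : Module.End F A2) * d1 = d1 := by
    apply LinearMap.ext
    intro p
    exact d1_idem p
  have h1 := lf_nf (R' := Module.End F A2) (LinearMap.mulLeft F xa) d1 hd (io q * xb)
  rw [h, map_zero, map_mul, io_uni, lf_d1, xb, lf_letter] at h1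
  have h2 := LinearMap.congr_fun h1 xa
  change 0 = q * d1 xa at h2
  rw [d1_xa] at h2
  apply cf_ext
  intro l
  have h3 := cf_mul_letter_append (1 : Fin 2) 1 l q
  rw [if_pos rfl] at h3
  rw [← h3, cf_zero]
  change cf (q * xb) (l ++ [1]) = 0
  rw [← h2, cf_zero]

end

end Pool.Agent.ECK
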