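import Mathlib
import Pool.Agent.ECB.Lattice
import Pool.Agent.H44DM.Parity

/-!
# The stuffles of `1^i` and `1^j` modulo 2, and the coefficient of `x₀^(w-1)x₁`

For `c` in `redM w 2`: for odd `w`, the sum of `c` over the stuffles of `1^i` and `1^j` is
`C(w, i) c(0^(w-1) 1)`; for even `w ≥ 4` both vanish.
-/

set_option autoImplicit false

namespace Pool.Agent.ECK

open Pool.Agent.H4DM Pool.Agent.H44DM Pool.Agent.ECB

noncomputable section

/-- `w` times the sum over the stuffles of `1^i` and `1^j`. -/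
theorem st_ones_mul {ψ : NC (Fin 2)} (h : IsDM ψ) {i j : ℕ} (hi : 1 ≤ i) (hj : 1 ≤ j) :
    ((i + j : ℕ) : ℚ) * st (fun t => cf ψ (yw t)) (List.replicate i 1) (List.replicate j 1) =
      (-1 : ℚ) ^ (i + j) * ((i + j).choose i : ℚ) * cf ψ (List.replicate (i + j - 1) 0 ++ [1]) := by
  have h1 := st_ones_dm h hi hj
  obtain ⟨a, rfl⟩ : ∃ a, i = a + 1 := ⟨i - 1, by omega⟩
  have h5 := Nat.add_one_mul_choose_eq (a + j) a
  have e1 : a + 1 + j - 1 = a + j := by omega
  have e2 : a + 1 + j = a + j + 1 := by omega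
  rw [e1] at h1 ⊢
  rw [e2]
  simp only [Nat.add_sub_cancel] at h1
  have h6 : ((a + j + 1 : ℕ) : ℚ) * ((a + j).choose a : ℚ) =
      ((a + j + 1).choose (a + 1) : ℚ) * ((a + 1 : ℕ) : ℚ) := by exact_mod_cast h5
  have h7 : ((a + 1 : ℕ) : ℚ) ≠ 0 := by positivity
  apply mul_left_cancel₀ h7
  rw [pow_succ]
  have h8 := congrArg (fun x => ((a + j + 1 : ℕ) : ℚ) * x) h1
  simp only [mul_zero] at h8
  linear_combination h8 - (-1 : ℚ) ^ (a + j) * cf ψ (List.replicate (a + j) 0 ++ [1]) * h6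

variable {w : ℕ} {c : List (Fin 2) → ZMod 2}

theorem redM_odd (hc : c ∈ redM w 2) (hw : Odd w) {i j : ℕ} (hi : 1 ≤ i) (hj : 1 ≤ j)
    (hij : i + j = w) : st (fun t => c (yw t)) (List.replicate i 1) (List.replicate j 1) =
      (w.choose i : ZMod 2) * c (List.replicate (w - 1) 0 ++ [1]) := by
  subst hij
  obtain ⟨ψ, hψ, z, hz, h⟩ := hc
  have h1 := st_ones_mul hψ.1 hi hj
  have h3 := map_st (Int.castAddHom ℚ) (fun t => z (yw t)) (List.replicate i 1)
    (List.replicate j 1)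
  have h4 : (fun t => (Int.castAddHom ℚ) (z (yw t))) = fun t => cf ψ (yw t) := by
    funext t; exact (hz (yw t)).symm
  rw [h4] at h3
  rw [← h3, hz, hw.neg_one_pow] at h1
  have h2 : ((i + j : ℕ) : ℤ) *
      st (fun t => z (yw t)) (List.replicate i 1) (List.replicate j 1) =
      (-1) * ((i + j).choose i : ℤ) * z (List.replicate (i + j - 1) 0 ++ [1]) := by
    have h1' : (((i + j : ℕ) : ℤ) : ℚ) *
      ((st (fun t => z (yw t)) (List.replicate i 1) (List.replicate j 1) : ℤ) : ℚ) =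
      (-1) * (((i + j).choose i : ℤ) : ℚ) *
        (z (List.replicate (i + j - 1) 0 ++ [1]) : ℚ) := by
      simpa using h1
    exact_mod_cast h1'
  have h5 := congrArg (Int.castRingHom (ZMod 2)) h2
  simp only [map_mul, map_neg, map_one, eq_intCast, Int.cast_natCast] at h5
  have h6 := map_st (Int.castAddHom (ZMod 2)) (fun t => z (yw t)) (List.replicate i 1)
    (List.replicate j 1)
  have h7 : (fun t => (Int.castAddHom (ZMod 2)) (z (yw t))) = fun t => c (yw t) := by
    funext t; exact (h (yw t)).symm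
  rw [h7] at h6
  rw [← h6, h]
  have h8 : ((i + j : ℕ) : ZMod 2) = 1 := by
    rw [ZMod.natCast_eq_one_iff_odd]
    exact hw
  rw [h8, one_mul] at h5
  show ((st (fun t => z (yw t)) (List.replicate i 1) (List.replicate j 1) : ℤ) : ZMod 2) = _
  rw [h5]
  have h9 : (-1 : ZMod 2) = 1 := by decide
  rw [h9, one_mul]

theorem redM_even_cw (hc : c ∈ redM w 2) (hw : Even w) (hw3 : 3 ≤ w) :
    c (List.replicate (w - 1) 0 ++ [1]) = 0 := by
  obtain ⟨ψ, hψ, z, hz, h⟩ := hc
  obtain ⟨k, hk⟩ := hw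
  have hk2 : w = 2 * k := by omega
  subst hk2
  have h1 := parity hψ.1 (by omega) hψ.2
  rw [hz] at h1
  have h2 : z (List.replicate (2 * k - 1) 0 ++ [1]) = 0 := by exact_mod_cast h1
  rw [h, h2]; simp

theorem redM_even_st (hc : c ∈ redM w 2) (hw : Even w) (hw3 : 3 ≤ w) {i j : ℕ} (hi : 1 ≤ i)
    (hj : 1 ≤ j) (hij : i + j = w) :
    st (fun t => c (yw t)) (List.replicate i 1) (List.replicate j 1) = 0 := by
  subst hij
  obtain ⟨ψ, hψ, z, hz, h⟩ := hc
  obtain ⟨k, hk⟩ := hw
  have hk2 : i + j = 2 * k := by omega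
  have hh : Hg wX (2 * k) ψ := by rw [← hk2]; exact hψ.2
  have h0 := parity hψ.1 (by omega) hh
  have h1 := st_ones_mul hψ.1 hi hj
  rw [hk2, h0, mul_zero] at h1
  have hk0 : ((2 * k : ℕ) : ℚ) ≠ 0 := by
    have : 2 * k ≠ 0 := by omega
    exact_mod_cast this
  have h2 := (mul_eq_zero.mp h1).resolve_left hk0
  have h3 := map_st (Int.castAddHom ℚ) (fun t => z (yw t)) (List.replicate i 1)
    (List.replicate j 1)
  have h4 : (fun t => (Int.castAddHom ℚ) (z (yw t))) = fun t => cf ψ (yw t) := by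
    funext t; exact (hz (yw t)).symm
  rw [h4, h2] at h3
  have h5 : st (fun t => z (yw t)) (List.replicate i 1) (List.replicate j 1) = 0 := by
    have h3' : ((st (fun t => z (yw t)) (List.replicate i 1) (List.replicate j 1) : ℤ) : ℚ) = 0 :=
      h3
    exact_mod_cast h3'
  have h6 := map_st (Int.castAddHom (ZMod 2)) (fun t => z (yw t)) (List.replicate i 1)
    (List.replicate j 1)
  have h7 : (fun t => (Int.castAddHom (ZMod 2)) (z (yw t))) = fun t => c (yw t) := by
    funext t; exact (h (yw t)).symm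
  rw [h7, h5, map_zero] at h6
  exact h6.symm

end

end Pool.Agent.ECK
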