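import Pool.Agent.ECK.Defs

/-!
# Inversion of the substitution `φ : c_k ↦ c_k + c_{k-1}`, and words of full length
-/

set_option autoImplicit false

namespace Pool.Agent.ECK

open Pool.Agent.ECB
open Pool.Agent.ECU (T L)

noncomputable section

/-! ### Inversion of `φ` -/

/-- `φ` on words. -/
def phiW : List ℕ → T F
  | [] => Pool.Agent.ECU.e []
  | k :: u => Pool.Agent.ECU.C k (phiW u) +
      (if k = 0 then 0 else Pool.Agent.ECU.C (k - 1) (phiW u))

/-- `φ : c_k ↦ c_k + c_{k-1}`. -/
def phi : T F →ₗ[F] T F := Finsupp.linearCombination F phiW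

theorem phi_e (u : List ℕ) : phi (Pool.Agent.ECU.e u) = phiW u := by
  simp [phi, Pool.Agent.ECU.e, Finsupp.linearCombination_single]

theorem sumS_add (v : List ℕ) (P Q : List ℕ → F) :
    sumS v (fun t => P t + Q t) = sumS v P + sumS v Q := by
  induction v generalizing P Q with
  | nil => rfl
  | cons k v ih => simp only [sumS]; rw [ih, ih]; ring

theorem sumS_smul (v : List ℕ) (r : F) (P : List ℕ → F) :
    sumS v (fun t => r * P t) = r * sumS v P := by
  induction v generalizing P with
  | nil => rfl
  | cons k v ih => simp only [sumS]; rw [ih, ih]; ring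

theorem sumS_zero (v : List ℕ) : sumS v (fun _ => (0 : F)) = 0 := by
  induction v with
  | nil => rfl
  | cons k v ih => simp only [sumS]; rw [ih]; ring

theorem sumS_congr (v : List ℕ) {P Q : List ℕ → F} (h : ∀ u, u.length = v.length → P u = Q u) :
    sumS v P = sumS v Q := by
  induction v generalizing P Q with
  | nil => exact h [] rfl
  | cons k v ih =>
    simp only [sumS]
    rw [ih (fun u hu => h (k :: u) (by simp [hu])), ih (fun u hu => h ((k + 1) :: u) (by simp [hu]))]

theorem phiW_apply (u v : List ℕ) : (phiW u) v = sumS v (fun t => (Pool.Agent.ECU.e u : T F) t) := by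
  induction u generalizing v with
  | nil =>
    rcases v with _ | ⟨j, v⟩
    · rfl
    · show (Pool.Agent.ECU.e [] : T F) (j :: v) = sumS v _ + sumS v _
      have h1 : ∀ (i : ℕ), (fun t => (Pool.Agent.ECU.e [] : T F) (i :: t)) = fun _ => 0 := by
        intro i
        funext t
        rw [Pool.Agent.ECU.e, Finsupp.single_apply, if_neg (by simp)]
      rw [h1, h1, sumS_zero, Pool.Agent.ECU.e, Finsupp.single_apply, if_neg (by simp)]
      simp
  | cons k u ih =>
    rcases v with _ | ⟨j, v⟩
    · show (phiW (k :: u)) [] = (Pool.Agent.ECU.e (k :: u) : T F) []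
      have h2 : (Pool.Agent.ECU.e (k :: u) : T F) [] = 0 := by
        rw [Pool.Agent.ECU.e, Finsupp.single_apply, if_neg (by intro h; cases h)]
      rw [h2, phiW, Finsupp.add_apply, Pool.Agent.ECU.C_apply_nil, zero_add]
      by_cases hk : k = 0
      · rw [if_pos hk]; rfl
      · rw [if_neg hk, Pool.Agent.ECU.C_apply_nil]
    · show (phiW (k :: u)) (j :: v) = sumS v _ + sumS v _
      rw [phiW, Finsupp.add_apply, Pool.Agent.ECU.C_apply_cons]
      have h1 : ∀ (i : ℕ), (fun t => (Pool.Agent.ECU.e (k :: u) : T F) (i :: t)) =
          fun t => (if i = k then (1 : F) else 0) * (Pool.Agent.ECU.e u : T F) t := by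
        intro i
        funext t
        rw [Pool.Agent.ECU.e, Pool.Agent.ECU.e, Finsupp.single_apply, Finsupp.single_apply]
        by_cases h : i = k
        · subst h
          by_cases h2 : u = t
          · subst h2; simp
          · rw [if_neg (by simpa using h2), if_neg h2, mul_zero]
        · rw [if_neg (by intro h'; exact h (List.cons.inj h').1.symm), if_neg h, zero_mul]
      rw [h1, h1, sumS_smul, sumS_smul, ← ih]
      by_cases hk : k = 0
      · subst hk
        rw [if_pos rfl, if_neg (show ¬ j + 1 = 0 by omega)]
        by_cases hj : j = 0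
        · rw [if_pos hj, if_pos hj]; simp
        · rw [if_neg hj, if_neg hj]; simp
      · rw [if_neg hk, Pool.Agent.ECU.C_apply_cons]
        by_cases hj : j = k
        · rw [if_pos hj, if_pos hj, if_neg (by omega), if_neg (by omega)]; simp
        · rw [if_neg hj, if_neg hj]
          by_cases hj1 : j + 1 = k
          · rw [if_pos hj1, if_pos (by omega)]; simp
          · rw [if_neg hj1, if_neg (by omega)]; simp

theorem phi_apply (P : T F) (v : List ℕ) : (phi P) v = sumS v (fun t => P t) := by
  refine Pool.Agent.ECU.T_ind (P := fun P : T F => (phi P) v = sumS v (fun t => P t)) ?_ ?_ ?_ P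
  · rw [map_zero]; exact (sumS_zero v).symm
  · intro p q hp hq
    rw [map_add, Finsupp.add_apply, hp, hq, ← sumS_add]; rfl
  · intro r u
    rw [map_smul, Finsupp.smul_apply, phi_e, phiW_apply, smul_eq_mul, ← sumS_smul]; rfl

theorem evT_phiW {A : Type} [Ring A] [Algebra F A] (β : ℕ → A) (u : List ℕ) :
    evT (fun k => ∑ i ∈ Finset.range (k + 1), β i) (phiW u) = (u.map β).prod := by
  induction u with
  | nil => rw [phiW, evT_e]; rfl
  | cons k u ih =>
    rw [phiW, map_add, evT_C, ih, List.map_cons, List.prod_cons]
    rcases k with _ | k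
    · rw [if_pos rfl, map_zero, add_zero]; simp
    · rw [if_neg (by omega), Nat.add_sub_cancel, evT_C, ih, ← add_mul, Finset.sum_range_succ,
        add_comm (∑ i ∈ Finset.range (k + 1), β i), add_assoc, add_self, add_zero]

/-- If `P0 = φ P1` in coordinates, then evaluating `P1` at `β` is evaluating `P0` at the partial
sums of `β`. -/
theorem evT_gsum {A : Type} [Ring A] [Algebra F A] (β : ℕ → A) {P0 P1 : T F}
    (h : ∀ v, sumS v (fun u => P1 u) = P0 v) :
    evT (fun k => ∑ i ∈ Finset.range (k + 1), β i) P0 = evT β P1 := by
  have h0 : P0 = phi P1 := by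
    ext v; rw [phi_apply, h]
  rw [h0]
  have : (evT (fun k => ∑ i ∈ Finset.range (k + 1), β i)) ∘ₗ phi = evT β := by
    apply Pool.Agent.ECU.hom_ext
    intro u
    rw [LinearMap.comp_apply, phi_e, evT_phiW, evT_e]
  exact LinearMap.congr_fun this P1

/-! ### Words of full length -/

theorem bt_full {M : ℕ} (hM : 1 ≤ M) (V : List (Fin 2)) (g : Fn)
    (hg : ∀ l : List (Fin 2), V.length < l.length → g l = 0) : bt M V g = g V := by
  induction V generalizing g with
  | nil => rfl
  | cons a V ih =>
    rw [List.length_cons] at hg
    fin_cases a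
    · show bt M V (dq 0 g) = g (0 :: V)
      rw [ih (dq 0 g) (fun l hl => hg _ (by simp; omega))]
      rfl
    · show bt M V (Yq M (dq 1 g)) = g (1 :: V)
      rw [ih (Yq M (dq 1 g))]
      · simp only [Yq, dq]
        rw [Finset.sum_eq_single 0]
        · rfl
        · intro k _ hk
          apply hg
          simp only [List.length_cons, List.length_append, List.length_replicate]
          omega
        · intro h; simp at h; omega
      · intro l hl
        simp only [Yq, dq]
        apply Finset.sum_eq_zero
        intro k _
        apply hg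
        simp only [List.length_cons, List.length_append, List.length_replicate]
        omega

/-! ### Algebra maps and evaluations -/

theorem evT_map {A A' : Type} [Ring A] [Algebra F A] [Ring A'] [Algebra F A'] (f : A →ₐ[F] A')
    (β : ℕ → A) (P : T F) : f (evT β P) = evT (fun k => f (β k)) P := by
  have : (f.toLinearMap) ∘ₗ (evT β) = evT (fun k => f (β k)) := by
    apply Pool.Agent.ECU.hom_ext
    intro u
    rw [LinearMap.comp_apply, evT_e, evT_e, AlgHom.toLinearMap_apply, map_list_prod, List.map_map]
    rfl
  exact LinearMap.congr_fun this P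

theorem xa_pow (k : ℕ) : xa ^ k = wd (List.replicate k 0) := by
  induction k with
  | zero => rw [pow_zero, List.replicate_zero, wd_nil]
  | succ k ih => rw [pow_succ', ih, List.replicate_succ, wd_cons]; rfl

end

end Pool.Agent.ECK
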