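import Pool.Agent.ECK.Defs
import Pool.Agent.ECK.Odd

/-!
# The special identity: the function `Nf c` is cyclic

`antiA` is the antipode of the stuffle algebra, in words; together with the shuffle relations it
implies that `Nf c` is a cyclic function (`Nf_cyc`).
-/

set_option autoImplicit false

namespace Pool.Agent.ECK

open Pool.Agent.ECB Pool.Agent.H4DM

attribute [local instance] LieRing.ofAssociativeRing

noncomputable section

/-! ### Substitution of letters -/

/-- The value of `g` at the image of the word `W` under `a ↦ ∑ φ a b • b`. -/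
def sbF (φ : Fin 2 → Fin 2 → F) : List (Fin 2) → Fn → F
  | [], g => g []
  | a :: W, g => φ a 0 * sbF φ W (dq 0 g) + φ a 1 * sbF φ W (dq 1 g)

theorem sbF_cons (φ : Fin 2 → Fin 2 → F) (a : Fin 2) (W : List (Fin 2)) (g : Fn) :
    sbF φ (a :: W) g = φ a 0 * sbF φ W (fun t => g (0 :: t)) + φ a 1 * sbF φ W (fun t => g (1 :: t)) :=
  rfl

theorem sbF_nil (φ : Fin 2 → Fin 2 → F) (g : Fn) : sbF φ [] g = g [] := rfl

theorem sbF_add (φ : Fin 2 → Fin 2 → F) (W : List (Fin 2)) (g h : Fn) :
    sbF φ W (fun t => g t + h t) = sbF φ W g + sbF φ W h := by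
  induction W generalizing g h with
  | nil => rfl
  | cons a W ih => rw [sbF_cons, sbF_cons, sbF_cons, ih, ih]; ring

theorem sbF_smul (φ : Fin 2 → Fin 2 → F) (W : List (Fin 2)) (x : F) (g : Fn) :
    sbF φ W (fun t => x * g t) = x * sbF φ W g := by
  induction W generalizing g with
  | nil => rfl
  | cons a W ih => rw [sbF_cons, sbF_cons, ih, ih]; ring

theorem sbF_zero (φ : Fin 2 → Fin 2 → F) (W : List (Fin 2)) :
    sbF φ W (fun _ => 0) = 0 := by
  have h := sbF_smul φ W 0 (fun _ => 0)
  simpa using h

theorem sbF_congr (φ : Fin 2 → Fin 2 → F) (W : List (Fin 2)) {g h : Fn}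
    (H : ∀ t, t.length = W.length → g t = h t) : sbF φ W g = sbF φ W h := by
  induction W generalizing g h with
  | nil => exact H [] rfl
  | cons a W ih =>
    rw [sbF_cons, sbF_cons, ih (g := fun t => g (0 :: t)) (h := fun t => h (0 :: t)),
      ih (g := fun t => g (1 :: t)) (h := fun t => h (1 :: t))]
    · intro t ht; exact H _ (by simp [ht])
    · intro t ht; exact H _ (by simp [ht])

theorem sbF_append (φ : Fin 2 → Fin 2 → F) (U V : List (Fin 2)) (g : Fn) :
    sbF φ (U ++ V) g = sbF φ U (fun s => sbF φ V (fun t => g (s ++ t))) := by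
  induction U generalizing g with
  | nil => rfl
  | cons a U ih => rw [List.cons_append, sbF_cons, sbF_cons, ih, ih]; rfl

theorem sbF_comm (φ ψ : Fin 2 → Fin 2 → F) (U V : List (Fin 2)) (h : List (Fin 2) → Fn) :
    sbF φ U (fun s => sbF ψ V (fun t => h s t)) = sbF ψ V (fun t => sbF φ U (fun s => h s t)) := by
  induction U generalizing h with
  | nil => rfl
  | cons a U ih =>
    simp only [sbF_cons]
    rw [ih, ih, ← sbF_smul, ← sbF_smul, ← sbF_add]

theorem sbF_reverse (φ : Fin 2 → Fin 2 → F) (U : List (Fin 2)) (g : Fn) :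
    sbF φ U.reverse g = sbF φ U (fun t => g t.reverse) := by
  induction U generalizing g with
  | nil => rfl
  | cons a U ih =>
    rw [List.reverse_cons, sbF_append, ih, sbF_cons]
    simp only [sbF_cons, sbF_nil, List.reverse_cons]
    rw [sbF_add, sbF_smul, sbF_smul]

theorem sbF_sb (φ ψ : Fin 2 → Fin 2 → F) (W : List (Fin 2)) (g : Fn) :
    sbF φ W (fun V => sbF ψ V g) = sbF (fun a b => φ a 0 * ψ 0 b + φ a 1 * ψ 1 b) W g := by
  induction W generalizing g with
  | nil => rfl
  | cons a W ih =>
    rw [sbF_cons, sbF_cons, ← ih, ← ih]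
    simp only [sbF_cons]
    rw [sbF_add, sbF_add, sbF_smul, sbF_smul, sbF_smul, sbF_smul]
    ring

theorem sbF_map (φ : Fin 2 → Fin 2 → F) (s : Fin 2 → Fin 2) (W : List (Fin 2)) (g : Fn) :
    sbF φ (W.map s) g = sbF (fun a => φ (s a)) W g := by
  induction W generalizing g with
  | nil => rfl
  | cons a W ih => rw [List.map_cons, sbF_cons, sbF_cons, ih, ih]

theorem sbF_id (W : List (Fin 2)) (g : Fn) : sbF (fun a b => if a = b then 1 else 0) W g = g W := by
  induction W generalizing g with
  | nil => rfl
  | cons a W ih =>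
    rw [sbF_cons, ih, ih]
    fin_cases a <;> simp

theorem sh_mulF (x : F) (g : Fn) (u v : List (Fin 2)) :
    sh (fun t => x * g t) u v = x * sh g u v := by
  rw [sh, sh, List.sum_map_mul_left]

theorem sh_zeroF (u v : List (Fin 2)) : sh (fun _ => (0 : F)) u v = 0 := by
  have h := sh_mulF 0 (fun _ => 0) u v
  simpa using h

theorem sbF_sh (φ : Fin 2 → Fin 2 → F) (u v : List (Fin 2)) (g : Fn) :
    sh (fun W => sbF φ W g) u v = sbF φ u (fun s => sbF φ v (fun t => sh g s t)) := by
  induction u generalizing v g with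
  | nil => simp only [sh_nil_left, sbF_nil]
  | cons a u ihu =>
    induction v generalizing g with
    | nil => simp only [sh_nil_right, sbF_nil]
    | cons b v ihv =>
      rw [sh_cons_cons]
      have e1 : sh (fun t => sbF φ (a :: t) g) u (b :: v) =
          φ a 0 * sbF φ u (fun s => sbF φ (b :: v) (fun t => sh (fun r => g (0 :: r)) s t)) +
          φ a 1 * sbF φ u (fun s => sbF φ (b :: v) (fun t => sh (fun r => g (1 :: r)) s t)) := by
        simp only [sbF_cons φ a]
        rw [sh_add, sh_mulF, sh_mulF, ihu, ihu]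
      have e2 : sh (fun t => sbF φ (b :: t) g) (a :: u) v =
          φ b 0 * sbF φ (a :: u) (fun s => sbF φ v (fun t => sh (fun r => g (0 :: r)) s t)) +
          φ b 1 * sbF φ (a :: u) (fun s => sbF φ v (fun t => sh (fun r => g (1 :: r)) s t)) := by
        simp only [sbF_cons φ b]
        rw [sh_add, sh_mulF, sh_mulF, ihv, ihv]
      rw [e1, e2]
      simp only [sbF_cons, sh_cons_cons, sbF_add, sbF_smul]
      ring

/-! ### The substitution `b ↦ a + b` -/

/-- The matrix of `b ↦ a + b`. -/
def kaM : Fin 2 → Fin 2 → F := ![![1, 0], ![1, 1]]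

theorem kap_eqF (W : List (Fin 2)) (g : Fn) : kap g W = sbF kaM W g := by
  show kapW W g = _
  induction W generalizing g with
  | nil => rfl
  | cons a W ih =>
    rw [kapW, sbF, ih]
    fin_cases a <;> simp [ih, kaM]

theorem kap_sh {g : Fn} (h : ∀ u v : List (Fin 2), u ≠ [] → v ≠ [] → sh g u v = 0)
    (u v : List (Fin 2)) (hu : u ≠ []) (hv : v ≠ []) : sh (kap g) u v = 0 := by
  have e : kap g = fun W => sbF kaM W g := by funext W; exact kap_eqF W g
  rw [e, sbF_sh, ← sbF_zero kaM u]
  apply sbF_congr
  intro s hs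
  rw [← sbF_zero kaM v]
  apply sbF_congr
  intro t ht
  apply h
  · rintro rfl; exact hu (List.length_eq_zero_iff.mp hs.symm)
  · rintro rfl; exact hv (List.length_eq_zero_iff.mp ht.symm)

variable {w : ℕ} {c : Fn}

theorem kap_lengthF (hc : c ∈ redM w 2) {l : List (Fin 2)} (hl : l.length ≠ w) : kap c l = 0 := by
  rw [kap_eqF, ← sbF_zero kaM l]
  apply sbF_congr
  intro t ht
  exact redM_length hc (by rw [ht]; exact hl)

theorem Nf_length (hc : c ∈ redM w 2) {l : List (Fin 2)} (hl : l.length ≠ w + 1) :
    Nf c l = 0 := by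
  rcases l with _ | ⟨a, l⟩
  · rfl
  · rw [List.length_cons] at hl
    have h1 : l.length ≠ w := fun h => hl (by rw [h])
    rw [Nf, kap_lengthF hc h1, redM_length hc h1]
    simp

/-- `N(x · (u ⧢ v)) = 0`. -/
theorem Nf_sh (hc : c ∈ redM w 2) (x : Fin 2) (u v : List (Fin 2)) (hu : u ≠ []) (hv : v ≠ []) :
    sh (fun t => Nf c (x :: t)) u v = 0 := by
  have e : (fun t => Nf c (x :: t)) = fun t => (if x = 0 then (1 : F) else 0) * c t + kap c t := by
    funext t
    rw [Nf]
    split_ifs <;> simp
  rw [e, sh_add, sh_mulF, redM_sh hc hu hv, kap_sh (fun u v hu hv => redM_sh hc hu hv) u v hu hv]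
  simp

theorem Nf_eps (c : Fn) (W : List (Fin 2)) : Nf c (0 :: W) + Nf c (1 :: W) = c W := by
  rw [Nf, Nf, if_pos rfl, if_neg (by decide), zero_add, add_assoc, F_add_self, add_zero]

/-! ### The antipode of the stuffle algebra -/

/-- `K y s` at `y :: s`, `0` at `[]`. -/
def mtF (K : ℕ+ → List ℕ+ → F) : List ℕ+ → F
  | [] => 0
  | y :: s => K y s

/-- The sum of `H` over the coarsenings. -/
def coF : List ℕ+ → (List ℕ+ → F) → F
  | [], H => H []
  | x :: p, H => coF p (fun s => H (x :: s)) + coF p (mtF (fun y s => H ((x + y) :: s)))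

theorem coF_cons (x : ℕ+) (p : List ℕ+) (H : List ℕ+ → F) : coF (x :: p) H =
    coF p (fun s => H (x :: s)) + coF p (mtF (fun y s => H ((x + y) :: s))) := rfl

theorem coF_add (p : List ℕ+) (H H' : List ℕ+ → F) :
    coF p (fun s => H s + H' s) = coF p H + coF p H' := by
  induction p generalizing H H' with
  | nil => rfl
  | cons x p ih =>
    rw [coF_cons, coF_cons, coF_cons, ih]
    have : mtF (fun y s => H ((x + y) :: s) + H' ((x + y) :: s)) =
        fun s => mtF (fun y s => H ((x + y) :: s)) s + mtF (fun y s => H' ((x + y) :: s)) s := by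
      funext s
      rcases s with _ | ⟨y, s⟩
      · simp [mtF]
      · rfl
    rw [this, ih]
    ring

theorem coF_congr (p : List ℕ+) (hp : p ≠ []) {H H' : List ℕ+ → F}
    (h : ∀ s, s ≠ [] → wt wY s = wt wY p → s.length ≤ p.length → H s = H' s) :
    coF p H = coF p H' := by
  induction p generalizing H H' with
  | nil => exact absurd rfl hp
  | cons x p ih =>
    rw [coF_cons, coF_cons]
    rcases p with _ | ⟨z, p⟩
    · have h1 : H [x] = H' [x] := h [x] (by simp) rfl le_rfl
      simp [coF, mtF, h1]
    · rw [ih (by simp) (H := fun s => H (x :: s)) (H' := fun s => H' (x :: s)),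
        ih (by simp) (H := mtF (fun y s => H ((x + y) :: s)))
          (H' := mtF (fun y s => H' ((x + y) :: s)))]
      · intro s hs hw hl
        rcases s with _ | ⟨y, s⟩
        · exact absurd rfl hs
        · show H ((x + y) :: s) = H' ((x + y) :: s)
          apply h _ (by simp)
          · have : wY (x + y) = wY x + wY y := PNat.add_coe x y
            rw [wt_cons, this, wt_cons wY x, ← hw, wt_cons]
            ring
          · simp only [List.length_cons] at hl ⊢; omega
      · intro s hs hw hl
        apply h _ (by simp)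
        · rw [wt_cons, hw, ← wt_cons]
        · simp only [List.length_cons] at hl ⊢; omega

theorem coF_zero (p : List ℕ+) : coF p (fun _ => 0) = 0 := by
  induction p with
  | nil => rfl
  | cons x p ih =>
    rw [coF_cons, ih]
    have : mtF (fun _ _ => (0 : F)) = fun _ => 0 := by
      funext s
      rcases s with _ | ⟨y, s⟩ <;> rfl
    rw [this, ih, add_zero]

/-- `∑ st h s t` over the coarsenings `s` of `p`. -/
def TtF (h : List ℕ+ → F) (p t : List ℕ+) : F := coF p (fun s => st h s t)

/-- The part of `Tt` where the first letter comes from `p`. -/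
def ZtF (h : List ℕ+ → F) (p t : List ℕ+) : F :=
  coF p (mtF (fun y s => st (fun r => h (y :: r)) s t))

theorem TtF_cons (h : List ℕ+ → F) (p : List ℕ+) (x : ℕ+) (t : List ℕ+) :
    TtF h p (x :: t) = ZtF h p (x :: t) + ZtF h (x :: p) t := by
  have e : (fun s => st h s (x :: t)) = fun s =>
      mtF (fun y s => st (fun r => h (y :: r)) s (x :: t)) s +
      (st (fun r => h (x :: r)) s t + mtF (fun y s => st (fun r => h ((x + y) :: r)) s t) s) := by
    funext s
    rcases s with _ | ⟨y, s⟩
    · simp [mtF]
    · rw [st_cons_cons]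
      simp only [mtF]
      rw [add_comm y x]
      ring
  rw [TtF, e, coF_add, coF_add]
  rfl

theorem TtF_nil (h : List ℕ+ → F) {p : List ℕ+} (hp : p ≠ []) : TtF h p [] = ZtF h p [] := by
  apply coF_congr p hp
  intro s hs _ _
  rcases s with _ | ⟨y, s⟩
  · exact absurd rfl hs
  · simp [mtF]

/-- The alternating sum of the antipode relation. -/
def ATF (h : List ℕ+ → F) : List ℕ+ → List ℕ+ → F
  | p, [] => TtF h p []
  | p, x :: t => TtF h p (x :: t) + ATF h (x :: p) t

theorem ATF_eq (h : List ℕ+ → F) (t : List ℕ+) (p : List ℕ+) (hp : p ≠ []) :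
    ATF h p t = ZtF h p t := by
  induction t generalizing p with
  | nil => exact TtF_nil h hp
  | cons x t ih =>
    rw [ATF, ih (x :: p) (by simp), TtF_cons, add_assoc, F_add_self, add_zero]

theorem ATF_zero (h : List ℕ+ → F) (x : ℕ+) (t : List ℕ+) : ATF h [] (x :: t) = 0 := by
  rw [ATF, ATF_eq h t [x] (by simp), TtF_cons, add_assoc, F_add_self, add_zero]
  rfl

theorem length_le_wtYF (t : List ℕ+) : t.length ≤ wt wY t := by
  induction t with
  | nil => simp
  | cons n t ih =>
    have : 1 ≤ wY n := n.pos
    rw [wt_cons, List.length_cons]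
    omega

theorem ones_of_wtF {t : List ℕ+} (h : wt wY t ≤ t.length) (x : ℕ+) (hx : x ∈ t) : x = 1 := by
  induction t with
  | nil => simp at hx
  | cons n t ih =>
    have h1 : 1 ≤ wY n := n.pos
    have h2 := length_le_wtYF t
    rw [wt_cons, List.length_cons] at h
    rcases List.mem_cons.mp hx with h3 | h3
    · subst h3
      have h4 : wY x = 1 := by omega
      exact PNat.coe_eq_one_iff.mp h4
    · exact ih (by omega) h3

theorem wt_of_onesF {t : List ℕ+} (h : ∀ x ∈ t, x = 1) : wt wY t = t.length := by
  have h1 : t = List.replicate t.length 1 := List.eq_replicate_iff.mpr ⟨rfl, h⟩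
  have h2 : wt wY (List.replicate t.length (1 : ℕ+)) = t.length := by
    rw [wt_replicate]; simp
  rwa [← h1] at h2

/-- The middle terms vanish if some part is not `1`. -/
theorem TtF_zero {h : List ℕ+ → F}
    (hst : ∀ u v : List ℕ+, u ≠ [] → v ≠ [] → (∃ x ∈ u ++ v, x ≠ 1) → st h u v = 0)
    {p t : List ℕ+} (hp : p ≠ []) (ht : t ≠ []) (hx : ∃ x ∈ p ++ t, x ≠ 1) : TtF h p t = 0 := by
  rw [TtF, ← coF_zero p]
  apply coF_congr p hp
  intro s hs hw hl
  apply hst s t hs ht
  by_contra hcon
  push Not at hcon
  have h1 : wt wY s = s.length :=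
    wt_of_onesF (fun x hx => hcon x (List.mem_append_left _ hx))
  have h2 : ∀ x ∈ p, x = 1 := ones_of_wtF (by rw [← hw, h1]; exact hl)
  obtain ⟨x, hx, hx1⟩ := hx
  rcases List.mem_append.mp hx with h3 | h3
  · exact hx1 (h2 x h3)
  · exact hx1 (hcon x (List.mem_append_right _ h3))

theorem ATF_rev {h : List ℕ+ → F}
    (hst : ∀ u v : List ℕ+, u ≠ [] → v ≠ [] → (∃ x ∈ u ++ v, x ≠ 1) → st h u v = 0)
    (t p : List ℕ+) (hp : p ≠ []) (hx : ∃ x ∈ p ++ t, x ≠ 1) :
    ATF h p t = coF (t.reverse ++ p) h := by
  induction t generalizing p with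
  | nil => simp [ATF, TtF]
  | cons x t ih =>
    rw [ATF, TtF_zero hst hp (by simp) hx, zero_add, ih (x :: p) (by simp)]
    · simp
    · obtain ⟨y, hy, hy1⟩ := hx
      refine ⟨y, ?_, hy1⟩
      simp only [List.mem_append, List.mem_cons] at hy ⊢
      tauto

theorem coF_ones {H : List ℕ+ → F} (hH : ∀ s, (∃ x ∈ s, x ≠ 1) → H s = 0) (i : ℕ) :
    coF (List.replicate i 1) H = H (List.replicate i 1) := by
  induction i generalizing H with
  | zero => rfl
  | succ i ih =>
    rw [List.replicate_succ, coF_cons, ih]
    · have : mtF (fun y s => H ((1 + y) :: s)) = fun _ => 0 := by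
        funext s
        rcases s with _ | ⟨y, s⟩
        · rfl
        · apply hH
          refine ⟨1 + y, by simp, ?_⟩
          intro h1
          have h2 := congrArg (fun n : ℕ+ => (n : ℕ)) h1
          have h3 := y.pos
          simp at h2
      rw [this, coF_zero, add_zero]
    · rintro s ⟨x, hx, hx1⟩
      exact hH _ ⟨x, List.mem_cons_of_mem _ hx, hx1⟩

theorem ATF_ones {h : List ℕ+ → F} {cw : F}
    (hst : ∀ u v : List ℕ+, u ≠ [] → v ≠ [] → (∃ x ∈ u ++ v, x ≠ 1) → st h u v = 0)
    (hst1 : ∀ i j : ℕ, 1 ≤ i → 1 ≤ j → i + j = w →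
      st h (List.replicate i 1) (List.replicate j 1) = (w.choose i : F) * cw)
    (j i : ℕ) (hi : 1 ≤ i) (hij : i + j = w) :
    ATF h (List.replicate i 1) (List.replicate j 1) =
      (∑ l ∈ Finset.Ico i w, (w.choose l : F)) * cw + coF (List.replicate w 1) h := by
  induction j generalizing i with
  | zero =>
    have : i = w := by omega
    subst this
    simp [ATF, TtF]
  | succ j ih =>
    rw [List.replicate_succ, ATF, ← List.replicate_succ, ← List.replicate_succ, ih (i + 1) (by omega)
      (by omega), TtF, coF_ones, hst1 i (j + 1) hi (by omega) hij,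
      Finset.sum_eq_sum_Ico_succ_bot (show i < w by omega)]
    · ring
    · rintro s ⟨x, hx, hx1⟩
      apply hst
      · rintro rfl; simp at hx
      · simp
      · exact ⟨x, List.mem_append_left _ hx, hx1⟩

theorem sum_choose_twoF (w : ℕ) (hw : 2 ≤ w) : (∑ l ∈ Finset.Ico 1 w, (w.choose l : F)) = 0 := by
  have h1 := Nat.sum_range_choose w
  rw [Finset.range_eq_Ico, Finset.sum_Ico_succ_top (by omega),
    Finset.sum_eq_sum_Ico_succ_bot (show 0 < w by omega), Nat.choose_self,
    Nat.choose_zero_right, zero_add] at h1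
  have h3 := congrArg (fun n : ℕ => (n : F)) h1
  simp only [Nat.cast_add, Nat.cast_sum, Nat.cast_one, Nat.cast_pow] at h3
  rw [add_comm (1 : F), add_assoc, F_add_self, add_zero] at h3
  rw [h3]
  have : ((2 : ℕ) : F) = 0 := rfl
  rw [this, zero_pow (by omega)]

/-- `h k` is the sum of `h` over the coarsenings of the reversed composition. -/
theorem antipodeF {h : List ℕ+ → F} {cw : F} (hw : 2 ≤ w)
    (hst : ∀ u v : List ℕ+, u ≠ [] → v ≠ [] → (∃ x ∈ u ++ v, x ≠ 1) → st h u v = 0)
    (hst1 : ∀ i j : ℕ, 1 ≤ i → 1 ≤ j → i + j = w →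
      st h (List.replicate i 1) (List.replicate j 1) = (w.choose i : F) * cw)
    (k : List ℕ+) (hk : wt wY k = w) : h k = coF k.reverse h := by
  rcases k with _ | ⟨x, t⟩
  · simp at hk; omega
  · have h1 := ATF_zero h x t
    have h0 : TtF h [] (x :: t) = h (x :: t) := by simp [TtF, coF]
    by_cases hx : ∃ y ∈ x :: t, y ≠ 1
    · rw [ATF, ATF_rev hst t [x] (by simp) (by simpa using hx), h0] at h1
      rw [List.reverse_cons]
      rwa [← sub_eq, sub_eq_zero] at h1
    · push Not at hx
      have h2 : t = List.replicate t.length 1 :=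
        List.eq_replicate_iff.mpr ⟨rfl, fun y hy => hx y (List.mem_cons_of_mem _ hy)⟩
      have h3 : x = 1 := hx x List.mem_cons_self
      have h4 : 1 + t.length = w := by
        rw [← hk, wt_of_onesF hx, List.length_cons]; omega
      have h5 : x :: t = List.replicate w 1 := by
        rw [h2, h3, ← List.replicate_succ]
        congr 1
        omega
      have h6 := ATF_ones (w := w) hst hst1 t.length 1 le_rfl h4
      rw [sum_choose_twoF w hw, zero_mul, zero_add] at h6
      have h7 : ATF h [x] t = coF (List.replicate w 1) h := by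
        rw [h3, h2]
        simpa using h6
      rw [ATF, h0, h7] at h1
      rw [h5, List.reverse_replicate, ← h5]
      rw [h5] at h1 ⊢
      rwa [← sub_eq, sub_eq_zero] at h1

theorem kapW_zerosF (m : ℕ) (W : List (Fin 2)) (g : Fn) :
    kapW (List.replicate m 0 ++ W) g = kapW W (fun t => g (List.replicate m 0 ++ t)) := by
  induction m generalizing g with
  | zero => rfl
  | succ m ih =>
    rw [List.replicate_succ, List.cons_append, kapW, if_neg (by decide), add_zero, ih]
    rfl

theorem coF_kap (p : List ℕ+) (hp : p ≠ []) : ∃ W, yw p = W ++ [1] ∧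
    ∀ c : Fn, coF p (fun s => c (yw s)) = kapW W (fun t => c (t ++ [1])) := by
  induction p with
  | nil => exact absurd rfl hp
  | cons x p ih =>
    rcases p with _ | ⟨z, p⟩
    · refine ⟨List.replicate ((x : ℕ) - 1) 0, rfl, ?_⟩
      intro c
      have h := kapW_zerosF ((x : ℕ) - 1) [] (fun t => c (t ++ [1]))
      rw [List.append_nil] at h
      rw [h]
      simp [coF, mtF, kapW, yw]
    · obtain ⟨W, hW, hc⟩ := ih (by simp)
      refine ⟨List.replicate ((x : ℕ) - 1) 0 ++ 1 :: W, ?_, ?_⟩
      · rw [yw, hW]; simp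
      · intro c
        rw [coF_cons, kapW_zerosF, kapW, if_pos rfl, add_comm]
        congr 1
        · have h1 : coF (z :: p) (mtF (fun y s => c (yw ((x + y) :: s)))) =
              coF (z :: p) (fun s => (fun t => c (List.replicate (x : ℕ) 0 ++ t)) (yw s)) := by
            apply coF_congr _ (by simp)
            intro s hs _ _
            rcases s with _ | ⟨y, s⟩
            · exact absurd rfl hs
            · show c (yw ((x + y) :: s)) = c (List.replicate (x : ℕ) 0 ++ yw (y :: s))
              rw [yw, yw, ← List.append_assoc, ← List.replicate_add]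
              have h2 : ((x + y : ℕ+) : ℕ) - 1 = (x : ℕ) + ((y : ℕ) - 1) := by
                rw [PNat.add_coe]
                have := y.pos
                omega
              rw [h2]
          rw [h1, hc (fun t => c (List.replicate (x : ℕ) 0 ++ t))]
          congr 1
          funext t
          show c (List.replicate (x : ℕ) 0 ++ (t ++ [1])) =
            c ((List.replicate ((x : ℕ) - 1) 0 ++ 0 :: t) ++ [1])
          have h2 : (List.replicate (x : ℕ) 0 : List (Fin 2)) =
              List.replicate ((x : ℕ) - 1) 0 ++ [0] := by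
            have := x.pos
            rw [← List.replicate_succ', Nat.sub_add_cancel this]
          rw [h2]
          simp
        · have h1 := hc (fun t => c (List.replicate ((x : ℕ) - 1) 0 ++ 1 :: t))
          have h2 : (fun s => c (yw (x :: s))) =
              fun s => (fun t => c (List.replicate ((x : ℕ) - 1) 0 ++ 1 :: t)) (yw s) := by
            funext s; rfl
          rw [h2, h1]
          congr 1
          funext t
          simp [dq]

theorem exists_ywF (W : List (Fin 2)) : ∃ k, yw k = W ++ [1] := by
  induction W with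
  | nil => exact ⟨[1], rfl⟩
  | cons a W ih =>
    obtain ⟨k, hk⟩ := ih
    fin_cases a
    · rcases k with _ | ⟨n, t⟩
      · simp [yw] at hk
      · refine ⟨(n + 1) :: t, ?_⟩
        rw [yw] at hk ⊢
        rw [List.cons_append, ← hk]
        have h2 : ((n + 1 : ℕ+) : ℕ) - 1 = ((n : ℕ) - 1) + 1 := by
          rw [PNat.add_coe]
          have := n.pos
          simp only [PNat.one_coe]
          omega
        rw [h2, List.replicate_succ]
        rfl
    · refine ⟨1 :: k, ?_⟩
      rw [yw, hk]
      rfl

theorem st_onesAll (hc : c ∈ redM w 2) (hw : 2 ≤ w) (i j : ℕ) (hi : 1 ≤ i) (hj : 1 ≤ j)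
    (hij : i + j = w) : st (fun t => c (yw t)) (List.replicate i 1) (List.replicate j 1) =
      (w.choose i : F) * cdep w c := by
  rcases Nat.even_or_odd w with he | ho
  · rcases Nat.eq_or_lt_of_le hw with h2 | h3
    · have hi1 : i = 1 := by omega
      have hj1 : j = 1 := by omega
      subst h2 hi1 hj1
      have h01 : c [0, 1] = 0 := redM_01 hc
      have h3 : cdep 2 c = 0 := h01
      have h4 : c (yw [1, 1]) = 0 := by
        have := redM_ones hc 2
        simpa [yw] using this
      have h5 : c (yw [(1 : ℕ+) + 1]) = 0 := h01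
      have h6 : st (fun t => c (yw t)) [1] [1] = 0 := by
        rw [st_cons_cons]
        simp only [st_nil_left, st_nil_right]
        rw [h4, h5]
        simp
      rw [h3, mul_zero]
      simpa using h6
    · rw [redM_even_st hc he (by omega) hi hj hij, cdep, redM_even_cw hc he (by omega), mul_zero]
  · exact redM_odd hc ho hi hj hij

theorem antiA (hc : c ∈ redM w 2) (hw : 2 ≤ w) (W : List (Fin 2)) (hW : W.length + 1 = w) :
    c (W ++ [1]) = kap (fun t => c (t ++ [1])) W.reverse := by
  obtain ⟨k, hk⟩ := exists_ywF W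
  have hwk : wt wY k = w := by
    rw [← length_yw, hk, ← hW]; simp
  have h1 := antipodeF (h := fun t => c (yw t)) hw (fun u v hu hv hx => redM_st hc hu hv hx)
    (st_onesAll hc hw) k hwk
  have hk0 : k ≠ [] := by rintro rfl; simp at hwk; omega
  obtain ⟨W', hW', h2⟩ := coF_kap k.reverse (by simpa using hk0)
  have h3 := Pool.Agent.H44DM.yw_reverse k
  rw [hk, hW'] at h3
  have h4 : W' = W.reverse := by
    simp only [List.reverse_append, List.reverse_cons, List.reverse_nil, List.nil_append,
      List.cons_append, List.cons.injEq, true_and] at h3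
    exact (List.append_cancel_right h3).symm
  rw [← hk, ← h4]
  show c (yw k) = kapW W' _
  rw [← h2]
  exact h1

/-! ### Functions killing shuffles -/

theorem sh_snoc_snocF {α : Type} (g : List α → F) (a b : α) (u v : List α) :
    sh g (u ++ [a]) (v ++ [b]) =
      sh (fun t => g (t ++ [a])) u (v ++ [b]) + sh (fun t => g (t ++ [b])) (u ++ [a]) v := by
  induction u generalizing v g with
  | nil =>
    induction v generalizing g with
    | nil => simp [sh_cons_cons, add_comm]
    | cons y v ih =>
      simp only [List.nil_append, List.cons_append, sh_nil_left] at ih ⊢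
      rw [sh_cons_cons, sh_cons_cons, ih, sh_nil_left, sh_nil_left]
      simp only [List.cons_append]
      ring
  | cons x u ihu =>
    induction v generalizing g with
    | nil =>
      simp only [List.nil_append, List.cons_append, sh_nil_right]
      rw [sh_cons_cons, sh_cons_cons]
      have h := ihu (fun t => g (x :: t)) []
      simp only [List.nil_append, List.cons_append, sh_nil_right] at h
      rw [h]
      simp only [List.cons_append, sh_nil_right]
      ring
    | cons y v ihv =>
      simp only [List.cons_append] at ihv ⊢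
      rw [sh_cons_cons, sh_cons_cons, sh_cons_cons]
      have h1 := ihu (fun t => g (x :: t)) (y :: v)
      have h2 := ihv (fun t => g (y :: t))
      simp only [List.cons_append] at h1 h2
      rw [h1, h2]
      simp only [List.cons_append]
      ring

theorem sh_revF (g : Fn) (u v : List (Fin 2)) :
    sh (fun t => g t.reverse) u v = sh g u.reverse v.reverse := by
  induction u generalizing v g with
  | nil => simp
  | cons x u ihu =>
    induction v generalizing g with
    | nil => simp
    | cons y v ihv =>
      rw [sh_cons_cons, List.reverse_cons, List.reverse_cons, sh_snoc_snocF]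
      have h1 := ihu (fun t => g (t ++ [x])) (y :: v)
      have h2 := ihv (fun t => g (t ++ [y]))
      simp only [List.reverse_cons] at h1 h2 ⊢
      rw [h1, h2]

theorem sh_mapF (s : Fin 2 → Fin 2) (g : Fn) (u v : List (Fin 2)) :
    sh (fun t => g (t.map s)) u v = sh g (u.map s) (v.map s) := by
  induction u generalizing v g with
  | nil => simp
  | cons x u ihu =>
    induction v generalizing g with
    | nil => simp
    | cons y v ihv =>
      rw [sh_cons_cons, List.map_cons, List.map_cons, sh_cons_cons]
      have h1 := ihu (fun t => g (s x :: t)) (y :: v)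
      have h2 := ihv (fun t => g (s y :: t))
      simp only [List.map_cons] at h1 h2 ⊢
      rw [h1, h2]

theorem sh_blockF {f : Fn} (x y : Fin 2) (k : ℕ) (t : List (Fin 2))
    (h : ∀ j < k, ∀ t, f (List.replicate j x ++ y :: t) = 0) :
    sh f (List.replicate k x) (y :: t) = f (List.replicate k x ++ y :: t) := by
  induction k generalizing f t with
  | zero => simp
  | succ k ih =>
    rw [List.replicate_succ, sh_cons_cons, ih (f := fun t => f (x :: t))]
    · have h0 : (fun t => f (y :: t)) = fun _ => 0 := by
        funext t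
        exact h 0 (by omega) t
      rw [h0, sh_zeroF, add_zero]
      rfl
    · intro j hj t
      have := h (j + 1) (by omega) t
      rw [List.replicate_succ] at this
      exact this

theorem two_blocksF (x y : Fin 2) (hxy : x ≠ y) (t : List (Fin 2)) :
    (∃ k, t = List.replicate k x) ∨ ∃ k s, t = List.replicate k x ++ y :: s := by
  induction t with
  | nil => exact Or.inl ⟨0, rfl⟩
  | cons a t ih =>
    by_cases ha : a = x
    · subst ha
      rcases ih with ⟨k, rfl⟩ | ⟨k, s, rfl⟩
      · exact Or.inl ⟨k + 1, by rw [List.replicate_succ]⟩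
      · exact Or.inr ⟨k + 1, s, by rw [List.replicate_succ]; rfl⟩
    · have : a = y := by
        clear ih
        revert a x y
        decide
      subst this
      exact Or.inr ⟨0, t, rfl⟩

/-! ### The cyclic property -/

/-- Exchange of the two letters. -/
def swF : Fin 2 → Fin 2 := ![1, 0]

/-- `g` for the letter `0`, `g` with the letters exchanged for the letter `1`. -/
def gxF (g : Fn) (x : Fin 2) : Fn := fun U => if x = 0 then g U else g (U.map swF)

/-- The function `M(x U) = g_x(U)`. -/
def MfF (g : Fn) : Fn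
  | [] => 0
  | x :: U => gxF g x U

section abs
variable {g : Fn} (hsh : ∀ u v : List (Fin 2), u ≠ [] → v ≠ [] → sh g u v = 0)
  (hrev : ∀ u, g u.reverse = g u)
  (h3 : ∀ U, g (U ++ [1]) = g ((U.map swF).reverse ++ [1]))

include hsh in
theorem gxF_sh (x : Fin 2) (u v : List (Fin 2)) (hu : u ≠ []) (hv : v ≠ []) :
    sh (gxF g x) u v = 0 := by
  unfold gxF
  by_cases hx : x = 0
  · simp only [if_pos hx]; exact hsh u v hu hv
  · simp only [if_neg hx]
    rw [sh_mapF]
    exact hsh _ _ (by simpa using hu) (by simpa using hv)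

include hrev in
theorem gxF_rev (x : Fin 2) (u : List (Fin 2)) : gxF g x u.reverse = gxF g x u := by
  unfold gxF
  rw [hrev, List.map_reverse, hrev]

/-- Contribution of a one-letter word. -/
def eMF (g : Fn) (u v : List (Fin 2)) : F := if u.length = 1 then gxF g (u.headD 0) v else 0

include hsh in
theorem MfF_sh (u v : List (Fin 2)) (hu : u ≠ []) (hv : v ≠ []) :
    sh (MfF g) u v = eMF g u v + eMF g v u := by
  rcases u with _ | ⟨x, u⟩
  · exact absurd rfl hu
  rcases v with _ | ⟨y, v⟩
  · exact absurd rfl hv
  rw [sh_cons_cons]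
  have e1 : ∀ (x : Fin 2) (u v : List (Fin 2)), v ≠ [] → sh (gxF g x) u v = eMF g (x :: u) v := by
    intro x u v hv
    rcases u with _ | ⟨z, u⟩
    · simp [eMF]
    · rw [gxF_sh hsh x _ _ (by simp) hv, eMF, if_neg (by simp)]
  have h1 := e1 x u (y :: v) (by simp)
  have h2 := e1 y v (x :: u) (by simp)
  rw [sh_comm] at h2
  rw [← h1, ← h2]
  rfl

include hrev in
theorem eMF_rev (u v : List (Fin 2)) : eMF g u.reverse v.reverse = eMF g u v := by
  unfold eMF
  rw [List.length_reverse]
  by_cases h : u.length = 1
  · rw [if_pos h, if_pos h]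
    obtain ⟨x, rfl⟩ := List.length_eq_one_iff.mp h
    rw [List.reverse_singleton, gxF_rev hrev]
  · rw [if_neg h, if_neg h]

/-- The defect. -/
def LfF (g : Fn) : Fn := fun V => MfF g V + MfF g V.reverse

include hsh hrev in
theorem LfF_sh (u v : List (Fin 2)) (hu : u ≠ []) (hv : v ≠ []) : sh (LfF g) u v = 0 := by
  unfold LfF
  rw [sh_add, sh_revF, MfF_sh hsh u v hu hv, MfF_sh hsh u.reverse v.reverse (by simpa using hu)
    (by simpa using hv), eMF_rev hrev, eMF_rev hrev, F_add_self]

theorem LfF_rev (g : Fn) (V : List (Fin 2)) : LfF g V.reverse = LfF g V := by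
  unfold LfF
  rw [List.reverse_reverse, add_comm]

include h3 in
theorem LfF_01 (t : List (Fin 2)) : LfF g ((0 :: t) ++ [1]) = 0 := by
  unfold LfF
  have e : ((0 :: t) ++ [1]).reverse = 1 :: (t.reverse ++ [0]) := by simp
  rw [e, List.cons_append]
  show gxF g 0 (t ++ [1]) + gxF g 1 (t.reverse ++ [0]) = 0
  unfold gxF
  rw [if_pos rfl, if_neg (by decide), h3, List.map_append, List.map_reverse]
  show g ((t.map swF).reverse ++ [1]) + g ((t.map swF).reverse ++ [1]) = 0
  exact F_add_self _

include h3 in
theorem LfF_10 (t : List (Fin 2)) : LfF g ((1 :: t) ++ [0]) = 0 := by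
  rw [← LfF_rev]
  have e : ((1 :: t) ++ [0]).reverse = (0 :: t.reverse) ++ [1] := by simp
  rw [e]
  exact LfF_01 h3 _

include hsh hrev in
theorem LfF_block (x y : Fin 2) (h0 : ∀ t, LfF g ((y :: t) ++ [x]) = 0) (k : ℕ)
    (t : List (Fin 2)) : LfF g ((List.replicate k x ++ y :: t) ++ [x]) = 0 := by
  induction k using Nat.strong_induction_on generalizing t with
  | _ k ih =>
    rcases k with _ | k
    · exact h0 t
    · have h1 := LfF_sh hsh hrev (List.replicate k x ++ [x]) ((y :: t) ++ [x]) (by simp) (by simp)
      rw [sh_snoc_snocF] at h1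
      have h2 : sh (fun t => LfF g (t ++ [x])) (List.replicate k x) (y :: t ++ [x]) = 0 := by
        rw [List.cons_append, sh_blockF x y k (t ++ [x])]
        · exact ih k (by omega) _
        · intro j hj t
          exact ih j (by omega) t
      rw [h2, zero_add, ← List.replicate_succ', sh_blockF x y (k + 1) t] at h1
      · exact h1
      · intro j hj t
        exact ih j hj t

include hsh hrev h3 in
theorem LfF_zero (V : List (Fin 2)) : LfF g V = 0 := by
  have key : ∀ x y : Fin 2, x ≠ y → (∀ t, LfF g ((y :: t) ++ [x]) = 0) → ∀ t,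
      LfF g (t ++ [x]) = 0 := by
    intro x y hxy h0 t
    rcases two_blocksF x y hxy t with ⟨k, rfl⟩ | ⟨k, s, rfl⟩
    · rw [← List.replicate_succ', LfF, List.reverse_replicate]
      exact F_add_self _
    · exact LfF_block hsh hrev x y h0 k s
  rcases List.eq_nil_or_concat V with h | ⟨t, x, h⟩
  · subst h
    exact F_add_self _
  · subst h
    rw [List.concat_eq_append]
    have hx : x = 0 ∨ x = 1 := by revert x; decide
    rcases hx with rfl | rfl
    · exact key 0 1 (by decide) (LfF_10 h3) t
    · exact key 1 0 (by decide) (LfF_01 h3) t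

include hsh hrev h3 in
theorem MfF_rev (V : List (Fin 2)) : MfF g V.reverse = MfF g V := by
  have h := LfF_zero hsh hrev h3 V
  rw [LfF, ← sub_eq, sub_eq_zero] at h
  exact h.symm

include hsh hrev h3 in
theorem MfF_cyc (U V : List (Fin 2)) : MfF g (U ++ V) = MfF g (V ++ U) := by
  have h1 : ∀ (x : Fin 2) (U : List (Fin 2)), MfF g (x :: U) = MfF g (U ++ [x]) := by
    intro x U
    rw [← MfF_rev hsh hrev h3 (U ++ [x])]
    have e : (U ++ [x]).reverse = x :: U.reverse := by simp
    rw [e]
    show gxF g x U = gxF g x U.reverse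
    rw [gxF_rev hrev]
  induction U generalizing V with
  | nil => simp
  | cons x U ih =>
    rw [List.cons_append, h1, List.append_assoc, ih]
    simp

end abs

/-- The matrix of `a ↦ a + b`. -/
def siM : Fin 2 → Fin 2 → F := ![![1, 1], ![0, 1]]

theorem si_ka : (fun a b => siM a 0 * kaM 0 b + siM a 1 * kaM 1 b) = fun a => siM (swF a) := by
  funext a b
  fin_cases a <;> fin_cases b <;> simp [siM, kaM, swF] <;> decide

theorem si_si : (fun a b => siM a 0 * siM 0 b + siM a 1 * siM 1 b) =
    fun a b => if a = b then 1 else 0 := by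
  funext a b
  fin_cases a <;> fin_cases b <;> simp [siM] <;> decide

theorem redM_revF (hc : c ∈ redM w 2) (l : List (Fin 2)) : c l.reverse = c l := by
  obtain ⟨ψ, hψ, z, hz, h⟩ := hc
  have h1 := cf_reverse hψ.1.1 l
  rw [hz, hz] at h1
  have h2 : z l.reverse = (-1) ^ (l.length + 1) * z l := by exact_mod_cast h1
  rw [h, h, h2]
  push_cast
  have h3 : (-1 : ZMod 2) = 1 := by decide
  rw [h3, one_pow, one_mul]

theorem Nf_cyc (hc : c ∈ redM w 2) (hw : 2 ≤ w) (u v : List (Fin 2)) :
    Nf c (u ++ v) = Nf c (v ++ u) := by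
  set g : Fn := fun U => sbF siM U c with hg
  have hsh : ∀ u v : List (Fin 2), u ≠ [] → v ≠ [] → sh g u v = 0 := by
    intro u v hu hv
    rw [hg, sbF_sh, ← sbF_zero siM u]
    apply sbF_congr
    intro s hs
    rw [← sbF_zero siM v]
    apply sbF_congr
    intro t ht
    apply redM_sh hc
    · rintro rfl; exact hu (List.length_eq_zero_iff.mp hs.symm)
    · rintro rfl; exact hv (List.length_eq_zero_iff.mp ht.symm)
  have hrev : ∀ u, g u.reverse = g u := by
    intro u
    show sbF siM u.reverse c = sbF siM u c
    rw [sbF_reverse]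
    congr 1
    funext t
    exact redM_revF hc t
  have hlen : ∀ U : List (Fin 2), U.length ≠ w → g U = 0 := by
    intro U hU
    show sbF siM U c = 0
    rw [← sbF_zero siM U]
    apply sbF_congr
    intro t ht
    exact redM_length hc (by rw [ht]; exact hU)
  have h1 : ∀ U : List (Fin 2), g (U ++ [1]) = sbF siM U (fun t => c (t ++ [1])) := by
    intro U
    show sbF siM (U ++ [1]) c = _
    rw [sbF_append]
    congr 1
    funext s
    rw [sbF_cons, sbF_nil, sbF_nil]
    simp [siM]
  have h3 : ∀ U, g (U ++ [1]) = g ((U.map swF).reverse ++ [1]) := by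
    intro U
    by_cases hU : U.length + 1 = w
    · rw [h1, h1, sbF_reverse, sbF_map, ← si_ka, ← sbF_sb]
      apply sbF_congr
      intro t ht
      rw [antiA hc hw t (by rw [ht]; exact hU), kap_eqF, sbF_reverse]
    · rw [hlen _ (by simpa using hU), hlen _ (by simpa using hU)]
  have hM : ∀ V, sbF siM V (Nf c) = MfF g V := by
    intro V
    rcases V with _ | ⟨x, V⟩
    · rfl
    · have hx : x = 0 ∨ x = 1 := by revert x; decide
      rcases hx with rfl | rfl
      · rw [sbF_cons]
        show siM 0 0 * _ + siM 0 1 * _ = gxF g 0 V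
        have e1 : siM 0 0 = 1 := rfl
        have e2 : siM 0 1 = 1 := rfl
        rw [e1, e2, one_mul, one_mul, ← sbF_add, gxF, if_pos rfl]
        show _ = sbF siM V c
        congr 1
        funext t
        exact Nf_eps c t
      · rw [sbF_cons]
        show siM 1 0 * _ + siM 1 1 * _ = gxF g 1 V
        have e1 : siM 1 0 = 0 := rfl
        have e2 : siM 1 1 = 1 := rfl
        rw [e1, e2, zero_mul, one_mul, zero_add, gxF, if_neg (by decide)]
        show _ = sbF siM (V.map swF) c
        rw [sbF_map, ← si_ka, ← sbF_sb]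
        congr 1
        funext t
        rw [Nf, if_neg (by decide), zero_add, kap_eqF]
  have hN : ∀ V, Nf c V = sbF siM V (MfF g) := by
    intro V
    have e : (MfF g) = fun W => sbF siM W (Nf c) := by funext W; exact (hM W).symm
    rw [e, sbF_sb, si_si, sbF_id]
  rw [hN, hN, sbF_append, sbF_append, sbF_comm]
  congr 1
  funext t
  congr 1
  funext s
  exact MfF_cyc hsh hrev h3 s t

end

end Pool.Agent.ECK
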