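import Pool.Agent.ECK.Top
import Pool.Agent.ECK.Odd

set_option autoImplicit false

namespace Pool.Agent.ECK

open Pool.Agent.ECB Pool.Agent.H4DM
open Pool.Agent.ECU (T L)

attribute [local instance] LieRing.ofAssociativeRing

noncomputable section

variable {w : ℕ} {c : Fn}

/-! ### begin StepA -/

theorem sA_wgt_vt (l : List (Fin 2)) : wgt vt l = wgt vx l + 2 * wgt vs l := by
  induction l with
  | nil => rfl
  | cons a l ih =>
    rw [wgt_cons, wgt_cons, wgt_cons, ih]
    fin_cases a <;> simp [vt, vx, vs] <;> omega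

theorem sA_vx_zero {l : List (Fin 2)} (h : wgt vx l = 0) : l = List.replicate l.length 1 := by
  induction l with
  | nil => rfl
  | cons a l ih =>
    rw [wgt_cons] at h
    have ha : a = 1 := by
      fin_cases a
      · simp [vx] at h
      · rfl
    subst ha
    rw [List.length_cons, List.replicate_succ, ← ih (by omega)]

theorem sA_wgt_vs_replicate (m : ℕ) : wgt vs (List.replicate m (1 : Fin 2)) = m := by
  induction m with
  | zero => rfl
  | succ m ih => rw [List.replicate_succ, wgt_cons, ih]; simp [vs]; omega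

theorem sA_length_vs {l : List (Fin 2)} (h : wgt vx l = 0) : l = List.replicate (wgt vs l) 1 := by
  have h1 := sA_vx_zero h
  have h2 : wgt vs l = l.length := by
    conv_lhs => rw [h1]
    rw [sA_wgt_vs_replicate]
  rw [h2]
  exact h1

/-- on a word with a single letter `x`, `d₀` is `s` times the difference `x ↦ x + 1`. -/
theorem sA_zero_word {l : List (Fin 2)} (h : wgt vx l = 0) :
    d0 (wd l) = 0 ∧ lf ![xa + 1, xb] (wd l : A2) = wd l ∧ xb * wd l = wd l * xb := by
  induction l with
  | nil =>
    refine ⟨?_, ?_, ?_⟩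
    · rw [wd_nil]; exact der_one _
    · rw [wd_nil, map_one]
    · rw [wd_nil, mul_one, one_mul]
  | cons a l ih =>
    rw [wgt_cons] at h
    have ha : a = 1 := by
      fin_cases a
      · simp [vx] at h
      · rfl
    subst ha
    obtain ⟨h1, h2, h3⟩ := ih (by omega)
    have e : (wd ((1 : Fin 2) :: l) : A2) = xb * wd l := wd_cons 1 l
    refine ⟨?_, ?_, ?_⟩
    · rw [e, d0_mul, d0_xb, h1]; simp
    · rw [e, map_mul, h2]
      congr 1
      rw [xb, lf_letter]; rfl
    · rw [e, mul_assoc, ← h3]

theorem sA_one_word {l : List (Fin 2)} (h : wgt vx l = 1) :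
    d0 (wd l) = xb * (lf ![xa + 1, xb] (wd l : A2) + wd l) := by
  induction l with
  | nil => simp at h
  | cons a l ih =>
    rw [wgt_cons] at h
    fin_cases a
    · have hl : wgt vx l = 0 := by simp [vx] at h; exact h
      obtain ⟨h1, h2, h3⟩ := sA_zero_word hl
      have e : (wd ((0 : Fin 2) :: l) : A2) = xa * wd l := wd_cons 0 l
      show d0 (wd ((0 : Fin 2) :: l)) = xb * (lf ![xa + 1, xb] (wd ((0 : Fin 2) :: l) : A2) + wd ((0 : Fin 2) :: l))
      rw [e, d0_mul, d0_xa, h1, map_mul, h2]
      have e2 : lf ![xa + 1, xb] xa = xa + 1 := by rw [xa, lf_letter]; rfl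
      rw [e2, add_mul, one_mul, add_comm (xa * wd l) (wd l), add_assoc, add_self, add_zero,
        mul_zero, add_zero]
    · have hl : wgt vx l = 1 := by simp [vx] at h; exact h
      have ih' := ih hl
      have e : (wd ((1 : Fin 2) :: l) : A2) = xb * wd l := wd_cons 1 l
      show d0 (wd ((1 : Fin 2) :: l)) = xb * (lf ![xa + 1, xb] (wd ((1 : Fin 2) :: l) : A2) + wd ((1 : Fin 2) :: l))
      rw [e, d0_mul, d0_xb, zero_mul, zero_add, ih', map_mul]
      have e2 : lf ![xa + 1, xb] xb = xb := by rw [xb, lf_letter]; rfl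
      rw [e2, ← mul_add]

theorem sA_d0_eq {p : A2} (h : pj vx 1 p = p) :
    d0 p = xb * (lf ![xa + 1, xb] p + p) := by
  have key : d0 ∘ₗ (pj vx 1 : A2 →ₗ[F] A2) =
      (LinearMap.mulLeft F xb) ∘ₗ ((lf ![xa + 1, xb]).toLinearMap + LinearMap.id) ∘ₗ (pj vx 1) := by
    apply lin_ext
    intro l
    simp only [LinearMap.comp_apply, LinearMap.mulLeft_apply, LinearMap.add_apply,
      AlgHom.toLinearMap_apply, LinearMap.id_apply]
    rw [pj_wd]
    split_ifs with hl
    · exact sA_one_word hl
    · simp
  have h2 := LinearMap.congr_fun key p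
  simp only [LinearMap.comp_apply, LinearMap.mulLeft_apply, LinearMap.add_apply,
      AlgHom.toLinearMap_apply, LinearMap.id_apply, h] at h2
  exact h2

/-- an element commuting with `s` all of whose words contain `x` is zero. -/
theorem sA_comm {p : A2} (h : xb * p + p * xb = 0)
    (hx : ∀ l, wgt vx l = 0 → cf p l = 0) : p = 0 := by
  classical
  have h1 : ∀ l : List (Fin 2), cf (xb * p) l = cf (p * xb) l := by
    intro l
    have : cf (xb * p + p * xb) l = 0 := by rw [h]; rfl
    rw [cf_add] at this
    exact CharTwo.add_eq_zero.mp this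
  have h2 : ∀ (n : ℕ) (l : List (Fin 2)), cf p (List.replicate n 1 ++ 0 :: l) = 0 := by
    intro n
    induction n with
    | zero =>
      intro l
      have := h1 (((0 : Fin 2) :: l) ++ [1])
      rw [xb, cf_mul_letter_append, if_pos rfl] at this
      rw [List.cons_append, cf_letter_mul_cons, if_neg (by decide)] at this
      simpa using this.symm
    | succ n ih =>
      intro l
      have := h1 ((List.replicate (n + 1) (1 : Fin 2) ++ 0 :: l) ++ [1])
      rw [xb, cf_mul_letter_append, if_pos rfl, List.replicate_succ, List.cons_append,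
        List.cons_append, cf_letter_mul_cons, if_pos rfl] at this
      rw [List.replicate_succ, List.cons_append, ← this]
      have e : List.replicate n (1 : Fin 2) ++ 0 :: l ++ [1] =
          List.replicate n (1 : Fin 2) ++ 0 :: (l ++ [1]) := by simp
      rw [e]
      exact ih _
  apply cf_ext
  intro l
  rw [cf_zero]
  by_cases hl : wgt vx l = 0
  · exact hx l hl
  · have h3 : ∀ l : List (Fin 2), wgt vx l ≠ 0 → ∃ n l', l = List.replicate n 1 ++ 0 :: l' := by
      intro l
      induction l with
      | nil => intro h; exact absurd rfl h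
      | cons a l ih =>
        intro h
        fin_cases a
        · exact ⟨0, l, rfl⟩
        · have : wgt vx l ≠ 0 := by
            intro h'
            apply h
            rw [wgt_cons, h']
            rfl
          obtain ⟨n, l', hl'⟩ := ih this
          exact ⟨n + 1, l', by rw [List.replicate_succ, List.cons_append, ← hl']; rfl⟩
    obtain ⟨n, l', rfl⟩ := h3 l hl
    exact h2 n l'

/-- the key step: a Lie element `Q` of `s`-degree `M ≥ 2` and `x`-degree `≤ 1` with `d₀[x, Q] = 0`
is zero. -/
theorem sA_key {M : ℕ} (hM : 2 ≤ M) {Q : A2} (hQ : Q ∈ LA F (Fin 2))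
    (hs : ∀ l, wgt vs l ≠ M → cf Q l = 0) (hx : ∀ l, 1 < wgt vx l → cf Q l = 0)
    (hd : d0 (xa * Q + Q * xa) = 0) : Q = 0 := by
  classical
  have h0 : ∀ l, wgt vx l = 0 → cf Q l = 0 := by
    intro l hl
    by_cases hl2 : wgt vs l = M
    · rw [sA_length_vs hl, hl2]
      exact LA_pow hM hQ 1
    · exact hs l hl2
  have h1 : pj vx 1 Q = Q := by
    apply cf_ext
    intro l
    rw [cf_pj]
    split_ifs with hl
    · rfl
    · rcases Nat.lt_or_ge 1 (wgt vx l) with h | h
      · exact (hx l h).symm
      · exact (h0 l (by omega)).symm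
  have h2 : d0 Q = 0 := by
    rw [sA_d0_eq h1, LA_shift hQ]
    have : cf Q [0] = 0 := hs [0] (by simp [wgt, vs]; omega)
    rw [this, map_zero, add_zero, add_self, mul_zero]
  rw [map_add, d0_mul, d0_mul, d0_xa, h2, mul_zero, zero_mul, add_zero, zero_add] at hd
  exact sA_comm hd h0

theorem sA_cy_length (v : List ℕ) : (cy v).length = v.sum + 2 * v.length := by
  induction v with
  | nil => rfl
  | cons k v ih =>
    rw [cy, List.length_append, List.length_replicate, List.length_cons, ih, List.sum_cons,
      List.length_cons]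
    ring

theorem sA_sumS_zero (v : List ℕ) (P : List ℕ → F) (h : ∀ u, u.length = v.length → P u = 0) :
    sumS v P = 0 := by
  induction v generalizing P with
  | nil => exact h [] rfl
  | cons k v ih =>
    rw [sumS, ih _ (fun u hu => h _ (by rw [List.length_cons, hu, List.length_cons])),
      ih _ (fun u hu => h _ (by rw [List.length_cons, hu, List.length_cons])), add_zero]

theorem cdep_odd (hc : c ∈ redM w 2) (hw : Odd w) (hw5 : 5 ≤ w) : cdep w c = 0 := by
  classical
  obtain ⟨M, hM⟩ := hw
  have hM2 : 2 ≤ M := by omega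
  have hTa1 : cf (Ta w c) [1] = 0 := by
    rw [Ta, cf_mk, if_neg]
    show ¬ 1 = w
    omega
  have hTb1 : cf (Tb w c) [1] = 0 := by
    rw [Tb, cf_mk, if_neg]
    show ¬ 1 = w
    omega
  obtain ⟨pa, hpa, _, ha⟩ := lie1 (Ta_mem hc) hTa1
  obtain ⟨pb, hpb, _, hb⟩ := lie1 (Tb_mem hc) hTb1
  have hwt : ∀ l, w < wgt vt l → cf pa l = 0 := by
    intro l hl
    apply uni_weight ha (w := w) _ l hl
    intro m hm
    rw [Ta, cf_mk, if_neg (by omega)]
  have hK : ∀ k, M < k → pj vs k pa = 0 := by
    intro k hk
    apply cf_ext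
    intro l
    rw [cf_pj, cf_zero]
    split_ifs with hl
    · apply hwt
      rw [sA_wgt_vt]
      omega
    · rfl
  obtain ⟨P1, hP1, hP2⟩ := top hc (by omega) ha hb M (by omega) hK
  have hQ : pj vs M pa = 0 := by
    apply sA_key hM2 (pj_mem vs M hpa)
    · intro l hl
      rw [cf_pj, if_neg hl]
    · intro l hl
      rw [cf_pj]
      split_ifs with hl2
      · apply hwt
        rw [sA_wgt_vt]
        omega
      · rfl
    · rw [hP2]
      exact d0_evT_cB P1
  rw [hQ, mul_zero, zero_mul, add_zero] at hP2
  have hP0 : P1 = 0 := by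
    apply evT_cB_injective
    rw [← hP2, map_zero]
  obtain ⟨m, rfl⟩ : ∃ m, M = m + 1 := ⟨M - 1, by omega⟩
  set v : List ℕ := 1 :: List.replicate m 0 with hv
  have hvl : v.length = m + 1 := by simp [hv]
  have hvs : v.sum = 1 := by simp [hv]
  have h1 : sumS v (fun u => bt (w + 2) (cy u) (Nf c)) = 0 := by
    apply sA_sumS_zero
    intro u hu
    have h2 := hP1 u
    rw [if_pos (by omega), hP0] at h2
    exact h2.symm
  have hlen : (cy v).length = w := by
    rw [sA_cy_length, hvl, hvs]; omega
  have h3 := phiP hc (by omega) v (by rw [hv]; exact List.cons_ne_nil _ _)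
  rw [h1, hlen, if_pos le_rfl, Nf_length hc (by omega), zero_add] at h3
  have h4 : w.choose (w - 1) = w := by
    rw [Nat.choose_symm_of_eq_add (show w = (w - 1) + 1 by omega), Nat.choose_one_right]
  have h5 : ((w : ℕ) : F) = 1 := by
    rw [hM]
    push_cast
    have : (2 : F) = 0 := rfl
    rw [this]; simp
  rw [h4, h5, one_mul] at h3
  exact h3.symm

theorem cdep_zero (hc : c ∈ redM w 2) (hw4 : 4 ≤ w) : cdep w c = 0 := by
  rcases Nat.even_or_odd w with h | h
  · exact redM_even_cw hc h (by omega)
  · apply cdep_odd hc h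
    obtain ⟨m, hm⟩ := h
    omega

end

end Pool.Agent.ECK
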