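import Pool.Agent.ECK.Uni0
import Pool.Agent.ECK.Bridge
import Pool.Agent.ECK.Spec

/-! # Module `Uni`: the statements which use `Bridge` and `Spec` -/

set_option autoImplicit false

namespace Pool.Agent.ECK

open Pool.Agent.ECB Pool.Agent.H4DM

attribute [local instance] LieRing.ofAssociativeRing

variable {w : ℕ} {c : Fn}

theorem Ta_mem (hc : c ∈ redM w 2) : Ta w c ∈ LA F (Fin 2) := Ta_mem' (mk_mem hc)

theorem Tb_mem (hc : c ∈ redM w 2) : Tb w c ∈ LA F (Fin 2) := Tb_mem' (mk_mem hc)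

theorem SP (hc : c ∈ redM w 2) (hw : 2 ≤ w) :
    xa * Ta w c + Ta w c * xa + (xb * Tb w c + Tb w c * xb) = 0 := SP' (Nf_cyc hc hw)

end Pool.Agent.ECK
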