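import Pool.Agent.ECK.Defs

/-!
# Module `XAd`: the operator `ad x` on `𝔽₂⟨x, s⟩`

`ad x` is injective in positive `s`-degree, and `[x, τ] ∈ 𝔽₂⟨c₁, c₂⟩` forces `τ = l s^K`.
-/

set_option autoImplicit false

namespace Pool.Agent.ECK

open Pool.Agent.ECU (T)

noncomputable section

/-- Left quotient by the letter `k`. -/
def lqT (k : ℕ) (P : T F) : T F :=
  Finsupp.comapDomain (List.cons k) P (fun _ _ _ _ h => List.cons_injective h)

theorem lqT_apply (k : ℕ) (P : T F) (v : List ℕ) : lqT k P v = P (k :: v) := rfl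

theorem decomp01 (P : T F) (hP : ∀ v, P v ≠ 0 → ∀ k ∈ v, k ≤ 1) :
    P = P [] • Pool.Agent.ECU.e [] + Pool.Agent.ECU.C 0 (lqT 0 P) + Pool.Agent.ECU.C 1 (lqT 1 P) := by
  ext v
  rcases v with _ | ⟨k, v⟩
  · simp [Pool.Agent.ECU.C_apply_nil, Pool.Agent.ECU.e]
  · simp only [Finsupp.add_apply, Finsupp.smul_apply, Pool.Agent.ECU.C_apply_cons, lqT_apply,
      Pool.Agent.ECU.e, smul_eq_mul]
    rw [Finsupp.single_eq_of_ne (by simp), mul_zero, zero_add]
    by_cases h0 : k = 0
    · subst h0; simp
    · rw [if_neg h0, zero_add]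
      by_cases h1 : k = 1
      · subst h1; simp
      · rw [if_neg h1]
        by_contra h
        have := hP _ h k (by simp)
        omega

theorem lqT_le {P : T F} (hP : ∀ v, P v ≠ 0 → ∀ k ∈ v, k ≤ 1) (j : ℕ) :
    ∀ v, lqT j P v ≠ 0 → ∀ k ∈ v, k ≤ 1 :=
  fun v hv k hk => hP (j :: v) hv k (List.mem_cons_of_mem _ hk)

private theorem cB_zero : cB 0 = xb := by
  rw [cB]; simp

theorem cB_one : cB 1 = xb * xa + xa * xb := by
  rw [cB, Finset.sum_range_succ, Finset.sum_range_succ]; simp

theorem evT01 (P : T F) (hP : ∀ v, P v ≠ 0 → ∀ k ∈ v, k ≤ 1) :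
    evT cB P = P [] • 1 + xb * evT cB (lqT 0 P) +
      (xb * (xa * evT cB (lqT 1 P)) + xa * (xb * evT cB (lqT 1 P))) := by
  conv_lhs => rw [decomp01 P hP]
  rw [map_add, map_add, map_smul, evT_e, evT_C, evT_C, cB_zero, cB_one]
  simp only [List.map_nil, List.prod_nil]
  noncomm_ring

private theorem cf_xa_cons (c : Fin 2) (l : List (Fin 2)) (p : A2) :
    cf (xa * p) (c :: l) = if c = 0 then cf p l else 0 := by
  rw [xa, cf_letter_mul_cons]
  by_cases h : c = 0
  · rw [if_pos h, if_pos h.symm]
  · rw [if_neg h, if_neg (fun h' => h h'.symm)]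

private theorem cf_xb_cons (c : Fin 2) (l : List (Fin 2)) (p : A2) :
    cf (xb * p) (c :: l) = if c = 1 then cf p l else 0 := by
  rw [xb, cf_letter_mul_cons]
  by_cases h : c = 1
  · rw [if_pos h, if_pos h.symm]
  · rw [if_neg h, if_neg (fun h' => h h'.symm)]

private theorem cf_xa_nil (p : A2) : cf (xa * p) [] = 0 := cf_letter_mul_nil _ p
private theorem cf_xb_nil (p : A2) : cf (xb * p) [] = 0 := cf_letter_mul_nil _ p

theorem cf_one_cons (c : Fin 2) (l : List (Fin 2)) : cf (1 : A2) (c :: l) = 0 := by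
  rw [cf_one, if_neg (by simp)]

theorem evT01_nil (P : T F) (hP : ∀ v, P v ≠ 0 → ∀ k ∈ v, k ≤ 1) :
    cf (evT cB P) [] = P [] := by
  rw [evT01 P hP]
  simp only [cf_add, cf_smul, cf_xb_nil, cf_xa_nil, cf_one, if_true]
  ring

theorem evT01_0 (P : T F) (hP : ∀ v, P v ≠ 0 → ∀ k ∈ v, k ≤ 1) :
    cf (evT cB P) [0] = 0 := by
  rw [evT01 P hP]
  simp only [cf_add, cf_smul, cf_one_cons, cf_xa_cons, cf_xb_cons, cf_xb_nil]
  simp

theorem evT01_00 (P : T F) (hP : ∀ v, P v ≠ 0 → ∀ k ∈ v, k ≤ 1) (l : List (Fin 2)) :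
    cf (evT cB P) (0 :: 0 :: l) = 0 := by
  rw [evT01 P hP]
  simp only [cf_add, cf_smul, cf_one_cons, cf_xa_cons, cf_xb_cons]
  simp

theorem evT01_01 (P : T F) (hP : ∀ v, P v ≠ 0 → ∀ k ∈ v, k ≤ 1) (l : List (Fin 2)) :
    cf (evT cB P) (0 :: 1 :: l) = cf (evT cB (lqT 1 P)) l := by
  rw [evT01 P hP]
  simp only [cf_add, cf_smul, cf_one_cons, cf_xa_cons, cf_xb_cons]
  simp

theorem evT01_1 (P : T F) (hP : ∀ v, P v ≠ 0 → ∀ k ∈ v, k ≤ 1) (l : List (Fin 2)) :
    cf (evT cB P) (1 :: l) = cf (evT cB (lqT 0 P)) l + cf (xa * evT cB (lqT 1 P)) l := by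
  rw [evT01 P hP]
  simp only [cf_add, cf_smul, cf_one_cons, cf_xa_cons, cf_xb_cons]
  simp

/-- `ad x` does not vanish on words starting with `x`. -/
theorem ad_aux {K j0 : ℕ} (hK : 1 ≤ K) (τ : A2) (hτ : pj vs K τ = τ)
    (h : ∀ j l, j0 ≤ j → cf (xa * τ + τ * xa) (0 :: (List.replicate j 0 ++ l)) = 0) :
    ∀ n l j, j0 ≤ j → l.length = n → cf τ (List.replicate j 0 ++ l) = 0 := by
  have hz : ∀ j, cf τ (List.replicate j 0) = 0 := by
    intro j
    rw [← hτ, cf_pj, if_neg]
    have : wgt vs (List.replicate j 0) = 0 := by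
      simp [wgt, vs]
    omega
  intro n
  induction n with
  | zero =>
    intro l j _ hl
    have : l = [] := List.length_eq_zero_iff.mp hl
    subst this
    rw [List.append_nil]
    exact hz j
  | succ n ih =>
    intro l j hj hl
    have h1 := h j l hj
    rw [cf_add, cf_xa_cons, if_pos rfl] at h1
    rcases List.eq_nil_or_concat l with h0 | ⟨l', c, hlc⟩
    · subst h0; simp at hl
    · rw [List.concat_eq_append] at hlc
      subst hlc
      rw [List.length_append, List.length_singleton] at hl
      have e1 : (0 : Fin 2) :: (List.replicate j 0 ++ (l' ++ [c])) =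
          (List.replicate (j + 1) 0 ++ l') ++ [c] := by
        rw [List.replicate_succ]; simp
      rw [e1, xa, cf_mul_letter_append] at h1
      by_cases hc : (0 : Fin 2) = c
      · rw [if_pos hc, ih l' (j + 1) (by omega) (by omega), add_zero] at h1
        exact h1
      · rw [if_neg hc, add_zero] at h1
        exact h1

theorem ad_injective {K : ℕ} (hK : 1 ≤ K) (τ : A2) (hτ : pj vs K τ = τ)
    (h : xa * τ + τ * xa = 0) : τ = 0 := by
  apply cf_ext
  intro l
  have := ad_aux (j0 := 0) hK τ hτ (fun j l _ => by rw [h, cf_zero]) l.length l 0 (le_refl _) rfl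
  simpa using this

theorem xad {K : ℕ} (hK : 1 ≤ K) (τ : A2) (hτ : pj vs K τ = τ) (P : T F)
    (hP : ∀ v, P v ≠ 0 → ∀ k ∈ v, k ≤ 1) (h : xa * τ + τ * xa = evT cB P) :
    ∃ l : F, τ = l • wd (List.replicate K 1) := by
  induction K generalizing τ P with
  | zero => omega
  | succ K ih =>
    -- every word of `τ` starts with `s`
    have h0 : ∀ l, cf τ (0 :: l) = 0 := by
      intro l
      have := ad_aux (j0 := 1) hK τ hτ (fun j l hj => by
        obtain ⟨j, rfl⟩ : ∃ j', j = j' + 1 := ⟨j - 1, by omega⟩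
        rw [h, List.replicate_succ, List.cons_append]
        exact evT01_00 P hP _) l.length l 1 (le_refl _) rfl
      simpa using this
    have hn : cf τ [] = 0 := by
      rw [← hτ, cf_pj, if_neg]
      simp
    have hx : ∀ l, cf (τ * xa) (0 :: l) = 0 := by
      intro l
      rcases List.eq_nil_or_concat l with hl | ⟨l', c, hlc⟩
      · subst hl
        have : ([0] : List (Fin 2)) = [] ++ [0] := rfl
        rw [this, xa, cf_mul_letter_append, if_pos rfl, hn]
      · rw [List.concat_eq_append] at hlc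
        subst hlc
        have : (0 : Fin 2) :: (l' ++ [c]) = (0 :: l') ++ [c] := rfl
        rw [this, xa, cf_mul_letter_append, h0]
        simp
    have h1 : ∀ l, cf τ (1 :: l) = cf (evT cB (lqT 1 P)) l := by
      intro l
      rw [← evT01_01 P hP, ← h, cf_add, cf_xa_cons, if_pos rfl, hx, add_zero]
    have hτ' : τ = xb * evT cB (lqT 1 P) := by
      apply cf_ext
      intro l
      rcases l with _ | ⟨c, l⟩
      · rw [hn, cf_xb_nil]
      · rw [cf_xb_cons]
        by_cases hc : c = 1
        · subst hc; rw [if_pos rfl, h1]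
        · have : c = 0 := by omega
          subst this
          rw [if_neg hc, h0]
    set Q := evT cB (lqT 1 P) with hQ
    have hQK : pj vs K Q = Q := by
      apply cf_ext
      intro l
      rw [cf_pj]
      by_cases hl : wgt vs l = K
      · rw [if_pos hl]
      · rw [if_neg hl, ← h1, ← hτ, cf_pj, if_neg]
        have hv : vs 1 = 1 := rfl
        rw [wgt_cons, hv]
        omega
    have hQx : xa * Q + Q * xa = evT cB (lqT 0 P) := by
      apply cf_ext
      intro l
      have h2 : cf (xa * τ + τ * xa) (1 :: l) = cf (evT cB P) (1 :: l) := by rw [h]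
      rw [evT01_1 P hP, cf_add, cf_xa_cons, if_neg (by simp), zero_add, hτ', mul_assoc, cf_xb_cons,
        if_pos rfl, ← hQ] at h2
      rw [cf_add, h2, add_comm (cf (evT cB (lqT 0 P)) l), ← add_assoc, F_add_self, zero_add]
    rcases K with _ | K
    · -- `Q` is a constant
      refine ⟨cf Q [], ?_⟩
      have : Q = cf Q [] • 1 := by
        apply cf_ext
        intro l
        rw [cf_smul, cf_one]
        rcases l with _ | ⟨c, l⟩
        · simp
        · rw [if_neg (by simp), mul_zero]
          rcases l with _ | ⟨c', l⟩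
          · by_cases hc : c = 0
            · subst hc; rw [hQ]; exact evT01_0 _ (lqT_le hP 1)
            · rw [← hQK, cf_pj, if_neg]
              have : c = 1 := by omega
              subst this
              simp [vs]
          · by_cases hw : wgt vs (c :: c' :: l) = 0
            · have e0 : c = 0 := by
                by_contra hc
                have : c = 1 := by omega
                subst this
                simp [vs] at hw
              have e1 : c' = 0 := by
                by_contra hc
                have : c' = 1 := by omega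
                subst this
                simp [vs] at hw
              subst e0; subst e1
              rw [hQ]
              exact evT01_00 _ (lqT_le hP 1) _
            · rw [← hQK, cf_pj, if_neg hw]
      rw [hτ']
      conv_lhs => rw [this]
      rw [mul_smul_comm, mul_one]
      rfl
    · obtain ⟨l, hl⟩ := ih (by omega) Q hQK (lqT 0 P) (lqT_le hP 0) hQx
      refine ⟨l, ?_⟩
      rw [hτ', hl, mul_smul_comm, xb, ← wd_cons]
      rfl

end

end Pool.Agent.ECK
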