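import Pool.Agent.ECK.StepD
import Pool.Agent.ECK.XAd
import Pool.Agent.ECK.Nee
import Pool.Agent.ECK.Uni
import Pool.Agent.ECK.StepA

/-!
# Step B: the vanishing on cyclic words without `bb`
-/

set_option autoImplicit false

namespace Pool.Agent.ECK

open Pool.Agent.ECB Pool.Agent.H4DM
open Pool.Agent.ECU (T L)

attribute [local instance] LieRing.ofAssociativeRing

noncomputable section

namespace SB

open SD

theorem pj_comm' (v v' : Fin 2 → ℕ) (j k : ℕ) (p : A2) :
    pj v j (pj v' k p) = pj v' k (pj v j p) := by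
  apply cf_ext
  intro l
  rw [cf_pj, cf_pj, cf_pj, cf_pj]
  split_ifs <;> rfl

theorem pj_vx_comm (D : ℕ) (q : A2) : pj vx (D + 1) (xa * q + q * xa) =
    xa * pj vx D q + pj vx D q * xa := by
  rw [map_add, xa, pj_letter_mul_one vx 0 rfl, pj_mul_letter_one vx 0 rfl]

theorem wgt_vs_le (l : List (Fin 2)) : wgt vs l ≤ l.length := by
  induction l with
  | nil => simp
  | cons a l ih =>
    rw [wgt_cons, List.length_cons]
    have : vs a ≤ 1 := by
      fin_cases a
      · exact Nat.zero_le 1
      · exact le_refl 1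
    omega

theorem wgt_vs_le_vt (l : List (Fin 2)) : 2 * wgt vs l ≤ wgt vt l := by
  induction l with
  | nil => simp
  | cons a l ih =>
    rw [wgt_cons, wgt_cons]
    have : 2 * vs a ≤ vt a := by
      fin_cases a
      · exact Nat.zero_le 1
      · exact le_refl 2
    omega

theorem wgt_vx_replicate (n : ℕ) : wgt vx (List.replicate n 1) = 0 := by
  induction n with
  | zero => rfl
  | succ n ih => rw [List.replicate_succ, wgt_cons, ih]; rfl

theorem cy_length (v : List ℕ) : (cy v).length = v.sum + 2 * v.length := by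
  induction v with
  | nil => rfl
  | cons k v ih =>
    rw [cy, List.length_append, List.length_cons, ih, List.length_replicate, List.sum_cons,
      List.length_cons]
    ring

/-- Finitely many lists of given length and bounded sum. -/
theorem finite_lists (K M : ℕ) : {v : List ℕ | v.length = K ∧ v.sum ≤ M}.Finite := by
  have h1 : {v : List ℕ | v.length = K ∧ v.sum ≤ M} ⊆
      (fun l : List (Fin (M + 1)) => l.map (fun i => i.val)) '' {l | l.length = K} := by
    intro v hv
    have hv1 : v.length = K := hv.1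
    have hv2 : v.sum ≤ M := hv.2
    refine ⟨v.map (fun k => if h : k < M + 1 then ⟨k, h⟩ else ⟨0, by omega⟩), ?_, ?_⟩
    · show (List.map _ v).length = K
      rw [List.length_map, hv1]
    · show List.map _ (List.map _ v) = v
      rw [List.map_map]
      conv_rhs => rw [← List.map_id v]
      apply List.map_congr_left
      intro k hk
      have h2 := List.single_le_sum (fun x _ => Nat.zero_le x) k hk
      simp only [Function.comp_apply, id_eq]
      rw [dif_pos (by omega)]
  exact Set.Finite.subset (Set.Finite.image _ (List.finite_length_eq (Fin (M + 1)) K)) h1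

variable {w : ℕ} {c : Fn}

/-- The function `P₀` in length `K`. -/
theorem exists_P0 (hc : c ∈ redM w 2) (K : ℕ) : ∃ P0 : T F,
    ∀ v, P0 v = if v.length = K then Nf c (cy v) else 0 := by
  classical
  have hf : (Function.support (fun v : List ℕ => if v.length = K then Nf c (cy v) else 0)).Finite := by
    apply Set.Finite.subset (finite_lists K (w + 1))
    intro v hv
    rw [Function.mem_support] at hv
    by_cases h : v.length = K
    · rw [if_pos h] at hv
      refine ⟨h, ?_⟩
      by_contra h2
      apply hv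
      apply Nf_length hc
      rw [cy_length]
      omega
    · rw [if_neg h] at hv
      exact absurd rfl hv
  exact ⟨Finsupp.ofSupportFinite _ hf, fun v => rfl⟩

theorem mem_LA_pow_smul {m : ℕ} (hm : 2 ≤ m) {l : F}
    (h : l • (wd (List.replicate m 1) : A2) ∈ LA F (Fin 2)) : l = 0 := by
  have h1 := LA_pow hm h 1
  rw [cf_smul, cf_wd, if_pos rfl, mul_one] at h1
  exact h1

/-- One step of the downward induction. -/
theorem stepB_step (hc : c ∈ redM w 2) (hw4 : 4 ≤ w) {pa pb : A2} (hpa : pa ∈ LA F (Fin 2))
    (ha : Uni (Ta w c) pa) (hb : Uni (Tb w c) pb) (K : ℕ) (hK1 : 1 ≤ K)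
    (hK : ∀ k, K < k → pj vs k pa = 0) : pj vs K pa = 0 := by
  classical
  have hlen : ∀ l, w < l.length → cf (Ta w c) l = 0 := by
    intro l hl
    rw [Ta, cf_mk, if_neg (by omega)]
  by_cases h2K : 2 * K ≤ w
  · obtain ⟨P1, hP1, hP1'⟩ := top hc (by omega) ha hb K hK1 hK
    obtain ⟨P0, hP0⟩ := exists_P0 hc K
    have hphi : ∀ v, sumS v (fun u => P1 u) = P0 v := by
      intro v
      have hsl : ∀ (v : List ℕ) (g h : List ℕ → F), (∀ u, u.length = v.length → g u = h u) →
          sumS v g = sumS v h := by
        intro v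
        induction v with
        | nil => intro g h hgh; exact hgh [] rfl
        | cons k v ih =>
          intro g h hgh
          rw [sumS, sumS]
          congr 1
          · apply ih
            intro u hu
            apply hgh
            rw [List.length_cons, List.length_cons, hu]
          · apply ih
            intro u hu
            apply hgh
            rw [List.length_cons, List.length_cons, hu]
      have hs0 : ∀ (v : List ℕ), sumS v (fun _ => (0 : F)) = 0 := by
        intro v
        induction v with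
        | nil => rfl
        | cons k v ih => rw [sumS, ih, add_zero]
      rw [hP0]
      by_cases hv : v.length = K
      · rw [if_pos hv]
        have hv0 : v ≠ [] := by
          intro h
          subst h
          simp at hv
          omega
        have h1 := phiP hc (by omega) v hv0
        rw [cdep_zero hc hw4, mul_zero, ite_self, add_zero] at h1
        rw [← h1]
        apply hsl
        intro u hu
        rw [hP1, if_pos (by omega)]
      · rw [if_neg hv, hsl v _ (fun _ => (0 : F)), hs0]
        intro u hu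
        rw [hP1, if_neg (by omega)]
    have hg : evT gB P0 = evT cB P1 := evT_gB hphi
    set Q : A2 := pj vs K pa with hQ
    have hQm : Q ∈ LA F (Fin 2) := pj_mem _ _ hpa
    have hQK : pj vs K Q = Q := by rw [hQ, pj_pj, if_pos rfl]
    have hcomm : xa * Q + Q * xa ∈ LA F (Fin 2) := comm_mem' (letter_mem 0) hQm
    obtain ⟨D, hD⟩ : ∃ D, D + 2 * K = w := ⟨w - 2 * K, by omega⟩
    have hP0h : ∀ v, P0 v ≠ 0 → v.length = K ∧ v.sum = D + 1 := by
      intro v hv
      rw [hP0] at hv
      by_cases h : v.length = K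
      · rw [if_pos h] at hv
        refine ⟨h, ?_⟩
        by_contra h2
        apply hv
        apply Nf_length hc
        rw [cy_length]
        omega
      · rw [if_neg h] at hv
        exact absurd rfl hv
    have hle : ∀ v, P0 v ≠ 0 → ∀ k ∈ v, k ≤ 1 :=
      C0g (by omega) P0 hP0h (by rw [hg, ← hP1']; exact hcomm)
    have hτ : xa * pj vx D Q + pj vx D Q * xa = evT cB P0 := by
      rw [← pj_vx_comm, hP1', ← hg]
      exact pjx_evT_gB P0 (fun v hv => (hP0h v hv).2)
    obtain ⟨l, hl⟩ := xad hK1 (pj vx D Q) (by rw [pj_comm', hQK]) P0 hle hτ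
    have hl0 : pj vx D Q = 0 := by
      by_cases hK2 : 2 ≤ K
      · have h1 : l • (wd (List.replicate K 1) : A2) ∈ LA F (Fin 2) := by
          rw [← hl]
          exact pj_mem _ _ hQm
        rw [hl, mem_LA_pow_smul hK2 h1, zero_smul]
      · have h1 : pj vx D (pj vx D Q) = pj vx D Q := by rw [pj_pj, if_pos rfl]
        rw [← h1, hl, map_smul, pj_wd, wgt_vx_replicate, if_neg (by omega), smul_zero]
    have h0 : evT cB P0 = 0 := by
      rw [← hτ, hl0, mul_zero, zero_mul, add_zero]
    have hP00 : P0 = 0 := evT_cB_injective (by rw [h0, map_zero])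
    have h1 : xa * Q + Q * xa = 0 := by
      rw [hP1', ← hg, hP00, map_zero]
    exact ad_injective hK1 Q hQK h1
  · apply cf_ext
    intro l
    rw [cf_pj, cf_zero]
    by_cases h : wgt vs l = K
    · rw [if_pos h]
      apply uni_weight ha hlen
      have := wgt_vs_le_vt l
      omega
    · rw [if_neg h]

/-- The universal Lie element of `Ta` is zero. -/
theorem pa_zero (hc : c ∈ redM w 2) (hw4 : 4 ≤ w) {pa pb : A2} (hpa : pa ∈ LA F (Fin 2))
    (ha0 : cf pa [0] = 0)
    (ha : Uni (Ta w c) pa) (hb : Uni (Tb w c) pb) : pa = 0 := by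
  obtain ⟨M, hM⟩ := exists_bound pa
  have hbig : ∀ k, M < k → pj vs k pa = 0 := by
    intro k hk
    apply cf_ext
    intro l
    rw [cf_pj, cf_zero]
    by_cases h : wgt vs l = k
    · rw [if_pos h]
      apply hM
      have := wgt_vs_le l
      omega
    · rw [if_neg h]
  have hall : ∀ n, ∀ k, M ≤ k + n → 1 ≤ k → pj vs k pa = 0 := by
    intro n
    induction n with
    | zero =>
      intro k hk h1
      apply stepB_step hc hw4 hpa ha hb k h1
      intro k' hk'
      exact hbig k' (by omega)
    | succ n ih =>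
      intro k hk h1
      apply stepB_step hc hw4 hpa ha hb k h1
      intro k' hk'
      exact ih k' (by omega) (by omega)
  apply cf_ext
  intro l
  have h1 : cf (pj vs (wgt vs l) pa) l = cf pa l := by rw [cf_pj, if_pos rfl]
  rw [← h1]
  rcases Nat.eq_zero_or_pos (wgt vs l) with h | h
  · rw [h, LA_vs0 hpa, ha0, zero_smul]
  · rw [hall M (wgt vs l) (by omega) h]

theorem cf_Ta_short (hw : 2 ≤ w) (l : List (Fin 2)) (hl : l.length = 1) : cf (Ta w c) l = 0 := by
  rw [Ta, cf_mk, if_neg (by omega)]

theorem cf_Tb_short (hw : 2 ≤ w) (l : List (Fin 2)) (hl : l.length = 1) : cf (Tb w c) l = 0 := by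
  rw [Tb, cf_mk, if_neg (by omega)]

/-- `Ta` is universally zero. -/
theorem uni_Ta (hc : c ∈ redM w 2) (hw4 : 4 ≤ w) : Uni (Ta w c) 0 := by
  obtain ⟨pa, hpa, ha0, ha⟩ := lie1 (Ta_mem hc) (cf_Ta_short (by omega) [1] rfl)
  obtain ⟨pb, _, _, hb⟩ := lie1 (Tb_mem hc) (cf_Tb_short (by omega) [1] rfl)
  rw [cf_Ta_short (by omega) [0] rfl] at ha0
  have := pa_zero hc hw4 hpa ha0 ha hb
  rwa [this] at ha

end SB

open SB SD

variable {w : ℕ} {c : Fn}

theorem Ta_zero (hc : c ∈ redM w 2) (hw4 : 4 ≤ w) {R' : Type} [Ring R'] [Algebra F R']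
    (x e : R') (he : e * e = e) : lf ![x, e] (Ta w c) = 0 := by
  rw [uni_Ta hc hw4 R' x e he, map_zero]

theorem bt_congr (M : ℕ) (V : List (Fin 2)) : ∀ (g h : Fn), (∀ l, g l = h l) →
    bt M V g = bt M V h := by
  intro g h hgh
  have : g = h := funext hgh
  rw [this]

theorem Kvan (hc : c ∈ redM w 2) (hw4 : 4 ≤ w) (V : List (Fin 2)) (hV : nbb V) :
    bt (w + 2) (0 :: V) (Nf c) = 0 := by
  have h1 : bt (w + 2) (0 :: V) (Nf c) = bt (w + 2) V (dq 0 (Nf c)) := by
    rw [bt, if_pos rfl]
  have h2 : bt (w + 2) V (cf (Ta w c)) = cf (nf (Ta w c)) V := by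
    rw [cf_nf _ hV]
    intro l hl
    rw [Ta, cf_mk, if_neg (by omega)]
  have h3 : nf (Ta w c) = 0 := by
    rw [uni_nf (uni_Ta hc hw4), map_zero, map_zero]
  rw [h3, cf_zero] at h2
  rw [h1, ← h2]
  apply bt_congr
  intro l
  rw [Ta, cf_mk]
  by_cases h : l.length = w
  · rw [if_pos h]; rfl
  · rw [if_neg h]
    exact Nf_length hc (by rw [List.length_cons]; omega)

end

end Pool.Agent.ECK
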