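import Pool.Agent.ECK.StepB
import Pool.Agent.ECK.Phi

/-!
# The unit-free part
-/

set_option autoImplicit false

namespace Pool.Agent.ECK

open Pool.Agent.ECB Pool.Agent.H4DM
open Pool.Agent.ECU (T L)

attribute [local instance] LieRing.ofAssociativeRing

noncomputable section

variable {w : ℕ} {c : Fn}

/-! ### Words `b a^{k_1+1} b … b` -/

theorem form (U : List (Fin 2)) (hU : nbb U) (hl : U.getLast? = some 1) :
    (U.head? = some 1 → ∃ v, U = ec v ++ [1]) ∧
    (U.head? = some 0 → ∃ k v, U = List.replicate (k + 1) 0 ++ (ec v ++ [1])) := by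
  induction U with
  | nil => simp at hl
  | cons a U ih =>
    rcases U with _ | ⟨b, U⟩
    · simp at hl
      subst hl
      exact ⟨fun _ => ⟨[], rfl⟩, fun h => by simp at h⟩
    · rw [nbb, List.isChain_cons_cons] at hU
      obtain ⟨h1, h2⟩ := ih hU.2 (by simpa using hl)
      constructor
      · intro ha
        simp only [List.head?_cons, Option.some.injEq] at ha
        subst ha
        have hb : b = 0 := by
          rcases hU.1 with h | h
          · exact absurd h (by decide)
          · exact h
        obtain ⟨k, v, h3⟩ := h2 (by simp [hb])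
        exact ⟨k :: v, by rw [h3, ec]; simp⟩
      · intro ha
        simp only [List.head?_cons, Option.some.injEq] at ha
        subst ha
        fin_cases b
        · obtain ⟨k, v, h3⟩ := h2 (by simp)
          refine ⟨k + 1, v, ?_⟩
          rw [List.replicate_succ, List.cons_append, ← h3]
        · obtain ⟨v, h3⟩ := h1 (by simp)
          refine ⟨0, v, ?_⟩
          rw [← h3]; rfl

theorem zeros_inj (a b : ℕ) (X Y : List (Fin 2))
    (h : List.replicate a 0 ++ 1 :: X = List.replicate b 0 ++ 1 :: Y) : a = b ∧ X = Y := by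
  induction a generalizing b with
  | zero =>
    rcases b with _ | b
    · simpa using h
    · rw [List.replicate_succ] at h
      simp at h
  | succ a ih =>
    rcases b with _ | b
    · rw [List.replicate_succ] at h
      simp at h
    · rw [List.replicate_succ, List.replicate_succ, List.cons_append, List.cons_append] at h
      obtain ⟨h1, h2⟩ := ih b (List.cons.inj h).2
      exact ⟨by rw [h1], h2⟩

theorem ec_head (v : List ℕ) : ∃ X, ec v ++ [1] = 1 :: X := by
  rcases v with _ | ⟨k, v⟩
  · exact ⟨[], rfl⟩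
  · exact ⟨List.replicate (k + 1) 0 ++ ec v ++ [1], by rw [ec]; simp⟩

theorem ec_inj {u v : List ℕ} (h : ec u ++ [1] = ec v ++ [1]) : u = v := by
  induction u generalizing v with
  | nil =>
    rcases v with _ | ⟨k, v⟩
    · rfl
    · exfalso
      rw [ec, ec, List.replicate_succ] at h
      simp at h
  | cons j u ih =>
    rcases v with _ | ⟨k, v⟩
    · exfalso
      rw [ec, ec, List.replicate_succ] at h
      simp at h
    · rw [ec, ec, List.cons_append, List.cons_append, List.cons_append, List.cons_append,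
        List.append_assoc, List.append_assoc] at h
      obtain ⟨X, hX⟩ := ec_head u
      obtain ⟨Y, hY⟩ := ec_head v
      rw [hX, hY] at h
      obtain ⟨h1, h2⟩ := zeros_inj _ _ _ _ (List.cons.inj h).2
      have h3 : ec u ++ [1] = ec v ++ [1] := by rw [hX, hY, h2]
      rw [ih h3]
      congr 1
      omega

/-- The coefficients at the words `b a^{k_1+1} b … b`. -/
def cut (p : A2) : T F := Finsupp.comapDomain (fun v : List ℕ => FreeMonoid.ofList (ec v ++ [1]))
  p.coeff (fun u _ v _ h => ec_inj (FreeMonoid.ofList.injective h))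

theorem cut_apply (p : A2) (v : List ℕ) : (cut p) v = cf p (ec v ++ [1]) := rfl

/-- The element with coefficients `P` at the words `b a^{k_1+1} b … b`. -/
def Lam : T F →ₗ[F] A2 := Finsupp.linearCombination F (fun v => wd (ec v ++ [1]))

theorem Lam_e (v : List ℕ) : Lam (Pool.Agent.ECU.e v) = wd (ec v ++ [1]) := by
  simp [Lam, Pool.Agent.ECU.e, Finsupp.linearCombination_single]

theorem cf_Lam (P : T F) (v : List ℕ) : cf (Lam P) (ec v ++ [1]) = P v := by
  have : (cfL (ec v ++ [1]) : A2 →ₗ[F] F) ∘ₗ Lam = Finsupp.lapply v := by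
    apply Pool.Agent.ECU.hom_ext
    intro u
    rw [LinearMap.comp_apply, Lam_e, cfL_apply, cf_wd, Finsupp.lapply_apply, Pool.Agent.ECU.e,
      Finsupp.single_apply]
    by_cases h : u = v
    · subst h; rw [if_pos rfl, if_pos rfl]
    · rw [if_neg h, if_neg (fun h' => h (ec_inj h'))]
  exact LinearMap.congr_fun this P

theorem cf_Lam' (P : T F) (U : List (Fin 2)) (hU : ∀ v, U ≠ ec v ++ [1]) : cf (Lam P) U = 0 := by
  have : (cfL U : A2 →ₗ[F] F) ∘ₗ Lam = 0 := by
    apply Pool.Agent.ECU.hom_ext
    intro u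
    rw [LinearMap.comp_apply, Lam_e, cfL_apply, cf_wd, if_neg (fun h => hU u h.symm)]
    rfl
  exact LinearMap.congr_fun this P

theorem eq_Lam (p : A2) (hp : ∀ U, cf p U ≠ 0 → ∃ v, U = ec v ++ [1]) : p = Lam (cut p) := by
  apply cf_ext
  intro U
  by_cases h : ∃ v, U = ec v ++ [1]
  · obtain ⟨v, rfl⟩ := h
    rw [cf_Lam, cut_apply]
  · rw [cf_Lam' _ _ (fun v hv => h ⟨v, hv⟩)]
    by_contra h0
    exact h (hp U h0)

/-! ### The action of `Z` -/

theorem Eop_wd_one (V : List (Fin 2)) : Eop (wd (1 :: V)) = wd (1 :: V) := by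
  rw [Eop, linw_wd]; simp

theorem Eop_wd_zero (V : List (Fin 2)) : Eop (wd (0 :: V)) = wd (1 :: 0 :: V) := by
  rw [Eop, linw_wd]; simp

theorem Eop_one : Eop 1 = wd [1] := by
  rw [← wd_nil, Eop, linw_wd]; simp

/-- The letter `c_{i+1} + x^{i+1}` of `Z`. -/
def z0 (i : ℕ) : A2 := cB i + xa ^ (i + 1)

theorem z0_act (i : ℕ) (V : List (Fin 2)) :
    (lf ![LinearMap.mulLeft F xa, Eop * LinearMap.mulLeft F xa + LinearMap.mulLeft F xa * Eop]
      (z0 i) : Module.End F A2) (wd (1 :: V)) =
      wd (1 :: (List.replicate (i + 1) 0 ++ 1 :: V)) := by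
  have h1 : ((LinearMap.mulLeft F xa : Module.End F A2) ^ (i + 1)) =
      LinearMap.mulLeft F (xa ^ (i + 1)) := by
    rw [LinearMap.pow_mulLeft]
  have h2 : lf ![LinearMap.mulLeft F xa,
      Eop * LinearMap.mulLeft F xa + LinearMap.mulLeft F xa * Eop] xa =
      (LinearMap.mulLeft F xa : Module.End F A2) := by
    show lf _ (wd [0]) = _
    rw [lf_letter]; rfl
  rw [z0, map_add, map_pow, h2, h1, cB_uni, h1]
  simp only [LinearMap.add_apply, Module.End.mul_apply, LinearMap.mulLeft_apply, Eop_wd_one]
  rw [xa_pow, ← wd_append, List.replicate_succ, List.cons_append, Eop_wd_zero, add_assoc, add_self,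
    add_zero]

theorem evT_z0_act (P : T F) :
    (lf ![LinearMap.mulLeft F xa, Eop * LinearMap.mulLeft F xa + LinearMap.mulLeft F xa * Eop]
      (evT z0 P) : Module.End F A2) (wd [1]) = Lam P := by
  rw [evT_map]
  have : (LinearMap.applyₗ (wd [1] : A2)) ∘ₗ (evT (fun k => (lf ![LinearMap.mulLeft F xa,
      Eop * LinearMap.mulLeft F xa + LinearMap.mulLeft F xa * Eop] (z0 k) : Module.End F A2))) =
      Lam := by
    apply Pool.Agent.ECU.hom_ext
    intro u
    rw [LinearMap.comp_apply, evT_e, Lam_e, LinearMap.applyₗ_apply_apply]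
    induction u with
    | nil => rfl
    | cons k u ih =>
      rw [List.map_cons, List.prod_cons, Module.End.mul_apply, ih]
      obtain ⟨X, hX⟩ := ec_head u
      rw [hX, z0_act, ec, ← hX]
      simp
  exact LinearMap.congr_fun this P

/-! ### Step C -/

theorem rho_xb_one : (lf ![LinearMap.mulLeft F xa, Eop] xb : Module.End F A2) 1 = wd [1] := by
  have : (lf ![LinearMap.mulLeft F xa, Eop] xb : Module.End F A2) = Eop := by
    show lf _ (wd [1]) = _
    rw [lf_letter]; rfl
  rw [this, Eop_one]

theorem nf_io_z0 (P : T F) : nf (io (evT z0 P) * xb) = Lam P := by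
  rw [← nf_eq, map_mul, Module.End.mul_apply, rho_xb_one, io_uni, evT_z0_act]

theorem nf_uni_xb {t p : A2} (h : Uni t p) : nf (io p * xb) = nf (t * xb) := by
  have hE : Eop * Eop = Eop := by
    apply LinearMap.ext; intro p; exact Eop_Eop p
  rw [← nf_eq, ← nf_eq, map_mul, map_mul, io_uni,
    h (Module.End F A2) (LinearMap.mulLeft F xa) Eop hE]

/-- `Tb e' = e' Tb`. -/
theorem Tb_comm (hc : c ∈ redM w 2) (hw4 : 4 ≤ w) {R' : Type} [Ring R'] [Algebra F R']
    (x e : R') (he : e * e = e) : e * lf ![x, e] (Tb w c) = lf ![x, e] (Tb w c) * e := by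
  have h := congrArg (lf ![x, e]) (SP hc (by omega : 2 ≤ w))
  have ha : lf ![x, e] xb = e := by
    show lf _ (wd [1]) = _
    rw [lf_letter]; rfl
  rw [map_add, map_add, map_add, map_mul, map_mul, map_mul, map_mul, Ta_zero hc hw4 x e he, ha,
    map_zero, mul_zero, zero_mul, add_zero, zero_add] at h
  have h2 := add_self (lf ![x, e] (Tb w c) * e)
  rw [← h2] at h
  exact add_right_cancel h

theorem head_of_Eop {p : A2} (h : Eop p = p) (U : List (Fin 2)) (hU : cf p U ≠ 0) :
    U.head? = some 1 := by
  by_contra hne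
  apply hU
  rw [← h]
  have : (cfL U : A2 →ₗ[F] F) ∘ₗ Eop = 0 := by
    apply lin_ext
    intro W
    rw [LinearMap.comp_apply, Eop, linw_wd, LinearMap.zero_apply, cfL_apply]
    split_ifs with h1
    · rw [cf_wd, if_neg]
      rintro rfl
      exact hne h1
    · rw [cf_wd, if_neg]
      rintro rfl
      exact hne rfl
  exact LinearMap.congr_fun this p

theorem nbb_of_nf {t : A2} (U : List (Fin 2)) (hU : cf (nf t) U ≠ 0) : nbb U := by
  by_contra hne
  apply hU
  have : (cfL U : A2 →ₗ[F] F) ∘ₗ nf = 0 := by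
    apply lin_ext
    intro W
    rw [LinearMap.comp_apply, nf, linw_wd, LinearMap.zero_apply, cfL_apply, cf_wd, if_neg]
    rintro rfl
    exact hne (nbb_nfW W)
  exact LinearMap.congr_fun this t

theorem nfW_append_one (W : List (Fin 2)) : (nfW (W ++ [1])).getLast? = some 1 := by
  induction W with
  | nil => rfl
  | cons a W ih =>
    rw [List.cons_append, nfW]
    split_ifs
    · exact ih
    · rcases h : nfW (W ++ [1]) with _ | ⟨b, X⟩
      · rw [h] at ih; simp at ih
      · rw [List.getLast?_cons_cons, ← h]; exact ih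

theorem last_of_nf {t : A2} (U : List (Fin 2)) (hU : cf (nf (t * xb)) U ≠ 0) :
    U.getLast? = some 1 := by
  by_contra hne
  apply hU
  have : (cfL U : A2 →ₗ[F] F) ∘ₗ nf ∘ₗ (LinearMap.mulRight F xb) = 0 := by
    apply lin_ext
    intro W
    rw [LinearMap.comp_apply, LinearMap.comp_apply, LinearMap.mulRight_apply, xb, ← wd_append, nf,
      linw_wd, LinearMap.zero_apply, cfL_apply, cf_wd, if_neg]
    rintro rfl
    exact hne (nfW_append_one W)
  exact LinearMap.congr_fun this t

theorem nf_Tb_form (hc : c ∈ redM w 2) (hw4 : 4 ≤ w) (U : List (Fin 2))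
    (hU : cf (nf (Tb w c * xb)) U ≠ 0) : ∃ v, U = ec v ++ [1] := by
  have hE : Eop * Eop = Eop := by
    apply LinearMap.ext; intro p; exact Eop_Eop p
  have h1 : Eop (nf (Tb w c * xb)) = nf (Tb w c * xb) := by
    have h2 := Tb_comm hc hw4 (LinearMap.mulLeft F xa : Module.End F A2) Eop hE
    have hx : (lf ![LinearMap.mulLeft F xa, Eop] xb : Module.End F A2) = Eop := by
      show lf _ (wd [1]) = _
      rw [lf_letter]; rfl
    have h3 : (Eop : Module.End F A2) * ((lf ![LinearMap.mulLeft F xa, Eop] (Tb w c)) * Eop) =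
        (lf ![LinearMap.mulLeft F xa, Eop] (Tb w c)) * Eop := by
      rw [← h2, ← mul_assoc, hE]
    have h4 := LinearMap.congr_fun h3 1
    rw [Module.End.mul_apply] at h4
    rw [← nf_eq, map_mul, hx]
    exact h4
  exact (form U (nbb_of_nf U hU) (last_of_nf U hU)).1 (head_of_Eop h1 U hU)

theorem replicate_split (k j : ℕ) : List.replicate k (1 : Fin 2) ++ 1 :: 1 :: List.replicate j 1 =
    (1 :: List.replicate j 1) ++ 1 :: List.replicate k 1 := by
  have h1 : List.replicate k (1 : Fin 2) ++ 1 :: 1 :: List.replicate j 1 =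
      List.replicate (k + (j + 2)) 1 := by
    rw [List.replicate_add, List.replicate_succ, List.replicate_succ]
  have h2 : (1 :: List.replicate j (1 : Fin 2)) ++ 1 :: List.replicate k 1 =
      List.replicate ((j + 1) + (k + 1)) 1 := by
    rw [List.replicate_add, List.replicate_succ, List.replicate_succ]
  rw [h1, h2]
  congr 1
  omega

/-- The coefficients of `nf (Tb b)` as values of `N`. -/
theorem cut_Tb (hc : c ∈ redM w 2) (hw : 2 ≤ w) (v : List ℕ) (hv : v ≠ []) :
    (cut (nf (Tb w c * xb))) v = bt (w + 2) (cy v ++ [1]) (Nf c) := by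
  have hlen : ∀ l : List (Fin 2), w + 2 ≤ l.length → cf (Tb w c * xb) l = 0 := by
    intro l hl
    rcases List.eq_nil_or_concat l with rfl | ⟨l', a, rfl⟩
    · simp at hl
    · rw [List.concat_eq_append, xb, cf_mul_letter_append]
      split_ifs
      · apply cf_Tb_length hc
        simp only [List.concat_eq_append, List.length_append, List.length_singleton] at hl
        omega
      · rfl
  obtain ⟨X, e1, e2, e3, e4⟩ := coord_word v hv
  have hnbb : nbb (ec v ++ [1]) := by
    rw [e1, nbb, List.append_assoc]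
    have := e3
    rw [nbb] at this
    rw [List.isChain_append]
    refine ⟨this, by simp, ?_⟩
    intro x _ y hy
    simp at hy
    exact Or.inr hy.symm
  rw [cut_apply, cf_nf hlen hnbb, bt_append_one, bt_append_one, e1, e2]
  have e5 : X ++ [0, 1] = (X ++ [0]) ++ [1] := by simp
  rw [e5, bt_append_one, List.cons_append, bt_cons1]
  congr 1
  funext t
  simp only [Yq, dq]
  rw [Finset.sum_congr rfl]
  intro j _
  apply Finset.sum_congr rfl
  intro k _
  have e6 : 1 :: (List.replicate j 1 ++ t) ++ 1 :: List.replicate k 1 =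
      (1 :: (List.replicate j 1 ++ t) ++ List.replicate k 1) ++ [1] := by
    rw [List.append_assoc, ← List.replicate_succ', List.replicate_succ]
  rw [e6, xb, cf_mul_letter_append, if_pos rfl, cf_Tb hc]
  have e7 : (1 :: (1 :: (List.replicate j 1 ++ t) ++ List.replicate k 1) : List (Fin 2)) =
      (1 :: 1 :: List.replicate j 1) ++ (t ++ List.replicate k 1) := by simp
  rw [e7, Nf_cyc hc hw, List.append_assoc, replicate_split]
  simp

theorem nbb_one_cy (u : List ℕ) : nbb (1 :: cy u) := by
  have key : ∀ u : List ℕ, nbb (1 :: cy u) := by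
    intro u
    induction u with
    | nil => simp [nbb, cy]
    | cons k u ih =>
      have h0 : ∀ m : ℕ, List.IsChain (fun a b : Fin 2 => a = 0 ∨ b = 0)
          (0 :: (List.replicate m 0 ++ 1 :: cy u)) := by
        intro m
        induction m with
        | zero =>
          rw [List.replicate_zero, List.nil_append, List.isChain_cons_cons]
          exact ⟨Or.inl rfl, ih⟩
        | succ m ihm =>
          rw [List.replicate_succ, List.cons_append, List.isChain_cons_cons]
          exact ⟨Or.inl rfl, ihm⟩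
      rw [nbb, cy, List.replicate_succ, List.cons_append, List.isChain_cons_cons]
      exact ⟨Or.inr rfl, h0 k⟩
  exact key u

/-- The word `b`: the coefficient is `N(b^{w+1}) = 0`. -/
theorem cut_Tb_nil (hc : c ∈ redM w 2) (hw : 2 ≤ w) : (cut (nf (Tb w c * xb))) [] = 0 := by
  have hlen : ∀ l : List (Fin 2), w + 2 ≤ l.length → cf (Tb w c * xb) l = 0 := by
    intro l hl
    rcases List.eq_nil_or_concat l with rfl | ⟨l', a, rfl⟩
    · simp at hl
    · rw [List.concat_eq_append, xb, cf_mul_letter_append]
      split_ifs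
      · apply cf_Tb_length hc
        simp only [List.concat_eq_append, List.length_append, List.length_singleton] at hl
        omega
      · rfl
  rw [cut_apply, cf_nf hlen (V := ec [] ++ [1]) (by simp [nbb, ec])]
  show bt (w + 2) [1] (cf (Tb w c * xb)) = 0
  rw [bt_cons1, bt_nil0]
  simp only [Yq, dq]
  apply Finset.sum_eq_zero
  intro k _
  have e : (1 :: (List.replicate k 1 ++ []) : List (Fin 2)) = List.replicate k 1 ++ [1] := by
    rw [List.append_nil, ← List.replicate_succ, List.replicate_succ']
  rw [e, xb, cf_mul_letter_append, if_pos rfl]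
  by_cases hk : 2 ≤ k
  · exact LA_pow hk (Tb_mem hc) 1
  · rw [Tb, cf_mk, if_neg]
    simp only [List.length_replicate]
    omega

theorem Nf_cy (hc : c ∈ redM w 2) (hw4 : 4 ≤ w) (v : List ℕ) (hv : v ≠ []) :
    Nf c (cy v ++ [1]) = c (cy v) := by
  have h1 := Nf_eps c (cy v)
  have h2 : Nf c (0 :: cy v) = 0 := by
    by_cases hl : (cy v).length = w
    · have h3 := Kvan hc hw4 (cy v) (by
        have := nbb_one_cy v
        rw [nbb] at this ⊢
        exact (List.isChain_cons.mp this).2)
      rw [bt_full (by omega)] at h3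
      · exact h3
      · intro l hl2
        apply Nf_length hc
        simp only [List.length_cons] at hl2
        omega
    · apply Nf_length hc
      simp only [List.length_cons]
      omega
  rw [h2, zero_add] at h1
  rw [← h1, Nf_cyc hc (by omega : 2 ≤ w)]
  rfl

theorem sumS_cut (hc : c ∈ redM w 2) (hw4 : 4 ≤ w) (v : List ℕ) :
    sumS v (fun u => (cut (nf (Tb w c * xb))) u) = c (cy v) := by
  by_cases hv : v = []
  · subst hv
    show (cut (nf (Tb w c * xb))) [] = c []
    rw [cut_Tb_nil hc (by omega), redM_length hc (by simp; omega)]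
  · have h1 : sumS v (fun u => (cut (nf (Tb w c * xb))) u) =
        sumS v (fun u => bt (w + 2) (cy u ++ [1]) (Nf c) + bt (w + 2) (cy u ++ [0, 1]) (Nf c)) := by
      apply sumS_congr
      intro u hu
      have hu0 : u ≠ [] := by
        rintro rfl
        simp only [List.length_nil] at hu
        exact hv (List.length_eq_zero_iff.mp hu.symm)
      rw [cut_Tb hc (by omega) u hu0, bt_rot (Nf_Cyc hc (by omega : 2 ≤ w)) (w + 2) (cy u) [0, 1]]
      show _ = _ + bt (w + 2) (0 :: (1 :: cy u)) (Nf c)
      rw [Kvan hc hw4 _ (nbb_one_cy u), add_zero]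
    rw [h1, ← th_cy1]
    obtain ⟨k, v, rfl⟩ := List.exists_cons_of_ne_nil hv
    rw [Etheta hc (by omega), cdep_zero hc hw4, Nf_cy hc hw4 _ hv]
    · simp
    · simp [cy, List.replicate_succ]
    · simp [cy]

theorem stepC (hc : c ∈ redM w 2) (hw4 : 4 ≤ w) {pb : A2} (hb : Uni (Tb w c) pb) :
    ∃ P : T F, (∀ v, P v = c (cy v)) ∧ pb = evT zB P := by
  have h1 : nf (Tb w c * xb) = Lam (cut (nf (Tb w c * xb))) :=
    eq_Lam _ (nf_Tb_form hc hw4)
  refine ⟨phi (cut (nf (Tb w c * xb))), ?_, ?_⟩
  · intro v
    rw [phi_apply, sumS_cut hc hw4]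
  · have h2 : evT zB (phi (cut (nf (Tb w c * xb)))) = evT z0 (cut (nf (Tb w c * xb))) :=
      evT_gsum z0 (fun v => (phi_apply _ v).symm)
    rw [h2]
    have h3 : pb + evT z0 (cut (nf (Tb w c * xb))) = 0 := by
      apply uni_zero
      rw [map_add, add_mul, map_add, nf_io_z0, nf_uni_xb hb, ← h1, add_self]
    rw [← sub_eq] at h3
    exact sub_eq_zero.mp h3

end

end Pool.Agent.ECK
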