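import Pool.Agent.ECK.ThetaA
import Pool.Agent.ECK.Spec

/-!
# The relation `N(θ C) = N(C) + δ`

`θ` is `a ↦ a, b ↦ (1 + a) b Y`, `Y = ∑ b^k`; `C` is a word containing both letters, and
`δ = C(w, |C| - 1) c(a^(w-1) b)` if `|C| ≤ w`, `0` otherwise (section 2 of the blueprint).
-/

set_option autoImplicit false

namespace Pool.Agent.ECK

open Pool.Agent.ECB
open Pool.Agent.H4DM (yw wY length_yw yw_append wt_append wt_cons)

noncomputable section

/-! ### Stuffles with `1^k` -/

theorem st_rep_cons (g : List ℕ+ → F) (k : ℕ) (m : ℕ+) (κ : List ℕ+) :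
    st g (List.replicate k 1) (m :: κ) =
      ∑ i ∈ Finset.range (k + 1),
        st (fun t => g (List.replicate i 1 ++ m :: t)) (List.replicate (k - i) 1) κ +
      ∑ i ∈ Finset.range k,
        st (fun t => g (List.replicate i 1 ++ (1 + m) :: t)) (List.replicate (k - 1 - i) 1) κ := by
  induction k generalizing g with
  | zero => simp
  | succ k ih =>
    rw [List.replicate_succ, st_cons_cons, ih]
    rw [Finset.sum_range_succ' (fun i => st (fun t => g (List.replicate i 1 ++ m :: t))
        (List.replicate (k + 1 - i) 1) κ) (k + 1),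
      Finset.sum_range_succ' (fun i => st (fun t => g (List.replicate i 1 ++ (1 + m) :: t))
        (List.replicate (k + 1 - 1 - i) 1) κ) k]
    have e1 : ∑ i ∈ Finset.range (k + 1),
        st (fun t => (fun t => g (1 :: t)) (List.replicate i 1 ++ m :: t))
          (List.replicate (k - i) 1) κ =
        ∑ i ∈ Finset.range (k + 1), st (fun t => g (List.replicate (i + 1) 1 ++ m :: t))
          (List.replicate (k + 1 - (i + 1)) 1) κ := by
      apply Finset.sum_congr rfl
      intro i hi
      rw [show k + 1 - (i + 1) = k - i by omega]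
      rfl
    have e2 : ∑ i ∈ Finset.range k,
        st (fun t => (fun t => g (1 :: t)) (List.replicate i 1 ++ (1 + m) :: t))
          (List.replicate (k - 1 - i) 1) κ =
        ∑ i ∈ Finset.range k, st (fun t => g (List.replicate (i + 1) 1 ++ (1 + m) :: t))
          (List.replicate (k + 1 - 1 - (i + 1)) 1) κ := by
      apply Finset.sum_congr rfl
      intro i hi
      rw [show k + 1 - 1 - (i + 1) = k - 1 - i by omega]
      rfl
    rw [e1, e2]
    simp only [List.replicate_zero, List.nil_append, Nat.sub_zero, Nat.add_sub_cancel]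
    rw [List.replicate_succ]
    abel

theorem st_zero_of_wt {K : ℕ} {g : Fn} (hg : ∀ l, K ≤ l.length → g l = 0) {u v : List ℕ+}
    (h : K ≤ Pool.Agent.H4DM.wt wY u + Pool.Agent.H4DM.wt wY v) :
    st (fun t => g (yw t)) u v = 0 := by
  have h1 : st (fun t => g (yw t)) u v = st (fun _ => (0 : F)) u v := by
    apply st_congr
    intro t ht
    exact hg _ (by rw [length_yw, wt_of_mem_stf ht]; exact h)
  rw [h1]
  simp [st]

theorem wt_rep_one (j : ℕ) : Pool.Agent.H4DM.wt wY (List.replicate j 1) = j := by
  rw [Pool.Agent.H4DM.wt_replicate]; simp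

/-- `∑ y_1^k * v = Y θ(v)`. -/
theorem linw_Ym_thp {M : ℕ} {g : Fn} (hg : ∀ l, M ≤ l.length → g l = 0) (κ : List ℕ+) :
    linw g (Ym M * thp M (wd (yw κ))) =
      ∑ k ∈ Finset.range M, st (fun t => g (yw t)) (List.replicate k 1) κ := by
  induction κ generalizing g with
  | nil =>
    rw [show yw [] = [] from rfl, wd_nil, map_one, linw_Ym_mul, ← wd_nil, linw_wd, Yq]
    apply Finset.sum_congr rfl
    intro k _
    rw [st_nil_right, yw_ones, List.append_nil]
  | cons m κ ih =>
    have hm := m.pos
    have hthp : thp M (wd (yw (m :: κ))) = wd (List.replicate ((m : ℕ) - 1) 0) *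
        (wd [1] * (Ym M * thp M (wd (yw κ))) + wd [0] * (wd [1] * (Ym M * thp M (wd (yw κ))))) := by
      rw [yw, wd_append, wd_cons 1 (yw κ), map_mul, map_mul]
      have h0 : thp M (wd (List.replicate ((m : ℕ) - 1) 0)) =
          wd (List.replicate ((m : ℕ) - 1) 0) := by
        rw [wd_rep, map_pow]
        have := thp_xa M
        rw [xa] at this
        rw [this]
      have h1 : thp M (wd [1]) = (1 + xa) * (xb * Ym M) := thp_xb M
      rw [h0, h1, xa, xb]
      noncomm_ring
    rw [hthp, linw_Ym_mul, linw_wd_mul, map_add, linw_wd_mul, linw_wd_mul, linw_wd_mul]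
    have e1 : (fun t => Yq M g (List.replicate ((m : ℕ) - 1) 0 ++ ([1] ++ t))) =
        fun t => ∑ i ∈ Finset.range M,
          g (List.replicate i 1 ++ (List.replicate ((m : ℕ) - 1) 0 ++ ([1] ++ t))) := rfl
    have e2 : (fun t => Yq M g (List.replicate ((m : ℕ) - 1) 0 ++ ([0] ++ ([1] ++ t)))) =
        fun t => ∑ i ∈ Finset.range M,
          g (List.replicate i 1 ++ (List.replicate ((m : ℕ) - 1) 0 ++ ([0] ++ ([1] ++ t)))) := rfl
    rw [e1, e2, linw_sum_fun, linw_sum_fun]
    have h1 : ∀ i, linw (fun t => g (List.replicate i 1 ++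
          (List.replicate ((m : ℕ) - 1) 0 ++ ([1] ++ t)))) (Ym M * thp M (wd (yw κ))) =
        ∑ j ∈ Finset.range M, st (fun t => g (yw (List.replicate i 1 ++ m :: t)))
          (List.replicate j 1) κ := by
      intro i
      rw [ih (g := fun t => g (List.replicate i 1 ++
          (List.replicate ((m : ℕ) - 1) 0 ++ ([1] ++ t))))
        (fun l hl => hg _ (by simp only [List.length_append, List.length_replicate]; omega))]
      apply Finset.sum_congr rfl
      intro j _
      congr 1
      funext t
      rw [yw_append, yw_ones, yw]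
      rfl
    have h2 : ∀ i, linw (fun t => g (List.replicate i 1 ++
          (List.replicate ((m : ℕ) - 1) 0 ++ ([0] ++ ([1] ++ t))))) (Ym M * thp M (wd (yw κ))) =
        ∑ j ∈ Finset.range M, st (fun t => g (yw (List.replicate i 1 ++ (1 + m) :: t)))
          (List.replicate j 1) κ := by
      intro i
      rw [ih (g := fun t => g (List.replicate i 1 ++
          (List.replicate ((m : ℕ) - 1) 0 ++ ([0] ++ ([1] ++ t)))))
        (fun l hl => hg _ (by simp only [List.length_append, List.length_replicate]; omega))]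
      apply Finset.sum_congr rfl
      intro j _
      congr 1
      funext t
      rw [yw_append, yw_ones, yw]
      have e3 : ((1 + m : ℕ+) : ℕ) - 1 = ((m : ℕ) - 1) + 1 := by
        rw [PNat.add_coe, PNat.one_coe]; omega
      rw [e3, List.replicate_succ', List.append_assoc]
      rfl
    rw [Finset.sum_congr rfl (fun i _ => h1 i), Finset.sum_congr rfl (fun i _ => h2 i)]
    rw [Finset.sum_congr rfl (fun k _ => st_rep_cons (fun t => g (yw t)) k m κ),
      Finset.sum_add_distrib]
    have hz1 : ∀ i j, M ≤ i + j → st (fun t => g (yw (List.replicate i 1 ++ m :: t)))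
          (List.replicate j 1) κ = 0 := by
      intro i j hij
      have e4 : (fun t => g (yw (List.replicate i 1 ++ m :: t))) =
          fun t => (fun l => g (yw (List.replicate i 1 ++ [m]) ++ l)) (yw t) := by
        funext t
        show _ = g (yw (List.replicate i 1 ++ [m]) ++ yw t)
        rw [← yw_append, List.append_assoc]; rfl
      rw [e4]
      apply st_zero_of_wt (K := M - i - 1)
        (g := fun l => g (yw (List.replicate i 1 ++ [m]) ++ l))
      · intro l hl
        apply hg
        rw [List.length_append, length_yw, wt_append, wt_rep_one, wt_cons]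
        have : 1 ≤ wY m := m.pos
        omega
      · rw [wt_rep_one]; omega
    have hz2 : ∀ i j, M ≤ i + j + 1 → st (fun t => g (yw (List.replicate i 1 ++ (1 + m) :: t)))
          (List.replicate j 1) κ = 0 := by
      intro i j hij
      have e4 : (fun t => g (yw (List.replicate i 1 ++ (1 + m) :: t))) =
          fun t => (fun l => g (yw (List.replicate i 1 ++ [1 + m]) ++ l)) (yw t) := by
        funext t
        show _ = g (yw (List.replicate i 1 ++ [1 + m]) ++ yw t)
        rw [← yw_append, List.append_assoc]; rfl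
      rw [e4]
      apply st_zero_of_wt (K := M - i - 2)
        (g := fun l => g (yw (List.replicate i 1 ++ [1 + m]) ++ l))
      · intro l hl
        apply hg
        rw [List.length_append, length_yw, wt_append, wt_rep_one, wt_cons]
        have : 2 ≤ wY (1 + m) := by
          show 2 ≤ ((1 + m : ℕ+) : ℕ)
          rw [PNat.add_coe, PNat.one_coe]; omega
        omega
      · rw [wt_rep_one]; omega
    rw [← sum_tri M _ hz1, ← sum_tri M _ (fun i j h => hz2 i j (by omega))]
    congr 1
    -- the second sum, with a shift of `k` by one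
    rcases M with _ | M'
    · simp
    · have hz3 : ∑ i ∈ Finset.range (M' + 1),
          st (fun t => g (yw (List.replicate i 1 ++ (1 + m) :: t)))
            (List.replicate (M' - i) 1) κ = 0 :=
        Finset.sum_eq_zero (fun i hi => hz2 i (M' - i) (by rw [Finset.mem_range] at hi; omega))
      conv_lhs => rw [Finset.sum_range_succ, hz3]
      conv_rhs => rw [Finset.sum_range_succ']
      rw [Finset.range_zero, Finset.sum_empty]
      rfl

/-! ### Cyclic functions and rotations -/

theorem linw_cyc {g : Fn} (h : ∀ u v, g (u ++ v) = g (v ++ u)) (p q : A2) :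
    linw g (p * q) = linw g (q * p) := by
  induction p using fa_induction with
  | hw l =>
    induction q using fa_induction with
    | hw m => rw [← wd_append, ← wd_append, linw_wd, linw_wd, h]
    | zero => simp
    | add a b ha hb => rw [mul_add, add_mul, map_add, map_add, ha, hb]
    | smul c a ha => rw [mul_smul_comm, smul_mul_assoc, map_smul, map_smul, ha]
  | zero => simp
  | add a b ha hb => rw [mul_add, add_mul, map_add, map_add, ha, hb]
  | smul c a ha => rw [mul_smul_comm, smul_mul_assoc, map_smul, map_smul, ha]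

theorem cyc_rot {g : Fn} (h : ∀ u v, g (u ++ v) = g (v ++ u)) {l m : List (Fin 2)}
    (hr : l.IsRotated m) : g l = g m := by
  obtain ⟨n, rfl⟩ := hr
  rw [List.rotate_eq_drop_append_take_mod, h, List.take_append_drop]

theorem first_zero {D : List (Fin 2)} (h : 0 ∈ D) :
    ∃ i t, D = List.replicate i 1 ++ 0 :: t := by
  induction D with
  | nil => simp at h
  | cons a D ih =>
    fin_cases a
    · exact ⟨0, D, rfl⟩
    · have h' : 0 ∈ D := by
        rcases List.mem_cons.mp h with h1 | h1
        · exact absurd h1 (by decide)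
        · exact h1
      obtain ⟨i, t, rfl⟩ := ih h'
      exact ⟨i + 1, t, rfl⟩

/-- A word with both letters has a rotation `0 W 1`. -/
theorem rot_mixed {C : List (Fin 2)} (h0 : 0 ∈ C) (h1 : 1 ∈ C) :
    ∃ W, C.IsRotated (0 :: (W ++ [1])) := by
  obtain ⟨s, t, rfl⟩ := List.append_of_mem h1
  have e1 : (s ++ 1 :: t).IsRotated ((t ++ s) ++ [1]) := by
    have h2 : (s ++ 1 :: t) = (s ++ [1]) ++ t := by simp
    have h3 : (t ++ s) ++ [1] = t ++ (s ++ [1]) := by simp
    rw [h2, h3]
    exact List.isRotated_append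
  have h2 : 0 ∈ t ++ s := by
    simp only [List.mem_append, List.mem_cons] at h0 ⊢
    rcases h0 with h | h | h
    · exact Or.inr h
    · exact absurd h (by decide)
    · exact Or.inl h
  obtain ⟨i, r, hr⟩ := first_zero h2
  rw [hr] at e1
  refine ⟨r ++ List.replicate i 1, e1.trans ?_⟩
  have h3 : List.replicate i (1 : Fin 2) ++ 0 :: r ++ [1] =
      List.replicate i 1 ++ (0 :: (r ++ [1])) := by simp
  have h4 : (0 : Fin 2) :: (r ++ List.replicate i 1 ++ [1]) =
      (0 :: (r ++ [1])) ++ List.replicate i 1 := by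
    rw [List.append_assoc, ← List.replicate_succ', List.replicate_succ]
    simp
  rw [h3, h4]
  exact List.isRotated_append

/-! ### The function `G` -/

section main
variable {w : ℕ} {c : Fn}

/-- The defect. -/
def dl (w : ℕ) (c : Fn) (l : ℕ) : F :=
  if l ≤ w then (w.choose (l - 1) : F) * cdep w c else 0

/-- `G(V) = N(α V) + N(V)`. -/
def Gw (w : ℕ) (c : Fn) (V : List (Fin 2)) : F :=
  linw (Nf c) (alf (w + 2) (wd V)) + Nf c V

theorem Nf_long (hc : c ∈ redM w 2) : ∀ l : List (Fin 2), w + 2 ≤ l.length → Nf c l = 0 :=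
  fun l hl => Nf_length hc (by omega)

theorem c_long (hc : c ∈ redM w 2) : ∀ l : List (Fin 2), w + 2 ≤ l.length → c l = 0 :=
  fun l hl => redM_length hc (by omega)

theorem linw_Gw (w : ℕ) (c : Fn) (p : A2) :
    linw (Gw w c) p = linw (Nf c) (alf (w + 2) p) + linw (Nf c) p := by
  have : (linw (Gw w c) : A2 →ₗ[F] F) =
      (linw (Nf c)) ∘ₗ (alf (w + 2)).toLinearMap + linw (Nf c) := by
    apply lin_ext
    intro l
    rw [linw_wd, LinearMap.add_apply, LinearMap.comp_apply, linw_wd]
    rfl
  rw [this]; rfl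

theorem Gw_cyc (hc : c ∈ redM w 2) (hw : 2 ≤ w) (u v : List (Fin 2)) :
    Gw w c (u ++ v) = Gw w c (v ++ u) := by
  rw [Gw, Gw, wd_append, wd_append, map_mul (alf (w + 2)), map_mul (alf (w + 2)),
    linw_cyc (Nf_cyc hc hw), Nf_cyc hc hw]

/-- `c(Y β(p)) = c(p)`. -/
theorem c_Ym_bet (hc : c ∈ redM w 2) (p : A2) :
    linw c (Ym (w + 2) * bet (w + 2) p) = linw c p := by
  have : (linw c) ∘ₗ (LinearMap.mulLeft F (Ym (w + 2))) ∘ₗ (bet (w + 2)).toLinearMap =
      (linw c : A2 →ₗ[F] F) := by
    apply lin_ext
    intro U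
    show linw c (Ym (w + 2) * bet (w + 2) (wd U)) = linw c (wd U)
    rw [linw_Ym_bet (c_long hc), linw_wd, Finset.sum_eq_single 0]
    · simp
    · intro k _ hk
      rcases U with _ | ⟨a, U⟩
      · rw [sh_nil_right]; exact redM_ones hc k
      · apply redM_sh hc
        · obtain ⟨j, rfl⟩ := Nat.exists_eq_succ_of_ne_zero hk
          simp [List.replicate_succ]
        · simp
    · intro h; simp at h
  exact LinearMap.congr_fun this p

theorem c_alf (hc : c ∈ redM w 2) (κ : List ℕ+) :
    linw c (alf (w + 2) (wd (yw κ))) =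
      ∑ k ∈ Finset.range (w + 2), st (fun t => c (yw t)) (List.replicate k 1) κ := by
  rw [← c_Ym_bet hc, ← linw_Ym_thp (c_long hc)]
  exact linw_eqM (c_long hc) (eqM.rfl'.mul (bet_alf _ _))

theorem c_alf_ne (hc : c ∈ redM w 2) {κ : List ℕ+} (h : ∃ x ∈ κ, x ≠ 1) :
    linw c (alf (w + 2) (wd (yw κ))) = c (yw κ) := by
  rw [c_alf hc, Finset.sum_eq_single 0]
  · simp
  · intro k _ hk
    apply redM_st hc
    · obtain ⟨j, rfl⟩ := Nat.exists_eq_succ_of_ne_zero hk
      simp [List.replicate_succ]
    · rintro rfl; obtain ⟨x, hx, _⟩ := h; simp at hx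
    · obtain ⟨x, hx, h1⟩ := h
      exact ⟨x, List.mem_append_right _ hx, h1⟩
  · intro h'; simp at h'

theorem c_alf_ones (hc : c ∈ redM w 2) (hw : 2 ≤ w) {j : ℕ} (hj : 1 ≤ j) :
    linw c (alf (w + 2) (wd (List.replicate j 1))) = c (List.replicate j 1) + dl w c (j + 1) := by
  rw [← yw_ones, c_alf hc, Finset.sum_range_succ', add_comm]
  congr 1
  · simp
  rw [dl]
  have hz : ∀ k, k + 1 + j ≠ w →
      st (fun t => c (yw t)) (List.replicate (k + 1) 1) (List.replicate j 1) = 0 := by
    intro k hk
    have h1 : st (fun t => c (yw t)) (List.replicate (k + 1) 1) (List.replicate j 1) =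
        st (fun _ => (0 : F)) (List.replicate (k + 1) 1) (List.replicate j 1) := by
      apply st_congr
      intro t ht
      apply redM_length hc
      rw [length_yw, wt_of_mem_stf ht, wt_rep_one, wt_rep_one]
      exact hk
    rw [h1]
    simp [st]
  by_cases hjw : j + 1 ≤ w
  · rw [if_pos hjw, Finset.sum_eq_single (w - j - 1)]
    · rw [st_onesAll hc hw _ _ (by omega) hj (by omega)]
      congr 2
      rw [show w - j - 1 + 1 = w - j by omega, Nat.choose_symm (by omega)]
      rfl
    · intro k _ hk
      exact hz k (by omega)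
    · intro h
      exfalso; apply h
      rw [Finset.mem_range]; omega
  · rw [if_neg hjw]
    apply Finset.sum_eq_zero
    intro k _
    exact hz k (by omega)

theorem linw_eps_mul (c : Fn) (q : A2) : linw (Nf c) ((xa + xb) * q) = linw c q := by
  rw [add_mul, map_add, xa, xb, linw_wd_mul, linw_wd_mul, ← linw_fadd]
  congr 2
  funext t
  exact Nf_eps c t

theorem Gw_eps (hc : c ∈ redM w 2) (W : List (Fin 2)) :
    Gw w c (0 :: W) + Gw w c (1 :: W) = linw c (alf (w + 2) (wd W)) + c W := by
  have h1 : Gw w c (0 :: W) + Gw w c (1 :: W) = linw (Gw w c) ((xa + xb) * wd W) := by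
    rw [add_mul, map_add, xa, xb, ← wd_cons, ← wd_cons, linw_wd, linw_wd]
  have h2 : linw (Nf c) (alf (w + 2) ((xa + xb) * wd W)) =
      linw (Nf c) ((xa + xb) * alf (w + 2) (wd W)) := by
    rw [map_mul (alf (w + 2))]
    exact linw_eqM (Nf_long hc) ((alf_eps _).mul eqM.rfl')
  rw [h1, linw_Gw, linw_eps_mul, linw_wd, h2, linw_eps_mul]

theorem Gw_ne (hc : c ∈ redM w 2) {W : List (Fin 2)} (h : 0 ∈ W ++ [1]) :
    Gw w c (0 :: (W ++ [1])) = Gw w c (1 :: (W ++ [1])) := by
  obtain ⟨κ, hκ⟩ := exists_ywF W
  have h1 : ∃ x ∈ κ, x ≠ 1 := by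
    by_contra hne
    push Not at hne
    have h2 : κ = List.replicate κ.length 1 := List.eq_replicate_iff.mpr ⟨rfl, hne⟩
    rw [← hκ, h2, yw_ones] at h
    have := List.eq_of_mem_replicate h
    exact absurd this (by decide)
  have h2 := Gw_eps hc (W ++ [1])
  rw [← hκ, c_alf_ne hc h1, F_add_self, hκ] at h2
  have h3 : Gw w c (0 :: (W ++ [1])) = Gw w c (0 :: (W ++ [1])) +
      (Gw w c (1 :: (W ++ [1])) + Gw w c (1 :: (W ++ [1]))) := by rw [F_add_self, add_zero]
  rw [h3, ← add_assoc, h2, zero_add]

theorem Gw_ones (hc : c ∈ redM w 2) (hw : 2 ≤ w) {j : ℕ} (hj : 1 ≤ j) :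
    Gw w c (0 :: List.replicate j 1) = Gw w c (List.replicate (j + 1) 1) + dl w c (j + 1) := by
  have h2 := Gw_eps hc (List.replicate j 1)
  rw [c_alf_ones hc hw hj] at h2
  have h4 : c (List.replicate j 1) + dl w c (j + 1) + c (List.replicate j 1) =
      dl w c (j + 1) := by
    rw [add_comm (c (List.replicate j 1)), add_assoc, F_add_self, add_zero]
  rw [h4] at h2
  rw [List.replicate_succ, ← h2]
  rw [add_comm (Gw w c (0 :: List.replicate j 1)), ← add_assoc, F_add_self, zero_add]

/-- `G` is constant on the words with both letters. -/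
theorem Gw_mixed (hc : c ∈ redM w 2) (hw : 2 ≤ w) (n : ℕ) (C : List (Fin 2))
    (hn : C.count 0 = n) (h0 : 0 ∈ C) (h1 : 1 ∈ C) :
    Gw w c C = Gw w c (List.replicate C.length 1) + dl w c C.length := by
  induction n generalizing C with
  | zero => exact absurd h0 (List.count_eq_zero.mp hn)
  | succ n ih =>
    obtain ⟨W, hW⟩ := rot_mixed h0 h1
    rw [cyc_rot (Gw_cyc hc hw) hW]
    have hlen : C.length = (W ++ [1]).length + 1 := by
      rw [hW.perm.length_eq]; rfl
    have hcnt : C.count 0 = (W ++ [1]).count 0 + 1 := by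
      rw [hW.perm.count_eq]; simp
    by_cases h : 0 ∈ W ++ [1]
    · have hcnt2 : (1 :: (W ++ [1])).count 0 = (W ++ [1]).count (0 : Fin 2) :=
        List.count_cons_of_ne (by decide)
      rw [Gw_ne hc h, ih (1 :: (W ++ [1])) (by omega) (List.mem_cons_of_mem _ h) (by simp)]
      rw [List.length_cons, hlen]
    · have h2 : W ++ [1] = List.replicate (W ++ [1]).length 1 := by
        apply List.eq_replicate_iff.mpr
        refine ⟨rfl, ?_⟩
        intro b hb
        fin_cases b
        · exact absurd hb h
        · rfl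
      rw [h2, Gw_ones hc hw (by simp), hlen]

theorem Nf_bet (hc : c ∈ redM w 2) {U : List (Fin 2)} (hU : 2 ≤ U.length) :
    linw (Nf c) (bet (w + 2) (wd U)) = Nf c U := by
  rcases U with _ | ⟨x, W⟩
  · simp at hU
  · have hW : W ≠ [] := by rintro rfl; simp at hU
    have hx : bet (w + 2) (wd [x]) = wd [x] * Ym (w + 2) := by
      fin_cases x
      · exact bet_xa _
      · exact bet_xb _
    rw [wd_cons, map_mul (bet (w + 2)), hx, mul_assoc, linw_wd_mul]
    rw [linw_Ym_bet (M := w + 2) (g := fun t => Nf c ([x] ++ t))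
      (fun l hl => Nf_long hc _ (by simp; omega)), Finset.sum_eq_single 0]
    · simp
    · intro k _ hk
      apply Nf_sh hc x _ _ _ hW
      obtain ⟨j, rfl⟩ := Nat.exists_eq_succ_of_ne_zero hk
      simp [List.replicate_succ]
    · intro h; simp at h

theorem Gw_zeros (hc : c ∈ redM w 2) {l : ℕ} (hl : 2 ≤ l) :
    Gw w c (List.replicate l 0) = 0 := by
  have h1 : alf (w + 2) (wd (List.replicate l 0)) = bet (w + 2) (wd (List.replicate l 0)) := by
    rw [wd_rep, map_pow, map_pow]
    have h2 : alf (w + 2) (wd [0]) = bet (w + 2) (wd [0]) := (alf_xa _).trans (bet_xa _).symm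
    rw [h2]
  rw [Gw, h1, Nf_bet hc (by simpa using hl), F_add_self]

/-! ### The sum over all words of length `l` -/

theorem cf_eps_pow (l : ℕ) (V : List (Fin 2)) :
    cf ((xa + xb : A2) ^ l) V = if V.length = l then 1 else 0 := by
  induction l generalizing V with
  | zero =>
    rw [pow_zero, cf_one]
    by_cases h : V = []
    · subst h; simp
    · rw [if_neg h, if_neg (fun h' => h (List.length_eq_zero_iff.mp h'))]
  | succ l ih =>
    rw [pow_succ', add_mul, cf_add, xa, xb]
    rcases V with _ | ⟨b, V⟩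
    · rw [cf_letter_mul_nil, cf_letter_mul_nil]; simp
    · rw [cf_letter_mul_cons, cf_letter_mul_cons, ← xa, ← xb, ih]
      fin_cases b <;> simp

theorem linw_const_eps (κ : F) (l : ℕ) (hl : 1 ≤ l) :
    linw (fun _ => κ) ((xa + xb : A2) ^ l) = 0 := by
  obtain ⟨m, rfl⟩ : ∃ m, l = m + 1 := ⟨l - 1, by omega⟩
  rw [pow_succ', add_mul, map_add, xa, xb, linw_wd_mul, linw_wd_mul]
  exact F_add_self _

theorem linw_single (κ : F) (V : List (Fin 2)) (p : A2) :
    linw (fun U => if U = V then κ else 0) p = cf p V * κ := by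
  have : (linw (fun U => if U = V then κ else 0) : A2 →ₗ[F] F) = κ • cfL V := by
    apply lin_ext
    intro l
    rw [linw_wd, LinearMap.smul_apply, cfL_apply, cf_wd, smul_eq_mul]
    split_ifs <;> simp
  rw [this, LinearMap.smul_apply, cfL_apply, smul_eq_mul, mul_comm]

theorem eqM_pow {M : ℕ} {p q : A2} (h : eqM M p q) (l : ℕ) : eqM M (p ^ l) (q ^ l) := by
  induction l with
  | zero => rw [pow_zero, pow_zero]; exact eqM.rfl'
  | succ l ih => rw [pow_succ, pow_succ]; exact ih.mul h

theorem Gw_all_ones (hc : c ∈ redM w 2) (hw : 2 ≤ w) {l : ℕ} (hl : 2 ≤ l) :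
    Gw w c (List.replicate l 1) = 0 := by
  have h1 : linw (Gw w c) ((xa + xb : A2) ^ l) = 0 := by
    rw [linw_Gw, map_pow, linw_eqM (Nf_long hc) (eqM_pow (alf_eps (w + 2)) l), F_add_self]
  set κ : F := Gw w c (List.replicate l 1) + dl w c l with hκ
  have h2 : linw (Gw w c) ((xa + xb : A2) ^ l) =
      linw (fun V => κ + ((if V = List.replicate l 0 then κ else 0) +
        (if V = List.replicate l 1 then dl w c l else 0))) ((xa + xb : A2) ^ l) := by
    apply linw_congr
    intro V hV
    have hVl : V.length = l := by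
      by_contra hne
      rw [cf_eps_pow, if_neg hne] at hV
      exact hV rfl
    have h01 : (List.replicate l (0 : Fin 2)) ≠ List.replicate l 1 := by
      intro h
      have h3 : (0 : Fin 2) ∈ List.replicate l (1 : Fin 2) := by
        rw [← h, List.mem_replicate]; exact ⟨by omega, rfl⟩
      exact absurd (List.eq_of_mem_replicate h3) (by decide)
    by_cases hV0 : V = List.replicate l 0
    · rw [if_pos hV0, hV0, if_neg h01, Gw_zeros hc hl, add_zero, F_add_self]
    · rw [if_neg hV0, zero_add]
      by_cases hV1 : V = List.replicate l 1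
      · rw [if_pos hV1, hV1, hκ, add_assoc, F_add_self, add_zero]
      · rw [if_neg hV1, add_zero]
        have m0 : 0 ∈ V := by
          by_contra hne
          apply hV1
          apply List.eq_replicate_iff.mpr
          refine ⟨hVl, ?_⟩
          intro b hb
          fin_cases b
          · exact absurd hb hne
          · rfl
        have m1 : 1 ∈ V := by
          by_contra hne
          apply hV0
          apply List.eq_replicate_iff.mpr
          refine ⟨hVl, ?_⟩
          intro b hb
          fin_cases b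
          · rfl
          · exact absurd hb hne
        rw [Gw_mixed hc hw _ V rfl m0 m1, hVl, hκ]
  rw [h1, linw_fadd (fun _ => κ), linw_const_eps _ _ (by omega), zero_add,
    linw_fadd, linw_single, linw_single, cf_eps_pow, cf_eps_pow, if_pos (by simp),
    if_pos (by simp), one_mul, one_mul, hκ, add_assoc, F_add_self, add_zero] at h2
  exact h2.symm

/-- The relation `N(θ C) = N(C) + δ`. -/
theorem Etheta (hc : c ∈ redM w 2) (hw : 2 ≤ w) (C : List (Fin 2)) (h0 : 0 ∈ C) (h1 : 1 ∈ C) :
    th (w + 2) C (Nf c) =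
      Nf c C + (if C.length ≤ w then (w.choose (C.length - 1) : F) * cdep w c else 0) := by
  have hl : 2 ≤ C.length := by
    rcases C with _ | ⟨a, _ | ⟨b, C⟩⟩
    · simp at h0
    · simp at h0 h1
      rw [← h0] at h1
      exact absurd h1 (by decide)
    · simp
  rw [th_eq, ← linw_eqM (Nf_long hc) (bet_alf (w + 2) (wd C))]
  have h2 : linw (Nf c) (bet (w + 2) (alf (w + 2) (wd C))) =
      linw (Nf c) (alf (w + 2) (wd C)) := by
    have h3 : ∀ p, linw (Nf c) (bet (w + 2) p) =
        linw (fun U => linw (Nf c) (bet (w + 2) (wd U))) p := by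
      intro p
      have : (linw (Nf c)) ∘ₗ (bet (w + 2)).toLinearMap =
          (linw (fun U => linw (Nf c) (bet (w + 2) (wd U))) : A2 →ₗ[F] F) := by
        apply lin_ext
        intro l
        rw [linw_wd]; rfl
      exact LinearMap.congr_fun this p
    rw [h3]
    apply linw_congr
    intro U hU
    apply Nf_bet hc
    by_contra hlt
    apply hU
    exact ordG_alf _ C U (by omega)
  rw [h2]
  have h4 : linw (Nf c) (alf (w + 2) (wd C)) = Gw w c C + Nf c C := by
    rw [Gw, add_assoc, F_add_self, add_zero]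
  rw [h4, Gw_mixed hc hw _ C rfl h0 h1, Gw_all_ones hc hw hl, zero_add, add_comm]
  rfl

end main

/-! ### `th` and `bt` on the words `cy v` -/

theorem th_add (M : ℕ) (V : List (Fin 2)) (g h : Fn) :
    th M V (fun t => g t + h t) = th M V g + th M V h := by
  rw [th_eq, th_eq, th_eq, linw_fadd]

theorem th_zeros (M j : ℕ) (V : List (Fin 2)) (g : Fn) :
    th M (List.replicate j 0 ++ V) g = th M V (fun t => g (List.replicate j 0 ++ t)) := by
  induction j generalizing g with
  | zero => rfl
  | succ j ih =>
    rw [List.replicate_succ, List.cons_append]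
    show th M (List.replicate j 0 ++ V) (dq 0 g) = _
    rw [ih]; rfl

theorem bt_zeros (M j : ℕ) (V : List (Fin 2)) (g : Fn) :
    bt M (List.replicate j 0 ++ V) g = bt M V (fun t => g (List.replicate j 0 ++ t)) := by
  induction j generalizing g with
  | zero => rfl
  | succ j ih =>
    rw [List.replicate_succ, List.cons_append]
    show bt M (List.replicate j 0 ++ V) (dq 0 g) = _
    rw [ih]; rfl

theorem th_one (M : ℕ) (V : List (Fin 2)) (g : Fn) :
    th M (1 :: V) g = th M V (Yq M (dq 1 g)) + th M V (Yq M (dq 1 (dq 0 g))) := by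
  rw [← th_add]
  show th M V (Yq M (dq 1 (fun t => g t + g (0 :: t)))) = _
  congr 1
  funext t
  simp only [Yq, dq]
  rw [← Finset.sum_add_distrib]

theorem bt_one (M : ℕ) (V : List (Fin 2)) (g : Fn) :
    bt M (1 :: V) g = bt M V (Yq M (dq 1 g)) := rfl

theorem th_cy_append (M : ℕ) (X : List (Fin 2)) (Q : Fn → F) (hQ : ∀ g, th M X g = Q g)
    (v : List ℕ) (g : Fn) (B : List ℕ → Fn → F) (hB0 : ∀ g, B [] g = Q g)
    (hB : ∀ k u g, B (k :: u) g =
      B u (Yq M (dq 1 (fun t => g (List.replicate (k + 1) 0 ++ t))))) :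
    th M (cy v ++ X) g = sumS v (fun u => B u g) := by
  induction v generalizing g with
  | nil =>
    show th M X g = B [] g
    rw [hQ, hB0]
  | cons k v ih =>
    show th M ((List.replicate (k + 1) 0 ++ 1 :: cy v) ++ X) g = _
    rw [List.append_assoc, th_zeros, List.cons_append, th_one, ih, ih, sumS]
    simp only [hB]
    congr 2
    funext u
    congr 2
    funext t
    simp only [dq]
    congr 1
    rw [List.replicate_succ' (n := k + 1), List.append_assoc]
    rfl

theorem th_cy (M : ℕ) (v : List ℕ) (g : Fn) :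
    th M (cy v) g = sumS v (fun u => bt M (cy u) g) := by
  have h := th_cy_append M [] (fun g => g []) (fun _ => rfl) v g (fun u g => bt M (cy u) g)
    (fun _ => rfl) (fun k u g => by
      show bt M (List.replicate (k + 1) 0 ++ 1 :: cy u) g = _
      rw [bt_zeros, bt_one])
  rwa [List.append_nil] at h

theorem th_cy1 (M : ℕ) (v : List ℕ) (g : Fn) : th M (cy v ++ [1]) g =
    sumS v (fun u => bt M (cy u ++ [1]) g + bt M (cy u ++ [0, 1]) g) := by
  refine th_cy_append M [1] (fun g => bt M [1] g + bt M [0, 1] g) ?_ v g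
    (fun u g => bt M (cy u ++ [1]) g + bt M (cy u ++ [0, 1]) g) (fun _ => rfl) ?_
  · intro g
    rw [th_one]; rfl
  · intro k u g
    show bt M ((List.replicate (k + 1) 0 ++ 1 :: cy u) ++ [1]) g +
      bt M ((List.replicate (k + 1) 0 ++ 1 :: cy u) ++ [0, 1]) g = _
    rw [List.append_assoc, List.append_assoc, bt_zeros, bt_zeros, List.cons_append,
      List.cons_append, bt_one, bt_one]

end

end Pool.Agent.ECK
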