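import Pool.Agent.ECK.Defs

/-!
# Substitutions in the free algebra, modulo long words

Preparations for the relation `N(θ C) = N(C) + δ` (section 2 of the blueprint): the truncated
geometric series `Y = ∑ b^k`, the substitutions `θ : b ↦ (1 + a)bY`, `α : a ↦ aY, b ↦ b + abY` and
`β : a ↦ aY, b ↦ bY`, and the relations with shuffles with powers of `b`.
-/

set_option autoImplicit false

namespace Pool.Agent.ECK

open Pool.Agent.ECB (sh sh_cons_cons sh_nil_left sh_nil_right)

noncomputable section

theorem linw_apply {M : Type*} [AddCommGroup M] [Module F M] (f : List (Fin 2) → M) (p : A2) :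
    linw f p = p.coeff.sum fun w a => a • f (FreeMonoid.toList w) := by
  rw [linw, Module.Basis.constr_apply]
  congr 1

theorem linw_eq_zero {f : Fn} {p : A2} (h : ∀ l, cf p l = 0 ∨ f l = 0) : linw f p = 0 := by
  rw [linw_apply]
  apply Finset.sum_eq_zero
  intro w _
  show (p.coeff w) • f (FreeMonoid.toList w) = 0
  rcases h (FreeMonoid.toList w) with h1 | h1
  · have : p.coeff w = 0 := h1
    rw [this, zero_smul]
  · rw [h1, smul_zero]

theorem linw_fadd (f g : Fn) (p : A2) :
    linw (fun l => f l + g l) p = linw f p + linw g p := by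
  have : linw (fun l => f l + g l) = (linw f + linw g : A2 →ₗ[F] F) := by
    apply lin_ext; intro l; simp
  rw [this]; rfl

theorem linw_wd_mul (g : Fn) (l : List (Fin 2)) (p : A2) :
    linw g (wd l * p) = linw (fun t => g (l ++ t)) p := by
  have : (linw g) ∘ₗ (LinearMap.mulLeft F (wd l : A2)) =
      (linw (fun t => g (l ++ t)) : A2 →ₗ[F] F) := by
    apply lin_ext; intro m
    simp only [LinearMap.comp_apply, LinearMap.mulLeft_apply]
    rw [← wd_append, linw_wd, linw_wd]
  exact LinearMap.congr_fun this p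

theorem linw_sum_fun {ι : Type*} (s : Finset ι) (g : ι → Fn) (p : A2) :
    linw (fun t => ∑ i ∈ s, g i t) p = ∑ i ∈ s, linw (g i) p := by
  have : linw (fun t => ∑ i ∈ s, g i t) = (∑ i ∈ s, linw (g i) : A2 →ₗ[F] F) := by
    apply lin_ext; intro l; simp
  rw [this, LinearMap.sum_apply]

/-- Two functionals agree on `p` if they agree on the words of `p`. -/
theorem linw_congr {f g : Fn} {p : A2} (h : ∀ l, cf p l ≠ 0 → f l = g l) :
    linw f p = linw g p := by
  have h1 : linw f p + linw g p = 0 := by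
    rw [← linw_fadd]
    apply linw_eq_zero
    intro l
    by_cases hl : cf p l = 0
    · left; exact hl
    · right; rw [h l hl, F_add_self]
  have h2 : linw f p = linw f p + (linw g p + linw g p) := by rw [F_add_self, add_zero]
  rw [h2, ← add_assoc, h1, zero_add]

/-! ### Equality modulo long words -/

/-- The coefficients of the words of length `< M` are equal. -/
def eqM (M : ℕ) (p q : A2) : Prop := ∀ l : List (Fin 2), l.length < M → cf p l = cf q l

theorem eqM.rfl' {M : ℕ} {p : A2} : eqM M p p := fun _ _ => rfl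
theorem eqM.of_eq {M : ℕ} {p q : A2} (h : p = q) : eqM M p q := by subst h; exact eqM.rfl'
theorem eqM.symm' {M : ℕ} {p q : A2} (h : eqM M p q) : eqM M q p := fun l hl => (h l hl).symm
theorem eqM.trans' {M : ℕ} {p q r : A2} (h : eqM M p q) (h' : eqM M q r) : eqM M p r :=
  fun l hl => (h l hl).trans (h' l hl)
theorem eqM.add {M : ℕ} {p q p' q' : A2} (h : eqM M p q) (h' : eqM M p' q') :
    eqM M (p + p') (q + q') := by
  intro l hl; rw [cf_add, cf_add, h l hl, h' l hl]
theorem eqM.mul {M : ℕ} {p q p' q' : A2} (h : eqM M p q) (h' : eqM M p' q') :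
    eqM M (p * p') (q * q') := by
  intro l hl
  rw [cf_mul, cf_mul]
  apply Finset.sum_congr rfl
  intro i _
  rw [h _ (lt_of_le_of_lt (by rw [List.length_take]; exact min_le_right _ _) hl),
    h' _ (lt_of_le_of_lt (by rw [List.length_drop]; omega) hl)]

theorem linw_eqM {M : ℕ} {g : Fn} (hg : ∀ l, M ≤ l.length → g l = 0) {p q : A2}
    (h : eqM M p q) : linw g p = linw g q := by
  have h1 : linw g (p + q) = 0 := by
    apply linw_eq_zero
    intro l
    by_cases hl : l.length < M
    · left; rw [cf_add, h l hl, F_add_self]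
    · right; exact hg l (by omega)
  rw [map_add] at h1
  have h2 : linw g p = linw g p + (linw g q + linw g q) := by rw [F_add_self, add_zero]
  rw [h2, ← add_assoc, h1, zero_add]

/-- Two algebra maps that agree modulo long words on the letters agree modulo long words. -/
theorem eqM_lf {M : ℕ} (f g : A2 →ₐ[F] A2) (h : ∀ a, eqM M (f (wd [a])) (g (wd [a]))) (p : A2) :
    eqM M (f p) (g p) := by
  induction p using fa_induction with
  | hw l =>
    induction l with
    | nil => rw [wd_nil, map_one, map_one]; exact eqM.rfl'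
    | cons a l ih => rw [wd_cons, map_mul, map_mul]; exact (h a).mul ih
  | zero => rw [map_zero, map_zero]; exact eqM.rfl'
  | add a b ha hb => rw [map_add, map_add]; exact ha.add hb
  | smul c a ha =>
    rw [map_smul, map_smul]
    intro l hl; rw [cf_smul, cf_smul, ha l hl]

/-- All words of `p` have length at least `k`. -/
def ordG (k : ℕ) (p : A2) : Prop := ∀ l : List (Fin 2), l.length < k → cf p l = 0

theorem ordG_zero (p : A2) : ordG 0 p := fun _ hl => absurd hl (Nat.not_lt_zero _)

theorem ordG_mul {j k : ℕ} {p q : A2} (hp : ordG j p) (hq : ordG k q) : ordG (j + k) (p * q) := by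
  intro l hl
  rw [cf_mul]
  apply Finset.sum_eq_zero
  intro i hi
  rw [Finset.mem_range] at hi
  by_cases h : i < j
  · rw [hp _ (by rw [List.length_take]; omega), zero_mul]
  · rw [hq _ (by rw [List.length_drop]; omega), mul_zero]

theorem ordG_add {k : ℕ} {p q : A2} (hp : ordG k p) (hq : ordG k q) : ordG k (p + q) := by
  intro l hl; rw [cf_add, hp l hl, hq l hl, add_zero]

theorem ordG_wd (l : List (Fin 2)) : ordG l.length (wd l) := by
  intro m hm
  rw [cf_wd, if_neg]
  intro h; subst h; omega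

theorem ordG_mono {j k : ℕ} (hjk : j ≤ k) {p : A2} (hp : ordG k p) : ordG j p :=
  fun l hl => hp l (lt_of_lt_of_le hl hjk)

theorem ordG_sum {ι : Type*} (s : Finset ι) (k : ℕ) (f : ι → A2) (h : ∀ i ∈ s, ordG k (f i)) :
    ordG k (∑ i ∈ s, f i) := by
  intro l hl
  rw [cf_sum]
  exact Finset.sum_eq_zero (fun i hi => h i hi l hl)

theorem eqM_zero {M : ℕ} {p : A2} (h : ordG M p) : eqM M p 0 := by
  intro l hl; rw [h l hl, cf_zero]

theorem ordG_pow {p : A2} (h : ordG 1 p) (k : ℕ) : ordG k (p ^ k) := by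
  induction k with
  | zero => exact ordG_zero _
  | succ k ih =>
    rw [pow_succ]
    exact ordG_mul ih h

/-! ### The truncated geometric series -/

/-- `∑_{k < M} b^k`. -/
def Ym (M : ℕ) : A2 := ∑ k ∈ Finset.range M, xb ^ k

theorem wd_rep (a : Fin 2) (k : ℕ) : (wd (List.replicate k a) : A2) = wd [a] ^ k := by
  induction k with
  | zero => rw [pow_zero]; rfl
  | succ k ih => rw [List.replicate_succ, wd_cons, ih, pow_succ']

theorem xb_pow (k : ℕ) : xb ^ k = wd (List.replicate k 1) := (wd_rep 1 k).symm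

/-- `(1 + z) ∑_{k < M} z^k = 1 + z^M` in characteristic two. -/
theorem geo (z : A2) (M : ℕ) : (1 + z) * ∑ k ∈ Finset.range M, z ^ k = 1 + z ^ M := by
  induction M with
  | zero => rw [Finset.range_zero, Finset.sum_empty, mul_zero, pow_zero, add_self]
  | succ M ih =>
    rw [Finset.sum_range_succ, mul_add, ih, add_mul, one_mul, ← pow_succ']
    rw [show 1 + z ^ M + (z ^ M + z ^ (M + 1)) = 1 + (z ^ M + z ^ M) + z ^ (M + 1) by abel,
      add_self, add_zero]

theorem commute_Ym (M : ℕ) : xb * Ym M = Ym M * xb := by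
  rw [Ym, Finset.mul_sum, Finset.sum_mul]
  apply Finset.sum_congr rfl
  intro k _
  rw [← pow_succ', ← pow_succ]

theorem ordG_xb : ordG 1 xb := ordG_wd [1]
theorem ordG_xa : ordG 1 xa := ordG_wd [0]

theorem geo_eqM {M : ℕ} {z : A2} (hz : ordG 1 z) :
    eqM M ((1 + z) * ∑ k ∈ Finset.range M, z ^ k) 1 := by
  rw [geo]
  have := (eqM.rfl' (M := M) (p := (1 : A2))).add (eqM_zero (ordG_pow hz M))
  rwa [add_zero] at this

theorem one_add_mul_Ym (M : ℕ) : eqM M ((1 + xb) * Ym M) 1 := geo_eqM ordG_xb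

/-- `Y(bY)^* = 1` modulo long words. -/
theorem Ym_geo (M : ℕ) : eqM M (Ym M * ∑ k ∈ Finset.range M, (xb * Ym M) ^ k) 1 := by
  have h1 : ordG 1 (xb * Ym M) := ordG_mul ordG_xb (ordG_zero _)
  have h2 := geo_eqM (M := M) h1
  refine eqM.trans' (eqM.mul ?_ eqM.rfl') h2
  -- `Y ≈ 1 + bY`
  have h3 : (1 + xb) * Ym M + xb * Ym M = Ym M := by
    rw [add_mul, one_mul, add_assoc, add_self, add_zero]
  have h4 := (one_add_mul_Ym M).add (eqM.rfl' (M := M) (p := xb * Ym M))
  rw [h3] at h4
  exact h4

/-! ### The substitutions -/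

/-- `θ : a ↦ a, b ↦ (1 + a) b Y`. -/
def thp (M : ℕ) : A2 →ₐ[F] A2 := lf ![xa, (1 + xa) * (xb * Ym M)]
/-- `α : a ↦ aY, b ↦ b + abY`. -/
def alf (M : ℕ) : A2 →ₐ[F] A2 := lf ![xa * Ym M, xb + xa * (xb * Ym M)]
/-- `β : a ↦ aY, b ↦ bY`. -/
def bet (M : ℕ) : A2 →ₐ[F] A2 := lf ![xa * Ym M, xb * Ym M]

@[simp] theorem thp_xa (M : ℕ) : thp M xa = xa := by rw [thp, xa, lf_letter]; rfl
@[simp] theorem thp_xb (M : ℕ) : thp M xb = (1 + xa) * (xb * Ym M) := by
  show thp M (wd [1]) = _
  rw [thp, lf_letter]; rfl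
@[simp] theorem alf_xa (M : ℕ) : alf M xa = xa * Ym M := by
  show alf M (wd [0]) = _
  rw [alf, lf_letter]; rfl
@[simp] theorem alf_xb (M : ℕ) : alf M xb = xb + xa * (xb * Ym M) := by
  show alf M (wd [1]) = _
  rw [alf, lf_letter]; rfl
@[simp] theorem bet_xa (M : ℕ) : bet M xa = xa * Ym M := by
  show bet M (wd [0]) = _
  rw [bet, lf_letter]; rfl
@[simp] theorem bet_xb (M : ℕ) : bet M xb = xb * Ym M := by
  show bet M (wd [1]) = _
  rw [bet, lf_letter]; rfl

theorem bet_Ym (M : ℕ) : bet M (Ym M) = ∑ k ∈ Finset.range M, (xb * Ym M) ^ k := by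
  rw [Ym, map_sum]
  apply Finset.sum_congr rfl
  intro k _
  rw [map_pow, bet_xb, Ym]

/-- `β ∘ α = θ` modulo long words. -/
theorem bet_alf (M : ℕ) (p : A2) : eqM M (bet M (alf M p)) (thp M p) := by
  refine eqM_lf ((bet M).comp (alf M)) (thp M) ?_ p
  intro a
  rw [AlgHom.comp_apply]
  fin_cases a
  · show eqM M (bet M (alf M xa)) (thp M xa)
    rw [alf_xa, thp_xa, map_mul, bet_xa, bet_Ym, mul_assoc]
    have := (eqM.rfl' (M := M) (p := xa)).mul (Ym_geo M)
    rwa [mul_one] at this
  · show eqM M (bet M (alf M xb)) (thp M xb)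
    rw [alf_xb, thp_xb, map_add, map_mul, map_mul, bet_xa, bet_xb, bet_Ym, add_mul, one_mul]
    refine (eqM.rfl').add ?_
    -- `aY b Y Z ≈ a Y b = a b Y`
    have h1 := ((eqM.rfl' (M := M) (p := xa * (Ym M * xb))).mul (Ym_geo M))
    rw [mul_one, ← commute_Ym] at h1
    have e : xa * Ym M * (xb * Ym M * ∑ k ∈ Finset.range M, (xb * Ym M) ^ k) =
        xa * (Ym M * xb) * (Ym M * ∑ k ∈ Finset.range M, (xb * Ym M) ^ k) := by
      noncomm_ring
    rw [e]
    rw [← commute_Ym]
    exact h1

/-- `α(a + b) = a + b` modulo long words. -/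
theorem alf_eps (M : ℕ) : eqM M (alf M (xa + xb)) (xa + xb) := by
  rw [map_add, alf_xa, alf_xb]
  have e : xa * Ym M + (xb + xa * (xb * Ym M)) = xa * ((1 + xb) * Ym M) + xb := by
    noncomm_ring
  rw [e]
  refine eqM.add ?_ eqM.rfl'
  have := (eqM.rfl' (M := M) (p := xa)).mul (one_add_mul_Ym M)
  rwa [mul_one] at this

/-- The words of `α(C)` have at least the length of `C`. -/
theorem ordG_alf (M : ℕ) (C : List (Fin 2)) : ordG C.length (alf M (wd C)) := by
  induction C with
  | nil => exact ordG_zero _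
  | cons a C ih =>
    rw [wd_cons, map_mul, List.length_cons, add_comm]
    refine ordG_mul ?_ ih
    fin_cases a
    · show ordG 1 (alf M xa)
      rw [alf_xa]; exact ordG_mul ordG_xa (ordG_zero _)
    · show ordG 1 (alf M xb)
      rw [alf_xb]
      exact ordG_add ordG_xb (ordG_mul ordG_xa (ordG_zero _))

/-! ### `th` and `bt` -/

theorem linw_Ym_mul (M : ℕ) (g : Fn) (p : A2) :
    linw g (Ym M * p) = linw (Yq M g) p := by
  rw [Ym, Finset.sum_mul, map_sum]
  have : (Yq M g) = fun t => ∑ k ∈ Finset.range M, g (List.replicate k 1 ++ t) := rfl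
  rw [this, linw_sum_fun]
  apply Finset.sum_congr rfl
  intro k _
  rw [xb_pow, linw_wd_mul]

theorem th_eq (M : ℕ) (V : List (Fin 2)) (g : Fn) : th M V g = linw g (thp M (wd V)) := by
  induction V generalizing g with
  | nil => rw [wd_nil, map_one, ← wd_nil, linw_wd]; rfl
  | cons a V ih =>
    rw [wd_cons, map_mul]
    fin_cases a
    · show th M V (dq 0 g) = linw g (thp M xa * thp M (wd V))
      rw [thp_xa, ih, xa, linw_wd_mul]; rfl
    · show th M V (Yq M (dq 1 (fun t => g t + g (0 :: t)))) = linw g (thp M xb * thp M (wd V))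
      rw [thp_xb, ih, add_mul, one_mul, add_mul, map_add]
      rw [show xa * (xb * Ym M) * thp M (wd V) = wd [0] * (wd [1] * (Ym M * thp M (wd V))) by
        rw [xa, xb]; noncomm_ring]
      rw [show xb * Ym M * thp M (wd V) = wd [1] * (Ym M * thp M (wd V)) by
        rw [xb]; noncomm_ring]
      rw [linw_wd_mul, linw_wd_mul, linw_wd_mul, ← linw_fadd, linw_Ym_mul]
      rfl

/-! ### Shuffles with powers of `b` -/

theorem sh_rep_cons (g : Fn) (k : ℕ) (x : Fin 2) (W : List (Fin 2)) :
    sh g (List.replicate k 1) (x :: W) = ∑ i ∈ Finset.range (k + 1),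
      sh (fun t => g (List.replicate i 1 ++ x :: t)) (List.replicate (k - i) 1) W := by
  induction k generalizing g with
  | zero => simp
  | succ k ih =>
    rw [List.replicate_succ, sh_cons_cons, ih, Finset.sum_range_succ' _ (k + 1)]
    congr 1
    apply Finset.sum_congr rfl
    intro i hi
    rw [show k + 1 - (i + 1) = k - i by omega]
    rfl

theorem sh_zero_of_length {M : ℕ} {g : Fn} (hg : ∀ l, M ≤ l.length → g l = 0)
    {u v : List (Fin 2)} (h : M ≤ u.length + v.length) : sh g u v = 0 := by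
  have h1 : sh g u v = sh (fun _ => (0 : F)) u v := by
    apply Pool.Agent.ECB.sh_congr
    intro t ht
    exact hg t (by rw [Pool.Agent.ECB.length_of_mem_shf ht]; exact h)
  rw [h1]
  simp [sh]

/-- Rearrangement of a double sum. -/
theorem sum_tri (M : ℕ) (f : ℕ → ℕ → F) (hf : ∀ i j, M ≤ i + j → f i j = 0) :
    ∑ k ∈ Finset.range M, ∑ i ∈ Finset.range (k + 1), f i (k - i) =
      ∑ i ∈ Finset.range M, ∑ j ∈ Finset.range M, f i j := by
  rw [Finset.sum_sigma', Finset.sum_sigma']
  symm
  have h1 : ∑ x ∈ (Finset.range M).sigma (fun _ => Finset.range M), f x.1 x.2 =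
      ∑ x ∈ ((Finset.range M).sigma (fun _ => Finset.range M)).filter
        (fun x => x.1 + x.2 < M), f x.1 x.2 := by
    rw [Finset.sum_filter]
    apply Finset.sum_congr rfl
    intro x _
    split_ifs with h
    · rfl
    · exact hf _ _ (by omega)
  rw [h1]
  apply Finset.sum_bij' (fun x _ => (⟨x.1 + x.2, x.1⟩ : (_ : ℕ) × ℕ))
    (fun x _ => (⟨x.2, x.1 - x.2⟩ : (_ : ℕ) × ℕ))
  · rintro ⟨i, j⟩ h
    simp only [Finset.mem_filter, Finset.mem_sigma, Finset.mem_range] at h ⊢
    omega
  · rintro ⟨i, j⟩ h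
    simp only [Finset.mem_filter, Finset.mem_sigma, Finset.mem_range] at h ⊢
    omega
  · rintro ⟨i, j⟩ h
    simp only [Finset.mem_filter, Finset.mem_sigma, Finset.mem_range] at h ⊢
    simp
  · rintro ⟨i, j⟩ h
    simp only [Finset.mem_sigma, Finset.mem_range] at h ⊢
    simp; omega
  · rintro ⟨i, j⟩ h
    simp

/-- `Y β(W) = ∑ b^k ⧢ W`. -/
theorem linw_Ym_bet {M : ℕ} {g : Fn} (hg : ∀ l, M ≤ l.length → g l = 0) (W : List (Fin 2)) :
    linw g (Ym M * bet M (wd W)) = ∑ k ∈ Finset.range M, sh g (List.replicate k 1) W := by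
  induction W generalizing g with
  | nil =>
    rw [wd_nil, map_one, linw_Ym_mul, ← wd_nil, linw_wd]
    simp [Yq]
  | cons x W ih =>
    have hx : bet M (wd [x]) = wd [x] * Ym M := by
      fin_cases x
      · exact bet_xa M
      · exact bet_xb M
    rw [wd_cons, map_mul (bet M), hx, linw_Ym_mul, mul_assoc, linw_wd_mul]
    have e : (fun t => Yq M g ([x] ++ t)) =
        fun t => ∑ i ∈ Finset.range M, g (List.replicate i 1 ++ x :: t) := rfl
    rw [e, linw_sum_fun]
    have h1 : ∀ i, linw (fun t => g (List.replicate i 1 ++ x :: t)) (Ym M * bet M (wd W)) =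
        ∑ j ∈ Finset.range M,
          sh (fun t => g (List.replicate i 1 ++ x :: t)) (List.replicate j 1) W := by
      intro i
      apply ih
      intro l hl
      apply hg
      rw [List.length_append, List.length_cons]; omega
    rw [Finset.sum_congr rfl (fun i _ => h1 i)]
    rw [Finset.sum_congr rfl (fun k _ => sh_rep_cons g k x W)]
    symm
    apply sum_tri M (fun i j =>
      sh (fun t => g (List.replicate i 1 ++ x :: t)) (List.replicate j 1) W)
    intro i j hij
    apply sh_zero_of_length (M := M - i - 1)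
    · intro l hl
      apply hg
      rw [List.length_append, List.length_cons, List.length_replicate]; omega
    · rw [List.length_replicate]; omega

end

end Pool.Agent.ECK
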