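import Pool.Agent.ECK.Theta
import Pool.Agent.ECK.Uni
import Pool.Agent.ECK.Nee
import Pool.Agent.ECK.Closed
import Pool.Agent.ECK.Bridge
import Pool.Agent.ECK.Spec
import Pool.Agent.ECK.Phi

/-!
# The top `s`-degree part
-/

set_option autoImplicit false

namespace Pool.Agent.ECK

open Pool.Agent.ECB Pool.Agent.H4DM
open Pool.Agent.ECU (T L)

attribute [local instance] LieRing.ofAssociativeRing

noncomputable section

variable {w : ℕ} {c : Fn}

/-! ### Rotation of `bt` -/

theorem bt_nil0 (M : ℕ) (g : Fn) : bt M [] g = g [] := rfl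
theorem bt_cons0 (M : ℕ) (V : List (Fin 2)) (g : Fn) : bt M (0 :: V) g = bt M V (dq 0 g) := rfl
theorem bt_cons1 (M : ℕ) (V : List (Fin 2)) (g : Fn) :
    bt M (1 :: V) g = bt M V (Yq M (dq 1 g)) := rfl

theorem bt_append_zero (M : ℕ) (V : List (Fin 2)) (g : Fn) :
    bt M (V ++ [0]) g = bt M V (fun t => g (t ++ [0])) := by
  induction V generalizing g with
  | nil => rfl
  | cons a V ih =>
    rw [List.cons_append]
    fin_cases a
    · show bt M (V ++ [0]) (dq 0 g) = bt M V (dq 0 (fun t => g (t ++ [0])))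
      rw [ih]; rfl
    · show bt M (V ++ [0]) (Yq M (dq 1 g)) = bt M V (Yq M (dq 1 (fun t => g (t ++ [0]))))
      rw [ih]
      congr 1
      funext t
      simp only [Yq, dq]
      apply Finset.sum_congr rfl
      intro k _
      rw [← List.append_assoc, List.cons_append]

theorem bt_append_one (M : ℕ) (V : List (Fin 2)) (g : Fn) :
    bt M (V ++ [1]) g =
      bt M V (fun t => ∑ k ∈ Finset.range M, g (t ++ (1 :: List.replicate k 1))) := by
  induction V generalizing g with
  | nil =>
    show (Yq M (dq 1 g)) [] = _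
    simp only [Yq, dq, List.append_nil, bt_nil0, List.nil_append]
  | cons a V ih =>
    rw [List.cons_append]
    fin_cases a
    · show bt M (V ++ [1]) (dq 0 g) = bt M V (dq 0 _)
      rw [ih]; rfl
    · show bt M (V ++ [1]) (Yq M (dq 1 g)) = bt M V (Yq M (dq 1 _))
      rw [ih]
      congr 1
      funext t
      simp only [Yq, dq]
      rw [Finset.sum_comm]
      apply Finset.sum_congr rfl
      intro k _
      apply Finset.sum_congr rfl
      intro j _
      rw [← List.append_assoc, List.cons_append]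

/-- Cyclic functions. -/
def Cyc (g : Fn) : Prop := ∀ u v, g (u ++ v) = g (v ++ u)

theorem bt_rot1 {g : Fn} (hg : Cyc g) (M : ℕ) (a : Fin 2) (V : List (Fin 2)) :
    bt M (a :: V) g = bt M (V ++ [a]) g := by
  fin_cases a
  · show bt M V (dq 0 g) = bt M (V ++ [0]) g
    rw [bt_append_zero]
    congr 1
    funext t
    exact hg [0] t
  · show bt M V (Yq M (dq 1 g)) = bt M (V ++ [1]) g
    rw [bt_append_one]
    congr 1
    funext t
    simp only [Yq, dq]
    apply Finset.sum_congr rfl
    intro k _
    exact hg (1 :: List.replicate k 1) t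

theorem bt_rot {g : Fn} (hg : Cyc g) (M : ℕ) (U V : List (Fin 2)) :
    bt M (U ++ V) g = bt M (V ++ U) g := by
  induction U generalizing V with
  | nil => simp
  | cons a U ih =>
    rw [List.cons_append, bt_rot1 hg, List.append_assoc, ih (V ++ [a]), List.append_assoc]
    rfl

/-! ### Components -/

theorem pj_l0_mul (v : Fin 2 → ℕ) (a : Fin 2) (ha : v a = 0) (k : ℕ) (p : A2) :
    pj v k (wd [a] * p) = wd [a] * pj v k p := by
  have : (pj v k) ∘ₗ (LinearMap.mulLeft F (wd [a] : A2)) =
      (LinearMap.mulLeft F (wd [a] : A2)) ∘ₗ (pj v k) := by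
    apply lin_ext
    intro l
    simp only [LinearMap.comp_apply, LinearMap.mulLeft_apply]
    rw [← wd_cons, pj_wd, pj_wd, wgt_cons, ha, zero_add]
    split_ifs
    · rw [← wd_cons]
    · rw [mul_zero]
  exact LinearMap.congr_fun this p

theorem pj_mul_l0 (v : Fin 2 → ℕ) (a : Fin 2) (ha : v a = 0) (k : ℕ) (p : A2) :
    pj v k (p * wd [a]) = pj v k p * wd [a] := by
  have : (pj v k) ∘ₗ (LinearMap.mulRight F (wd [a] : A2)) =
      (LinearMap.mulRight F (wd [a] : A2)) ∘ₗ (pj v k) := by
    apply lin_ext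
    intro l
    simp only [LinearMap.comp_apply, LinearMap.mulRight_apply]
    rw [← wd_append, pj_wd, pj_wd, wgt_append]
    have : wgt v [a] = 0 := by simp [ha]
    rw [this, add_zero]
    split_ifs
    · rw [← wd_append]
    · rw [zero_mul]
  exact LinearMap.congr_fun this p

theorem pj_ad (k : ℕ) (p : A2) : pj vs k (xa * p + p * xa) = xa * pj vs k p + pj vs k p * xa := by
  rw [map_add, xa, pj_l0_mul vs 0 rfl, pj_mul_l0 vs 0 rfl]

theorem coord_word (v : List ℕ) (hv : v ≠ []) : ∃ X : List (Fin 2), ec v = 1 :: X ++ [0] ∧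
    cy v = X ++ [0, 1] ∧ nbb (1 :: X) ∧ (1 :: X).count 1 = v.length := by
  induction v with
  | nil => exact absurd rfl hv
  | cons k v ih =>
    rcases v with _ | ⟨j, v⟩
    · refine ⟨List.replicate k 0, ?_, ?_, ?_, ?_⟩
      · simp [ec, List.replicate_succ']
      · simp [cy, List.replicate_succ']
      · rw [nbb]
        rcases k with _ | k
        · simp
        · rw [List.replicate_succ, List.isChain_cons_cons]
          refine ⟨Or.inr rfl, ?_⟩
          have : ∀ m : ℕ, List.IsChain (fun a b : Fin 2 => a = 0 ∨ b = 0)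
              (0 :: List.replicate m 0) := by
            intro m
            induction m with
            | zero => simp
            | succ m ihm =>
              rw [List.replicate_succ, List.isChain_cons_cons]
              exact ⟨Or.inl rfl, ihm⟩
          exact this k
      · simp [List.count_replicate]
    · obtain ⟨X, h1, h2, h3, h4⟩ := ih (by simp)
      refine ⟨List.replicate (k + 1) 0 ++ 1 :: X, ?_, ?_, ?_, ?_⟩
      · show 1 :: List.replicate (k + 1) 0 ++ ec (j :: v) = _
        rw [h1]; simp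
      · show List.replicate (k + 1) 0 ++ 1 :: cy (j :: v) = _
        rw [h2]; simp
      · have : ∀ m : ℕ, List.IsChain (fun a b : Fin 2 => a = 0 ∨ b = 0)
              (List.replicate m 0 ++ 1 :: X) ∧ List.IsChain (fun a b : Fin 2 => a = 0 ∨ b = 0)
              (0 :: (List.replicate m 0 ++ 1 :: X)) := by
          intro m
          induction m with
          | zero =>
            refine ⟨h3, ?_⟩
            rw [List.replicate_zero, List.nil_append, List.isChain_cons_cons]
            exact ⟨Or.inl rfl, h3⟩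
          | succ m ihm =>
            rw [List.replicate_succ, List.cons_append]
            refine ⟨ihm.2, ?_⟩
            rw [List.isChain_cons_cons]
            exact ⟨Or.inl rfl, ihm.2⟩
        rw [nbb, List.replicate_succ, List.cons_append, List.isChain_cons_cons]
        exact ⟨Or.inr rfl, (this k).2⟩
      · rw [List.length_cons, ← h4]
        simp [List.count_cons, List.count_append, List.count_replicate]

theorem cf_Ta (hc : c ∈ redM w 2) (l : List (Fin 2)) : cf (Ta w c) l = Nf c (0 :: l) := by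
  rw [Ta, cf_mk]
  split_ifs with h
  · rfl
  · rw [Nf_length hc]
    simpa using h

theorem cf_Tb (hc : c ∈ redM w 2) (l : List (Fin 2)) : cf (Tb w c) l = Nf c (1 :: l) := by
  rw [Tb, cf_mk]
  split_ifs with h
  · rfl
  · rw [Nf_length hc]
    simpa using h

theorem cf_Ta_length (hc : c ∈ redM w 2) (l : List (Fin 2)) (hl : w < l.length) :
    cf (Ta w c) l = 0 := by
  rw [Ta, cf_mk, if_neg (by omega)]

theorem cf_Tb_length (hc : c ∈ redM w 2) (l : List (Fin 2)) (hl : w < l.length) :
    cf (Tb w c) l = 0 := by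
  rw [Tb, cf_mk, if_neg (by omega)]

theorem Nf_Cyc (hc : c ∈ redM w 2) (hw : 2 ≤ w) : Cyc (Nf c) := fun u v => Nf_cyc hc hw u v

theorem top (hc : c ∈ redM w 2) (hw : 2 ≤ w) {pa pb : A2} (ha : Uni (Ta w c) pa)
    (hb : Uni (Tb w c) pb) (K : ℕ) (hK1 : 1 ≤ K) (hK : ∀ k, K < k → pj vs k pa = 0) :
    ∃ P1 : T F, (∀ v, P1 v = if v.length = K then bt (w + 2) (cy v) (Nf c) else 0) ∧
      xa * pj vs K pa + pj vs K pa * xa = evT cB P1 := by
  classical
  obtain ⟨-, hz⟩ := uni_SP ha hb (SP hc hw)
  have h1 : pj vs (K + 1) (xa * pa + pa * xa) = 0 := by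
    rw [pj_ad, hK (K + 1) (by omega)]; simp
  have h2 := pj_d1 K (xa * pa + pa * xa)
  rw [hz, h1, smul_zero, add_zero, pj_ad] at h2
  obtain ⟨P, hP⟩ := ker_d0 h2.symm
  have hfil : P.filter (fun v => v.length = K) = P := by
    apply evT_cB_injective
    rw [← pj_evT_cB, ← hP, pj_ad, pj_pj, if_pos rfl]
  refine ⟨P, ?_, hP⟩
  intro v
  split_ifs with hv
  · have hv0 : v ≠ [] := by
      rintro rfl
      simp only [List.length_nil] at hv
      omega
    obtain ⟨X, e1, e2, e3, e4⟩ := coord_word v hv0
    have hio : io xa = xa := by rw [io, xa, lf_letter]; rfl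
    rw [← coord P v, ← hP, map_add, map_mul, map_mul, hio, e1, cf_add]
    have e5 : cf (xa * io (pj vs K pa)) (1 :: X ++ [0]) = 0 := by
      rw [List.cons_append, xa, cf_letter_mul_cons, if_neg (by decide)]
    have e6 : cf (io (pj vs K pa) * xa) (1 :: X ++ [0]) = cf (io (pj vs K pa)) (1 :: X) := by
      rw [xa, cf_mul_letter_append, if_pos rfl]
    rw [e5, e6, zero_add, ← nf_io_top hK e3 (by rw [e4, hv]), ← uni_nf ha,
      cf_nf (M := w + 2) (fun l hl => cf_Ta_length hc l (by omega)) e3]
    have e7 : (cf (Ta w c)) = dq 0 (Nf c) := by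
      funext l; exact cf_Ta hc l
    rw [e7, ← bt_cons0, e2, show (0 : Fin 2) :: 1 :: X = [0, 1] ++ X from rfl,
      bt_rot (Nf_Cyc hc hw)]
  · rw [← hfil, Finsupp.filter_apply, if_neg hv]

/-- the phi relation -/
theorem phiP (hc : c ∈ redM w 2) (hw : 2 ≤ w) (v : List ℕ) (hv : v ≠ []) :
    sumS v (fun u => bt (w + 2) (cy u) (Nf c)) = Nf c (cy v) +
      (if (cy v).length ≤ w then (w.choose ((cy v).length - 1) : F) * cdep w c else 0) := by
  rw [← th_cy]
  obtain ⟨k, v, rfl⟩ := List.exists_cons_of_ne_nil hv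
  apply Etheta hc hw
  · simp [cy, List.replicate_succ]
  · simp [cy]

end

end Pool.Agent.ECK
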